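import Pool.Agent.Lib.MP_8865d3_nt.Sv.Sum

/-! Sizes of values of forms. -/

namespace Pool.Agent.Lib.MP_8865d3_nt.Sv

open MvPolynomial Height Filter Finset Pool.Agent.Lib.MP_651af7_nt.Av
open Pool.Agent.Lib.MP_651af7_nt.Vj

section alg

variable {K R σ τ : Type} [Field K] [CommRing R] [Algebra K R]

theorem aeval_mul_of_xw {s : ℕ} {P : MvPolynomial (σ ⊕ Fin s) K} {d : ℕ}
    (hP : P.IsWeightedHomogeneous (xw σ s) d) (c : R) (v : σ → R) (w : Fin s → R) :
    aeval (Sum.elim (fun a => c * v a) w) P = c ^ d * aeval (Sum.elim v w) P := by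
  rw [aeval_def, aeval_def, eval₂_eq, eval₂_eq, mul_sum]
  refine sum_congr rfl fun m hm => ?_
  have h := hP (mem_support_iff.mp hm)
  rw [Finsupp.weight_apply, Finsupp.sum] at h
  have h1 : ∀ i, Sum.elim (fun a => c * v a) w i ^ m i =
      c ^ (m i • xw σ s i) * Sum.elim v w i ^ m i := by
    rintro (a | b) <;> simp [xw, mul_pow]
  simp only [h1, prod_mul_distrib, prod_pow_eq_pow_sum, h]
  ring

theorem aeval_zero_of_mem {I : Ideal (MvPolynomial σ K)} {w : σ → R} (hw : ∀ f ∈ I, aeval w f = 0)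
    (z : τ → R) {f : MvPolynomial (σ ⊕ τ) K} (hf : f ∈ I.map (rename Sum.inl)) :
    aeval (Sum.elim w z) f = 0 := by
  have h : I.map (rename Sum.inl) ≤
      RingHom.ker (aeval (Sum.elim w z) : MvPolynomial (σ ⊕ τ) K →ₐ[K] R) :=
    Ideal.map_le_iff_le_comap.2 fun g hg => by
      change aeval (Sum.elim w z) (rename Sum.inl g) = 0
      rw [aeval_rename]
      exact hw g hg
  exact h hf

theorem bih_le (v : AbsoluteValue K ℝ) {P : MvPolynomial (σ ⊕ τ) K} {d : ℕ × ℕ}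
    (hP : P.IsWeightedHomogeneous (bw σ τ) d) {x : σ → K} {y : τ → K} {X Y : ℝ} (hX : 0 ≤ X)
    (hY : 0 ≤ Y) (hx : ∀ a, v (x a) ≤ X) (hy : ∀ a, v (y a) ≤ Y) :
    v (eval (Sum.elim x y) P) ≤ pl v P * (X ^ d.1 * Y ^ d.2) := by
  have ht : ∀ c : σ ⊕ τ, 0 ≤ Sum.elim (fun _ => X) (fun _ => Y) c := by
    rintro (c | c)
    exacts [hX, hY]
  refine (eval₂_le_polN (absSN v) (t := Sum.elim (fun _ => X) fun _ => Y) (absSN v) (RingHom.id K)
    (fun _ => le_rfl) (by rintro (c | c); exacts [hx c, hy c]) P).trans (polN_le_mul (absSN v) ht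
      (by positivity) fun μ hμ => le_of_eq ?_)
  have h := hP (mem_support_iff.mp hμ)
  rw [Finsupp.weight_apply, Finsupp.sum] at h
  have h1 : ∀ i, Sum.elim (fun _ => X) (fun _ => Y) i ^ μ i =
      X ^ (μ i • bw σ τ i).1 * Y ^ (μ i • bw σ τ i).2 := by
    rintro (c | c) <;> simp [bw]
  simp only [wt, Finsupp.prod, h1, prod_mul_distrib, prod_pow_eq_pow_sum, ← Prod.fst_sum,
    ← Prod.snd_sum, h]

theorem xw_le (v : AbsoluteValue K ℝ) {s : ℕ} {P : MvPolynomial (σ ⊕ Fin s) K} {d : ℕ}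
    (hP : P.IsWeightedHomogeneous (xw σ s) d) {x : σ → K} {y : Fin s → K} {X Y : ℝ} (hX : 0 ≤ X)
    (hY : 1 ≤ Y) (hx : ∀ a, v (x a) ≤ X) (hy : ∀ a, v (y a) ≤ Y) :
    v (eval (Sum.elim x y) P) ≤ pl v P * (X ^ d * Y ^ P.totalDegree) := by
  have hY0 := zero_le_one.trans hY
  have ht : ∀ c : σ ⊕ Fin s, 0 ≤ Sum.elim (fun _ => X) (fun _ => Y) c := by
    rintro (c | c)
    exacts [hX, hY0]
  refine (eval₂_le_polN (absSN v) (t := Sum.elim (fun _ => X) fun _ => Y) (absSN v) (RingHom.id K)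
    (fun _ => le_rfl) (by rintro (c | c); exacts [hx c, hy c]) P).trans (polN_le_mul (absSN v) ht
      (by positivity) fun μ hμ => ?_)
  have h := hP (mem_support_iff.mp hμ)
  rw [Finsupp.weight_apply, Finsupp.sum] at h
  calc wt _ μ ≤ ∏ i ∈ μ.support, X ^ (μ i • xw σ s i) * Y ^ μ i := by
        refine prod_le_prod (fun i _ => pow_nonneg (ht i) _) ?_
        rintro (c | c) -
        · simpa [xw] using le_mul_of_one_le_right (pow_nonneg hX _) (one_le_pow₀ hY)
        · simp [xw]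
    _ ≤ _ := by
        rw [prod_mul_distrib, prod_pow_eq_pow_sum, prod_pow_eq_pow_sum, h]
        exact mul_le_mul_of_nonneg_left (pow_le_pow_right₀ hY (le_totalDegree hμ)) (by positivity)

theorem le_prod_max (v : AbsoluteValue K ℝ) [Fintype σ] (z : σ → K) (i : σ) :
    v (z i) ≤ ∏ i, max 1 (v (z i)) := by
  classical
  rw [← mul_prod_erase _ _ (mem_univ i)]
  exact (le_max_right 1 _).trans (le_mul_of_one_le_right (by positivity)
    (Finset.one_le_prod fun _ _ => le_max_left _ _))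

theorem zpow_le_exp (v : AbsoluteValue K ℝ) {s : ℕ} {z : Fin s → K} (hz : ∀ t, z t ≠ 0)
    {m : Fin s → ℤ} {C : ℝ} (hm : ∀ t, |(m t : ℝ)| ≤ C) :
    v (∏ t, z t ^ m t) ≤ Real.exp (C * ∑ t, |Real.log (v (z t))|) := by
  rw [map_prod, mul_sum, Real.exp_sum]
  refine prod_le_prod (fun _ _ => v.nonneg _) fun t _ => ?_
  rw [map_zpow₀, ← Real.log_le_iff_le_exp (zpow_pos (v.pos (hz t)) _), Real.log_zpow]
  refine (le_abs_self _).trans ?_
  rw [abs_mul]
  exact mul_le_mul_of_nonneg_right (hm t) (abs_nonneg _)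

end alg

variable {k : Type} [Field k] [NumberField k]

theorem exists_ad_fam {σ L : Type} [Fintype L] (P : L → MvPolynomial σ k) :
    ∃ c h, Ad c h ∧ ∀ v l, pl v (P l) ≤ c v := by
  classical
  choose c h hc hl using fun l => exists_ad_fixed (P l)
  refine ⟨_, _, ad_prod univ fun l _ => hc l, fun v l => (hl l v).trans ?_⟩
  rw [← mul_prod_erase univ _ (mem_univ l)]
  exact le_mul_of_one_le_right ((hc l).pos v).le (Finset.one_le_prod fun _ _ => (hc _).one v)

theorem exists_ad_lin {I L : Type} [Fintype I] [Fintype L] (M : I → L → k) :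
    ∃ c h, Ad c h ∧ ∀ v (z : L → k) (Z : ℝ), 0 ≤ Z → (∀ l, v (z l) ≤ Z) → ∀ i,
      v (∑ l, M i l * z l) ≤ c v * Z := by
  have h1 : (1 : ℝ) ≤ (Fintype.card L : ℝ) + 1 := by simp
  refine ⟨_, _, (ad_E h1).mul (ad_prod univ fun q : I × L => fun _ => ad_max (M q.1 q.2)),
    fun v z Z hZ hz i => ?_⟩
  have h2 : (0 : ℝ) ≤ ∏ q : I × L, max 1 (v (M q.1 q.2)) := by positivity
  rw [mul_assoc]
  refine ((absSN v).sum_le_card univ (mul_nonneg h2 hZ) fun l _ => ?_).trans
    (mul_le_mul_of_nonneg_right (E_mono (by simp)) (mul_nonneg h2 hZ))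
  exact (map_mul v _ _).le.trans (mul_le_mul
    (le_prod_max v (fun q : I × L => M q.1 q.2) (i, l)) (hz l) (v.nonneg _) h2)

theorem one_le_mlt {v : AbsoluteValue k ℝ} (hv : Adm v) : 1 ≤ mlt v := by
  classical
  have h0 : ∀ w : AbsoluteValue k ℝ, (0 : ℝ) ≤ if w ∈ ({v} : Finset _) then 1 else 0 := fun w => by
    split_ifs <;> norm_num
  have h1 : ∀ z ∈ AdmissibleAbsValues.archAbsVal.map fun w : AbsoluteValue k ℝ =>
      (if w ∈ ({v} : Finset _) then 1 else 0 : ℝ), 0 ≤ z := fun z hz => by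
    obtain ⟨w, -, rfl⟩ := Multiset.mem_map.1 hz
    exact h0 w
  have h2 : (1 : ℝ) = if v ∈ ({v} : Finset _) then 1 else 0 := (if_pos (mem_singleton_self v)).symm
  rw [mlt, isum, gsum]
  rcases hv with hv | hv
  · refine le_add_of_le_of_nonneg ?_ (finsum_nonneg fun w => by convert h0 w.val)
    convert h2.le.trans (Multiset.single_le_sum h1 _ (Multiset.mem_map_of_mem _ hv))
  · refine le_add_of_nonneg_of_le (by convert Multiset.sum_nonneg h1) ?_
    convert h2.le.trans (single_le_finsum (f := fun w : AdmissibleAbsValues.nonarchAbsVal (K := k) =>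
      (if w.val ∈ ({v} : Finset _) then 1 else 0 : ℝ)) ⟨v, hv⟩
      (show FinS fun w => (if w ∈ ({v} : Finset _) then 1 else 0 : ℝ) by
        convert finS_in {v} fun _ => 1) fun w => h0 w.val)

theorem single_le_osum {T : Finset (AbsoluteValue k ℝ)} {v : AbsoluteValue k ℝ} (hv : Adm v)
    (hT : v ∉ T) {f : AbsoluteValue k ℝ → ℝ} (hf : FinS f) (h0 : ∀ w, 0 ≤ f w) :
    f v ≤ osum T f := by
  classical
  have h1 := osum_erase (insert v T) (mem_insert_self v T) hf
  rw [erase_insert hT] at h1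
  have h2 := osum_nonneg (insert v T) (f := f) fun w _ _ => h0 w
  have h3 := mul_le_mul_of_nonneg_right (one_le_mlt hv) (h0 v)
  linarith

theorem ad_osum_le {c : AbsoluteValue k ℝ → ℝ} {h : ℝ} (hc : Ad c h)
    (T : Finset (AbsoluteValue k ℝ)) : osum T (fun v => Real.log (c v)) ≤ h :=
  (osum_le_gsum T hc.fin fun v _ => Real.log_nonneg (hc.one v)).trans hc.le

theorem ad_isum_le {c : AbsoluteValue k ℝ → ℝ} {h : ℝ} (hc : Ad c h)
    (T : Finset (AbsoluteValue k ℝ)) : isum T (fun v => Real.log (c v)) ≤ h :=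
  (isum_le_gsum T hc.fin fun v _ => Real.log_nonneg (hc.one v)).trans hc.le

/-- The inequality of Liouville. -/
theorem liouville {σ : Type} [Fintype σ] {s : ℕ} {P : MvPolynomial (σ ⊕ Fin s) k} {d : ℕ}
    (hP : P.IsWeightedHomogeneous (xw σ s) d) : ∃ C : ℝ, 0 ≤ C ∧ ∀ (x : σ → k) (u : Fin s → k),
      x ≠ 0 → eval (Sum.elim x u) P ≠ 0 → ∀ v, Adm v →
      d * Real.log (nm v x) - Real.log (v (eval (Sum.elim x u) P)) ≤
        C * (logHeight x + ∑ j, logHeight₁ (u j) + 1) := by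
  obtain ⟨c, h, hc, hl⟩ := exists_ad_fixed P
  have h0 := hc.nonneg
  refine ⟨h + d + P.totalDegree, by positivity, fun x u hx h1 v hv => ?_⟩
  have hA := hc.mul ((ad_prod univ fun j _ => ad_max (u j)).pow P.totalDegree)
  have hf := finS_sub (hA.fin.add ((finS_nm x).const_mul d)) (finS_log (eval (Sum.elim x u) P))
  have h2 := single_le_osum hv (notMem_empty v) hf fun w => by
    have h3 := (xw_le w hP (nm_nn w x) (Finset.one_le_prod fun _ _ => le_max_left _ _) (le_nm w x)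
      (le_prod_max w u)).trans (mul_le_mul_of_nonneg_right (hl w) (by
        have := nm_nn w x
        positivity))
    have h4 := Real.log_le_log (w.pos h1) h3
    rw [mul_left_comm, Real.log_mul (pow_pos (nm_pos w hx) d).ne' (hA.pos w).ne',
      Real.log_pow] at h4
    linarith
  have h3 := isum_add_osum ∅ hf
  rw [isum_eq_sum, sum_empty, gsum_sub (hA.fin.add ((finS_nm x).const_mul d)) (finS_log _),
    gsum_add hA.fin ((finS_nm x).const_mul d), gsum_log h1, gsum_const_mul (finS_nm x),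
    gsum_nm hx] at h3
  have h4 := hA.le
  have h5 := Real.log_nonneg (hA.one v)
  have h6 := logHeight_nonneg x
  have h7 : 0 ≤ ∑ j, logHeight₁ (u j) := sum_nonneg fun _ _ => zero_le_logHeight₁ _
  have h8 : (0 : ℝ) ≤ d := d.cast_nonneg
  have h9 : (0 : ℝ) ≤ P.totalDegree := Nat.cast_nonneg _
  nlinarith [mul_nonneg h0 h6, mul_nonneg h0 h7, mul_nonneg h8 h7, mul_nonneg h9 h6]

/-- Every large set is large for an ultrafilter along which `T` is constant and `D = o (H)`. -/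
def Fib {α β : Type} (U : Ultrafilter α) (T : α → β) (H D : α → ℝ) : Prop :=
  ∀ S ∈ U, ∃ (V : Ultrafilter α) (t : β), S ∈ V ∧ (∀ᶠ n in V, T n = t) ∧ Tendsto H V atTop ∧
    Lo V H D

variable {α β : Type} {U : Ultrafilter α} {T : α → β} {H H' D D' : α → ℝ}

theorem fib_const (t : β) (hH : Tendsto H U atTop) (h : Lo U H D) : Fib U (fun _ => t) H D :=
  fun _ hS => ⟨U, t, hS, .of_forall fun _ => rfl, hH, h⟩

theorem Fib.lo (h : Fib U T H D) : Lo U H D := fun ε hε => by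
  by_contra h1
  obtain ⟨V, -, h2, -, -, h3⟩ := h _ (Ultrafilter.eventually_not.2 h1)
  obtain ⟨n, h4, h5⟩ := ((h3 ε hε).and h2).exists
  exact h5 h4

theorem Fib.tendsto (h : Fib U T H D) : Tendsto H U atTop := tendsto_atTop.2 fun c => by
  by_contra h1
  obtain ⟨V, -, h2, -, h3, -⟩ := h _ (Ultrafilter.eventually_not.2 h1)
  obtain ⟨n, h4, h5⟩ := ((h3.eventually_ge_atTop c).and h2).exists
  exact h5 h4

theorem Fib.mono (h : Fib U T H D) {c : ℝ} (hc : 0 ≤ c) (h1 : ∀ n, D' n ≤ c * D n) :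
    Fib U T H D' := fun S hS => by
  obtain ⟨V, t, h2, h3, h4, h5⟩ := h S hS
  exact ⟨V, t, h2, h3, h4, (lo_mul_nonneg h4 h5 hc).mono (.of_forall h1)⟩

theorem Fib.of_bo (h : Fib U T H D) (h1 : Bo U H' H) (h0 : ∀ n, 0 ≤ H' n) : Fib U T H' D :=
  fun S hS => by
    obtain ⟨C, hC⟩ := h1
    obtain ⟨V, t, h2, h3, h4, h5⟩ := h _ (inter_mem hS hC)
    have h6 : Bo V H' H := ⟨C, mem_of_superset h2 Set.inter_subset_right⟩
    have h7 := tendsto_of_bo h4 h6 h0
    exact ⟨V, t, mem_of_superset h2 Set.inter_subset_left, h3, h7, lo_of_bo h7 h5 h6⟩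

end Pool.Agent.Lib.MP_8865d3_nt.Sv
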