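import Pool.Agent.Lib.MP_8865d3_nt.Sv.CodA

/-! Codimension two in the product. -/

namespace Pool.Agent.Lib.MP_8865d3_nt.Sv

open MvPolynomial Height Filter Pool.Agent.Lib.MP_651af7_nt.Av

set_option linter.unusedSectionVars false
set_option linter.unusedVariables false

variable {k ι K E : Type} [Field k] [CharZero k] [Fintype ι] [Field K] [Field E] [Algebra k K]
  [Algebra k E] [Algebra K E] [IsScalarTower k K E] {s : ℕ}

/-- A hypersurface section of the product has smaller dimension, and conversely. -/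
theorem td_prod_le (B : AV k ι) {w : ι → E} (hw : ∀ f ∈ B.I, aeval w f = 0) (z : Fin s → E) :
    td K (rat w ∪ Set.range z) ≤ (B.dim + s : ℕ) := by
  simpa only [Fintype.card_fin] using cod_le (K := K) B hw z

theorem gen_prod_iff (B : AV k ι) {w : ι → E} (h0 : w ≠ 0) (hw : ∀ f ∈ B.I, aeval w f = 0)
    (z : Fin s → E) : (∀ (f : MvPolynomial (ι ⊕ Fin s) K) (n : ℕ),
      f.IsWeightedHomogeneous (xw ι s) n → aeval (Sum.elim w z) f = 0 →
      f ∈ (B.IK K).map (rename Sum.inl)) ↔ td K (rat w ∪ Set.range z) = (B.dim + s : ℕ) := by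
  have h := cod_gen_iff (K := K) B h0 hw z
  rw [Fintype.card_fin] at h
  exact h

/-- A point of a subvariety of codimension two specialises from a point with two more degrees. -/
theorem cod_chain {τ M : Type} [Finite τ] [Field M] [Algebra k M] {I J : Ideal (MvPolynomial τ k)}
    (hc : 2 ≤ (J.map (Ideal.Quotient.mk I)).height) {w : τ → M} (hI : ∀ f ∈ I, aeval w f = 0)
    (hJ : ∀ f ∈ J, aeval w f = 0) : ∃ (M₀ : Type) (_ : Field M₀) (_ : Algebra k M₀) (y : τ → M₀),
      (∀ f ∈ I, aeval y f = 0) ∧ td k (Set.range w) + 1 + 1 ≤ td k (Set.range y) := by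
  let p : Ideal (MvPolynomial τ k) := RingHom.ker (aeval w : MvPolynomial τ k →ₐ[k] M)
  have hp : p.IsPrime := RingHom.ker_isPrime _
  have hIp : I ≤ p := hI
  have hGp : J ≤ p := hJ
  have hp' : (p.map (Ideal.Quotient.mk I)).IsPrime :=
    Ideal.map_isPrime_of_surjective Ideal.Quotient.mk_surjective (by rwa [Ideal.mk_ker])
  have h3 : ¬ (p.map (Ideal.Quotient.mk I)).height ≤ (1 : ℕ) := fun h =>
    absurd ((hc.trans (Ideal.height_mono (Ideal.map_mono hGp))).trans h) (by norm_num)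
  rw [Ideal.height_le_iff] at h3
  push Not at h3
  obtain ⟨q₁, hq₁, l₁, h3⟩ := h3
  have h4 : ¬ q₁.height ≤ (0 : ℕ) := fun h => absurd (h3.trans h) (by norm_num)
  rw [Ideal.height_le_iff] at h4
  push Not at h4
  obtain ⟨q₀, hq₀, l₀, -⟩ := h4
  obtain ⟨M₁, _, _, y₁, hy₁, -⟩ := tr_point (q₁.comap (Ideal.Quotient.mk I))
  obtain ⟨M₂, _, _, y₀, hy₀, -⟩ := tr_point (q₀.comap (Ideal.Quotient.mk I))
  have e₁ : td k (Set.range y₁) < td k (Set.range y₀) := lt_of_not_ge fun h => by
    refine l₀.not_ge fun g hg => ?_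
    obtain ⟨f, rfl⟩ := Ideal.Quotient.mk_surjective g
    exact (hy₀ f).1 ((td_le_of_spec fun f hf => (hy₁ f).2 (l₀.le ((hy₀ f).1 hf))).2 h f
      ((hy₁ f).2 hg))
  have e₂ : td k (Set.range w) < td k (Set.range y₁) := lt_of_not_ge fun h => by
    refine l₁.not_ge (Ideal.map_le_iff_le_comap.2 fun f hf => ?_)
    refine (hy₁ f).1 ((td_le_of_spec fun f hf => ?_).2 h f hf)
    have h5 := Ideal.comap_mono (f := Ideal.Quotient.mk I) l₁.le ((hy₁ f).1 hf)
    rwa [Ideal.comap_map_of_surjective _ Ideal.Quotient.mk_surjective, ← RingHom.ker_eq_comap_bot,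
      Ideal.mk_ker, sup_eq_left.2 hIp] at h5
  refine ⟨M₂, _, _, y₀, fun f hf => (hy₀ f).2 ?_,
    (add_le_add (Order.add_one_le_of_lt e₂) le_rfl).trans (Order.add_one_le_of_lt e₁)⟩
  rw [Ideal.mem_comap, Ideal.Quotient.eq_zero_iff_mem.2 hf]
  exact zero_mem _

/-- Sketch.  As `AV.td_of_height`, with the point `(t * w, t' * (1, z))` of the double cone. -/
theorem cod2_of_height (A : AV k ι) {J : Type} (Γ : J → MvPolynomial (ι ⊕ Fin (s + 1)) k)
    {d : ℕ × ℕ} (hΓ : ∀ j, (Γ j).IsWeightedHomogeneous (bw ι (Fin (s + 1))) d)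
    (hc : 2 ≤ ((Ideal.span (Set.range Γ)).map
      (Ideal.Quotient.mk (A.I.map (rename (Sum.inl : ι → ι ⊕ Fin (s + 1)))))).height) :
    Cod2 A.I (fun j => aeval (Sum.elim (fun a => X (.inl a)) (Fin.cons 1 fun t => X (.inr t)) :
      ι ⊕ Fin (s + 1) → MvPolynomial (ι ⊕ Fin s) k) (Γ j)) (A.dim + s) := by
  intro F _ _ w z h0 hw hz hΓ0
  obtain ⟨b, hb⟩ := Function.ne_iff.1 h0
  have hb' : w b ≠ 0 := hb
  obtain ⟨M, _, _, T, hT⟩ := cod_free F (Fin 2)
  let _ : Algebra k M := ((algebraMap F M).comp (algebraMap k F)).toAlgebra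
  have : IsScalarTower k F M := .of_algebraMap_eq fun _ => rfl
  have hT0 : ∀ i, T i ≠ 0 := fun i h => hT.transcendental i (h ▸ isAlgebraic_zero)
  let v : ι → M := fun a => algebraMap F M (w a)
  let v' : Fin (s + 1) → M := fun t => algebraMap F M ((Fin.cons 1 z : Fin (s + 1) → F) t)
  let c : M := T 0 * algebraMap F M (w b)⁻¹
  have hc0 : c ≠ 0 := mul_ne_zero (hT0 0) ((map_ne_zero _).2 (inv_ne_zero hb'))
  let w' : ι ⊕ Fin (s + 1) → M := Sum.elim (fun a => c * v a) fun t => T 1 * v' t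
  have h1 : td k (rat w ∪ Set.range z) + (2 : ℕ) ≤ td k (Set.range w') := by
    refine (cod_td_free hT _).trans (tr_td_le ?_)
    obtain ⟨L, hL, hS⟩ := tr_cl (K := k) (Set.range w')
    have e1 : T 1 ∈ L := by simpa [w', v'] using hS ⟨.inr 0, rfl⟩
    rw [← hL]
    rintro _ (⟨_, ⟨p, rfl⟩ | ⟨t, rfl⟩, rfl⟩ | ⟨i, rfl⟩)
    · have e2 : c * v p.1 / (c * v p.2) ∈ L := L.div_mem (hS ⟨.inl p.1, rfl⟩) (hS ⟨.inl p.2, rfl⟩)
      rwa [mul_div_mul_left _ _ hc0, ← map_div₀] at e2
    · have e2 : T 1 * v' t.succ / T 1 ∈ L := L.div_mem (hS ⟨.inr t.succ, rfl⟩) e1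
      rwa [mul_div_cancel_left₀ _ (hT0 1)] at e2
    · revert i
      refine Fin.forall_fin_two.2 ⟨?_, e1⟩
      have e2 : c * v b ∈ L := hS ⟨.inl b, rfl⟩
      rwa [mul_assoc, ← map_mul, inv_mul_cancel₀ hb', map_one, mul_one] at e2
  have h2 : ∀ f ∈ A.I.map (rename (Sum.inl : ι → ι ⊕ Fin (s + 1))), aeval w' f = 0 := by
    have e : A.I.map (rename (Sum.inl : ι → ι ⊕ Fin (s + 1))) ≤
        RingHom.ker (aeval w' : MvPolynomial (ι ⊕ Fin (s + 1)) k →ₐ[k] M) :=
      Ideal.map_le_iff_le_comap.2 fun f hf => by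
        rw [Ideal.mem_comap, RingHom.mem_ker, aeval_rename]
        exact zero_mul_of_hom A.hom (fun g hg =>
          (aeval_algebraMap_apply _ w g).trans (by rw [hw g hg, map_zero])) c f hf
    exact e
  have h3 : ∀ f ∈ Ideal.span (Set.range Γ), aeval w' f = 0 := by
    have e : Ideal.span (Set.range Γ) ≤
        RingHom.ker (aeval w' : MvPolynomial (ι ⊕ Fin (s + 1)) k →ₐ[k] M) := Ideal.span_le.2 (by
      rintro _ ⟨j, rfl⟩
      have e1 := congrArg (IsScalarTower.toAlgHom k F M) (hΓ0 j)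
      rw [map_zero, ← AlgHom.comp_apply, ← AlgHom.comp_apply, comp_aeval] at e1
      change aeval w' (Γ j) = 0
      rw [aeval_mul_of_bih (d := d.1) (e := d.2) (hΓ j), mul_eq_zero]
      refine .inr (Eq.trans ?_ e1)
      congr 2
      ext (a | t)
      · simp [v]
      · refine Fin.cases ?_ (fun t => ?_) t <;> simp [v'])
    exact e
  obtain ⟨M₀, _, _, y, hy, h4⟩ := cod_chain hc h2 h3
  have h5 : td k (Set.range y) ≤ (A.dim + s : ℕ) + (2 : ℕ) := by
    have e1 : Set.range y = Set.range (y ∘ Sum.inl) ∪ Set.range (y ∘ Sum.inr) := by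
      rw [← Set.Sum.elim_range, Sum.elim_comp_inl_inr]
    have e2 : td k (rat (y ∘ Sum.inl)) ≤ A.dim := A.td_le_dim fun f hf => by
      rw [← aeval_rename]
      exact hy _ (Ideal.mem_map_of_mem _ hf)
    rw [e1]
    refine (td_union_le _ _).trans ((add_le_add ((td_range_le _).trans (add_le_add e2 le_rfl))
      (cod_td_range _)).trans (le_of_eq ?_))
    rw [Fintype.card_fin]
    push_cast
    ring
  have h6 : td k (rat w ∪ Set.range z) + 2 + (2 : ℕ) ≤ (A.dim + s : ℕ) + (2 : ℕ) := by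
    refine le_trans (le_of_eq ?_) (((add_le_add (add_le_add h1 le_rfl) le_rfl).trans h4).trans h5)
    push_cast
    ring
  exact (ENat.add_le_add_iff_right (ENat.natCast_ne_top 2)).1 h6

theorem cod_zpow {F : Type} [Field F] {τ : Type} (S : Finset τ) {a : F} (ha : a ≠ 0) (n : τ → ℤ) :
    ∏ j ∈ S, a ^ n j = a ^ ∑ j ∈ S, n j := by
  classical
  induction S using Finset.induction_on with
  | empty => simp
  | insert j S hj ih => rw [Finset.prod_insert hj, Finset.sum_insert hj, zpow_add₀ ha, ih]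

/-- Sketch.  As `AV.codim`.  With `p = w + a`, `q j = c j * z ^ M j` we have `z t = q ^ N t`, and in
a join `x = p + (y - w)`, `u j = q j * (W / z) ^ M j`. -/
theorem cod_shift {A B : AV k ι} (h : Sub A B) (hE : RelCl K E) {x : A.Pt E} {u : Fin s → E}
    (hx : td k (rat x.co ∪ Set.range u) = (A.dim + s : ℕ)) {a : A.Pt K} {y : B.Pt E}
    (hy : h.inc E y = x - A.map (IsScalarTower.toAlgHom k K E) a) {s' : ℕ}
    {M : Fin s → Fin s' → ℤ} {N : Fin s' → Fin s → ℤ}
    (hNM : ∀ t t', ∑ j, N t j * M j t' = if t = t' then 1 else 0) {c : Fin s → K}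
    (hc0 : ∀ j, c j ≠ 0) (hc1 : ∀ t, ∏ j, c j ^ N t j = 1) {W : Fin s' → E} (hW : ∀ t, W t ≠ 0)
    (hu : ∀ j, u j = algebraMap K E (c j) * ∏ t, W t ^ M j t) {J : Type}
    {G : J → MvPolynomial (ι ⊕ Fin s) k} {d : ℕ}
    (hG : ∀ j, (G j).IsWeightedHomogeneous (xw ι s) d) (hc : Cod2 A.I G (A.dim + s))
    (F : Type) [Field F] [Algebra k F] [Algebra K F] [IsScalarTower k K F] (w : ι → F)
    (z : Fin s' → F) (h0 : w ≠ 0) (hw : ∀ f ∈ B.I, aeval w f = 0) (hz : ∀ t, z t ≠ 0)
    (hG0 : ∀ j b, aeval (Sum.elim (fun e => A.ph e b w fun e => algebraMap K F (a.co e))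
      fun j => algebraMap K F (c j) * ∏ t, z t ^ M j t) (G j) = 0) :
    td K (rat w ∪ Set.range z) + 2 ≤ (B.dim + s' : ℕ) := by
  have : CharZero K := charZero_of_injective_algebraMap (algebraMap k K).injective
  obtain ⟨V, hV⟩ := AV.exists_rep (A := B) (v := w)
    ((Function.ne_iff.1 h0).imp fun _ e => Ne.isUnit e) hw
  let aF := A.map (IsScalarTower.toAlgHom k K F) a
  let p := h.inc F V + aF
  let q : Fin s → F := fun j => algebraMap K F (c j) * ∏ t, z t ^ M j t
  have hq : ∀ j, q j ≠ 0 := fun j => mul_ne_zero ((map_ne_zero _).2 (hc0 j))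
    (Finset.prod_ne_zero_iff.2 fun t _ => zpow_ne_zero _ (hz t))
  have ha := (AV.rep_co a).map (IsScalarTower.toAlgHom k K F)
  -- the forms vanish at `(p, q)`
  have h1 : td k (rat p.co ∪ Set.range q) + 2 ≤ (A.dim + s : ℕ) := by
    obtain ⟨e, b, hb⟩ := AV.exists_unit_ph (h.rep_inc hV) ha
    have hp := AV.rep_add (h.rep_inc hV) ha hb
    rw [A.tr_rat_rep hp]
    exact hc F _ q (Function.ne_iff.2 ⟨e, hb.ne_zero⟩) hp.zero hq fun j => hG0 j b
  -- translation by a point over `K` keeps the degree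
  have h2 : td K (rat w ∪ Set.range z) ≤ td K (rat p.co ∪ Set.range q) := by
    have e : h.inc F V = p - aF := (add_sub_cancel_right _ _).symm
    obtain ⟨L, hL, hS⟩ := tr_cl (K := K) (rat p.co ∪ Set.range q)
    refine tr_td_le (Set.union_subset ?_ ?_)
    · rw [← A.tr_rat_rep (h.rep_inc hV), e]
      refine (A.rat_add_sub p aF).2.trans (Matroid.closure_subset_closure_of_subset_closure ?_)
      rw [← hL, A.tr_rat_rep ha]
      rintro _ (e1 | ⟨r, rfl⟩)
      · exact hS (.inl e1)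
      · exact L.div_mem (L.algebraMap_mem _) (L.algebraMap_mem _)
    · rintro _ ⟨t, rfl⟩
      have e1 : z t = ∏ j, q j ^ N t j := by
        simp only [q, mul_zpow, Finset.prod_mul_distrib, ← map_zpow₀, ← map_prod, hc1, map_one,
          one_mul, ← Finset.prod_zpow, ← zpow_mul]
        rw [Finset.prod_comm]
        simp only [cod_zpow _ (hz _), mul_comm (M _ _), hNM]
        rw [Finset.prod_eq_single t (fun t' _ ht => by rw [if_neg ht.symm, zpow_zero]) (by simp),
          if_pos rfl, zpow_one]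
      rw [← hL, e1]
      exact prod_mem fun j _ => zpow_mem (hS (.inr ⟨j, rfl⟩)) _
  obtain ⟨Ω, _, _, i, i', hi⟩ := exists_join hE F
  let _ : Algebra k Ω := ((algebraMap K Ω).comp (algebraMap k K)).toAlgebra
  have : IsScalarTower k K Ω := .of_algebraMap_eq fun _ => rfl
  let _ : Algebra E Ω := i.toRingHom.toAlgebra
  have : IsScalarTower K E Ω := .of_algebraMap_eq fun c => (i.commutes c).symm
  have : IsScalarTower k E Ω := .of_algebraMap_eq fun c =>
    ((i.restrictScalars k).commutes c).symm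
  let x' := A.map (i.restrictScalars k) x
  let p' := A.map (i'.restrictScalars k) p
  let ζ := B.map (i.restrictScalars k) y - B.map (i'.restrictScalars k) V
  let r : Fin s' → Ω := fun t => i (W t) / i' (z t)
  have ex : rat x'.co = i '' rat x.co := AV.geo_rat_map _ _
  have ep : rat p'.co = i' '' rat p.co := AV.geo_rat_map _ _
  have ez : x' = p' + h.inc Ω ζ := by
    have e1 : x = h.inc E y + A.map (IsScalarTower.toAlgHom k K E) a := by
      rw [hy, sub_add_cancel]
    have e2 : A.map (i.restrictScalars k) (A.map (IsScalarTower.toAlgHom k K E) a) =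
        A.map (i'.restrictScalars k) aF := by
      rw [AV.map_map, AV.map_map]
      exact AV.map_congr (AV.rep_co a) fun c => (i.commutes _).trans (i'.commutes _).symm
    have e3 := h.inc_map (i.restrictScalars k) y
    have e4 := h.inc_map (i'.restrictScalars k) V
    change A.map (i.restrictScalars k) x = A.map (i'.restrictScalars k) (h.inc F V + aF) +
      h.inc Ω (B.map (i.restrictScalars k) y - B.map (i'.restrictScalars k) V)
    rw [map_sub, e3, e4, e1, map_add, map_add, e2]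
    change A.map (i.restrictScalars k) (h.inc E y) + _ =
      A.map (i'.restrictScalars k) (h.inc F V) + _ +
        (A.map (i.restrictScalars k) (h.inc E y) - A.map (i'.restrictScalars k) (h.inc F V))
    abel
  have eu : ∀ j, i (u j) = i' (q j) * ∏ t, r t ^ M j t := fun j => by
    simp only [hu, q, r, map_mul, map_prod, map_zpow₀, AlgHom.commutes]
    rw [mul_assoc, ← Finset.prod_mul_distrib]
    congr 1
    refine Finset.prod_congr rfl fun t _ => ?_
    rw [← mul_zpow, mul_div_cancel₀ _ ((map_ne_zero i').2 (hz t))]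
  have h4 : td k (rat (h.inc Ω ζ).co ∪ Set.range r) ≤ (B.dim + s' : ℕ) := by
    rw [A.tr_rat_rep (h.rep_inc (AV.rep_co ζ))]
    exact td_prod_le B (AV.rep_co ζ).zero r
  have h5 : td k (i '' (rat x.co ∪ Set.range u) ∪ i' '' (rat p.co ∪ Set.range q)) ≤
      td k (rat p.co ∪ Set.range q) + (B.dim + s' : ℕ) := by
    obtain ⟨L, hL, hS⟩ := tr_cl (K := k)
      (i' '' (rat p.co ∪ Set.range q) ∪ (rat (h.inc Ω ζ).co ∪ Set.range r))
    refine (tr_td_le (S := i' '' (rat p.co ∪ Set.range q) ∪ (rat (h.inc Ω ζ).co ∪ Set.range r))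
      (Set.union_subset ?_ ?_)).trans
      ((td_union_le _ _).trans (add_le_add (td_image (i'.restrictScalars k) _).le h4))
    · rw [Set.image_union]
      refine Set.union_subset ?_ ?_
      · rw [← ex, ez]
        refine (A.rat_add_sub _ _).1.trans (Matroid.closure_subset_closure _ ?_)
        rw [ep]
        exact Set.union_subset_union (Set.image_mono Set.subset_union_left) Set.subset_union_left
      · rintro _ ⟨_, ⟨j, rfl⟩, rfl⟩
        rw [← hL, eu]
        exact L.mul_mem (hS (.inl ⟨_, .inr ⟨j, rfl⟩, rfl⟩))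
          (prod_mem fun t _ => zpow_mem (hS (.inr (.inr ⟨t, rfl⟩))) _)
    · exact Set.subset_union_left.trans (Matroid.subset_closure _ _ (Set.subset_univ _))
  have h6 : (A.dim + s : ℕ) + td K (rat p.co ∪ Set.range q) ≤
      td k (i '' (rat x.co ∪ Set.range u) ∪ i' '' (rat p.co ∪ Set.range q)) := by
    refine le_trans (le_of_eq ?_) (td_add_le (M := E) ?_)
    · rw [td_join i' hi, ← hx]
      exact congrArg (· + _) (td_image (i.restrictScalars k) _).symm
    · rintro _ ⟨e, -, rfl⟩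
      exact ⟨e, rfl⟩
  have h7 : ((A.dim + s : ℕ) : ℕ∞) + (td K (rat w ∪ Set.range z) + 2) ≤
      (A.dim + s : ℕ) + (B.dim + s' : ℕ) :=
    calc ((A.dim + s : ℕ) : ℕ∞) + (td K (rat w ∪ Set.range z) + 2)
        = (A.dim + s : ℕ) + td K (rat w ∪ Set.range z) + 2 := by rw [add_assoc]
      _ ≤ (A.dim + s : ℕ) + td K (rat p.co ∪ Set.range q) + 2 := by gcongr
      _ ≤ td k (rat p.co ∪ Set.range q) + (B.dim + s' : ℕ) + 2 := add_le_add (h6.trans h5) le_rfl
      _ = td k (rat p.co ∪ Set.range q) + 2 + (B.dim + s' : ℕ) := add_right_comm _ _ _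
      _ ≤ _ := by gcongr
  exact (ENat.add_le_add_iff_left (ENat.natCast_ne_top _)).1 h7

end Pool.Agent.Lib.MP_8865d3_nt.Sv
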