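import Pool.Agent.Lib.MP_8865d3_nt.Sv.Sum

/-! Orders of bihomogeneous forms along monomial valuations. -/

namespace Pool.Agent.Lib.MP_8865d3_nt.Sv

open MvPolynomial Height Filter Pool.Agent.Lib.MP_651af7_nt.Av

variable {k ι L : Type} [Field k] {n : ℕ}

/-- A polynomial in two groups of variables as a polynomial in the second group. -/
noncomputable def cur {σ : Type} : MvPolynomial (ι ⊕ σ) k →ₐ[k] MvPolynomial σ (MvPolynomial ι k) :=
  aeval (Sum.elim (fun a => C (X a)) X)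

/-- The exponents that occur modulo `I`. -/
def spt (I : Ideal (MvPolynomial ι k)) (Γ : L → MvPolynomial (ι ⊕ Fin (n + 1)) k) :
    Set (Fin (n + 1) →₀ ℕ) := {μ | ∃ l, coeff μ (cur (Γ l)) ∉ I}

/-- The order for real weights. -/
noncomputable def ordR (I : Ideal (MvPolynomial ι k)) (Γ : L → MvPolynomial (ι ⊕ Fin (n + 1)) k)
    (lam : Fin (n + 1) → ℝ) : ℝ := sInf ((fun μ => ∑ j, μ j * lam j) '' spt I Γ)

/-- The local height of the family `Γ` of bidegree `d`. -/
noncomputable def mv (v : AbsoluteValue k ℝ) (d : ℕ × ℕ) (Γ : L → MvPolynomial (ι ⊕ Fin (n + 1)) k)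
    (x : ι → k) (y : Fin (n + 1) → k) : ℝ :=
  d.1 * Real.log (nm v x) + d.2 * Real.log (nm v y) -
    Real.log (nm v fun l => eval (Sum.elim x y) (Γ l))

/-- The family is generic in the product. -/
def GenF {α : Type} (U : Ultrafilter α) {A : AV k ι} {s : ℕ} (x : α → A.Pt k)
    (u : α → Fin s → k) : Prop :=
  ∀ (f : MvPolynomial (ι ⊕ Fin s) k) (m : ℕ), f.IsWeightedHomogeneous (xw ι s) m →
    (∀ᶠ l in U, eval (Sum.elim (x l).co (u l)) f = 0) → f ∈ A.I.map (rename Sum.inl)

end Pool.Agent.Lib.MP_8865d3_nt.Sv
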