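import Pool.Agent.Lib.MP_8865d3_nt.Sv.Sz
import Pool.Agent.Lib.MP_8865d3_nt.Sv.Ord

/-! From ultrafilters to inequalities; trivial bounds. -/

namespace Pool.Agent.Lib.MP_8865d3_nt.Sv

open MvPolynomial Height Filter Finset Pool.Agent.Lib.MP_651af7_nt.Av
open Pool.Agent.Lib.MP_651af7_nt.Vj

section ultra

variable {β τ σ : Type} {H : β → ℝ} {ε C₀ : ℝ}

theorem exists_ultra {p : β → Prop} {D f : β → ℝ} (hH : ∀ b, 0 ≤ H b) (hD : ∀ b, 0 ≤ D b)
    (hε : 0 ≤ ε) (hf : ∀ b, p b → f b ≤ C₀ * (H b + 1))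
    (h : ¬∃ c : ℕ, ∀ b, p b → f b ≤ ε * H b + c * D b + c) :
    ∃ U : Ultrafilter β, (∀ᶠ b in U, p b ∧ ε * H b < f b) ∧ Tendsto H U atTop ∧ Lo U H D := by
  simp only [not_exists, not_forall, not_le] at h
  choose b hb hb' using h
  have h0 : 0 < max C₀ 1 := by positivity
  have h1 : ∀ c : ℕ, c * D (b c) + c ≤ max C₀ 1 * (H (b c) + 1) := fun c => by
    have h2 := mul_le_mul_of_nonneg_right (le_max_left C₀ 1) (add_nonneg (hH (b c)) zero_le_one)
    linarith [hf _ (hb c), hb' c, mul_nonneg hε (hH (b c))]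
  have h2 : Tendsto (fun c : ℕ => (c : ℝ)) (hyperfilter ℕ) atTop :=
    tendsto_natCast_atTop_atTop.mono_left Nat.hyperfilter_le_atTop
  have h3 : Tendsto H ((hyperfilter ℕ).map b) atTop := by
    rw [Ultrafilter.coe_map, tendsto_map'_iff]
    refine tendsto_atTop_mono (fun c => ?_)
      (tendsto_atTop_add_const_right _ (-1) (h2.atTop_div_const h0))
    have h3 := mul_nonneg c.cast_nonneg (hD (b c))
    have h4 : (c : ℝ) / max C₀ 1 ≤ H (b c) + 1 := (div_le_iff₀' h0).2 (by linarith [h1 c])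
    change _ ≤ H (b c)
    linarith
  refine ⟨(hyperfilter ℕ).map b, ?_, h3, fun δ hδ => ?_⟩
  · rw [Ultrafilter.coe_map, eventually_map]
    refine .of_forall fun c => ⟨hb c, ?_⟩
    linarith [hb' c, mul_nonneg c.cast_nonneg (hD (b c)), c.cast_nonneg (α := ℝ)]
  · have h4 := h3.eventually_ge_atTop 1
    rw [Ultrafilter.coe_map, eventually_map] at h4 ⊢
    filter_upwards [h4, h2.eventually_ge_atTop (2 * max C₀ 1 / δ)] with c h5 h6
    rw [div_le_iff₀ hδ] at h6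
    refine le_of_mul_le_mul_left ?_ (mul_pos two_pos h0)
    have h7 := mul_le_mul_of_nonneg_right h6 (hD (b c))
    have h8 := mul_le_mul_of_nonneg_left (h1 c) hδ.le
    have h9 := mul_le_mul_of_nonneg_left h5 (mul_pos hδ h0).le
    have h10 := mul_nonneg hδ.le (c.cast_nonneg (α := ℝ))
    linarith

theorem bound_of_lo {p : β → Prop} {D f : β → ℝ} (hH : ∀ b, 0 ≤ H b) (hD : ∀ b, 0 ≤ D b)
    (hf : ∀ b, p b → f b ≤ C₀ * (H b + 1)) (h : ∀ U : Ultrafilter β, (∀ᶠ b in U, p b) →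
      Tendsto H U atTop → Lo U H D → Lo U H f) (hε : 0 < ε) :
    ∃ c : ℕ, ∀ b, p b → f b ≤ ε * H b + c * D b + c := by
  by_contra h1
  obtain ⟨U, h2, h3, h4⟩ := exists_ultra hH hD hε.le hf h1
  obtain ⟨b, h5, h6⟩ := (h2.and (h U (h2.mono fun _ h => h.1) h3 h4 ε hε)).exists
  exact h5.2.not_ge h6

theorem bound_of_fib [Nonempty τ] {p : τ → β → Prop}
    (hp : ∀ t t', ∃ t'', ∀ b, p t'' b → p t b ∧ p t' b) {D f : σ → β → ℝ} (hH : ∀ b, 0 ≤ H b)
    (hD : ∀ T b, 0 ≤ D T b) (hf : ∀ T b, f T b ≤ C₀ * (H b + 1))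
    (h : ∀ (U : Ultrafilter (τ × β)) (T : τ × β → σ), (∀ t, ∀ᶠ a : τ × β in U, p t a.2) →
      Fib U T (fun a => H a.2) (fun a => D (T a) a.2) →
      Lo U (fun a => H a.2) fun a => f (T a) a.2) (hε : 0 < ε) :
    ∃ t, ∀ T, ∃ c : ℕ, ∀ b, p t b → f T b ≤ ε * H b + c * D T b + c := by
  by_contra h1
  choose T hT using fun t => not_forall.1 (not_exists.1 h1 t)
  choose V h2 h3 h4 using fun t => exists_ultra hH (hD (T t)) hε.le (fun b _ => hf _ b) (hT t)
  have hdir : Directed (· ≥ ·) fun t => 𝓟 {t' | ∀ b, p t' b → p t b} := fun t t' => by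
    obtain ⟨t'', h5⟩ := hp t t'
    exact ⟨t'', principal_mono.2 fun _ hs b hb => (h5 b (hs b hb)).1,
      principal_mono.2 fun _ hs b hb => (h5 b (hs b hb)).2⟩
  have hne := iInf_neBot_of_directed hdir fun t => principal_neBot_iff.2 ⟨t, fun _ => id⟩
  have hW : ∀ t, ∀ᶠ t' in Ultrafilter.of (⨅ t, 𝓟 {t' | ∀ b, p t' b → p t b}),
      ∀ b, p t' b → p t b := fun t =>
    (Ultrafilter.of_le _).trans (iInf_le _ t) (mem_principal_self _)
  generalize Ultrafilter.of (⨅ t, 𝓟 {t' | ∀ b, p t' b → p t b}) = W at hW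
  have hU : ∀ q : τ × β → Prop, (∀ᶠ a in W.bind fun t => (V t).map (Prod.mk t), q a) ↔
      ∀ᶠ t in W, ∀ᶠ b in V t, q (t, b) := fun q => eventually_bind
  have h5 := h (W.bind fun t => (V t).map (Prod.mk t)) (fun a => T a.1)
    (fun t => (hU _).2 ((hW t).mono fun t' ht => (h2 t').mono fun b hb => ht b hb.1))
    (fun S hS => by
      obtain ⟨t, ht⟩ := ((hU (· ∈ S)).1 hS).exists
      exact ⟨(V t).map (Prod.mk t), T t, ht, (Eventually.of_forall (f := (V t : Filter β)) fun _ => rfl :),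
        h3 t, h4 t⟩) ε hε
  obtain ⟨t, ht⟩ := ((hU _).1 h5).exists
  obtain ⟨b, h6, h7⟩ := (ht.and (h2 t)).exists
  exact h7.2.not_ge h6

end ultra

variable {k ι L : Type} [Field k] [Fintype ι] [Fintype L] {n : ℕ} {d : ℕ × ℕ}
  {Γ : L → MvPolynomial (ι ⊕ Fin (n + 1)) k}

theorem mv_smul (hΓ : ∀ l, (Γ l).IsWeightedHomogeneous (bw ι (Fin (n + 1))) d)
    (v : AbsoluteValue k ℝ) {x : ι → k} {y : Fin (n + 1) → k} (hx : x ≠ 0) (hy : y ≠ 0)
    (h0 : (fun l => eval (Sum.elim x y) (Γ l)) ≠ 0) {s t : k} (hs : s ≠ 0) (ht : t ≠ 0) :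
    mv v d Γ (fun a => s * x a) (fun j => t * y j) = mv v d Γ x y := by
  have h1 : ∀ l, eval (Sum.elim (fun a => s * x a) fun j => t * y j) (Γ l) =
      s ^ d.1 * t ^ d.2 * eval (Sum.elim x y) (Γ l) := fun l => aeval_mul_of_bih (hΓ l) s t x y
  have h2 : ∀ {σ : Type} [Fintype σ] {c : k} {z : σ → k}, c ≠ 0 → z ≠ 0 →
      Real.log (nm v fun a => c * z a) = Real.log (v c) + Real.log (nm v z) := fun hc hz => by
    rw [← Real.log_mul (v.pos hc).ne' (nm_pos v hz).ne']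
    simp only [nm, map_mul, Real.mul_iSup_of_nonneg (v.nonneg _)]
  simp only [mv, h1]
  rw [h2 hs hx, h2 ht hy, h2 (mul_ne_zero (pow_ne_zero _ hs) (pow_ne_zero _ ht)) h0, map_mul,
    map_pow, map_pow, Real.log_mul (pow_pos (v.pos hs) _).ne' (pow_pos (v.pos ht) _).ne',
    Real.log_pow, Real.log_pow]
  ring

variable [NumberField k]

theorem finS_mv (x : ι → k) (y : Fin (n + 1) → k) : FinS fun v => mv v d Γ x y :=
  finS_sub (((finS_nm x).const_mul _).add ((finS_nm y).const_mul _)) (finS_nm _)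

theorem gsum_mv {x : ι → k} {y : Fin (n + 1) → k} (hx : x ≠ 0) (hy : y ≠ 0)
    (h0 : (fun l => eval (Sum.elim x y) (Γ l)) ≠ 0) : gsum (fun v => mv v d Γ x y) =
      d.1 * logHeight x + d.2 * logHeight y - logHeight fun l => eval (Sum.elim x y) (Γ l) := by
  simp only [mv]
  rw [gsum_sub (((finS_nm x).const_mul _).add ((finS_nm y).const_mul _)) (finS_nm _),
    gsum_add ((finS_nm x).const_mul _) ((finS_nm y).const_mul _), gsum_const_mul (finS_nm x),
    gsum_const_mul (finS_nm y), gsum_nm hx, gsum_nm hy, gsum_nm h0]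

/-- The trivial bounds. -/
theorem mv_bd (hΓ : ∀ l, (Γ l).IsWeightedHomogeneous (bw ι (Fin (n + 1))) d) :
    ∃ C : ℝ, 0 ≤ C ∧ ∀ (x : ι → k) (y : Fin (n + 1) → k), x ≠ 0 → y ≠ 0 →
      (fun l => eval (Sum.elim x y) (Γ l)) ≠ 0 → ∀ T : Finset (AbsoluteValue k ℝ),
      -C ≤ isum T (fun v => mv v d Γ x y) ∧ -C ≤ osum T (fun v => mv v d Γ x y) ∧
      isum T (fun v => mv v d Γ x y) ≤ C * (logHeight x + logHeight y + 1) ∧
      osum T (fun v => mv v d Γ x y) ≤ C * (logHeight x + logHeight y + 1) := by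
  obtain ⟨c, h, hc, hl⟩ := exists_ad_fam Γ
  have h0 := hc.nonneg
  have d1 : (0 : ℝ) ≤ d.1 := Nat.cast_nonneg _
  have d2 : (0 : ℝ) ≤ d.2 := Nat.cast_nonneg _
  refine ⟨h + d.1 + d.2, by positivity, fun x y hx hy h1 T => ?_⟩
  have h2 : ∀ v, 0 ≤ Real.log (c v) + mv v d Γ x y := fun v => by
    have p1 := pow_pos (nm_pos v hx) d.1
    have p2 := pow_pos (nm_pos v hy) d.2
    have p3 := hc.pos v
    have h3 : (nm v fun l => eval (Sum.elim x y) (Γ l)) ≤ c v * (nm v x ^ d.1 * nm v y ^ d.2) :=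
      Real.iSup_le (fun l => (bih_le v (hΓ l) (nm_nn v x) (nm_nn v y) (le_nm v x) (le_nm v y)).trans
        (mul_le_mul_of_nonneg_right (hl v l) (by positivity))) (by positivity)
    have h4 := Real.log_le_log (nm_pos v h1) h3
    rw [Real.log_mul p3.ne' (mul_pos p1 p2).ne', Real.log_mul p1.ne' p2.ne', Real.log_pow,
      Real.log_pow] at h4
    rw [mv]
    linarith
  have h3 := isum_nonneg T fun v _ _ => h2 v
  have h4 := osum_nonneg T fun v _ _ => h2 v
  rw [isum_add] at h3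
  rw [osum_add T hc.fin (finS_mv x y)] at h4
  have h5 := isum_add_osum T (finS_mv (d := d) (Γ := Γ) x y)
  rw [gsum_mv hx hy h1] at h5
  have h6 := ad_isum_le hc T
  have h7 := ad_osum_le hc T
  have h8 := logHeight_nonneg fun l => eval (Sum.elim x y) (Γ l)
  have h9 := logHeight_nonneg x
  have h10 := logHeight_nonneg y
  have h11 := mul_nonneg h0 (add_nonneg h9 h10)
  have h12 := mul_nonneg d1 h10
  have h13 := mul_nonneg d2 h9
  refine ⟨by linarith, by linarith, by linarith, by linarith⟩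

end Pool.Agent.Lib.MP_8865d3_nt.Sv
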