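import Pool.Agent.Lib.MP_8865d3_nt.Sv.Prod1

/-! Directions along an ultrafilter. -/

namespace Pool.Agent.Lib.MP_8865d3_nt.Sv

open MvPolynomial Height Filter Pool.Agent.Lib.MP_651af7_nt.Av
open Pool.Agent.Lib.MP_651af7_nt.Vj

theorem cone_lim {α V : Type} [NormedAddCommGroup V] [ProperSpace V] (U : Ultrafilter α)
    (p : α → V) {M δ : ℝ} (h : ∀ᶠ n in U, ‖p n‖ ≤ M) (hδ : 0 < δ) :
    ∃ S ∈ U, ∀ n ∈ S, ∀ n' ∈ S, ‖p n' - p n‖ ≤ δ := by
  obtain ⟨l, -, hl⟩ := (isCompact_closedBall (0 : V) M).ultrafilter_le_nhds (U.map p)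
    (le_principal_iff.2 (by
      rw [Ultrafilter.coe_map, Filter.mem_map]
      exact h.mono fun n hn => mem_closedBall_zero_iff.2 hn))
  refine ⟨_, (Metric.tendsto_nhds.1 hl (δ / 2) (half_pos hδ)), fun n hn n' hn' => ?_⟩
  have h1 := dist_triangle_right (p n') (p n) l
  rw [dist_eq_norm] at h1
  have h2 : dist (p n) l < δ / 2 := hn
  have h3 : dist (p n') l < δ / 2 := hn'
  linarith

theorem cone_scale {V : Type} [NormedAddCommGroup V] [NormedSpace ℝ V] {c δ : ℝ} (hc : 0 < c)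
    {κ κ' : ℕ} (hk : κ ≤ κ') {a b : V} (h : ‖(c ^ κ')⁻¹ • a - (c ^ κ)⁻¹ • b‖ ≤ δ) :
    ‖a - c ^ (κ' - κ) • b‖ ≤ δ * c ^ κ' := by
  have h1 : a - c ^ (κ' - κ) • b = c ^ κ' • ((c ^ κ')⁻¹ • a - (c ^ κ)⁻¹ • b) := by
    rw [smul_sub, smul_smul, smul_smul, mul_inv_cancel₀ (by positivity), one_smul,
      pow_sub₀ _ hc.ne' hk]
  rw [h1, norm_smul, Real.norm_of_nonneg (by positivity), mul_comm]
  exact mul_le_mul_of_nonneg_right h (by positivity)

variable {α : Type} {U : Ultrafilter α} {k ι : Type} [Field k] [NumberField k] [Fintype ι] {s : ℕ}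
  {B : AV k ι} {G : GV k (SI ι s)}

theorem cone_mlt (v : AbsoluteValue k ℝ) (z : k) :
    |mlt v * Real.log (v z)| ≤ 2 * logHeight₁ z := by
  have h1 := isum_le_gsum {v} (finS_abs (finS_log z)) fun _ _ => abs_nonneg _
  rw [gsum_abs_log, isum_eq_sum, Finset.sum_singleton] at h1
  rwa [abs_mul, abs_of_nonneg (mlt_nonneg v)]

theorem cone_isum (T : Finset (AbsoluteValue k ℝ)) {u w : Fin s → k} (hw : ∀ t, w t ≠ 0) {c d : ℝ}
    (h : ∀ v ∈ T, ∀ t, |mlt v * Real.log (v (w t)) - c * (mlt v * Real.log (v (u t)))| ≤ d) :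
    isum T (fun v => ∑ t, max (Real.log (v (w t))) (c * Real.log (v (u t)))) ≤
      df T w + T.card * (s * d) := by
  have f1 : FinS fun v : AbsoluteValue k ℝ => ∑ t, Real.log (v (w t)) :=
    finS_sum Finset.univ fun t _ => finS_log _
  have h1 := isum_add_osum T f1
  rw [gsum_sum Finset.univ fun t _ => finS_log _] at h1
  simp only [gsum_log (hw _), Finset.sum_const_zero] at h1
  have h2 := osum_nonneg T (f := fun v => ∑ t, Real.log (v (w t)) + ∑ t, |Real.log (v (w t))|)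
    fun v _ _ => by
      rw [← Finset.sum_add_distrib]
      exact Finset.sum_nonneg fun t _ => by linarith [neg_abs_le (Real.log (v (w t)))]
  rw [osum_add T f1 (finS_df w)] at h2
  have h3 : isum T (fun v => ∑ t, max (Real.log (v (w t))) (c * Real.log (v (u t)))) ≤
      isum T (fun v => ∑ t, Real.log (v (w t))) + T.card * (s * d) := by
    rw [isum_eq_sum, isum_eq_sum, ← nsmul_eq_mul, ← Finset.sum_const, ← Finset.sum_add_distrib]
    refine Finset.sum_le_sum fun v hv => ?_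
    have h4 : (s : ℝ) * d = ∑ _t : Fin s, d := by simp
    rw [h4, Finset.mul_sum, Finset.mul_sum, ← Finset.sum_add_distrib]
    refine Finset.sum_le_sum fun t _ => ?_
    have h5 := abs_le.1 (h v hv t)
    rw [mul_max_of_nonneg _ _ (mlt_nonneg v)]
    exact max_le (by linarith) (by linarith)
  unfold df
  linarith

theorem IsProd.cone (h : IsProd B G) (T : Finset (AbsoluteValue k ℝ))
    (y : α → B.Pt k) (w : α → Fin s → k) (z : α → G.Pt k)
    (hz : ∀ n, GV.Rep (z n) (sgr (y n).co (w n)))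
    (hH : Tendsto (fun n => GV.ht (z n)) U atTop)
    (hdf : Lo U (fun n => GV.ht (z n)) fun n => df T (w n)) {θ : ℝ} (hθ : 0 < θ) :
    ∃ S ∈ U, ∀ n ∈ S, ∀ n' ∈ S, GV.ht (z n) ≤ GV.ht (z n') →
      ∃ j, Close T θ j (z n) (z n') (w n) (w n') := by
  obtain ⟨r, φ, C, H⟩ := B.exists_euclid
  have H' : ∀ P, |‖φ P‖ ^ 2 - AV.ht P| ≤ C := H
  have hr := fun n => h.ht_rep (AV.rep_co (y n)) (hz n)
  have hs0 : ∀ n, 0 ≤ ∑ t, logHeight₁ (w n t) := fun n =>
    Finset.sum_nonneg fun t _ => zero_le_logHeight₁ _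
  have hy : ∀ n, AV.ht (y n) ≤ GV.ht (z n) := fun n => by
    rw [(hr n).1, hp]
    linarith [hs0 n]
  have hw : ∀ n t, logHeight₁ (w n t) ≤ GV.ht (z n) := fun n t => by
    have := Finset.single_le_sum (f := fun t => logHeight₁ (w n t))
      (fun t _ => zero_le_logHeight₁ _) (Finset.mem_univ t)
    rw [(hr n).1, hp]
    linarith [AV.ht_nonneg (y n)]
  obtain ⟨δ, d0, d1, d2, d3⟩ : ∃ δ : ℝ, 0 < δ ∧ δ ≤ 1 / 2 ∧ 8 * δ ≤ θ ∧
      (T.card * s + 1) * δ ≤ θ := by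
    have h0 : (0 : ℝ) ≤ T.card * s := by positivity
    refine ⟨min (1 / 2) (θ / (T.card * s + 8)), by positivity, min_le_left _ _, ?_⟩
    have h1 := (le_div_iff₀ (by linarith)).1 (min_le_right (1 / 2) (θ / (T.card * s + 8)))
    have h2 : 0 ≤ min (1 / 2) (θ / (T.card * s + 8)) := by positivity
    have h3 := mul_nonneg h0 h2
    constructor <;> linarith
  obtain ⟨κ, hκ⟩ : ∃ κ : α → ℕ, ∀ n, κ n = Nat.log 4 ⌊GV.ht (z n)⌋₊ := ⟨_, fun _ => rfl⟩
  have k1 : ∀ n, 1 ≤ GV.ht (z n) → (4 : ℝ) ^ κ n ≤ GV.ht (z n) := fun n hn => by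
    refine le_trans ?_ (Nat.floor_le (by linarith))
    rw [hκ]
    exact_mod_cast Nat.pow_log_le_self 4 (Nat.floor_pos.2 hn).ne'
  have k2 : ∀ n, GV.ht (z n) ≤ 4 * 4 ^ κ n := fun n => by
    refine (Nat.lt_floor_add_one _).le.trans ?_
    rw [hκ, ← pow_succ']
    exact_mod_cast Nat.lt_pow_succ_log_self (b := 4) (by norm_num) _
  have e2 : ∀ j : ℕ, ((2 : ℝ) ^ j) ^ 2 = 4 ^ j := fun j => by
    rw [← pow_mul, mul_comm, pow_mul]
    norm_num
  have big := (hH.eventually_ge_atTop 1).and ((hH.const_mul_atTop d0).eventually_ge_atTop C)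
  obtain ⟨S, hS, hc⟩ := cone_lim U (M := 8) (fun n => (((2 : ℝ) ^ κ n)⁻¹ • φ (y n),
      (fun (v : T) t => ((4 : ℝ) ^ κ n)⁻¹ • (mlt v.1 * Real.log (v.1 (w n t)))),
      ((4 : ℝ) ^ κ n)⁻¹ • GV.ht (z n))) (big.mono fun n ⟨b1, b2⟩ => by
    have p4 : (0 : ℝ) < 4 ^ κ n := by positivity
    have p2 : (0 : ℝ) < 2 ^ κ n := by positivity
    have a0 := k2 n
    refine norm_prod_le_iff.2 ⟨?_, norm_prod_le_iff.2 ⟨(pi_norm_le_iff_of_nonneg (by norm_num)).2
      fun v => (pi_norm_le_iff_of_nonneg (by norm_num)).2 fun t => ?_, ?_⟩⟩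
    · rw [norm_smul, norm_inv, Real.norm_of_nonneg p2.le, inv_mul_le_iff₀ p2]
      refine (pow_le_pow_iff_left₀ (norm_nonneg _) (by positivity) two_ne_zero).1 ?_
      have a1 := (abs_le.1 (H' (y n))).2
      have a2 := mul_le_mul_of_nonneg_right d1 (zero_le_one.trans b1)
      rw [mul_pow, e2]
      linarith [hy n]
    · rw [norm_smul, norm_inv, Real.norm_of_nonneg p4.le, inv_mul_le_iff₀ p4, Real.norm_eq_abs]
      linarith [cone_mlt v.1 (w n t), hw n t]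
    · rw [norm_smul, norm_inv, Real.norm_of_nonneg p4.le, inv_mul_le_iff₀ p4,
        Real.norm_of_nonneg (GV.ht_nonneg _)]
      linarith) d0
  refine ⟨_, Filter.inter_mem hS (big.and (hdf δ d0)), ?_⟩
  rintro n ⟨s1, ⟨b1, b2⟩, -⟩ n' ⟨s1', ⟨b1', b2'⟩, b3⟩ hle
  have hk : κ n ≤ κ n' := by
    rw [hκ, hκ]
    exact Nat.log_mono_right (Nat.floor_mono hle)
  obtain ⟨c1, c2⟩ := norm_prod_le_iff.1 (hc n s1 n' s1')
  obtain ⟨c2, c3⟩ := norm_prod_le_iff.1 c2
  have c4 := cone_scale two_pos hk c1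
  have c5 := abs_le.1 (cone_scale (c := 4) (by norm_num) hk c3)
  have a1 := mul_le_mul_of_nonneg_left (k1 n' b1') d0.le
  have a2 := mul_le_mul_of_nonneg_right d1 (zero_le_one.trans b1')
  rw [smul_eq_mul] at c5
  refine ⟨κ n' - κ n, ?_, ?_, by linarith [c5.2], by linarith [c5.1]⟩
  · have e1 := h.ht_rep (AV.rep_co _) (h.rep_add (AV.rep_co (y n')) (AV.rep_co _) (AV.rep_co _)
      (hz n') (h.rep_ps (AV.rep_co (y n)) (κ n' - κ n) (AV.rep_co _) (hz n)))
    rw [e1.2.1, (hr n).2.1, (hr n').2.1]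
    have g1 := (abs_le.1 (H' (y n' + 2 ^ (κ n' - κ n) • y n))).2
    have g2 := (abs_le.1 (H' (y n'))).1
    have g3 := mul_le_mul_of_nonneg_left (abs_le.1 (H' (y n))).1
      (show (0 : ℝ) ≤ 4 ^ (κ n' - κ n) by positivity)
    have g4 := parallelogram_law_with_norm ℝ (φ (y n')) ((2 : ℝ) ^ (κ n' - κ n) • φ (y n))
    rw [map_add, map_nsmul, ← Nat.cast_smul_eq_nsmul ℝ, Nat.cast_pow, Nat.cast_ofNat] at g1
    have g5 := pow_le_pow_left₀ (norm_nonneg _) c4 2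
    rw [norm_smul, Real.norm_of_nonneg (by positivity), mul_pow, e2] at g4
    rw [mul_pow, e2] at g5
    have g6 := mul_le_mul_of_nonneg_left b2 (show (0 : ℝ) ≤ 4 ^ (κ n' - κ n) by positivity)
    have g7 := mul_le_mul_of_nonneg_left (show 4 ^ (κ n' - κ n) * GV.ht (z n) ≤ 2 * GV.ht (z n') by
      linarith [c5.1]) d0.le
    have g8 := mul_le_mul_of_nonneg_right d2 (zero_le_one.trans b1')
    have g9 := mul_le_mul (show δ ≤ 1 by linarith) a1 (by positivity) zero_le_one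
    linarith
  · refine (cone_isum T (hr n').2.2.1 (d := δ * GV.ht (z n')) fun v hv t => ?_).trans ?_
    · have c6 := (norm_le_pi_norm _ t).trans ((norm_le_pi_norm _ ⟨v, hv⟩).trans c2)
      exact (cone_scale (c := 4) (by norm_num) hk c6).trans a1
    · have g8 := mul_le_mul_of_nonneg_right d3 (zero_le_one.trans b1')
      linarith

end Pool.Agent.Lib.MP_8865d3_nt.Sv
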