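import Pool.Agent.Lib.MP_8865d3_nt.Sv.FinD

/-! The final statement. -/

namespace Pool.Agent.Lib.MP_8865d3_nt.Sv

open MvPolynomial Height Filter Finset NumberField Pool.Agent.Lib.MP_651af7_nt.Av Stm
open Pool.Agent.Lib.MP_651af7_nt.Vj

variable {k ι κ : Type} [Field k] {n : ℕ} {G : κ → MvPolynomial (ι ⊕ Fin (n + 1)) k} {d : ℕ × ℕ}

theorem eval_gr {δ : Type} (F : δ → MvPolynomial ((ι ⊕ Fin (n + 1)) ⊕ κ) k) (x : ι → k)
    (y : Fin (n + 1) → k) (l : δ) : eval (gr G x y) (F l) = eval (Sum.elim x y) (pb G F l) := by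
  rw [← aeval_eq_eval, ← aeval_eq_eval, pb, ← AlgHom.comp_apply, comp_aeval]
  congr 2
  funext a
  rcases a with a | a
  · simp [gr]
  · rfl

theorem pb_hom (hG : ∀ j, (G j).IsWeightedHomogeneous (bw ι (Fin (n + 1))) d) {δ : Type}
    {F : δ → MvPolynomial ((ι ⊕ Fin (n + 1)) ⊕ κ) k} {e : ℕ × ℕ × ℕ}
    (hF : ∀ l, (F l).IsWeightedHomogeneous (Stm.tw ι n κ) e) (l : δ) :
    (pb G F l).IsWeightedHomogeneous (bw ι (Fin (n + 1)))
      (e.1 + e.2.2 * d.1, e.2.1 + e.2.2 * d.2) := by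
  let f : ℕ × ℕ × ℕ →+ ℕ × ℕ :=
    { toFun := fun e => (e.1 + e.2.2 * d.1, e.2.1 + e.2.2 * d.2)
      map_zero' := by simp
      map_add' := fun a b => by simp only [Prod.fst_add, Prod.snd_add, Prod.mk_add_mk]; ring_nf }
  refine homog_aeval f ?_ (hF l)
  rintro ((i | i) | j)
  · simpa [f, Stm.tw, bw] using isWeightedHomogeneous_X k (bw ι (Fin (n + 1))) (Sum.inl i)
  · simpa [f, Stm.tw, bw] using isWeightedHomogeneous_X k (bw ι (Fin (n + 1))) (Sum.inr i)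
  · simpa [f, Stm.tw] using hG j

theorem locHt_eq (d : ℕ × ℕ) {δ : Type} (v : AbsoluteValue k ℝ) (e : ℕ × ℕ × ℕ)
    (F : δ → MvPolynomial ((ι ⊕ Fin (n + 1)) ⊕ κ) k) (x : ι → k) (y : Fin (n + 1) → k) :
    locHt v e F (gr G x y) = mv v (e.1 + e.2.2 * d.1, e.2.1 + e.2.2 * d.2) (pb G F) x y -
      e.2.2 * mv v d G x y := by
  simp only [locHt, mv, eval_gr, nm]
  simp only [gr, Sum.elim_inl, Sum.elim_inr]
  push_cast
  ring

variable [NumberField k] [Fintype ι] [Fintype κ]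

theorem glHt_eq (d : ℕ × ℕ) {δ : Type} [Fintype δ] (e : ℕ × ℕ × ℕ)
    (F : δ → MvPolynomial ((ι ⊕ Fin (n + 1)) ⊕ κ) k) {x : ι → k} {y : Fin (n + 1) → k}
    (hx : x ≠ 0) (hy : y ≠ 0) (h1 : (fun j => eval (Sum.elim x y) (G j)) ≠ 0)
    (h2 : (fun l => eval (Sum.elim x y) (pb G F l)) ≠ 0) :
    glHt e F (gr G x y) =
      gsum (fun v => mv v (e.1 + e.2.2 * d.1, e.2.1 + e.2.2 * d.2) (pb G F) x y) -
        e.2.2 * gsum fun v => mv v d G x y := by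
  rw [gsum_mv hx hy h1, gsum_mv hx hy h2]
  simp only [glHt, eval_gr]
  simp only [gr, Sum.elim_inl, Sum.elim_inr]
  push_cast
  ring

omit [Fintype ι] [Fintype κ] in
theorem cnt_eq (S : Finset (FinitePlace k)) {y : Fin (n + 1) → k} (hy : ∀ j, y j ≠ 0) :
    cnt S y = osum (plc S) fun v => bdy v y := by
  rw [osum_plc, cnt]
  refine finsum_mem_congr rfl fun w _ => ?_
  have h0 : ∀ j, 0 < w.1 (y j) := fun j => w.1.pos (hy j)
  have h1 := nm_pos w.1 (Function.ne_iff.2 ⟨0, hy 0⟩ : y ≠ 0)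
  change Real.log (nm w.1 y ^ (n + 1) / w.1 (∏ j, y j)) = _
  rw [map_prod, Real.log_div (pow_pos h1 _).ne' (prod_pos fun j _ => h0 j).ne', Real.log_pow,
    Real.log_prod fun j _ => (h0 j).ne', bdy, sum_sub_distrib]
  simp

theorem vojta (I₀ : Ideal (MvPolynomial ι k))
    (hI₀ : ∀ P ∈ I₀, ∀ d, homogeneousComponent d P ∈ I₀)
    (hp : (I₀.map (MvPolynomial.map (algebraMap k (AlgebraicClosure k)))).IsPrime)
    (A : Type) [AddCommGroup A] (co : A → ι → AlgebraicClosure k) (h0 : ∀ p, co p ≠ 0)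
    (hz : ∀ p, ∀ P ∈ I₀, aeval (co p) P = 0)
    (hs : ∀ v : ι → AlgebraicClosure k, v ≠ 0 → (∀ P ∈ I₀, aeval v P = 0) →
      ∃! p, ∃ c : AlgebraicClosure k, v = c • co p)
    (Φ : ι → ι → MvPolynomial (ι ⊕ ι) k)
    (hΦ : ∀ a b, (Φ a b).IsWeightedHomogeneous (bw ι ι) (2, 2))
    (law : ∀ p q, ∃ c : AlgebraicClosure k, c ≠ 0 ∧ ∀ a b,
      aeval (Sum.elim (co p) (co q)) (Φ a b) = c * (co (p + q) a * co (p - q) b))
    (hG : ∀ j, (G j).IsWeightedHomogeneous (bw ι (Fin (n + 1))) d)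
    {α β γ : Type} [Fintype α] [Fintype β] [Fintype γ]
    {F : α → MvPolynomial ((ι ⊕ Fin (n + 1)) ⊕ κ) k}
    {I : β → MvPolynomial ((ι ⊕ Fin (n + 1)) ⊕ κ) k}
    {J : γ → MvPolynomial ((ι ⊕ Fin (n + 1)) ⊕ κ) k} {eF eI eJ : ℕ × ℕ × ℕ}
    (hF : ∀ l, (F l).IsWeightedHomogeneous (Stm.tw ι n κ) eF)
    (hI : ∀ l, (I l).IsWeightedHomogeneous (Stm.tw ι n κ) eI)
    (hJ : ∀ l, (J l).IsWeightedHomogeneous (Stm.tw ι n κ) eJ)
    (hc : 2 ≤ ((Ideal.span (Set.range (pb G F))).map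
      (Ideal.Quotient.mk (I₀.map (rename (Sum.inl : ι → ι ⊕ Fin (n + 1)))))).height)
    (hv : ∀ lam : Fin (n + 1) → ℕ, (∃ j, lam j = 0) →
      ord (I₀.map (rename Sum.inl)) lam (pb G F) + ord (I₀.map (rename Sum.inl)) lam (pb G I) +
          eJ.2.2 * ord (I₀.map (rename Sum.inl)) lam G ≤
        (∑ j, lam j : ℕ) + ord (I₀.map (rename Sum.inl)) lam (pb G J) +
          (eF.2.2 + eI.2.2 : ℕ) * ord (I₀.map (rename Sum.inl)) lam G) {ε : ℝ} (hε : 0 < ε) :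
    ∃ (Θ : MvPolynomial (ι ⊕ Fin (n + 1)) k) (e : ℕ × ℕ),
      Θ.IsWeightedHomogeneous (bw ι (Fin (n + 1))) e ∧ Θ ∉ I₀.map (rename Sum.inl) ∧
      ∀ S : Finset (FinitePlace k), ∃ c C : ℝ, ∀ (x : ι → k) (y : Fin (n + 1) → k), x ≠ 0 →
        (∀ f ∈ I₀, eval x f = 0) → eval (Sum.elim x y) Θ ≠ 0 →
        (fun j => gr G x y (.inr j)) ≠ 0 → (fun l => eval (gr G x y) (I l)) ≠ 0 →
        (fun l => eval (gr G x y) (J l)) ≠ 0 →
        (∀ j, y j ≠ 0) ∧ (fun l => eval (gr G x y) (F l)) ≠ 0 ∧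
        -(n + 1) * logHeight y + glHt eF F (gr G x y) +
          (∑ w : InfinitePlace k, w.mult * (locHt w.1 eI I (gr G x y) - locHt w.1 eJ J (gr G x y)) +
            ∑ w ∈ S, (locHt w.1 eI I (gr G x y) - locHt w.1 eJ J (gr G x y))) ≤
          ε * (logHeight x + logHeight y) + c * cnt S y + C := by
  obtain ⟨B, rfl, -⟩ := exists_av (AlgebraicClosure k) I₀ hI₀ hp A co h0 hz hs Φ hΦ law
  obtain ⟨Θ, e, h1, h2, h3⟩ := main_W B (pb_hom hG hF) (pb_hom hG hI) (pb_hom hG hJ) hG hc _ _ hv hε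
  obtain ⟨C₀, -, hC₀⟩ := mv_bd hG
  refine ⟨Θ, e, h1, h2, fun S => ?_⟩
  obtain ⟨c, C, h4⟩ := h3 (plc S)
  refine ⟨c, C + eF.2.2 * C₀, fun x y hx k₀ k₁ k₂ k₃ k₄ => ?_⟩
  simp only [eval_gr] at k₃ k₄ ⊢
  obtain ⟨h5, h6, h7⟩ := h4 x y hx k₀ k₁ k₃ k₄ k₂
  refine ⟨h5, h6, ?_⟩
  have hy : y ≠ 0 := Function.ne_iff.2 ⟨0, h5 0⟩
  have h8 := mul_le_mul_of_nonneg_left (hC₀ x y hx hy k₂ (plc S)).2.1
    (eF.2.2.cast_nonneg (α := ℝ))
  rw [← isum_plc S fun v => locHt v eI I (gr G x y) - locHt v eJ J (gr G x y), cnt_eq S h5,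
    glHt_eq d eF F hx hy k₂ h6, ← isum_add_osum (plc S) (finS_mv x y),
    ← isum_add_osum (plc S) (finS_mv (Γ := G) x y)]
  simp only [locHt_eq d, isum_sub, isum_add, isum_const_mul] at h7 ⊢
  push_cast at h7
  linarith

end Pool.Agent.Lib.MP_8865d3_nt.Sv
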