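import Pool.Agent.Lib.MP_8865d3_nt.Sv.FinC

/-! The inequality in homogeneous coordinates. -/

namespace Pool.Agent.Lib.MP_8865d3_nt.Sv

open MvPolynomial Height Filter Finset NumberField Pool.Agent.Lib.MP_651af7_nt.Av
open Pool.Agent.Lib.MP_651af7_nt.Vj

variable {k ι : Type} [Field k] [NumberField k] [Fintype ι] {n : ℕ}

open Classical in
/-- The infinite places and the places of `S`. -/
noncomputable def plc (S : Finset (FinitePlace k)) : Finset (AbsoluteValue k ℝ) :=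
  univ.image (fun w : InfinitePlace k => w.1) ∪ S.image fun w => w.1

theorem mem_plc_inf (S : Finset (FinitePlace k)) (w : InfinitePlace k) : w.1 ∈ plc S := by
  classical
  simp only [plc, mem_union, mem_image]
  exact Or.inl ⟨w, mem_univ w, rfl⟩

theorem mem_plc_fin {S : Finset (FinitePlace k)} {w : FinitePlace k} : w.1 ∈ plc S ↔ w ∈ S := by
  classical
  simp only [plc, mem_union, mem_image]
  refine ⟨?_, fun h => Or.inr ⟨w, h, rfl⟩⟩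
  rintro (⟨v, -, h⟩ | ⟨v, hv, h⟩)
  · have h1 : v.1 ((2 : ℕ) : k) = (2 : ℕ) := v.map_natCast 2
    have h2 : w.1 (1 + 1) ≤ max (w.1 1) (w.1 1) := w.add_le 1 1
    rw [h, Nat.cast_ofNat, Nat.cast_ofNat] at h1
    rw [one_add_one_eq_two, h1, map_one, max_self] at h2
    norm_num at h2
  · exact Subtype.ext h ▸ hv

theorem gsum_eq (f : AbsoluteValue k ℝ → ℝ) :
    gsum f = ∑ w : InfinitePlace k, w.mult * f w.1 + ∑ᶠ w : FinitePlace k, f w.1 := by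
  rw [gsum, sum_archAbsVal_eq, sum_nonarchAbsVal_eq]
  simp only [nsmul_eq_mul]

theorem isum_plc (S : Finset (FinitePlace k)) (f : AbsoluteValue k ℝ → ℝ) :
    isum (plc S) f = ∑ w : InfinitePlace k, w.mult * f w.1 + ∑ w ∈ S, f w.1 := by
  classical
  rw [isum, gsum_eq]
  simp only [mem_plc_inf, if_true, mem_plc_fin]
  rw [← finsum_mem_coe_finset (s := S), finsum_mem_def]
  congr 2
  funext w
  by_cases h : w ∈ S <;> simp [h]

theorem osum_plc (S : Finset (FinitePlace k)) (f : AbsoluteValue k ℝ → ℝ) :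
    osum (plc S) f = ∑ᶠ w ∈ (S : Set (FinitePlace k))ᶜ, f w.1 := by
  classical
  rw [osum, gsum_eq]
  simp only [mem_plc_inf, if_true, mul_zero, sum_const_zero, zero_add, mem_plc_fin]
  rw [finsum_mem_def]
  congr 1
  funext w
  by_cases h : w ∈ S <;> simp [h]

/-- The local height of the coordinate hyperplanes. -/
noncomputable def bdy (v : AbsoluteValue k ℝ) (y : Fin (n + 1) → k) : ℝ :=
  ∑ j, (Real.log (nm v y) - Real.log (v (y j)))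

theorem finS_bdy (y : Fin (n + 1) → k) : FinS fun v => bdy v y :=
  finS_sum univ fun _ _ => finS_sub (finS_nm y) (finS_log _)

theorem df_le_bdy (T : Finset (AbsoluteValue k ℝ)) {y : Fin (n + 1) → k} (hy : ∀ j, y j ≠ 0) :
    df T (fun j : Fin n => y j.succ / y 0) ≤ 2 * n * osum T fun v => bdy v y := by
  rw [df, ← osum_const_mul T (finS_bdy y)]
  refine osum_mono T (finS_df _) ((finS_bdy y).const_mul _) fun v _ _ => ?_
  have h0 : ∀ j, 0 ≤ Real.log (nm v y) - Real.log (v (y j)) := fun j =>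
    sub_nonneg.2 (Real.log_le_log (v.pos (hy j)) (le_nm v y j))
  have h1 : ∀ j, Real.log (nm v y) - Real.log (v (y j)) ≤ bdy v y := fun j =>
    single_le_sum (fun j _ => h0 j) (mem_univ j)
  refine (sum_le_card_nsmul _ _ (2 * bdy v y) fun j _ => ?_).trans (le_of_eq (by simp; ring))
  rw [map_div₀, Real.log_div (v.pos (hy _)).ne' (v.pos (hy _)).ne', abs_le]
  constructor <;> linarith [h0 0, h0 j.succ, h1 0, h1 j.succ]

theorem main_W (A : AV k ι) {L₁ L₂ L₃ L₄ : Type} [Fintype L₁] [Fintype L₂] [Fintype L₃]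
    [Fintype L₄] {Γ₁ : L₁ → MvPolynomial (ι ⊕ Fin (n + 1)) k}
    {Γ₂ : L₂ → MvPolynomial (ι ⊕ Fin (n + 1)) k} {Γ₃ : L₃ → MvPolynomial (ι ⊕ Fin (n + 1)) k}
    {Γ₄ : L₄ → MvPolynomial (ι ⊕ Fin (n + 1)) k} {d₁ d₂ d₃ d₄ : ℕ × ℕ}
    (g₁ : ∀ l, (Γ₁ l).IsWeightedHomogeneous (bw ι (Fin (n + 1))) d₁)
    (g₂ : ∀ l, (Γ₂ l).IsWeightedHomogeneous (bw ι (Fin (n + 1))) d₂)
    (g₃ : ∀ l, (Γ₃ l).IsWeightedHomogeneous (bw ι (Fin (n + 1))) d₃)
    (g₄ : ∀ l, (Γ₄ l).IsWeightedHomogeneous (bw ι (Fin (n + 1))) d₄)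
    (hc : 2 ≤ ((Ideal.span (Set.range Γ₁)).map
      (Ideal.Quotient.mk (A.I.map (rename (Sum.inl : ι → ι ⊕ Fin (n + 1)))))).height) (a b : ℕ)
    (h : ∀ lam : Fin (n + 1) → ℕ, (∃ j, lam j = 0) →
      Stm.ord (A.I.map (rename Sum.inl)) lam Γ₁ + Stm.ord (A.I.map (rename Sum.inl)) lam Γ₂ +
          a * Stm.ord (A.I.map (rename Sum.inl)) lam Γ₄ ≤
        (∑ j, lam j : ℕ) + Stm.ord (A.I.map (rename Sum.inl)) lam Γ₃ +
          b * Stm.ord (A.I.map (rename Sum.inl)) lam Γ₄) {ε : ℝ} (hε : 0 < ε) :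
    ∃ (Θ : MvPolynomial (ι ⊕ Fin (n + 1)) k) (e : ℕ × ℕ),
      Θ.IsWeightedHomogeneous (bw ι (Fin (n + 1))) e ∧ Θ ∉ A.I.map (rename Sum.inl) ∧
      ∀ T : Finset (AbsoluteValue k ℝ), ∃ c C : ℝ, ∀ (x : ι → k) (y : Fin (n + 1) → k), x ≠ 0 →
        (∀ f ∈ A.I, eval x f = 0) → eval (Sum.elim x y) Θ ≠ 0 →
        (fun l => eval (Sum.elim x y) (Γ₂ l)) ≠ 0 → (fun l => eval (Sum.elim x y) (Γ₃ l)) ≠ 0 →
        (fun l => eval (Sum.elim x y) (Γ₄ l)) ≠ 0 →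
        (∀ j, y j ≠ 0) ∧ (fun l => eval (Sum.elim x y) (Γ₁ l)) ≠ 0 ∧
        osum T (fun v => mv v d₁ Γ₁ x y) + (isum T (fun v => mv v d₁ Γ₁ x y + mv v d₂ Γ₂ x y +
          a * mv v d₄ Γ₄ x y - mv v d₃ Γ₃ x y - b * mv v d₄ Γ₄ x y) - (n + 1) * logHeight y) ≤
          ε * (logHeight x + logHeight y) + c * osum T (fun v => bdy v y) + C := by
  have hP := p0_prime_inl (τ := Fin (n + 1)) A.isPrime
  have h₁ : (spt A.I Γ₁).Nonempty := spt_nonempty.2 (by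
    by_contra h0
    have h1 : (Ideal.span (Set.range Γ₁)).map
        (Ideal.Quotient.mk (A.I.map (rename (Sum.inl : ι → ι ⊕ Fin (n + 1))))) = ⊥ := by
      rw [Ideal.map_eq_bot_iff_le_ker, Ideal.mk_ker, Ideal.span_le]
      rintro _ ⟨j, rfl⟩
      exact not_not.1 fun h' => h0 ⟨j, h'⟩
    rw [h1, Ideal.height_bot] at hc
    exact absurd hc (by decide))
  by_cases hne : (spt A.I Γ₂).Nonempty ∧ (spt A.I Γ₃).Nonempty ∧ (spt A.I Γ₄).Nonempty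
  swap
  · refine ⟨1, 0, isWeightedHomogeneous_one _ _, (Ideal.ne_top_iff_one _).1 hP.ne_top,
      fun T => ⟨0, 0, fun x y _ hx _ k₂ k₃ k₄ => (hne ?_).elim⟩⟩
    have key : ∀ {L : Type} {Γ : L → MvPolynomial (ι ⊕ Fin (n + 1)) k},
        (fun l => eval (Sum.elim x y) (Γ l)) ≠ 0 → (spt A.I Γ).Nonempty := fun h0 =>
      spt_nonempty.2 ((Function.ne_iff.1 h0).imp fun l hl hm => hl (aeval_zero_of_mem hx y hm))
    exact ⟨key k₂, key k₃, key k₄⟩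
  obtain ⟨h₂, h₃, h₄⟩ := hne
  have hε' : 0 < ε / 2 / (n + 1) := by positivity
  obtain ⟨Θ₀, e₀, p₀, q₀, r₀⟩ := gcd_part A g₁ hc hε'
  obtain ⟨Θ₁, e₁, p₁, q₁, r₁⟩ := exists_face A.isPrime g₁
  obtain ⟨Θ₂, e₂, p₂, q₂, r₂⟩ := exists_face A.isPrime g₂
  obtain ⟨Θ₃, e₃, p₃, q₃, r₃⟩ := exists_face A.isPrime g₃
  obtain ⟨Θ₄, e₄, p₄, q₄, r₄⟩ := exists_face A.isPrime g₄
  have hΘ := (((p₀.mul p₁).mul p₂).mul p₃).mul p₄
  refine ⟨Θ₀ * Θ₁ * Θ₂ * Θ₃ * Θ₄ * ∏ j, X (.inr j), _,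
    hΘ.mul (IsWeightedHomogeneous.prod _ _ _ fun j _ => isWeightedHomogeneous_X k _ _),
    fun hm => ?_, fun T => ?_⟩
  · simp only [hP.mul_mem_iff_mem_or_mem, q₀, q₁, q₂, q₃, q₄, false_or] at hm
    exact prod_notMem hP _ (fun j _ => X_notMem A.isPrime j) hm
  obtain ⟨c₀, hc₀⟩ := r₀ T
  obtain ⟨c₁, hc₁⟩ := trop_part A g₁ g₂ g₃ g₄ h₁ h₂ h₃ h₄ a b (val_real h₁ h₂ h₃ h₄ a b h) T hε'
  refine ⟨(c₀ + c₁) * (2 * n), c₀ + c₁, fun x y hx0 hx h0 k₂ k₃ k₄ => ?_⟩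
  rw [map_mul, mul_ne_zero_iff, map_prod, prod_ne_zero_iff] at h0
  have hy : ∀ j, y j ≠ 0 := fun j => by simpa using h0.2 j (mem_univ j)
  obtain ⟨s, u, hs, hu, hdf, hht, rfl⟩ : ∃ (s : k) (u : Fin n → k), s ≠ 0 ∧ (∀ j, u j ≠ 0) ∧
      df T u ≤ 2 * n * osum T (fun v => bdy v y) ∧ ∑ j, logHeight₁ (u j) ≤ n * logHeight y ∧
      y = fun j => s * (Fin.cons 1 u : Fin (n + 1) → k) j :=
    ⟨y 0, fun j => y j.succ / y 0, hy 0, fun j => div_ne_zero (hy _) (hy 0), df_le_bdy T hy,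
      by simpa using sum_le_card_nsmul univ _ _ fun (j : Fin n) _ => logHeight₁_div_le y j.succ 0,
      funext (Fin.cases (mul_one _).symm fun j => (mul_div_cancel₀ _ (hy 0)).symm)⟩
  obtain ⟨P, t, ht⟩ := AV.exists_rep_of_ne (A := A) hx0 (by simpa only [aeval_eq_eval] using hx)
  obtain rfl : x = fun a => t * P.co a := funext ht
  have h5 := h0.1
  rw [← aeval_eq_eval, aeval_mul_of_bih hΘ, aeval_eq_eval] at h5
  have h6 := right_ne_zero_of_mul h5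
  simp only [map_mul, mul_ne_zero_iff] at h6
  obtain ⟨⟨⟨⟨z₀, z₁⟩, z₂⟩, z₃⟩, z₄⟩ := h6
  have n₁ := (r₁ _ _ z₁).ne h₁
  refine ⟨hy, fun h7 => n₁ (funext fun l => ?_), ?_⟩
  · have h8 := congrFun h7 l
    rw [← aeval_eq_eval, aeval_mul_of_bih (g₁ l), aeval_eq_eval] at h8
    exact (mul_eq_zero.1 h8).resolve_left
      (mul_ne_zero (pow_ne_zero _ t.ne_zero) (pow_ne_zero _ hs))
  have i₀ := hc₀ P u hu z₀ n₁
  have i₁ := hc₁ P u hu (r₁ _ _ z₁) (r₂ _ _ z₂) (r₃ _ _ z₃) (r₄ _ _ z₄)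
  simp only [mv_smul g₁ _ (co_ne P) (cons_ne u) n₁ t.ne_zero hs,
    mv_smul g₂ _ (co_ne P) (cons_ne u) ((r₂ _ _ z₂).ne h₂) t.ne_zero hs,
    mv_smul g₃ _ (co_ne P) (cons_ne u) ((r₃ _ _ z₃).ne h₃) t.ne_zero hs,
    mv_smul g₄ _ (co_ne P) (cons_ne u) ((r₄ _ _ z₄).ne h₄) t.ne_zero hs,
    logHeight_mul_left t.ne_zero, logHeight_mul_left hs] at hht ⊢
  have i₂ : hp P u ≤ (n + 1) * (logHeight P.co + logHeight (Fin.cons 1 u : Fin (n + 1) → k)) := by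
    have i₃ := mul_nonneg (n.cast_nonneg (α := ℝ)) (logHeight_nonneg P.co)
    have i₄ := logHeight_nonneg (Fin.cons 1 u : Fin (n + 1) → k)
    change logHeight P.co + _ ≤ _
    linarith
  have i₃ := mul_le_mul_of_nonneg_left i₂ hε'.le
  rw [← mul_assoc, div_mul_cancel₀ _ (by positivity)] at i₃
  have i₄ := mul_le_mul_of_nonneg_left hdf (show (0 : ℝ) ≤ c₀ + c₁ by positivity)
  linarith

end Pool.Agent.Lib.MP_8865d3_nt.Sv
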