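import Pool.Agent.Lib.MP_8865d3_nt.Sv.Ord

/-! Auxiliary facts for the comparison of local heights and orders. -/

namespace Pool.Agent.Lib.MP_8865d3_nt.Sv

open MvPolynomial Height Filter Finset Pool.Agent.Lib.MP_651af7_nt.Av
open Pool.Agent.Lib.MP_651af7_nt.Vj

section poly

variable {k ι σ β : Type} [Field k] [Fintype σ]

/-- The value of a monomial. -/
def tropM (μ : σ →₀ ℕ) (y : σ → k) : k := ∏ j, y j ^ μ j

theorem tropM_ne (μ : σ →₀ ℕ) {y : σ → k} (hy : ∀ j, y j ≠ 0) : tropM μ y ≠ 0 :=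
  prod_ne_zero_iff.2 fun j _ => pow_ne_zero _ (hy j)

theorem trop_log (v : AbsoluteValue k ℝ) (μ : σ →₀ ℕ) {y : σ → k} (hy : ∀ j, y j ≠ 0) :
    Real.log (v (tropM μ y)) = ∑ j, μ j * Real.log (v (y j)) := by
  rw [tropM, map_prod, Real.log_prod fun j _ => (v.pos (pow_ne_zero _ (hy j))).ne']
  exact sum_congr rfl fun j _ => by rw [map_pow, Real.log_pow]

theorem trop_eval (x : ι → k) (y : σ → k) (f : MvPolynomial (ι ⊕ σ) k) :
    eval (Sum.elim x y) f = ∑ μ ∈ (cur f).support, eval x (coeff μ (cur f)) * tropM μ y := by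
  have h : eval (Sum.elim x y) = (eval₂Hom (eval x) y).comp
      (cur : MvPolynomial (ι ⊕ σ) k →ₐ[k] _).toRingHom := by
    refine ringHom_ext (fun a => ?_) ?_
    · simp [cur]
    · rintro (a | a) <;> simp [cur]
  rw [h]
  exact eval₂_eq' _ _ _

omit [Fintype σ] in
theorem trop_cur_inl (c : MvPolynomial ι k) :
    cur (rename Sum.inl c : MvPolynomial (ι ⊕ σ) k) = C c := by
  induction c using MvPolynomial.induction_on with
  | C a => simp [cur]
  | add p q hp hq => rw [map_add, map_add, map_add, hp, hq]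
  | mul_X p a hp => rw [map_mul, map_mul, map_mul, hp]; simp [cur]

omit [Fintype σ] in
theorem trop_cur_inr (μ : σ →₀ ℕ) :
    cur (rename Sum.inr (monomial μ 1) : MvPolynomial (ι ⊕ σ) k) = monomial μ 1 := by
  rw [cur, aeval_rename, aeval_monomial, monomial_eq]
  simp

/-- A polynomial with prescribed coefficients. -/
noncomputable def tropP (S : Finset β) (c : β → MvPolynomial ι k) (m : β → σ →₀ ℕ) :
    MvPolynomial (ι ⊕ σ) k := ∑ b ∈ S, rename Sum.inl (c b) * rename Sum.inr (monomial (m b) 1)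

omit [Fintype σ] in
theorem tropP_cur (S : Finset β) (c : β → MvPolynomial ι k) (m : β → σ →₀ ℕ) :
    cur (tropP S c m) = ∑ b ∈ S, monomial (m b) (c b) := by
  rw [tropP, map_sum]
  exact sum_congr rfl fun b _ => by
    rw [map_mul, trop_cur_inl, trop_cur_inr, C_mul_monomial, mul_one]

theorem tropP_eval (S : Finset β) (c : β → MvPolynomial ι k) (m : β → σ →₀ ℕ) (x : ι → k)
    (y : σ → k) : eval (Sum.elim x y) (tropP S c m) = ∑ b ∈ S, eval x (c b) * tropM (m b) y := by
  rw [tropP, map_sum]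
  refine sum_congr rfl fun b _ => ?_
  rw [map_mul, eval_rename, eval_rename, eval_monomial, one_mul,
    Finsupp.prod_fintype _ _ fun _ => pow_zero _]
  rfl

variable [Fintype ι]

theorem tropP_hom {s e : ℕ} (S : Finset β) {c : β → MvPolynomial ι k} (m : β → Fin s →₀ ℕ)
    (hc : ∀ b ∈ S, (c b).IsHomogeneous e) : (tropP S c m).IsWeightedHomogeneous (xw ι s) e := by
  refine IsWeightedHomogeneous.sum _ _ _ fun b hb => ?_
  have h1 : (rename Sum.inl (c b) : MvPolynomial (ι ⊕ Fin s) k).IsWeightedHomogeneous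
      (xw ι s) e := fun ω hω => by
    obtain ⟨ν, rfl, hν⟩ := coeff_rename_ne_zero _ _ _ hω
    rw [← hc b hb hν, Finsupp.weight_eq_sum, Finsupp.weight_eq_sum, Fintype.sum_sum_type]
    simp [xw, Finsupp.mapDomain_apply Sum.inl_injective]
  have h2 : (rename Sum.inr (monomial (m b) 1) : MvPolynomial (ι ⊕ Fin s) k).IsWeightedHomogeneous
      (xw ι s) 0 := by
    rw [rename_monomial]
    refine isWeightedHomogeneous_monomial _ _ _ ?_
    rw [Finsupp.weight_eq_sum, Fintype.sum_sum_type]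
    simp [xw, Finsupp.mapDomain_of_notMem_range]
  exact h1.mul h2

theorem trop_bih {f : MvPolynomial (ι ⊕ σ) k} {d : ℕ × ℕ}
    (hf : f.IsWeightedHomogeneous (bw ι σ) d) (μ : σ →₀ ℕ) :
    (coeff μ (cur f)).IsHomogeneous d.1 ∧ (coeff μ (cur f) ≠ 0 → ∑ j, μ j = d.2) := by
  classical
  induction hf using IsWeightedHomogeneous.induction_on with
  | zero => simpa using isHomogeneous_zero ι k d.1
  | add p q _ _ hp hq =>
    rw [map_add, coeff_add]
    refine ⟨hp.1.add hq.1, fun h => ?_⟩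
    by_contra h1
    exact h (by rw [not_not.1 fun h2 => h1 (hp.2 h2), not_not.1 fun h2 => h1 (hq.2 h2), add_zero])
  | monomial m r hr =>
    have h1 : (monomial m r : MvPolynomial (ι ⊕ σ) k) =
        rename Sum.inl (monomial (Finsupp.equivFunOnFinite.symm fun a => m (.inl a)) r) *
        rename Sum.inr (monomial (Finsupp.equivFunOnFinite.symm fun a => m (.inr a)) 1) := by
      rw [rename_monomial, rename_monomial, monomial_mul, mul_one]
      congr 2
      ext (a | a) <;> simp [Finsupp.mapDomain_of_notMem_range,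
        Finsupp.mapDomain_apply Sum.inl_injective, Finsupp.mapDomain_apply Sum.inr_injective]
    rw [Finsupp.weight_eq_sum, Fintype.sum_sum_type] at hr
    have h2 := congrArg Prod.fst hr
    have h3 := congrArg Prod.snd hr
    simp only [bw, Sum.elim_inl, Sum.elim_inr, Prod.smul_mk, smul_eq_mul, mul_one, mul_zero,
      Prod.fst_add, Prod.snd_add, Prod.fst_sum, Prod.snd_sum, sum_const_zero, add_zero,
      zero_add] at h2 h3
    rw [h1, map_mul, trop_cur_inl, trop_cur_inr, C_mul_monomial, mul_one, coeff_monomial]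
    split_ifs with h
    · refine ⟨isHomogeneous_monomial _ ?_, fun _ => ?_⟩
      · rw [Finsupp.degree_eq_sum]
        exact h2
      · rw [← h]
        exact h3
    · exact ⟨isHomogeneous_zero ι k d.1, fun h => absurd rfl h⟩

theorem trop_eval_le (v : AbsoluteValue k ℝ) {c : MvPolynomial ι k} {e : ℕ}
    (hc : c.IsHomogeneous e) : ∃ C : ℝ, ∀ x : ι → k, v (eval x c) ≤ C * nm v x ^ e := by
  refine ⟨∑ ν ∈ c.support, v (coeff ν c), fun x => ?_⟩
  rw [eval_eq', sum_mul]
  refine (v.sum_le _ _).trans (sum_le_sum fun ν hν => ?_)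
  rw [map_mul, map_prod]
  refine mul_le_mul_of_nonneg_left ?_ (v.nonneg _)
  have h := hc (mem_support_iff.1 hν)
  rw [Finsupp.weight_eq_sum] at h
  simp only [Pi.one_apply, smul_eq_mul, mul_one] at h
  rw [← h, ← prod_pow_eq_pow_sum]
  exact prod_le_prod (fun _ _ => v.nonneg _) fun a _ => by
    rw [map_pow]
    exact pow_le_pow_left₀ (v.nonneg _) (le_nm v x a) _

end poly

section real

variable {α β : Type} {U : Ultrafilter α} {H g : α → ℝ}

/-- `f ≤ exp (g + o (H))`. -/
def TropUb (U : Ultrafilter α) (H g f : α → ℝ) : Prop :=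
  ∀ ε : ℝ, 0 < ε → ∀ᶠ t in U, f t ≤ Real.exp (g t + ε * H t)

theorem TropUb.mono {f f' g' : α → ℝ} (h : TropUb U H g f) (h1 : ∀ᶠ t in U, f' t ≤ f t)
    (h2 : ∀ᶠ t in U, g t ≤ g' t) : TropUb U H g' f' := fun ε hε => by
  filter_upwards [h ε hε, h1, h2] with t a1 a2 a3
  exact a2.trans (a1.trans (Real.exp_le_exp.2 (by linarith)))

theorem TropUb.const_mul (hH : Tendsto H U atTop) {f : α → ℝ} (h : TropUb U H g f) (C : ℝ) :
    TropUb U H g fun t => |C| * f t := fun ε hε => by
  filter_upwards [h (ε / 2) (half_pos hε), Lo.const hH |C| (ε / 2) (half_pos hε)] with t a1 a2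
  have a3 : |C| ≤ Real.exp (ε / 2 * H t) := by linarith [Real.add_one_le_exp (ε / 2 * H t)]
  calc |C| * f t ≤ |C| * Real.exp (g t + ε / 2 * H t) :=
        mul_le_mul_of_nonneg_left a1 (abs_nonneg _)
    _ ≤ Real.exp (ε / 2 * H t) * Real.exp (g t + ε / 2 * H t) :=
        mul_le_mul_of_nonneg_right a3 (Real.exp_pos _).le
    _ = _ := by
        rw [← Real.exp_add]
        congr 1
        ring

theorem TropUb.sum (hH : Tendsto H U atTop) (S : Finset β) {f : β → α → ℝ}
    (h : ∀ b ∈ S, TropUb U H g (f b)) : TropUb U H g fun t => ∑ b ∈ S, f b t := fun ε hε => by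
  have h1 : TropUb U H (fun t => g t + ε / 2 * H t) fun t => Real.exp (g t + ε / 2 * H t) :=
    fun δ hδ => (hH.eventually_ge_atTop 0).mono fun t ht =>
      Real.exp_le_exp.2 (le_add_of_nonneg_right (mul_nonneg hδ.le ht))
  filter_upwards [h1.const_mul hH S.card (ε / 2) (half_pos hε),
    (eventually_all_finset S).2 fun b hb => h b hb (ε / 2) (half_pos hε)] with t a1 a2
  have a3 := sum_le_card_nsmul S _ _ a2
  rw [nsmul_eq_mul] at a3
  rw [Nat.abs_cast, add_assoc, ← add_mul, add_halves] at a1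
  exact a3.trans a1

/-- A main term of exact size dominates smaller terms. -/
theorem trop_low (hH : Tendsto H U atTop) {f f₁ f₂ : α → ℝ} {c : ℝ} (hc : 0 < c)
    (h0 : ∀ᶠ t in U, 0 < f₁ t) (h1 : Lo U H fun t => g t - Real.log (f₁ t))
    (h2 : TropUb U H (fun t => g t - c * H t) f₂) (h : ∀ t, f₁ t ≤ f t + f₂ t) :
    (∀ᶠ t in U, 0 < f t) ∧ Lo U H fun t => g t - Real.log (f t) := by
  have h3 : ∀ᶠ t in U, f₁ t ≤ 2 * f t := by
    filter_upwards [h0, h1 (c / 4) (by positivity), h2 (c / 4) (by positivity),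
      Lo.const hH 1 (c / 2) (by positivity)] with t a0 a1 a2 a3
    have a4 : Real.exp (g t - c / 4 * H t) ≤ f₁ t := by
      rw [← Real.le_log_iff_exp_le a0]
      linarith
    have a5 : Real.exp (g t - c / 4 * H t) =
        Real.exp (g t - c * H t + c / 4 * H t) * Real.exp (c / 2 * H t) := by
      rw [← Real.exp_add]
      congr 1
      ring
    have a6 := Real.add_one_le_exp (c / 2 * H t)
    have a7 := Real.exp_pos (g t - c * H t + c / 4 * H t)
    have a8 := h t
    nlinarith
  refine ⟨(h0.and h3).mono fun t ht => by linarith [ht.1, ht.2],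
    (h1.add (Lo.const hH (Real.log 2))).mono ((h0.and h3).mono fun t ht => ?_)⟩
  have a1 := Real.log_le_log ht.1 ht.2
  rw [Real.log_mul two_ne_zero (by linarith [ht.1, ht.2])] at a1
  linarith

theorem trop_gap (S : Finset β) (f : β → ℝ) : ∃ c : ℝ, 0 < c ∧ ∀ b ∈ S, 0 < f b → c ≤ f b := by
  classical
  induction S using Finset.induction_on with
  | empty => exact ⟨1, one_pos, by simp⟩
  | insert a S _ ih =>
    obtain ⟨c, hc, h⟩ := ih
    by_cases ha : 0 < f a
    · refine ⟨min c (f a), lt_min hc ha, fun b hb h0 => ?_⟩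
      rcases mem_insert.1 hb with rfl | hb
      exacts [min_le_right _ _, (min_le_left _ _).trans (h b hb h0)]
    · refine ⟨c, hc, fun b hb h0 => ?_⟩
      rcases mem_insert.1 hb with rfl | hb
      exacts [absurd h0 ha, h b hb h0]

end real

section ht

variable {k : Type} [Field k] [NumberField k] {n : ℕ}

theorem trop_log_le {v : AbsoluteValue k ℝ} (hv : Adm v) (x : k) :
    Real.log (v x) ≤ logHeight₁ x := by
  by_cases hx : x = 0
  · simp [hx]
  refine (le_max_right 0 _).trans ?_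
  have h1 : ∀ z ∈ AdmissibleAbsValues.archAbsVal.map fun w : AbsoluteValue k ℝ =>
      Real.posLog (w x), 0 ≤ z := fun z hz => by
    obtain ⟨w, -, rfl⟩ := Multiset.mem_map.1 hz
    exact Real.posLog_nonneg
  rw [logHeight₁_eq]
  rcases hv with hv | hv
  · exact le_add_of_le_of_nonneg (Multiset.single_le_sum h1 _ (Multiset.mem_map_of_mem _ hv))
      (finsum_nonneg fun _ => Real.posLog_nonneg)
  · refine le_add_of_nonneg_of_le (Multiset.sum_nonneg h1) (single_le_finsum
      (f := fun w : AdmissibleAbsValues.nonarchAbsVal (K := k) => Real.posLog (w.val x)) ⟨v, hv⟩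
      ((AdmissibleAbsValues.hasFiniteMulSupport hx).subset fun w hw h => hw ?_)
      fun _ => Real.posLog_nonneg)
    simp only [h, Real.posLog_one]

theorem trop_abs_le {v : AbsoluteValue k ℝ} (hv : Adm v) (x : k) :
    |Real.log (v x)| ≤ logHeight₁ x := by
  have h := trop_log_le hv x⁻¹
  rw [map_inv₀, Real.log_inv, logHeight₁_inv] at h
  exact abs_le.2 ⟨by linarith, trop_log_le hv x⟩

omit [NumberField k] in
/-- A term that vanishes at `1` is bounded by the sum over the torus coordinates. -/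
theorem trop_cons {f : k → ℝ} (h1 : f 1 = 0) (h0 : ∀ z, 0 ≤ f z) (u : Fin n → k)
    (μ : Fin (n + 1) →₀ ℕ) : ∑ j, μ j * f ((Fin.cons 1 u : Fin (n + 1) → k) j) ≤
      (∑ j, μ j : ℕ) * ∑ j, f (u j) := by
  rw [Nat.cast_sum, sum_mul]
  refine sum_le_sum fun j _ => mul_le_mul_of_nonneg_left ?_ (Nat.cast_nonneg _)
  refine Fin.cases ?_ (fun j => ?_) j
  · rw [Fin.cons_zero, h1]
    exact sum_nonneg fun _ _ => h0 _
  · rw [Fin.cons_succ]
    exact single_le_sum (f := fun j => f (u j)) (fun _ _ => h0 _) (mem_univ j)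

omit [NumberField k] in
theorem trop_cons_ne {u : Fin n → k} (hu : ∀ j, u j ≠ 0) (j : Fin (n + 1)) :
    (Fin.cons 1 u : Fin (n + 1) → k) j ≠ 0 := Fin.cases one_ne_zero hu j

theorem trop_ht (u : Fin n → k) (μ : Fin (n + 1) →₀ ℕ) :
    logHeight₁ (tropM μ (Fin.cons 1 u : Fin (n + 1) → k)) ≤
      (∑ j, μ j : ℕ) * ∑ j, logHeight₁ (u j) := by
  refine (logHeight₁_prod_le _ _).trans ?_
  simp only [logHeight₁_pow]
  exact trop_cons logHeight₁_one zero_le_logHeight₁ u μ

omit [NumberField k] in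
theorem trop_abs (v : AbsoluteValue k ℝ) {u : Fin n → k} (hu : ∀ j, u j ≠ 0)
    (μ : Fin (n + 1) →₀ ℕ) : |Real.log (v (tropM μ (Fin.cons 1 u : Fin (n + 1) → k)))| ≤
      (∑ j, μ j : ℕ) * ∑ j, |Real.log (v (u j))| := by
  rw [trop_log v μ (trop_cons_ne hu)]
  refine (abs_sum_le_sum_abs _ _).trans ?_
  simp only [abs_mul, Nat.abs_cast]
  exact trop_cons (f := fun z => |Real.log (v z)|) (by simp) (fun _ => abs_nonneg _) u μ

end ht

end Pool.Agent.Lib.MP_8865d3_nt.Sv
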