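import Mathlib

/-! The definitions used in the statement. -/

namespace Pool.Agent.Lib.MP_8865d3_nt.Sv.Stm

open Height MvPolynomial NumberField

variable {k ι κ α : Type} [Field k] {n : ℕ}

/-- The tridegree of the variables of `ℙ^ι × ℙ^n × ℙ^κ`. -/
def tw (ι : Type) (n : ℕ) (κ : Type) : (ι ⊕ Fin (n + 1)) ⊕ κ → ℕ × ℕ × ℕ :=
  Sum.elim (Sum.elim (fun _ => (1, 0, 0)) fun _ => (0, 1, 0)) fun _ => (0, 0, 1)

/-- The coordinates `(x, y, G (x, y))` of the point of the graph over `(x, y)`. -/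
noncomputable def gr (G : κ → MvPolynomial (ι ⊕ Fin (n + 1)) k) (x : ι → k) (y : Fin (n + 1) → k) :
    (ι ⊕ Fin (n + 1)) ⊕ κ → k :=
  Sum.elim (Sum.elim x y) fun j => eval (Sum.elim x y) (G j)

/-- The forms `F l (X, Y, G (X, Y))`. -/
noncomputable def pb (G : κ → MvPolynomial (ι ⊕ Fin (n + 1)) k)
    (F : α → MvPolynomial ((ι ⊕ Fin (n + 1)) ⊕ κ) k) (l : α) : MvPolynomial (ι ⊕ Fin (n + 1)) k :=
  aeval (Sum.elim X G) (F l)

/-- The Weil height attached to the subscheme defined by forms `F l` of tridegree `e`. -/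
noncomputable def glHt [NumberField k] (e : ℕ × ℕ × ℕ)
    (F : α → MvPolynomial ((ι ⊕ Fin (n + 1)) ⊕ κ) k) (p : (ι ⊕ Fin (n + 1)) ⊕ κ → k) : ℝ :=
  e.1 * logHeight (fun i => p (.inl (.inl i))) + e.2.1 * logHeight (fun i => p (.inl (.inr i))) +
    e.2.2 * logHeight (fun j => p (.inr j)) - logHeight fun l => eval p (F l)

/-- The local height at `v` attached to the subscheme defined by forms `F l` of tridegree `e`. -/
noncomputable def locHt (v : AbsoluteValue k ℝ) (e : ℕ × ℕ × ℕ)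
    (F : α → MvPolynomial ((ι ⊕ Fin (n + 1)) ⊕ κ) k) (p : (ι ⊕ Fin (n + 1)) ⊕ κ → k) : ℝ :=
  e.1 * Real.log (⨆ i, v (p (.inl (.inl i)))) + e.2.1 * Real.log (⨆ i, v (p (.inl (.inr i)))) +
    e.2.2 * Real.log (⨆ j, v (p (.inr j))) - Real.log (⨆ l, v (eval p (F l)))

/-- The counting function of the coordinate hyperplanes of `ℙ^n` outside `S`. -/
noncomputable def cnt [NumberField k] (S : Finset (FinitePlace k)) (y : Fin (n + 1) → k) : ℝ :=
  ∑ᶠ v ∈ (S : Set (FinitePlace k))ᶜ, Real.log ((⨆ j, v (y j)) ^ (n + 1) / v (∏ j, y j))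

/-- The least order in `t` of the polynomials `Γ l (X, t ^ lam * Y)` modulo `P`. -/
noncomputable def ord (P : Ideal (MvPolynomial (ι ⊕ Fin (n + 1)) k)) (lam : Fin (n + 1) → ℕ)
    (Γ : α → MvPolynomial (ι ⊕ Fin (n + 1)) k) : ℕ∞ :=
  ⨅ l, (aeval (Sum.elim (fun a => Polynomial.C (Ideal.Quotient.mk P (X (.inl a))))
    fun j => Polynomial.X ^ lam j * Polynomial.C (Ideal.Quotient.mk P (X (.inr j)))) (Γ l) :
      Polynomial (MvPolynomial (ι ⊕ Fin (n + 1)) k ⧸ P)).trailingDegree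

end Pool.Agent.Lib.MP_8865d3_nt.Sv.Stm
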