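import Pool.Agent.Lib.MP_8865d3_nt.Sv.Ord
import Pool.Agent.Lib.MP_8865d3_nt.Sv.Stm

/-! From integral to real weights. -/

namespace Pool.Agent.Lib.MP_8865d3_nt.Sv

open MvPolynomial Height Filter Pool.Agent.Lib.MP_651af7_nt.Av

variable {k ι : Type} [Field k] {n : ℕ}

/-- the inverse of `cur` -/
private noncomputable def valUn {σ : Type} :
    MvPolynomial σ (MvPolynomial ι k) →+* MvPolynomial (ι ⊕ σ) k :=
  eval₂Hom (rename Sum.inl : MvPolynomial ι k →ₐ[k] MvPolynomial (ι ⊕ σ) k) fun j => X (Sum.inr j)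

private lemma val_cur_rename {σ : Type} (p : MvPolynomial ι k) :
    cur (rename Sum.inl p : MvPolynomial (ι ⊕ σ) k) = C p := by
  induction p using MvPolynomial.induction_on with
  | C a => rw [rename_C, cur, aeval_C]; rfl
  | add p q hp hq => rw [map_add, map_add, hp, hq, map_add]
  | mul_X p a hp => rw [map_mul, map_mul, hp, map_mul, rename_X, cur, aeval_X]; rfl

private lemma valUn_C {σ : Type} (p : MvPolynomial ι k) :
    valUn (C p : MvPolynomial σ (MvPolynomial ι k)) = rename Sum.inl p := eval₂Hom_C _ _ _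

private lemma valUn_X {σ : Type} (j : σ) :
    valUn (X j : MvPolynomial σ (MvPolynomial ι k)) = X (Sum.inr j) := eval₂Hom_X' _ _ _

private lemma val_cur_un {σ : Type} (g : MvPolynomial σ (MvPolynomial ι k)) :
    cur (valUn g) = g := by
  induction g using MvPolynomial.induction_on with
  | C a => rw [valUn_C, val_cur_rename]
  | add p q hp hq => rw [map_add, map_add, hp, hq]
  | mul_X p a hp => rw [map_mul, map_mul, hp, valUn_X, cur, aeval_X]; rfl

private lemma val_un_cur {σ : Type} (f : MvPolynomial (ι ⊕ σ) k) : valUn (cur f) = f := by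
  induction f using MvPolynomial.induction_on with
  | C a => rw [← rename_C (Sum.inl : ι → ι ⊕ σ), val_cur_rename, valUn_C]
  | add p q hp hq => rw [map_add, map_add, hp, hq]
  | mul_X p a hp =>
    rw [map_mul, map_mul, hp, cur, aeval_X]
    rcases a with a | a
    · rw [Sum.elim_inl, valUn_C, rename_X]
    · rw [Sum.elim_inr, valUn_X]

theorem spt_finite {L : Type} [Finite L] (I : Ideal (MvPolynomial ι k))
    (Γ : L → MvPolynomial (ι ⊕ Fin (n + 1)) k) : (spt I Γ).Finite := by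
  refine (Set.finite_iUnion fun l => (cur (Γ l)).support.finite_toSet).subset ?_
  rintro μ ⟨l, hl⟩
  refine Set.mem_iUnion.2 ⟨l, mem_support_iff.2 fun h => hl ?_⟩
  rw [h]
  exact I.zero_mem

theorem mem_map_iff {σ : Type} (I : Ideal (MvPolynomial ι k)) (f : MvPolynomial (ι ⊕ σ) k) :
    f ∈ I.map (rename Sum.inl) ↔ ∀ μ, coeff μ (cur f) ∈ I := by
  rw [← mem_map_C_iff]
  constructor
  · intro h
    have h1 := Ideal.mem_map_of_mem (cur : MvPolynomial (ι ⊕ σ) k →ₐ[k] _) h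
    refine (Ideal.map_le_iff_le_comap.2 (Ideal.map_le_iff_le_comap.2 fun p hp => ?_)) h1
    rw [Ideal.mem_comap, Ideal.mem_comap, val_cur_rename]
    exact Ideal.mem_map_of_mem _ hp
  · intro h
    have h1 := Ideal.mem_map_of_mem (valUn (k := k) (ι := ι) (σ := σ)) h
    rw [val_un_cur] at h1
    refine (Ideal.map_le_iff_le_comap.2 (Ideal.map_le_iff_le_comap.2 fun p hp => ?_)) h1
    rw [Ideal.mem_comap, Ideal.mem_comap, valUn_C]
    exact Ideal.mem_map_of_mem _ hp

/-- the substitution in the definition of the order -/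
private noncomputable def valSub (P : Ideal (MvPolynomial (ι ⊕ Fin (n + 1)) k))
    (lam : Fin (n + 1) → ℕ) : MvPolynomial (ι ⊕ Fin (n + 1)) k →ₐ[k]
      Polynomial (MvPolynomial (ι ⊕ Fin (n + 1)) k ⧸ P) :=
  aeval (Sum.elim (fun a => Polynomial.C (Ideal.Quotient.mk P (X (.inl a))))
    fun j => Polynomial.X ^ lam j * Polynomial.C (Ideal.Quotient.mk P (X (.inr j))))

private lemma valSub_rename (P : Ideal (MvPolynomial (ι ⊕ Fin (n + 1)) k)) (lam : Fin (n + 1) → ℕ)
    (p : MvPolynomial ι k) :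
    valSub P lam (rename Sum.inl p) = Polynomial.C (Ideal.Quotient.mk P (rename Sum.inl p)) := by
  induction p using MvPolynomial.induction_on with
  | C a => rw [rename_C, valSub, aeval_C]; rfl
  | add p q hp hq => simp only [map_add, hp, hq]
  | mul_X p a hp => simp only [map_mul, hp, rename_X]; rw [valSub, aeval_X]; rfl

private lemma val_prod {A σ : Type} [CommRing A] [Fintype σ] (c t : A) (y : σ → A) (lam μ : σ → ℕ) :
    c * ∏ j, (t ^ lam j * y j) ^ μ j = (c * ∏ j, y j ^ μ j) * ∏ j, t ^ (lam j * μ j) := by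
  simp only [mul_pow, Finset.prod_mul_distrib, ← pow_mul]
  ring

private lemma valSub_monomial (P : Ideal (MvPolynomial (ι ⊕ Fin (n + 1)) k))
    (lam : Fin (n + 1) → ℕ) (μ : Fin (n + 1) →₀ ℕ) (c : MvPolynomial ι k) :
    valSub P lam (valUn (monomial μ c)) = Polynomial.monomial (Finsupp.weight lam μ)
      (Ideal.Quotient.mk P (valUn (monomial μ c))) := by
  have h : ∀ j, valSub P lam (X (Sum.inr j)) =
      Polynomial.X ^ lam j * Polynomial.C (Ideal.Quotient.mk P (X (.inr j))) := fun j => by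
    rw [valSub, aeval_X]; rfl
  have h1 : (Polynomial.X : Polynomial (MvPolynomial (ι ⊕ Fin (n + 1)) k ⧸ P)) ^
      Finsupp.weight lam μ = ∏ j, Polynomial.X ^ (lam j * μ j) := by
    rw [Finset.prod_pow_eq_pow_sum, Finsupp.weight_eq_sum]
    simp only [smul_eq_mul, mul_comm]
  rw [← Polynomial.C_mul_X_pow_eq_monomial, monomial_eq, Finsupp.prod_fintype _ _ (by simp), h1]
  simp only [map_mul, map_prod, map_pow, valUn_C, valUn_X, valSub_rename, h]
  exact val_prod (A := Polynomial (MvPolynomial (ι ⊕ Fin (n + 1)) k ⧸ P)) _ Polynomial.X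
    (fun j => Polynomial.C (Ideal.Quotient.mk P (X (.inr j)))) lam μ

private lemma valSub_coeff (P : Ideal (MvPolynomial (ι ⊕ Fin (n + 1)) k))
    (lam : Fin (n + 1) → ℕ) (m : ℕ) (g : MvPolynomial (Fin (n + 1)) (MvPolynomial ι k)) :
    (valSub P lam (valUn g)).coeff m =
      Ideal.Quotient.mk P (valUn (weightedHomogeneousComponent lam m g)) := by
  classical
  induction g using MvPolynomial.induction_on' with
  | monomial μ c =>
    rw [valSub_monomial, Polynomial.coeff_monomial]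
    have h : weightedHomogeneousComponent lam m (monomial μ c) =
        if Finsupp.weight lam μ = m then monomial μ c else 0 := by
      ext1 ν
      rw [coeff_weightedHomogeneousComponent]
      by_cases h1 : μ = ν
      · subst h1
        split_ifs <;> simp
      · split_ifs <;> simp [h1]
    rw [h]
    split_ifs <;> simp
  | add p q hp hq => simp only [map_add, Polynomial.coeff_add, hp, hq]

private lemma valSub_eq_zero (I : Ideal (MvPolynomial ι k)) (lam : Fin (n + 1) → ℕ) (m : ℕ)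
    (f : MvPolynomial (ι ⊕ Fin (n + 1)) k) :
    (valSub (I.map (rename Sum.inl)) lam f).coeff m = 0 ↔
      ∀ μ, Finsupp.weight lam μ = m → coeff μ (cur f) ∈ I := by
  classical
  conv_lhs => rw [← val_un_cur f]
  rw [valSub_coeff, Ideal.Quotient.eq_zero_iff_mem, mem_map_iff, val_cur_un]
  refine forall_congr' fun μ => ?_
  rw [coeff_weightedHomogeneousComponent]
  split_ifs with h <;> simp [h]

/-- Sketch.  The coefficient of `t ^ m` is the class of the sum of the terms of weight `m`. -/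
theorem ord_eq {L : Type} [Finite L] {I : Ideal (MvPolynomial ι k)}
    {Γ : L → MvPolynomial (ι ⊕ Fin (n + 1)) k} (h : (spt I Γ).Nonempty) (lam : Fin (n + 1) → ℕ) :
    ∃ m : ℕ, Stm.ord (I.map (rename Sum.inl)) lam Γ = m ∧ ordR I Γ (fun j => lam j) = m := by
  obtain ⟨μ₀, ⟨l₀, h₀⟩, hmin⟩ := Set.exists_min_image _ (Finsupp.weight lam) (spt_finite I Γ) h
  refine ⟨Finsupp.weight lam μ₀, le_antisymm ?_ ?_, ?_⟩
  · refine iInf_le_of_le l₀ (Polynomial.trailingDegree_le_of_ne_zero fun h1 => h₀ ?_)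
    exact (valSub_eq_zero I lam _ _).1 h1 μ₀ rfl
  · refine le_iInf fun l => ?_
    change _ ≤ (valSub (I.map (rename Sum.inl)) lam (Γ l)).trailingDegree
    by_cases h1 : valSub (I.map (rename Sum.inl)) lam (Γ l) = 0
    · rw [h1, Polynomial.trailingDegree_zero]
      exact le_top
    · rw [Polynomial.trailingDegree_eq_natTrailingDegree h1, Nat.cast_le]
      have h2 := mt Polynomial.coeff_natTrailingDegree_eq_zero.1 h1
      rw [valSub_eq_zero] at h2
      push Not at h2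
      obtain ⟨μ, h3, h4⟩ := h2
      rw [← h3]
      exact hmin μ ⟨l, h4⟩
  · have h1 : ∀ μ : Fin (n + 1) →₀ ℕ, ∑ j, (μ j : ℝ) * (lam j : ℝ) = (Finsupp.weight lam μ : ℕ) :=
      fun μ => by simp [Finsupp.weight_eq_sum]
    refine IsLeast.csInf_eq ⟨⟨μ₀, ⟨l₀, h₀⟩, h1 μ₀⟩, ?_⟩
    rintro _ ⟨μ, hμ, rfl⟩
    exact (Nat.cast_le.2 (hmin μ hμ)).trans (h1 μ).ge

private lemma val_cont {L : Type} [Finite L] {I : Ideal (MvPolynomial ι k)}
    {Γ : L → MvPolynomial (ι ⊕ Fin (n + 1)) k} (h : (spt I Γ).Nonempty) :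
    Continuous (ordR I Γ) := by
  have h1 : (spt_finite I Γ).toFinset.Nonempty := by simpa using h
  have h2 : ordR I Γ = fun lam => (spt_finite I Γ).toFinset.inf' h1
      fun μ => ∑ j, (μ j : ℝ) * lam j := by
    funext lam
    rw [Finset.inf'_eq_csInf_image, Set.Finite.coe_toFinset, ordR]
  rw [h2]
  exact Continuous.finset_inf'_apply h1 fun μ _ => by fun_prop

private lemma val_hom {L : Type} (I : Ideal (MvPolynomial ι k))
    (Γ : L → MvPolynomial (ι ⊕ Fin (n + 1)) k) (lam : Fin (n + 1) → ℝ) {x : ℝ} (hx : 0 ≤ x) :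
    ordR I Γ (fun j => lam j / x) = ordR I Γ lam / x := by
  rw [ordR, ordR, div_eq_inv_mul, ← smul_eq_mul, ← Real.sInf_smul_of_nonneg (inv_nonneg.2 hx),
    ← Set.image_smul, Set.image_image]
  congr 2
  funext μ
  rw [smul_eq_mul, Finset.mul_sum]
  exact Finset.sum_congr rfl fun j _ => by ring

/-- Sketch.  `ordR` is positively homogeneous and Lipschitz in the weights (a minimum of finitely
many linear forms); approximate `lam` by `⌊m * lam⌋ / m`. -/
theorem val_real {L₁ L₂ L₃ L₄ : Type} [Finite L₁] [Finite L₂] [Finite L₃] [Finite L₄]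
    {I : Ideal (MvPolynomial ι k)} {Γ₁ : L₁ → MvPolynomial (ι ⊕ Fin (n + 1)) k}
    {Γ₂ : L₂ → MvPolynomial (ι ⊕ Fin (n + 1)) k} {Γ₃ : L₃ → MvPolynomial (ι ⊕ Fin (n + 1)) k}
    {Γ₄ : L₄ → MvPolynomial (ι ⊕ Fin (n + 1)) k} (h₁ : (spt I Γ₁).Nonempty)
    (h₂ : (spt I Γ₂).Nonempty) (h₃ : (spt I Γ₃).Nonempty) (h₄ : (spt I Γ₄).Nonempty) (a b : ℕ)
    (h : ∀ lam : Fin (n + 1) → ℕ, (∃ j, lam j = 0) →
      Stm.ord (I.map (rename Sum.inl)) lam Γ₁ + Stm.ord (I.map (rename Sum.inl)) lam Γ₂ +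
          a * Stm.ord (I.map (rename Sum.inl)) lam Γ₄ ≤
        (∑ j, lam j : ℕ) + Stm.ord (I.map (rename Sum.inl)) lam Γ₃ +
          b * Stm.ord (I.map (rename Sum.inl)) lam Γ₄)
    (lam : Fin (n + 1) → ℝ) (h0 : ∀ j, 0 ≤ lam j) (h1 : ∃ j, lam j = 0) :
    ordR I Γ₁ lam + ordR I Γ₂ lam + a * ordR I Γ₄ lam ≤
      ∑ j, lam j + ordR I Γ₃ lam + b * ordR I Γ₄ lam := by
  have ht : Tendsto (fun (x : ℝ) j => (⌊lam j * x⌋₊ : ℝ) / x) atTop (nhds lam) :=
    tendsto_pi_nhds.2 fun j => tendsto_nat_floor_mul_div_atTop (h0 j)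
  have c₁ := val_cont h₁
  have c₂ := val_cont h₂
  have c₃ := val_cont h₃
  have c₄ := val_cont h₄
  have hl : Continuous fun lam => ordR I Γ₁ lam + ordR I Γ₂ lam + a * ordR I Γ₄ lam := by
    fun_prop
  have hr : Continuous fun lam : Fin (n + 1) → ℝ =>
      ∑ j, lam j + ordR I Γ₃ lam + b * ordR I Γ₄ lam := by
    fun_prop
  refine le_of_tendsto_of_tendsto ((hl.tendsto lam).comp ht) ((hr.tendsto lam).comp ht) ?_
  filter_upwards [eventually_ge_atTop (0 : ℝ)] with x hx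
  have h2 := h (fun j => ⌊lam j * x⌋₊) (h1.imp fun j hj => by simp [hj])
  obtain ⟨m₁, e₁, f₁⟩ := ord_eq h₁ fun j => ⌊lam j * x⌋₊
  obtain ⟨m₂, e₂, f₂⟩ := ord_eq h₂ fun j => ⌊lam j * x⌋₊
  obtain ⟨m₃, e₃, f₃⟩ := ord_eq h₃ fun j => ⌊lam j * x⌋₊
  obtain ⟨m₄, e₄, f₄⟩ := ord_eq h₄ fun j => ⌊lam j * x⌋₊
  rw [e₁, e₂, e₃, e₄] at h2
  have h3 : m₁ + m₂ + a * m₄ ≤ ∑ j, ⌊lam j * x⌋₊ + m₃ + b * m₄ := by exact_mod_cast h2
  have h4 : (m₁ : ℝ) + m₂ + a * m₄ ≤ ∑ j, (⌊lam j * x⌋₊ : ℝ) + m₃ + b * m₄ := by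
    exact_mod_cast h3
  simp only [Function.comp_apply, val_hom _ _ _ hx, f₁, f₂, f₃, f₄, ← Finset.sum_div]
  have h5 := div_le_div_of_nonneg_right h4 hx
  simpa only [add_div, mul_div_assoc] using h5

end Pool.Agent.Lib.MP_8865d3_nt.Sv
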