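import Pool.Agent.Lib.MP_8865d3_nt.Sv.SeqP
import Pool.Agent.Lib.MP_8865d3_nt.Sv.Val
import Pool.Agent.Lib.MP_8865d3_nt.Sv.TropA

/-! The local height at a place of `T` is given by the order. -/

namespace Pool.Agent.Lib.MP_8865d3_nt.Sv

open MvPolynomial Height Filter Pool.Agent.Lib.MP_651af7_nt.Av

variable {α : Type} {U : Ultrafilter α} {k ι : Type} [Field k] [NumberField k] [Fintype ι] {n : ℕ}

/-- The limit of the directions at one place. -/
theorem exists_lam {v : AbsoluteValue k ℝ} (hv : Adm v) (u : α → Fin n → k) (hu : ∀ l j, u l j ≠ 0)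
    {H : α → ℝ} (hH : Tendsto H U atTop) (hB : Bo U H fun l => ∑ j, logHeight₁ (u l j)) :
    ∃ lam : Fin (n + 1) → ℝ, (∀ j, 0 ≤ lam j) ∧ (∃ j, lam j = 0) ∧ ∀ j, Lo U H fun l =>
      |Real.log (nm v (Fin.cons 1 (u l) : Fin (n + 1) → k)) -
        Real.log (v ((Fin.cons 1 (u l) : Fin (n + 1) → k) j)) - lam j * H l| := by
  obtain ⟨C, -, hC⟩ := hB.pos hH
  set y : α → Fin (n + 1) → k := fun l => Fin.cons 1 (u l) with hyd
  have hy : ∀ l j, y l j ≠ 0 := fun l => trop_cons_ne (hu l)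
  have hS : ∀ l j, |Real.log (v (y l j))| ≤ ∑ j, logHeight₁ (u l j) := fun l j => by
    refine Fin.cases ?_ (fun j => (trop_abs_le hv _).trans ?_) j
    · simpa [hyd] using Finset.sum_nonneg fun j _ => zero_le_logHeight₁ (u l j)
    · exact Finset.single_le_sum (f := fun j => logHeight₁ (u l j))
        (fun _ _ => zero_le_logHeight₁ _) (Finset.mem_univ j)
  have hlim : ∀ j, ∃ c ∈ Set.Icc 0 (2 * C), Tendsto (fun l =>
      (Real.log (nm v (y l)) - Real.log (v (y l j))) / H l) U (nhds c) := fun j => by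
    refine isCompact_Icc.ultrafilter_le_nhds (U.map _) (le_principal_iff.2 (mem_map.2 ?_))
    filter_upwards [hC, hH.eventually_gt_atTop 0] with l h1 h2
    obtain ⟨i, hi⟩ := exists_nm v (y l)
    refine ⟨div_nonneg (sub_nonneg.2 (Real.log_le_log (v.pos (hy l j)) (le_nm v (y l) j))) h2.le,
      (div_le_iff₀ h2).2 ?_⟩
    rw [← hi]
    linarith [(abs_le.1 (hS l i)).2, (abs_le.1 (hS l j)).1]
  choose lam h1 h2 using hlim
  refine ⟨lam, fun j => (h1 j).1, ?_, fun j ε hε => ?_⟩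
  · obtain ⟨j, hj⟩ := (Ultrafilter.eventually_exists_iff (f := U)).1
      (Eventually.of_forall fun l => exists_nm v (y l))
    refine ⟨j, tendsto_nhds_unique (h2 j) (tendsto_const_nhds.congr' (hj.mono fun l hl => ?_))⟩
    simp only [hl, sub_self, zero_div]
  · filter_upwards [Metric.tendsto_nhds.1 (h2 j) ε hε, hH.eventually_gt_atTop 0] with l h3 h4
    rw [Real.dist_eq, div_sub' h4.ne', abs_div, abs_of_pos h4, div_lt_iff₀ h4, mul_comm (H l)] at h3
    exact h3.le

/-- No face polynomial vanishes at `(x, y)`. -/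
def FaceNe {L : Type} (I : Ideal (MvPolynomial ι k)) (Γ : L → MvPolynomial (ι ⊕ Fin (n + 1)) k)
    (x : ι → k) (y : Fin (n + 1) → k) : Prop :=
  ∀ l, ∀ S ⊆ (cur (Γ l)).support, (∃ μ ∈ S, coeff μ (cur (Γ l)) ∉ I) →
    ∑ μ ∈ S, eval x (coeff μ (cur (Γ l))) * tropM μ y ≠ 0

/-- The lower bound for a face polynomial. -/
theorem trop_face (A : AV k ι) (T : Finset (AbsoluteValue k ℝ))
    {v : AbsoluteValue k ℝ} (ha : Adm v) (hv : v ∈ T) (x : α → A.Pt k) (u : α → Fin n → k)
    (hu : ∀ l j, u l j ≠ 0) (hH : Tendsto (fun l => hp (x l) (u l)) U atTop)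
    (hdf : Lo U (fun l => hp (x l) (u l)) fun l => df T (u l))
    (S : Finset (Fin (n + 1) →₀ ℕ)) {c : (Fin (n + 1) →₀ ℕ) → MvPolynomial ι k} {e m : ℕ}
    (hc : ∀ μ ∈ S, (c μ).IsHomogeneous e) (hm : ∀ μ ∈ S, ∑ j, μ j = m) {μ₀ : Fin (n + 1) →₀ ℕ}
    (h0 : μ₀ ∈ S) {g : α → ℝ} (hg : ∀ μ ∈ S, Lo U (fun l => hp (x l) (u l)) fun t =>
      |Real.log (v (tropM μ (Fin.cons 1 (u t)))) - g t|)
    (hne : ∀ᶠ t in U, ∑ μ ∈ S, eval (x t).co (c μ) * tropM μ (Fin.cons 1 (u t)) ≠ 0) :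
    Lo U (fun l => hp (x l) (u l)) fun t => e * Real.log (nm v (x t).co) + g t -
      Real.log (v (∑ μ ∈ S, eval (x t).co (c μ) * tropM μ (Fin.cons 1 (u t)))) := by
  classical
  set q := S.equivFin.symm
  have hy : ∀ μ t, tropM μ (Fin.cons 1 (u t) : Fin (n + 1) → k) ≠ 0 := fun μ t =>
    tropM_ne μ (trop_cons_ne (hu t))
  set w : α → Fin S.card → k := fun t i =>
    tropM (q i).1 (Fin.cons 1 (u t)) / tropM μ₀ (Fin.cons 1 (u t)) with hw
  have hlog : ∀ (v : AbsoluteValue k ℝ) t i, Real.log (v (w t i)) =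
      Real.log (v (tropM (q i).1 (Fin.cons 1 (u t)))) -
        Real.log (v (tropM μ₀ (Fin.cons 1 (u t)))) := fun v t i => by
    rw [hw, map_div₀, Real.log_div (v.pos (hy _ t)).ne' (v.pos (hy _ t)).ne']
  have hev : ∀ t, eval (Sum.elim (x t).co (w t))
      (tropP Finset.univ (fun i => c (q i).1) fun i => Finsupp.single i 1) =
      (∑ μ ∈ S, eval (x t).co (c μ) * tropM μ (Fin.cons 1 (u t))) /
        tropM μ₀ (Fin.cons 1 (u t)) := fun t => by
    rw [tropP_eval, ← Finset.sum_coe_sort S, ← Equiv.sum_comp q, Finset.sum_div]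
    refine Finset.sum_congr rfl fun i _ => ?_
    have h1 : tropM (Finsupp.single i 1) (w t) = w t i := by
      simp [tropM, Finsupp.single_apply, pow_ite]
    rw [h1, mul_div_assoc]
  have h1 := seq_prox A (tropP_hom Finset.univ (c := fun i => c (q i).1)
    (fun i => Finsupp.single i 1) fun i _ => hc _ (q i).2) (T.erase v)
    ha (Finset.notMem_erase v T) x w
    (fun t i => div_ne_zero (hy _ t) (hy _ t)) hH
    ⟨1 + S.card * (2 * m), Eventually.of_forall fun t => by
      have a0 : 0 ≤ AV.ht (x t) := logHeight_nonneg _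
      have a1 : 0 ≤ ∑ j, logHeight₁ (u t j) := Finset.sum_nonneg fun _ _ => zero_le_logHeight₁ _
      have a2 := Finset.sum_le_card_nsmul Finset.univ (fun i => logHeight₁ (w t i))
        (2 * m * ∑ j, logHeight₁ (u t j)) fun i _ => by
          have b1 := trop_ht (u t) (q i).1
          have b2 := trop_ht (u t) μ₀
          rw [hm _ (q i).2] at b1
          rw [hm _ h0] at b2
          simp only [hw]
          rw [div_eq_mul_inv]
          refine (logHeight₁_mul_le _ _).trans ?_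
          rw [logHeight₁_inv]
          linarith
      rw [Finset.card_univ, Fintype.card_fin, nsmul_eq_mul] at a2
      have a3 : 0 ≤ (S.card : ℝ) * (2 * m) * AV.ht (x t) := by positivity
      simp only [hp]
      linarith⟩
    (by
      have a1 : Lo U (fun l => hp (x l) (u l)) fun t => ∑ i, |Real.log (v (w t i))| :=
        Lo.sum hH _ fun i _ => ((hg _ (q i).2).add (hg _ h0)).mono (Eventually.of_forall fun t => by
          rw [hlog, abs_sub_comm (Real.log (v (tropM μ₀ _))) (g t)]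
          exact abs_sub_le _ _ _)
      refine ((lo_mul_nonneg hH hdf (c := S.card * (2 * m)) (by positivity)).add
        (lo_mul_nonneg hH a1 (mlt_nonneg v))).mono (Eventually.of_forall fun t => ?_)
      rw [df, osum_erase T hv (finS_df _), df, ← osum_const_mul T (finS_df _)]
      refine add_le_add_left (osum_mono T (finS_df _) ((finS_df _).const_mul _) fun v' _ _ => ?_) _
      have a2 := Finset.sum_le_card_nsmul Finset.univ (fun i => |Real.log (v' (w t i))|)
        (2 * m * ∑ j, |Real.log (v' (u t j))|) fun i _ => by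
          have b1 := trop_abs v' (hu t) (q i).1
          have b2 := trop_abs v' (hu t) μ₀
          rw [hm _ (q i).2] at b1
          rw [hm _ h0] at b2
          rw [hlog]
          refine (abs_sub _ _).trans ?_
          linarith
      rwa [Finset.card_univ, Fintype.card_fin, nsmul_eq_mul, ← mul_assoc] at a2)
    (hne.mono fun t ht => by
      rw [hev]
      exact div_ne_zero ht (hy _ t))
  refine (h1.add (hg _ h0)).mono (hne.mono fun t ht => ?_)
  rw [hev, map_div₀, Real.log_div (v.pos ht).ne' (v.pos (hy _ t)).ne']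
  have := neg_abs_le (Real.log (v (tropM μ₀ (Fin.cons 1 (u t)))) - g t)
  linarith

/-- The local height is given by the order. -/
theorem mv_eq (A : AV k ι) {L : Type} [Fintype L] (Γ : L → MvPolynomial (ι ⊕ Fin (n + 1)) k)
    {d : ℕ × ℕ} (hΓ : ∀ l, (Γ l).IsWeightedHomogeneous (bw ι (Fin (n + 1))) d)
    (h0 : (spt A.I Γ).Nonempty) (T : Finset (AbsoluteValue k ℝ))
    {v : AbsoluteValue k ℝ} (ha : Adm v) (hv : v ∈ T) (x : α → A.Pt k) (u : α → Fin n → k)
    (hu : ∀ l j, u l j ≠ 0) (hH : Tendsto (fun l => hp (x l) (u l)) U atTop)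
    (hdf : Lo U (fun l => hp (x l) (u l)) fun l => df T (u l))
    (hgen : ∀ᶠ l in U, FaceNe A.I Γ (x l).co (Fin.cons 1 (u l)))
    {lam : Fin (n + 1) → ℝ} (hlam : ∀ j, Lo U (fun l => hp (x l) (u l)) fun l =>
      |Real.log (nm v (Fin.cons 1 (u l) : Fin (n + 1) → k)) -
        Real.log (v ((Fin.cons 1 (u l) : Fin (n + 1) → k) j)) - lam j * hp (x l) (u l)|) :
    Lo U (fun l => hp (x l) (u l)) fun l =>
      |mv v d Γ (x l).co (Fin.cons 1 (u l)) - ordR A.I Γ lam * hp (x l) (u l)| := by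
  classical
  have hfin := (spt_finite A.I Γ).image fun μ => ∑ j, (μ j : ℝ) * lam j
  obtain ⟨μ₀, ⟨l₀, hl₀⟩, ho⟩ : ∃ μ ∈ spt A.I Γ, ∑ j, (μ j : ℝ) * lam j = ordR A.I Γ lam :=
    (h0.image _).csInf_mem hfin
  have hle : ∀ l μ, coeff μ (cur (Γ l)) ∉ A.I → ordR A.I Γ lam ≤ ∑ j, (μ j : ℝ) * lam j :=
    fun l μ hμ => csInf_le hfin.bddBelow ⟨μ, ⟨l, hμ⟩, rfl⟩
  generalize ordR A.I Γ lam = o at ho hle
  have hne : ∀ {l μ}, coeff μ (cur (Γ l)) ∉ A.I → coeff μ (cur (Γ l)) ≠ 0 := fun h h1 =>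
    h (h1 ▸ A.I.zero_mem)
  have hmon : ∀ μ : Fin (n + 1) →₀ ℕ, ∑ j, μ j = d.2 → Lo U (fun l => hp (x l) (u l)) fun t =>
      |Real.log (v (tropM μ (Fin.cons 1 (u t)))) -
        (d.2 * Real.log (nm v (Fin.cons 1 (u t) : Fin (n + 1) → k)) -
          (∑ j, (μ j : ℝ) * lam j) * hp (x t) (u t))| := fun μ hμ => by
    refine (Lo.sum hH Finset.univ fun j _ => lo_mul_nonneg hH (hlam j)
      (Nat.cast_nonneg (μ j))).mono (Eventually.of_forall fun t => ?_)
    rw [trop_log v μ (trop_cons_ne (hu t)), ← hμ, Nat.cast_sum, Finset.sum_mul, Finset.sum_mul,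
      ← Finset.sum_sub_distrib, ← Finset.sum_sub_distrib]
    refine (Finset.abs_sum_le_sum_abs _ _).trans (Finset.sum_le_sum fun j _ => le_of_eq ?_)
    rw [← Nat.abs_cast (μ j), ← abs_mul, Nat.abs_cast, ← abs_neg]
    congr 1
    ring
  have hx : ∀ t, 0 < nm v (x t).co := fun t => by
    obtain ⟨a, ha⟩ := (AV.rep_co (x t)).unit
    exact nm_pos v (Function.ne_iff.2 ⟨a, ha.ne_zero⟩)
  have hterm : ∀ l μ (a : ℝ), (coeff μ (cur (Γ l)) ∉ A.I → a ≤ ∑ j, (μ j : ℝ) * lam j) →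
      TropUb U (fun l => hp (x l) (u l)) (fun t => d.1 * Real.log (nm v (x t).co) +
        (d.2 * Real.log (nm v (Fin.cons 1 (u t) : Fin (n + 1) → k)) - a * hp (x t) (u t)))
      fun t => v (eval (x t).co (coeff μ (cur (Γ l))) * tropM μ (Fin.cons 1 (u t))) := by
    intro l μ a ha
    by_cases hI : coeff μ (cur (Γ l)) ∈ A.I
    · refine fun ε _ => Eventually.of_forall fun t => ?_
      have h1 := (AV.rep_co (x t)).zero _ hI
      rw [aeval_eq_eval] at h1
      simp only [h1, zero_mul, map_zero]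
      exact (Real.exp_pos _).le
    obtain ⟨h1, h2⟩ := trop_bih (hΓ l) μ
    obtain ⟨C, hC⟩ := trop_eval_le v h1
    have h3 : TropUb U (fun l => hp (x l) (u l)) (fun t => d.1 * Real.log (nm v (x t).co) +
        (d.2 * Real.log (nm v (Fin.cons 1 (u t) : Fin (n + 1) → k)) - a * hp (x t) (u t)))
        fun t => nm v (x t).co ^ d.1 * v (tropM μ (Fin.cons 1 (u t))) := fun ε hε => by
      filter_upwards [hmon μ (h2 (hne hI)) ε hε, hH.eventually_ge_atTop 0] with t b1 b2
      have b3 := v.pos (tropM_ne μ (trop_cons_ne (hu t)))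
      have b4 := mul_le_mul_of_nonneg_right (ha hI) b2
      rw [← Real.log_le_iff_le_exp (mul_pos (pow_pos (hx t) _) b3),
        Real.log_mul (pow_pos (hx t) _).ne' b3.ne', Real.log_pow]
      linarith [(abs_le.1 b1).2]
    refine (h3.const_mul hH C).mono (Eventually.of_forall fun t => ?_)
      (Eventually.of_forall fun t => le_rfl)
    rw [map_mul, ← mul_assoc]
    exact mul_le_mul_of_nonneg_right ((hC _).trans (mul_le_mul_of_nonneg_right (le_abs_self C)
      (pow_pos (hx t) _).le)) (v.nonneg _)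
  have hup := fun l => (TropUb.sum hH (cur (Γ l)).support fun μ _ => hterm l μ o (hle l μ)).mono
    (f' := fun t => v (eval (Sum.elim (x t).co (Fin.cons 1 (u t))) (Γ l)))
    (Eventually.of_forall fun t => by
      rw [trop_eval]
      exact v.sum_le _ _) (Eventually.of_forall fun t => le_rfl)
  obtain ⟨c, hc, hgap⟩ := trop_gap (cur (Γ l₀)).support fun μ => ∑ j, (μ j : ℝ) * lam j - o
  set p : (Fin (n + 1) →₀ ℕ) → Prop := fun μ =>
    coeff μ (cur (Γ l₀)) ∉ A.I ∧ ∑ j, (μ j : ℝ) * lam j = o with hpd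
  have hμ₀ : μ₀ ∈ (cur (Γ l₀)).support.filter p :=
    Finset.mem_filter.2 ⟨mem_support_iff.2 (hne hl₀), hl₀, ho⟩
  have hc1 : ∀ μ ∈ (cur (Γ l₀)).support.filter p, (coeff μ (cur (Γ l₀))).IsHomogeneous d.1 :=
    fun μ _ => (trop_bih (hΓ l₀) μ).1
  have hc2 : ∀ μ ∈ (cur (Γ l₀)).support.filter p, ∑ j, μ j = d.2 :=
    fun μ hμ => (trop_bih (hΓ l₀) μ).2 (hne (Finset.mem_filter.1 hμ).2.1)
  have hM := hgen.mono fun t ht => ht l₀ _ (Finset.filter_subset p _) ⟨μ₀, hμ₀, hl₀⟩
  have hface := trop_face A T ha hv x u hu hH hdf _ (c := fun μ => coeff μ (cur (Γ l₀))) hc1 hc2 hμ₀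
    (g := fun t => d.2 * Real.log (nm v (Fin.cons 1 (u t) : Fin (n + 1) → k)) - o * hp (x t) (u t))
    (fun μ hμ => (Finset.mem_filter.1 hμ).2.2 ▸ hmon μ (hc2 μ hμ)) hM
  have hrest := TropUb.sum hH ((cur (Γ l₀)).support.filter fun μ => ¬p μ) fun μ hμ =>
    hterm l₀ μ (o + c) fun h => by
      obtain ⟨b1, b2⟩ := Finset.mem_filter.1 hμ
      have b3 := hgap μ b1 (sub_pos.2 (lt_of_le_of_ne (hle l₀ μ h) fun b => b2 ⟨h, b.symm⟩))
      linarith
  obtain ⟨hpos, hlow⟩ := trop_low hH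
    (f := fun t => nm v fun l => eval (Sum.elim (x t).co (Fin.cons 1 (u t))) (Γ l)) hc
    (hM.mono fun t ht => v.pos ht) hface
    (hrest.mono (Eventually.of_forall fun t => le_rfl)
      (Eventually.of_forall fun t => le_of_eq (by ring))) fun t => by
      refine le_trans ?_ (add_le_add (le_nm v _ l₀) (v.sum_le _ _))
      rw [trop_eval, ← Finset.sum_filter_add_sum_filter_not (cur (Γ l₀)).support p]
      refine le_trans (le_of_eq ?_) (v.sub_le_add _ _)
      rw [add_sub_cancel_right]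
  have : Nonempty L := ⟨l₀⟩
  intro ε hε
  filter_upwards [hpos, hlow ε hε, eventually_all.2 fun l => hup l ε hε] with t b1 b2 b3
  obtain ⟨l, hl⟩ := exists_nm v fun l => eval (Sum.elim (x t).co (Fin.cons 1 (u t))) (Γ l)
  have b4 := (Real.log_le_iff_le_exp b1).2 (hl ▸ b3 l)
  rw [mv, abs_le]
  constructor <;> linarith

end Pool.Agent.Lib.MP_8865d3_nt.Sv
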