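import Pool.Agent.Lib.MP_8865d3_nt.Sv.FinA
import Pool.Agent.Lib.MP_8865d3_nt.Sv.Trop

/-! Homogenisation and face polynomials. -/

namespace Pool.Agent.Lib.MP_8865d3_nt.Sv

open MvPolynomial Height Filter Finset Pool.Agent.Lib.MP_651af7_nt.Av

variable {k ι : Type} [Field k] {n : ℕ}

theorem homog_aeval {σ τ M N : Type} [AddCommMonoid M] [AddCommMonoid N] {w : σ → M} {w' : τ → N}
    (f : M →+ N) {g : σ → MvPolynomial τ k} (hg : ∀ s, (g s).IsWeightedHomogeneous w' (f (w s)))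
    {p : MvPolynomial σ k} {n : M} (hp : p.IsWeightedHomogeneous w n) :
    (aeval g p).IsWeightedHomogeneous w' (f n) := by
  rw [p.as_sum, map_sum]
  refine IsWeightedHomogeneous.sum _ _ _ fun μ hμ => ?_
  rw [aeval_monomial, ← hp (mem_support_iff.1 hμ), Finsupp.weight_apply, Finsupp.sum, map_sum,
    Finsupp.prod]
  refine IsWeightedHomogeneous.C_mul (IsWeightedHomogeneous.prod _ _ _ fun s _ => ?_) _
  rw [map_nsmul]
  exact (hg s).pow _

theorem homog_rename {σ τ M N : Type} [AddCommMonoid M] [AddCommMonoid N] {w : σ → M} {w' : τ → N}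
    (f : M →+ N) {g : σ → τ} (hg : ∀ s, w' (g s) = f (w s))
    {p : MvPolynomial σ k} {n : M} (hp : p.IsWeightedHomogeneous w n) :
    (rename g p).IsWeightedHomogeneous w' (f n) := by
  rw [rename_eq_aeval]
  exact homog_aeval f (fun s => hg s ▸ isWeightedHomogeneous_X k w' (g s)) hp

/-- Put the first variable of the second group equal to one. -/
noncomputable def deh : MvPolynomial (ι ⊕ Fin (n + 1)) k →ₐ[k] MvPolynomial (ι ⊕ Fin n) k :=
  aeval (Sum.elim (fun a => X (.inl a)) (Fin.cons 1 fun t => X (.inr t)))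

theorem eval_deh (x : ι → k) (u : Fin n → k) (f : MvPolynomial (ι ⊕ Fin (n + 1)) k) :
    eval (Sum.elim x u) (deh f) = eval (Sum.elim x (Fin.cons 1 u)) f := by
  rw [← aeval_eq_eval, ← aeval_eq_eval, deh, ← AlgHom.comp_apply, comp_aeval]
  congr 2
  funext a
  rcases a with a | a
  · simp
  · refine Fin.cases ?_ (fun j => ?_) a <;> simp

theorem deh_hom {f : MvPolynomial (ι ⊕ Fin (n + 1)) k} {d : ℕ × ℕ}
    (hf : f.IsWeightedHomogeneous (bw ι (Fin (n + 1))) d) :
    (deh f).IsWeightedHomogeneous (xw ι n) d.1 :=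
  homog_aeval (AddMonoidHom.fst ℕ ℕ) (by
    rintro (a | a)
    · exact isWeightedHomogeneous_X k (xw ι n) (.inl a)
    · refine Fin.cases ?_ (fun j => ?_) a
      · exact isWeightedHomogeneous_one k _
      · exact isWeightedHomogeneous_X k (xw ι n) (.inr j)) hf

theorem deh_mem {I : Ideal (MvPolynomial ι k)} {f : MvPolynomial (ι ⊕ Fin (n + 1)) k}
    (hf : f ∈ I.map (rename Sum.inl)) : deh f ∈ I.map (rename (Sum.inl : ι → ι ⊕ Fin n)) := by
  have h : I.map (rename Sum.inl) ≤ (I.map (rename (Sum.inl : ι → ι ⊕ Fin n))).comap deh :=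
    Ideal.map_le_iff_le_comap.2 fun g hg => by
      have h1 := Ideal.mem_map_of_mem (rename (Sum.inl : ι → ι ⊕ Fin n)) hg
      rw [rename_eq_aeval (Sum.inl : ι → ι ⊕ Fin n)] at h1
      rw [Ideal.mem_comap, Ideal.mem_comap, deh, aeval_rename,
        rename_eq_aeval (Sum.inl : ι → ι ⊕ Fin n)]
      exact h1
  exact h hf

theorem exists_homog {f : MvPolynomial (ι ⊕ Fin n) k} {m : ℕ}
    (hf : f.IsWeightedHomogeneous (xw ι n) m) : ∃ (d : ℕ × ℕ) (g : MvPolynomial (ι ⊕ Fin (n + 1)) k),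
      g.IsWeightedHomogeneous (bw ι (Fin (n + 1))) d ∧ deh g = f := by
  refine ⟨(m, f.support.sup fun μ => (Finsupp.weight (bw ι (Fin n)) μ).2),
    ∑ μ ∈ f.support, rename (Sum.map id Fin.succ) (monomial μ (coeff μ f)) * X (.inr 0) ^
      ((f.support.sup fun μ => (Finsupp.weight (bw ι (Fin n)) μ).2) -
        (Finsupp.weight (bw ι (Fin n)) μ).2), IsWeightedHomogeneous.sum _ _ _ fun μ hμ => ?_, ?_⟩
  · have h1 := (homog_rename (w' := bw ι (Fin (n + 1))) (AddMonoidHom.id _)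
      (g := Sum.map id Fin.succ) (by rintro (a | a) <;> rfl)
      (isWeightedHomogeneous_monomial (bw ι (Fin n)) μ (coeff μ f) rfl)).mul
      ((isWeightedHomogeneous_X k (bw ι (Fin (n + 1))) (.inr 0)).pow
        ((f.support.sup fun μ => (Finsupp.weight (bw ι (Fin n)) μ).2) -
          (Finsupp.weight (bw ι (Fin n)) μ).2))
    have h2 := le_sup (f := fun μ => (Finsupp.weight (bw ι (Fin n)) μ).2) hμ
    convert h1 using 1
    refine Prod.ext ?_ ?_
    · rw [← hf (mem_support_iff.1 hμ)]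
      simp only [AddMonoidHom.id_apply, Prod.fst_add, Finsupp.weight_apply, Finsupp.sum,
        Prod.fst_sum, bw, Sum.elim_inr, Prod.smul_mk, smul_zero, add_zero]
      refine sum_congr rfl ?_
      rintro (a | a) - <;> simp [xw]
    · simp only [AddMonoidHom.id_apply, Prod.snd_add, bw, Sum.elim_inr, Prod.smul_mk, smul_eq_mul,
        mul_one] at h2 ⊢
      omega
  · rw [map_sum]
    refine (sum_congr rfl fun μ _ => ?_).trans f.as_sum.symm
    rw [map_mul, map_pow, deh, aeval_X, aeval_rename]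
    simp only [Sum.elim_inr, Fin.cons_zero, one_pow, mul_one]
    refine Eq.trans ?_ (aeval_X_left_apply _)
    congr 2
    funext a
    rcases a with a | a <;> simp

theorem prod_notMem {R β : Type} [CommRing R] {P : Ideal R} (hP : P.IsPrime) (s : Finset β)
    {f : β → R} (h : ∀ b ∈ s, f b ∉ P) : ∏ b ∈ s, f b ∉ P := fun h1 => by
  obtain ⟨b, hb, h2⟩ := Ideal.IsPrime.prod_mem_iff.1 h1
  exact h b hb h2

theorem X_notMem {I : Ideal (MvPolynomial ι k)} (hI : I.IsPrime) {σ : Type} (j : σ) :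
    (X (.inr j) : MvPolynomial (ι ⊕ σ) k) ∉ I.map (rename Sum.inl) := fun h => by
  classical
  have h1 := (mem_map_iff _ _).1 h (Finsupp.single j 1)
  rw [cur, aeval_X, Sum.elim_inr, coeff_X, if_pos rfl] at h1
  exact hI.ne_top ((Ideal.eq_top_iff_one _).2 h1)

variable [Fintype ι]

theorem exists_face {L : Type} [Fintype L] {I : Ideal (MvPolynomial ι k)} (hI : I.IsPrime)
    {Γ : L → MvPolynomial (ι ⊕ Fin (n + 1)) k} {d : ℕ × ℕ}
    (hΓ : ∀ l, (Γ l).IsWeightedHomogeneous (bw ι (Fin (n + 1))) d) :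
    ∃ (Θ : MvPolynomial (ι ⊕ Fin (n + 1)) k) (e : ℕ × ℕ),
      Θ.IsWeightedHomogeneous (bw ι (Fin (n + 1))) e ∧ Θ ∉ I.map (rename Sum.inl) ∧
      ∀ x y, eval (Sum.elim x y) Θ ≠ 0 → FaceNe I Γ x y := by
  classical
  refine ⟨∏ l, ∏ S ∈ (cur (Γ l)).support.powerset.filter fun S => ∃ μ ∈ S, coeff μ (cur (Γ l)) ∉ I,
    tropP S (fun μ => coeff μ (cur (Γ l))) id, _,
    IsWeightedHomogeneous.prod _ _ _ fun l _ => IsWeightedHomogeneous.prod _ _ (fun _ => d)
      fun S hS => IsWeightedHomogeneous.sum _ _ _ fun μ hμ => ?_,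
    prod_notMem (p0_prime_inl hI) _ fun l _ => prod_notMem (p0_prime_inl hI) _ fun S hS h => ?_,
    fun x y h l S h1 h2 => ?_⟩
  · obtain ⟨h1, h2⟩ := trop_bih (hΓ l) μ
    have h3 := h2 (mem_support_iff.1 (mem_powerset.1 (mem_filter.1 hS).1 hμ))
    have h4 := (homog_rename (w' := bw ι (Fin (n + 1))) (AddMonoidHom.inl ℕ ℕ) (g := Sum.inl)
      (fun _ => rfl) h1).mul (homog_rename (w' := bw ι (Fin (n + 1))) (AddMonoidHom.inr ℕ ℕ)
      (g := Sum.inr) (fun _ => rfl) (isHomogeneous_monomial (d := μ) (n := d.2) (1 : k)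
        (by rw [Finsupp.degree_eq_sum, h3])))
    simpa using h4
  · obtain ⟨μ, h1, h2⟩ := (mem_filter.1 hS).2
    have h3 := (mem_map_iff _ _).1 h μ
    simp only [tropP_cur, coeff_sum, id, coeff_monomial, sum_ite_eq', if_pos h1] at h3
    exact h2 h3
  · rw [map_prod, prod_ne_zero_iff] at h
    have h3 := h l (mem_univ l)
    rw [map_prod, prod_ne_zero_iff] at h3
    simpa only [tropP_eval, id] using h3 S (mem_filter.2 ⟨mem_powerset.2 h1, h2⟩)

omit [Fintype ι] in
theorem FaceNe.ne {L : Type} {I : Ideal (MvPolynomial ι k)}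
    {Γ : L → MvPolynomial (ι ⊕ Fin (n + 1)) k} {x : ι → k} {y : Fin (n + 1) → k}
    (h : FaceNe I Γ x y) (h0 : (spt I Γ).Nonempty) :
    (fun l => eval (Sum.elim x y) (Γ l)) ≠ 0 := fun h1 => by
  obtain ⟨μ, l, hl⟩ := h0
  refine h l _ Subset.rfl ⟨μ, mem_support_iff.2 fun h2 => hl (h2 ▸ I.zero_mem), hl⟩ ?_
  rw [← trop_eval]
  exact congrFun h1 l

omit [Fintype ι] in
theorem spt_nonempty {L : Type} {I : Ideal (MvPolynomial ι k)}
    {Γ : L → MvPolynomial (ι ⊕ Fin (n + 1)) k} :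
    (spt I Γ).Nonempty ↔ ∃ l, Γ l ∉ I.map (rename Sum.inl) := by
  simp only [mem_map_iff, not_forall]
  exact exists_comm

end Pool.Agent.Lib.MP_8865d3_nt.Sv
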