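import Pool.Agent.Lib.MP_8865d3_nt.Sv.Voc
import Pool.Agent.Lib.MP_651af7_nt.Av.Tr

/-! Dimension and generic points. -/

namespace Pool.Agent.Lib.MP_8865d3_nt.Sv

open MvPolynomial Pool.Agent.Lib.MP_651af7_nt.Av

set_option linter.unusedSectionVars false

variable {k ι K F F' : Type} [Field k] [Field K] [Field F] [Field F'] [Algebra K F] [Algebra K F']

namespace GV

variable (A : GV k ι) [Finite ι] [Algebra k K] [Algebra k F] [IsScalarTower k K F]

theorem mem_IK_iff {f : MvPolynomial ι k} : MvPolynomial.map (algebraMap k K) f ∈ A.IK K ↔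
    f ∈ A.I := by
  refine ⟨fun h => ?_, fun h => Ideal.mem_map_of_mem _ h⟩
  obtain ⟨l, hl⟩ := Module.Projective.exists_dual_eq_one k (one_ne_zero (α := K))
  have h1 := trCw_mem l h
  have h2 : trCw l (MvPolynomial.map (algebraMap k K) f) = f := by
    ext μ
    rw [coeff_trCw, coeff_map, Algebra.algebraMap_eq_smul_one, map_smul, hl, smul_eq_mul, mul_one]
  rwa [h2] at h1

theorem IK_hom : ∀ P ∈ A.IK K, ∀ d, homogeneousComponent d P ∈ A.IK K := by
  intro P hP d
  have key : ∀ Q, homogeneousComponent d (Q * P) ∈ A.IK K := by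
    refine Submodule.span_induction
      (p := fun P _ => ∀ Q, homogeneousComponent d (Q * P) ∈ A.IK K) ?_ ?_ ?_ ?_ hP
    · rintro _ ⟨f, hf, rfl⟩ Q
      induction Q using MvPolynomial.induction_on' with
      | monomial μ c =>
        have h1 : monomial μ c * MvPolynomial.map (algebraMap k K) f =
            c • MvPolynomial.map (algebraMap k K) (monomial μ 1 * f) := by
          rw [map_mul, map_monomial, map_one, ← smul_mul_assoc, smul_monomial, smul_eq_mul, mul_one]
        have h2 : ∀ g : MvPolynomial ι k, homogeneousComponent d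
            (MvPolynomial.map (algebraMap k K) g) =
            MvPolynomial.map (algebraMap k K) (homogeneousComponent d g) := by
          intro g
          ext ν
          simp only [coeff_homogeneousComponent, coeff_map]
          split_ifs <;> simp
        rw [h1, map_smul, h2]
        exact Submodule.smul_of_tower_mem _ _
          (Ideal.mem_map_of_mem _ (A.hom _ (A.I.mul_mem_left _ hf) d))
      | add p q hp hq =>
        rw [add_mul, map_add]
        exact add_mem hp hq
    · simp
    · intro x y _ _ hx hy Q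
      rw [mul_add, map_add]
      exact add_mem (hx Q) (hy Q)
    · intro a x _ hx Q
      rw [smul_eq_mul, ← mul_assoc]
      exact hx _
  simpa using key 1

omit [Finite ι] in
theorem tr_zero_IK {w : ι → F} (hw : ∀ f ∈ A.I, aeval w f = 0) : ∀ f ∈ A.IK K, aeval w f = 0 := by
  have h : A.IK K ≤ RingHom.ker (aeval w : MvPolynomial ι K →ₐ[K] F) :=
    Ideal.map_le_iff_le_comap.2 fun f hf => by
      change aeval w (MvPolynomial.map (algebraMap k K) f) = 0
      rw [aeval_map_algebraMap]
      exact hw f hf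
  exact h

theorem tr_prime : A.I.IsPrime := by
  have := A.prime k
  have h : A.I = (A.IK k).comap (MvPolynomial.map (algebraMap k k)) :=
    Ideal.ext fun f => A.mem_IK_iff.symm
  rw [h]
  exact Ideal.comap_isPrime _ (A.I.map _)

variable (K) in
/-- A point with ideal `IK` and its degrees. -/
theorem tr_gen : ∃ (M : Type) (_ : Field M) (_ : Algebra k M) (_ : Algebra K M)
    (_ : IsScalarTower k K M) (x : ι → M), (∀ f, aeval x f = 0 ↔ f ∈ A.IK K) ∧ x A.ao ≠ 0 ∧
      td K (rat x) = A.dim ∧ td K (Set.range x) = A.dim + 1 := by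
  have : (A.IK K).IsPrime := A.prime K
  have := A.tr_prime
  obtain ⟨M, _, _, x, hx, -⟩ := tr_point (A.IK K)
  obtain ⟨M₀, _, _, x₀, hx₀, hd⟩ := tr_point A.I
  let _ : Algebra k M := ((algebraMap K M).comp (algebraMap k K)).toAlgebra
  have : IsScalarTower k K M := .of_algebraMap_eq fun _ => rfl
  have hk : ∀ f : MvPolynomial ι k, aeval x f = 0 ↔ f ∈ A.I := fun f => by
    rw [← A.mem_IK_iff (K := K), ← hx, aeval_map_algebraMap]
  have h0 : x A.ao ≠ 0 := fun h => by
    have h1 := (rep_zero (A := A) (R := k)).zero _ ((hk (X A.ao)).1 (by rwa [aeval_X]))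
    rw [aeval_X, A.o_ao, map_one] at h1
    exact one_ne_zero h1
  have h1 : td K (Set.range x) = td k (Set.range x₀) := by
    rw [tr_td_base (k := k) hx]
    exact le_antisymm (td_le_of_spec fun f hf => (hk f).2 ((hx₀ f).1 hf)).1
      (td_le_of_spec fun f hf => (hx₀ f).2 ((hk f).1 hf)).1
  have h2 : td K (Set.range x) = td K (rat x) + 1 := by
    refine le_antisymm (td_range_le x) ((tr_cone (K := K) (RatFunc.transcendental_X (K := M))
      (Function.ne_iff.2 ⟨_, h0⟩)).trans (td_le_of_spec fun f hf => ?_).1)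
    refine zero_mul_of_hom A.IK_hom (fun g hg => ?_) _ f ((hx f).1 hf)
    exact (aeval_algebraMap_apply _ x g).trans (by rw [(hx g).2 hg, map_zero])
  have h3 : td K (rat x) = A.dim := by
    rw [h1, hd] at h2
    have h4 : td K (rat x) ≠ ⊤ := fun h => by simp [h] at h2
    obtain ⟨m, hm⟩ := ENat.ne_top_iff_exists.1 h4
    rw [← hm] at h2 ⊢
    rw [dim, show Cardinal.toNat (Algebra.trdeg k (MvPolynomial ι k ⧸ A.I)) = m + 1 by
      exact_mod_cast h2, Nat.add_sub_cancel]
  exact ⟨M, _, _, _, this, x, hx, h0, h3, by rw [h2, h3]⟩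

theorem td_le_dim {w : ι → F} (hw : ∀ f ∈ A.I, aeval w f = 0) : td K (rat w) ≤ A.dim := by
  by_cases h0 : w = 0
  · obtain ⟨L, hL, -⟩ := tr_cl (K := K) (∅ : Set F)
    refine (tr_td_le (S := ∅) ?_).trans ((Matroid.eRk_empty _).le.trans (zero_le))
    rintro _ ⟨p, rfl⟩
    rw [← hL, h0]
    exact L.div_mem L.zero_mem L.zero_mem
  obtain ⟨M, _, _, _, _, x, hx, -, hd, -⟩ := A.tr_gen K
  rw [← hd]
  exact (td_rat_le_of_spec h0 fun f _ _ hf => A.tr_zero_IK hw f ((hx f).1 hf)).1

theorem gen_iff {w : ι → F} (h0 : w ≠ 0) (hw : ∀ f ∈ A.I, aeval w f = 0) :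
    Gen (A.IK K) w ↔ td K (rat w) = A.dim := by
  obtain ⟨M, _, _, _, _, x, hx, hx0, hd, -⟩ := A.tr_gen K
  refine ⟨fun h => le_antisymm (A.td_le_dim hw) ?_, fun h f n hn hf => (hx f).1 ?_⟩
  · rw [← hd]
    exact (td_rat_le_of_spec (Function.ne_iff.2 ⟨_, hx0⟩)
      fun f n hn hf => (hx f).2 (h f n hn hf)).1
  · exact (td_rat_le_of_spec h0 fun f _ _ hf => A.tr_zero_IK hw f ((hx f).1 hf)).2
      (hd.trans h.symm).le f n hn hf

end GV

end Pool.Agent.Lib.MP_8865d3_nt.Sv
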