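import Pool.Agent.Lib.MP_8865d3_nt.Sv.EJc

/-! Engine: the gain from the vanishing conditions. -/

namespace Pool.Agent.Lib.MP_8865d3_nt.Sv.Cfg

open MvPolynomial Finset
open Pool.Agent.Lib.MP_651af7_nt.Av Pool.Agent.Lib.MP_651af7_nt.Av.Cfg

variable {k ι R : Type} [Field k] [Fintype ι] [CommRing R] [Algebra k R] {g m : ℕ}
  (F : Cfg k ι g m) {B : GV k ι} {v : AbsoluteValue k ℝ} {S : SN R (IsNonarchimedean v)}
  {e ρ L : ℕ} {mk : Bool → Finset (Fin (g + 1))}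

/-- One pair.  By `eval_Ee`, `Ee_hom`, `IsRd.expand` and `Finset.prod_univ_sum` the sum is
`∑ ω ∈ pat, (∑ t, h t * ∏ Jc) * ∏ mon`; the forbidden patterns drop out; `sum_le_card`, `Jc_le`,
`mon_le` with `s * Y` in the place of `Y`, `card_Mon_le_pow`, `card_Bx_le`, `E_le_pow`. -/
theorem pair_gain (he : 1 ≤ e) (hS : S.Ov v) (hrd : ∀ o, IsRd B.I e ρ (F.u o) (F.rd o))
    {s Y : OO m → ℝ} (hs : ∀ o, Sz B v (F.u o) (F.rd o) (s o)) {y : OO m → ι → R}
    (hy0 : ∀ o, ∀ f ∈ B.I, aeval (y o) f = 0) (hY : ∀ o, 1 ≤ Y o) (hy : ∀ o a, S.N (y o a) ≤ Y o)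
    (p : Fin m) {γ : ℝ} (hγ0 : 0 ≤ γ) (hγ1 : γ ≤ 1)
    (hu : ∀ b, ∀ l ∈ mk b, S.N (aeval (y (some (p, b))) (F.u (some (p, b)) l)) ≤
      γ ^ 4 ^ F.j (p, b) * Y (some (p, b)) ^ e) (a : Bool → ι) (h : TT g F.n p → R) {H : ℝ}
    (hH : 0 ≤ H) (hh : ∀ t, S.N (h t) ≤ H) (h0 : ∀ ω ∈ F.low e ρ L mk p,
      ∑ t, h t * ∏ b, F.Jc B (p, b) (a b) (y none) (t b) (ω b) = 0) :
    S.N (∑ t, h t * ∏ b, bx (F.arm B (p, b) (a b) (y none) (y (some (p, b)))) (t b)) ≤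
      (γ ^ L * ∏ b, (s (some (p, b)) ^ (g + Fintype.card ι + 5) * Y (some (p, b))) ^
        F.dg (some (p, b)) * (s none * Y none) ^ (2 * 4 ^ F.j (p, b) * (g * F.n (some (p, b))))) *
        H := by
  classical
  have s1 : ∀ o, 1 ≤ s o := fun o => one_le_of_two (hs o).two
  have s0 : ∀ o, 0 ≤ s o := fun o => zero_le_one.trans (s1 o)
  have Y0 : ∀ o, 0 ≤ Y o := fun o => zero_le_one.trans (hY o)
  have e1 : ∑ t, h t * ∏ b, bx (F.arm B (p, b) (a b) (y none) (y (some (p, b)))) (t b) =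
      ∑ ω ∈ F.pat e ρ p, (∑ t, h t * ∏ b, F.Jc B (p, b) (a b) (y none) (t b) (ω b)) *
        ∏ b, mon (F.u (some (p, b))) (y (some (p, b))) (ω b) := by
    simp only [sum_mul]
    rw [sum_comm]
    refine sum_congr rfl fun t _ => ?_
    simp only [mul_assoc, ← prod_mul_distrib]
    rw [← mul_sum, pat, ← prod_univ_sum (fun b => Mon ι g e ρ (F.dg (some (p, b)))) fun b ω =>
      F.Jc B (p, b) (a b) (y none) (t b) ω * mon (F.u (some (p, b))) (y (some (p, b))) ω]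
    congr 1
    refine prod_congr rfl fun b _ => ?_
    rw [← F.eval_Ee B, (hrd _).expand (F.Ee_hom B _ _ _ _) (hy0 _)]
    rfl
  have c1 : E (IsNonarchimedean v) (F.pat e ρ p).card ≤
      ∏ b, s (some (p, b)) ^ ((g + 1 + Fintype.card ι) * F.dg (some (p, b))) := by
    rw [pat, Fintype.card_piFinset, Nat.cast_prod, E_prod]
    exact prod_le_prod (fun b _ => E_nonneg (Nat.cast_nonneg _)) fun b _ =>
      E_le_pow (hs _).two (by exact_mod_cast card_Mon_le_pow)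
  have c2 : E (IsNonarchimedean v) (univ : Finset (TT g F.n p)).card ≤
      ∏ b, s (some (p, b)) ^ F.dg (some (p, b)) := by
    rw [card_univ, Fintype.card_pi, Nat.cast_prod, E_prod]
    refine prod_le_prod (fun b _ => E_nonneg (Nat.cast_nonneg _)) fun b _ =>
      E_le_pow (hs _).two ?_
    exact_mod_cast (card_Bx_le _ _).trans (Nat.pow_le_pow_right two_pos (by simp only [dg]; omega))
  obtain ⟨A, hA⟩ : ∃ A, A = ∏ b, s (some (p, b)) ^ (2 * F.dg (some (p, b))) *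
    (s none * Y none) ^ (2 * 4 ^ F.j (p, b) * (g * F.n (some (p, b)))) := ⟨_, rfl⟩
  have A0 : 0 ≤ A := hA ▸ prod_nonneg fun b _ =>
    mul_nonneg (pow_nonneg (s0 _) _) (pow_nonneg (mul_nonneg (s0 _) (Y0 _)) _)
  have P0 : 0 ≤ ∏ b, (s (some (p, b)) * Y (some (p, b))) ^ F.dg (some (p, b)) :=
    prod_nonneg fun b _ => pow_nonneg (mul_nonneg (s0 _) (Y0 _)) _
  have Q0 : 0 ≤ (∏ b, s (some (p, b)) ^ F.dg (some (p, b))) * (H * A) :=
    mul_nonneg (prod_nonneg fun b _ => pow_nonneg (s0 _) _) (mul_nonneg hH A0)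
  have M0 := mul_nonneg Q0 (mul_nonneg (pow_nonneg hγ0 L) P0)
  rw [e1]
  refine (S.sum_le_card _ M0 fun ω hω => ?_).trans
    ((mul_le_mul_of_nonneg_right c1 M0).trans_eq ?_)
  · by_cases hl : ω ∈ F.low e ρ L mk p
    · rw [h0 ω hl, zero_mul, S.zero]
      exact M0
    have hL : L ≤ ∑ b, 4 ^ F.j (p, b) * ∑ l ∈ mk b, ω b (.inl l) :=
      not_lt.1 fun h => hl (mem_filter.2 ⟨hω, h⟩)
    refine S.mul_le ((S.sum_le_card _ (mul_nonneg hH A0) fun t _ => S.mul_le (hh t) ?_).trans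
      (mul_le_mul_of_nonneg_right c2 (mul_nonneg hH A0))) ?_
    · rw [hA]
      exact S.prod_le _ fun b _ => F.Jc_le hS _ (hs none).toSz₀ (hs _) (hy none) _ _ _
    · have hp : ∀ o, Y o ^ e ≤ (s o * Y o) ^ e := fun o =>
        pow_le_pow_left₀ (Y0 o) (le_mul_of_one_le_left (Y0 o) (s1 o)) e
      refine (S.prod_le _ fun b _ => S.mon_le he (mul_nonneg (s0 _) (Y0 _))
        (pow_nonneg hγ0 (4 ^ F.j (p, b)))
        (fun c => (hy _ c).trans (le_mul_of_one_le_left (Y0 _) (s1 _))) (fun l => ?_)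
        (fun l hl => (hu b l hl).trans (mul_le_mul_of_nonneg_left (hp _) (pow_nonneg hγ0 _)))
        (Fintype.mem_piFinset.1 hω b)).trans ?_
      · refine (hS.aeval_le ((hrd _).hu l) (Y0 _) (hy _)).trans ?_
        rw [mul_pow]
        exact mul_le_mul_of_nonneg_right (((hs _).u l).trans (le_self_pow₀ (s1 _) (by omega)))
          (pow_nonneg (Y0 _) _)
      · simp only [← pow_mul]
        rw [prod_mul_distrib, prod_pow_eq_pow_sum]
        exact mul_le_mul_of_nonneg_right (pow_le_pow_of_le_one hγ0 hγ1 hL) P0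
  · simp only [hA, Fintype.prod_bool, mul_pow]
    ring

/-- `SN.multi` with `pair_gain` and `Van.eq_zero`. -/
theorem FF_gain (he : 1 ≤ e) (hS : S.Ov v) (hrd : ∀ o, IsRd B.I e ρ (F.u o) (F.rd o))
    {s Y : OO m → ℝ} (hs : ∀ o, Sz B v (F.u o) (F.rd o) (s o)) {y : OO m → ι → R}
    (hy0 : ∀ o, ∀ f ∈ B.I, aeval (y o) f = 0) (hY : ∀ o, 1 ≤ Y o) (hy : ∀ o a, S.N (y o a) ≤ Y o)
    {γ : Fin m → ℝ} (hγ0 : ∀ p, 0 ≤ γ p) (hγ1 : ∀ p, γ p ≤ 1)
    (hu : ∀ p b, ∀ l ∈ mk b, S.N (aeval (y (some (p, b))) (F.u (some (p, b)) l)) ≤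
      γ p ^ 4 ^ F.j (p, b) * Y (some (p, b)) ^ e) {c : Co g F.n} {H : ℝ} (hH : 1 ≤ H)
    (hc : ∀ z τ, |(c z τ : ℝ)| ≤ H) (hV : F.Van B e ρ L mk c) (a : Fin m × Bool → ι) :
    S.N (F.FF B c a y) ≤ E (IsNonarchimedean v) H *
      (∏ o, (s o ^ (g + Fintype.card ι + 5) * Y o) ^ F.dg o) * ∏ p, γ p ^ L := by
  have s1 : ∀ o, 1 ≤ s o := fun o => one_le_of_two (hs o).two
  have s0 : ∀ o, 0 ≤ s o := fun o => zero_le_one.trans (s1 o)
  have Y0 : ∀ o, 0 ≤ Y o := fun o => zero_le_one.trans (hY o)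
  have H0 : 0 ≤ E (IsNonarchimedean v) H := E_nonneg (zero_le_one.trans hH)
  have z0 : 0 ≤ s none * Y none := mul_nonneg (s0 _) (Y0 _)
  have w0 : ∀ o, 0 ≤ s o ^ (g + Fintype.card ι + 5) * Y o := fun o =>
    mul_nonneg (pow_nonneg (s0 o) _) (Y0 o)
  refine (S.multi (T := fun p => TT g F.n p) (L := fun p => {ω // ω ∈ F.low e ρ L mk p})
    (fun p t => ∏ b, bx (F.arm B (p, b) (a (p, b)) (y none) (y (some (p, b)))) (t b))
    (fun p ω t => ∏ b, F.Jc B (p, b) (a (p, b)) (y none) (t b) (ω.1 b)) _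
    (fun p => mul_nonneg (pow_nonneg (hγ0 p) L) (prod_nonneg fun b _ =>
      mul_nonneg (pow_nonneg (w0 _) _) (pow_nonneg z0 _)))
    (fun p h H hH hh h0 => F.pair_gain he hS hrd hs hy0 hY hy p (hγ0 p) (hγ1 p) (hu p)
      (fun b => a (p, b)) h hH hh fun ω hω => h0 ⟨ω, hω⟩)
    (fun τ => ∑ z, (c z τ : R) * bx (fun l => y none (F.q none l)) z)
    (E (IsNonarchimedean v) H * (s none * Y none) ^ (g * F.n none))
    (mul_nonneg H0 (pow_nonneg z0 _)) (fun τ => ?_)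
    fun p ω τ => hV.eq_zero (hy0 none) p (fun b => a (p, b)) ω.2 τ).trans ?_
  · refine (S.sum_le_card _ (mul_nonneg H0 (pow_nonneg (Y0 none) (g * F.n none))) fun z _ =>
      S.mul_le ((S.intCast_le _).trans (E_mono (hc z τ))) (S.bx_le (fun l => hy _ _) z)).trans ?_
    rw [mul_pow, mul_left_comm]
    exact mul_le_mul_of_nonneg_left (mul_le_mul_of_nonneg_right (E_le_pow (hs none).two
      (by exact_mod_cast card_Bx_le _ _)) (pow_nonneg (Y0 _) _)) H0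
  · have h1 : (s none * Y none) ^ F.dg none ≤
        (s none ^ (g + Fintype.card ι + 5) * Y none) ^ F.dg none :=
      pow_le_pow_left₀ z0 (mul_le_mul_of_nonneg_right (le_self_pow₀ (s1 _) (by omega)) (Y0 _)) _
    rw [Fintype.prod_option]
    refine le_of_eq_of_le ?_ (mul_le_mul_of_nonneg_right (mul_le_mul_of_nonneg_left
      (mul_le_mul_of_nonneg_right h1 (prod_nonneg fun i _ => pow_nonneg (w0 _) _)) H0)
      (prod_nonneg fun p _ => pow_nonneg (hγ0 p) L))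
    rw [show F.dg none = g * F.n none + ∑ i, 2 * 4 ^ F.j i * (g * F.n (some i)) from rfl, pow_add,
      ← prod_pow_eq_pow_sum, Fintype.prod_prod_type, Fintype.prod_prod_type]
    simp only [prod_mul_distrib]
    ring

end Pool.Agent.Lib.MP_8865d3_nt.Sv.Cfg
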