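import Pool.Agent.Lib.MP_8865d3_nt.Sv.EBd

/-! Engine: the local seminorm on the big ring. -/

namespace Pool.Agent.Lib.MP_8865d3_nt.Sv

open MvPolynomial Finset
open Pool.Agent.Lib.MP_651af7_nt.Av

variable {k ι O : Type} [Field k] [Fintype ι] [Fintype O] {r g : ℕ}

private theorem eloc_wt {ι κ : Type} [Fintype ι] [Fintype κ] {P : MvPolynomial (ι ⊕ κ) k}
    {d e : ℕ} (hP : P.IsWeightedHomogeneous (bw ι κ) (d, e)) {μ : ι ⊕ κ →₀ ℕ}
    (hμ : μ ∈ P.support) : ∑ a, μ (.inl a) = d ∧ ∑ a, μ (.inr a) = e := by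
  have h := hP (mem_support_iff.mp hμ)
  rw [Finsupp.weight_apply, Finsupp.sum_fintype _ _ (by simp), Fintype.sum_sum_type] at h
  have h1 := congrArg Prod.fst h
  have h2 := congrArg Prod.snd h
  simp [bw, Prod.fst_sum, Prod.snd_sum] at h1 h2
  exact ⟨h1, h2⟩

private theorem eloc_sub {R : Type} [CommRing R] [Algebra k R] {B : GV k ι}
    {v : AbsoluteValue k ℝ} {S : SN R (IsNonarchimedean v)} (hS : S.Ov v) {s X Y γ : ℝ}
    (hs : Sz₀ B v s) (hX : 0 ≤ X) (hY : 0 ≤ Y) (hγ : 0 ≤ γ) {x y x' y' : ι → R}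
    (hx : ∀ a, S.N (x a) ≤ X) (hy : ∀ a, S.N (y a) ≤ Y) (hx' : ∀ a, S.N (x' a) ≤ X)
    (hy' : ∀ a, S.N (y' a) ≤ Y) (dx : ∀ a, S.N (x a - x' a) ≤ γ * X)
    (dy : ∀ a, S.N (y a - y' a) ≤ γ * Y) (a b : ι) :
    S.N (B.ph a b x y - B.ph a b x' y') ≤ γ * (s ^ 3 * (X ^ 2 * Y ^ 2)) := by
  have ht : ∀ c, 0 ≤ Sum.elim (fun _ : ι => X) (fun _ : ι => Y) c := by
    rintro (c | c)
    exacts [hX, hY]
  have h1 := eval₂_sub_le (absSN v) (t := Sum.elim (fun _ => X) fun _ => Y) S (algebraMap k R) hS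
    (y := Sum.elim x y) (y' := Sum.elim x' y') hγ (by rintro (c | c); exacts [hx c, hy c])
    (by rintro (c | c); exacts [hx' c, hy' c]) (by rintro (c | c); exacts [dx c, dy c]) (B.Φ a b)
  have h2 : polN (absSN v) (Sum.elim (fun _ : ι => X) fun _ : ι => Y) (B.Φ a b) ≤
      pl v (B.Φ a b) * (X ^ 2 * Y ^ 2) := polN_le_mul _ ht (by positivity) fun μ hμ => by
    obtain ⟨e1, e2⟩ := eloc_wt (B.bih a b) hμ
    rw [wt_eq, Fintype.prod_sum_type]
    simp only [Sum.elim_inl, Sum.elim_inr, prod_pow_eq_pow_sum, e1, e2, le_refl]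
  have h3 : (B.Φ a b).totalDegree ≤ 4 := by
    refine Finset.sup_le fun μ hμ => ?_
    obtain ⟨e1, e2⟩ := eloc_wt (B.bih a b) hμ
    rw [Finsupp.sum_fintype _ _ (by simp), Fintype.sum_sum_type, e1, e2]
  have h4 : E (IsNonarchimedean v) (B.Φ a b).totalDegree ≤ s ^ 2 :=
    E_le_pow hs.two (by exact_mod_cast h3)
  have h5 := one_le_of_two hs.two
  refine h1.trans ?_
  calc _ ≤ s ^ 2 * γ * (s * (X ^ 2 * Y ^ 2)) :=
        mul_le_mul (mul_le_mul_of_nonneg_right h4 hγ)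
          (h2.trans (mul_le_mul_of_nonneg_right (hs.Φ a b) (by positivity)))
          (polN_nonneg _ ht _) (by positivity)
    _ = _ := by ring

private theorem eloc_add {R : Type} [CommRing R] {na : Prop} (S : SN R na) {f g : R} {s M : ℝ}
    (hs : E na 2 ≤ s) (hM : 0 ≤ M) (hf : S.N (f - g) ≤ M) (hg : S.N g ≤ M) : S.N f ≤ s * M := by
  have h := S.add_le (s := 1) (t := 1) (M := M) (f := f - g) (g := g) (by rwa [E_one, one_mul])
    (by rwa [E_one, one_mul])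
  rw [sub_add_cancel, one_add_one_eq_two] at h
  exact h.trans (mul_le_mul_of_nonneg_right hs hM)

/-- The crude estimate in one block. -/
theorem eloc_crude {R : Type} [CommRing R] [Algebra k R] {B : GV k ι}
    {v : AbsoluteValue k ℝ} {S : SN R (IsNonarchimedean v)} (hS : S.Ov v) {x : ι → k}
    (h1 : 1 ≤ nm v x) {s : ℝ} (hs : Sz₀ B v s) {y z : ι → R}
    (hy : ∀ a, S.N (y a - algebraMap k R (x a)) ≤ 1)
    (hz : ∀ a, S.N (z a - algebraMap k R (B.o a)) ≤ 1) (a b : ι) :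
    S.N (B.ph a b y z) ≤ s ^ 7 * nm v x ^ 2 := by
  have s1 := one_le_of_two hs.two
  refine (GV.ph_le hS hs (fun a => eloc_add S hs.two (nm_nn v x) ((hy a).trans h1)
    ((hS _).trans (le_nm v x a))) (fun a => eloc_add S hs.two (zero_le_one.trans s1)
    ((hz a).trans s1) ((hS _).trans (hs.o a))) a b).trans (le_of_eq (by ring))

/-- The estimates in one block. -/
private theorem eloc_blk {R : Type} [CommRing R] [Algebra k R] {B : GV k ι}
    {v : AbsoluteValue k ℝ} {S : SN R (IsNonarchimedean v)} (hS : S.Ov v) {P : B.Pt k} {x : ι → k}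
    (hx : GV.Rep P x) (h1 : 1 ≤ nm v x) {s γ : ℝ} (hs : Sz₀ B v s) (hγ0 : 0 < γ) (hγ1 : γ ≤ 1)
    {y z : ι → R} (hy : ∀ a, S.N (y a - algebraMap k R (x a)) ≤ γ)
    (hz : ∀ a, S.N (z a - algebraMap k R (B.o a)) ≤ γ) (b : ι) :
    (∀ a, S.N (B.ph a b y z) ≤ s ^ 12 * nm v x ^ 2) ∧
      ∀ (u : MvPolynomial ι k) (e : ℕ), 1 ≤ e → u.IsHomogeneous e → pl v u ≤ s →
        v (eval x u) ≤ s * γ * nm v x ^ e →
        S.N (aeval (fun a => B.ph a b y z) u) ≤ γ * (s ^ 12 * nm v x ^ 2) ^ e := by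
  have s1 := one_le_of_two hs.two
  have hn : ∀ a, v (x a) ≤ nm v x := fun a => Finite.le_ciSup_of_le a le_rfl
  generalize hN : nm v x = n at h1 hn ⊢
  have n0 : 0 < n := by linarith
  have s0 : 0 < s := by linarith
  have a1 : ∀ a, S.N (algebraMap k R (x a)) ≤ n := fun a => (hS _).trans (hn a)
  have a2 : ∀ a, S.N (algebraMap k R (B.o a)) ≤ s := fun a => (hS _).trans (hs.o a)
  have b1 : ∀ a, S.N (y a) ≤ s * n := fun a =>
    eloc_add S hs.two n0.le ((hy a).trans (hγ1.trans h1)) (a1 a)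
  have b2 : ∀ a, S.N (z a) ≤ s * s := fun a =>
    eloc_add S hs.two s0.le ((hz a).trans (hγ1.trans s1)) (a2 a)
  have n1 : n ≤ s * n := le_mul_of_one_le_left n0.le s1
  have s2 : s ≤ s * s := le_mul_of_one_le_left s0.le s1
  have pw : ∀ {i j : ℕ}, i ≤ j → s ^ i * n ^ 2 ≤ s ^ j * n ^ 2 := fun h =>
    mul_le_mul_of_nonneg_right (pow_le_pow_right₀ s1 h) (by positivity)
  have c1 : ∀ a, S.N (B.ph a b y z) ≤ s ^ 9 * n ^ 2 := fun a =>
    (GV.ph_le hS hs b1 b2 a b).trans (le_trans (le_of_eq (by ring)) (pw (by norm_num : 7 ≤ 9)))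
  obtain ⟨c, hc⟩ := GV.law hx GV.rep_zero (s := x) (t := x) (by rwa [add_zero]) (by rwa [sub_zero])
  have e1 : ∀ a, B.ph a b (fun c => algebraMap k R (x c)) (fun c => algebraMap k R (B.o c)) =
      algebraMap k R (c * x b * x a) := fun a => by
    have h := GV.map_ph (A := B) (Algebra.ofId k R) a b x fun c => algebraMap k k (B.o c)
    rw [hc] at h
    rw [mul_assoc, mul_comm (x b)]
    exact h.symm
  have c2 : ∀ a, S.N (B.ph a b y z - algebraMap k R (c * x b * x a)) ≤ γ * (s ^ 9 * n ^ 2) :=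
    fun a => by
      rw [← e1]
      refine (eloc_sub hS hs (by positivity) (by positivity) hγ0.le b1 b2
        (fun a => (a1 a).trans n1) (fun a => (a2 a).trans s2)
        (fun a => (hy a).trans (le_mul_of_one_le_right hγ0.le (h1.trans n1)))
        (fun a => (hz a).trans (le_mul_of_one_le_right hγ0.le (s1.trans s2))) a b).trans ?_
      exact le_of_eq (by ring)
  have c3 : ∀ a, v (c * x b * x a) ≤ s ^ 3 * n ^ 2 := fun a => by
    have h := GV.ph_le (absSN_ov v) hs (x := x) (y := fun c => algebraMap k k (B.o c)) hn hs.o a b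
    rw [hc] at h
    rw [mul_assoc, mul_comm (x b)]
    exact h.trans (le_of_eq (by ring))
  have c4 : v (c * x b) ≤ s ^ 3 * n := by
    have : Nonempty ι := ⟨b⟩
    obtain ⟨a, ha⟩ : ∃ a, v (x a) = nm v x := exists_eq_ciSup_of_finite
    have h := c3 a
    rw [map_mul, ha, hN, sq, ← mul_assoc] at h
    exact le_of_mul_le_mul_right h n0
  refine ⟨fun a => (c1 a).trans (pw (by norm_num)), fun u e he hu h2 h3 => ?_⟩
  have d1 := eval₂_sub_le (absSN v) (t := fun _ => s ^ 9 * n ^ 2) S (algebraMap k R) hS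
    (y' := fun a => algebraMap k R (c * x b * x a)) hγ0.le c1
    (fun a => (hS _).trans ((c3 a).trans (pw (by norm_num)))) c2 u
  have d2 : polN (absSN v) (fun _ : ι => s ^ 9 * n ^ 2) u ≤ pl v u * (s ^ 9 * n ^ 2) ^ e :=
    polN_le_mul _ (fun _ => by positivity) (by positivity) fun μ hμ => by
      rw [wt_const, ← hu (mem_support_iff.mp hμ), Finsupp.degree_eq_weight_one]
      exact le_rfl
  have d3 : E (IsNonarchimedean v) u.totalDegree ≤ s ^ e := E_le_pow hs.two (by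
    exact_mod_cast hu.totalDegree_le.trans Nat.lt_two_pow_self.le)
  have d4 : eval₂ (algebraMap k R) (fun a => algebraMap k R (c * x b * x a)) u =
      algebraMap k R ((c * x b) ^ e * eval x u) := by
    rw [← aeval_def, ← aeval_eq_eval, ← aeval_mul_of_hom hu]
    exact aeval_algebraMap_apply R _ u
  have d5 : S.N (algebraMap k R ((c * x b) ^ e * eval x u)) ≤ s * γ * (s ^ 10 * n ^ 2) ^ e := by
    refine (hS _).trans ?_
    rw [map_mul, map_pow]
    calc _ ≤ (s ^ 3 * n) ^ e * (s * γ * n ^ e) :=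
          mul_le_mul (pow_le_pow_left₀ (v.nonneg _) c4 e) h3 (v.nonneg _) (by positivity)
      _ = s * γ * (s ^ 3 * n ^ 2) ^ e := by rw [sq n, ← mul_assoc, mul_pow _ n]; ring
      _ ≤ _ := mul_le_mul_of_nonneg_left
          (pow_le_pow_left₀ (by positivity) (pw (by norm_num)) e) (by positivity)
  rw [d4, ← aeval_def] at d1
  have d6 : S.N (aeval (fun a => B.ph a b y z) u - algebraMap k R ((c * x b) ^ e * eval x u)) ≤
      s * γ * (s ^ 10 * n ^ 2) ^ e := by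
    refine d1.trans ?_
    calc _ ≤ s ^ e * γ * (s * (s ^ 9 * n ^ 2) ^ e) :=
          mul_le_mul (mul_le_mul_of_nonneg_right d3 hγ0.le)
            (d2.trans (mul_le_mul_of_nonneg_right h2 (by positivity)))
            (polN_nonneg _ (fun _ => by positivity) _) (by positivity)
      _ = _ := by rw [show s ^ 10 * n ^ 2 = s * (s ^ 9 * n ^ 2) by ring, mul_pow s]; ring
  refine (eloc_add S hs.two (by positivity) d6 d5).trans ?_
  have d7 : s ^ 2 ≤ (s ^ 2) ^ e := le_self_pow₀ (one_le_pow₀ s1) (by omega)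
  calc _ = γ * (s ^ 2 * (s ^ 10 * n ^ 2) ^ e) := by ring
    _ ≤ γ * ((s ^ 2) ^ e * (s ^ 10 * n ^ 2) ^ e) :=
        mul_le_mul_of_nonneg_left (mul_le_mul_of_nonneg_right d7 (by positivity)) hγ0.le
    _ = _ := by rw [← mul_pow]; congr 2; ring

omit [Fintype ι] in
theorem exists_ser (v : AbsoluteValue k ℝ) (ξ : O → ι → MvPowerSeries (Fin r) k)
    (ϱ : ι → MvPowerSeries (Fin g) k) {q γ : O → ℝ} {q' : ℝ}
    (hq : ∀ o a, Geo v (q o) (ξ o a)) (hq' : ∀ a, Geo v q' (ϱ a))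
    (hq1 : ∀ o, 1 ≤ q o) (hq1' : 1 ≤ q') (hγ0 : ∀ o, 0 < γ o) (hγ1 : ∀ o, γ o ≤ 1)
    (κ : O × Fin r →₀ ℕ) (α : O × Fin g →₀ ℕ) :
    ∃ S : SN (RR k O r g) (IsNonarchimedean v), S.Ov v ∧
      (∀ f, v (MvPowerSeries.coeff (κ.sumElim α) f) ≤
        S.N f * ∏ o, (q o / γ o) ^ bdeg κ o * (q' / γ o) ^ bdeg α o) ∧
      (∀ o a, S.N (xi g ξ o a - algebraMap k _ (MvPowerSeries.constantCoeff (ξ o a))) ≤ γ o) ∧
      ∀ o a, S.N (rh r ϱ o a - algebraMap k _ (MvPowerSeries.constantCoeff (ϱ a))) ≤ γ o := by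
  have q0 : ∀ o, 0 < q o := fun o => one_pos.trans_le (hq1 o)
  have q0' : 0 < q' := one_pos.trans_le hq1'
  obtain ⟨t, t1, t2⟩ : ∃ t : O × Fin r ⊕ O × Fin g → ℝ, (∀ p, t (.inl p) = γ p.1 / q p.1) ∧
      ∀ p, t (.inr p) = γ p.1 / q' :=
    ⟨Sum.elim (fun p => γ p.1 / q p.1) fun p => γ p.1 / q', fun _ => rfl, fun _ => rfl⟩
  have ht : ∀ p, 0 ≤ t p := by
    rintro (p | p)
    · rw [t1]; exact (div_pos (hγ0 _) (q0 _)).le
    · rw [t2]; exact (div_pos (hγ0 _) q0').le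
  obtain ⟨S, hS⟩ := exists_serSN (absSN v) ht (κ.sumElim α)
  have hO : S.Ov v := (absSN_ov v).ser ht hS
  refine ⟨S, hO, fun f => ?_, fun o a => ?_, fun o a => ?_⟩
  · have h := coeff_le_serN (absSN v) ht f (le_refl (κ.sumElim α))
    have e : Pool.Agent.Lib.MP_651af7_nt.Av.wt t (κ.sumElim α) * ∏ o, (q o / γ o) ^ bdeg κ o * (q' / γ o) ^ bdeg α o = 1 := by
      rw [wt_eq, Fintype.prod_sum_type, Fintype.prod_prod_type, Fintype.prod_prod_type,
        ← prod_mul_distrib, ← prod_mul_distrib]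
      refine prod_eq_one fun o _ => ?_
      simp only [t1, t2, Finsupp.sumElim_inl, Finsupp.sumElim_inr, prod_pow_eq_pow_sum, bdeg]
      have g0 := (hγ0 o).ne'
      have g1 := (q0 o).ne'
      have g2 := q0'.ne'
      rw [mul_mul_mul_comm, ← mul_pow, ← mul_pow, div_mul_div_cancel₀ g1, div_mul_div_cancel₀ g2,
        div_self g0, one_pow, one_pow, one_mul]
    rw [hS, ← mul_one (v _), ← e, ← mul_assoc]
    exact mul_le_mul_of_nonneg_right h (prod_nonneg fun o _ =>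
      mul_nonneg (pow_nonneg (div_pos (q0 o) (hγ0 o)).le _) (pow_nonneg (div_pos q0' (hγ0 o)).le _))
  · rw [hS]
    exact serN_rename_sub (absSN v) (vX g o) ht (ξ o a) (q0 o).le (hγ0 o).le (hγ1 o) (hq o a)
      fun j => by rw [show vX g o j = .inl (o, j) from rfl, t1, div_mul_cancel₀ _ (q0 o).ne']
  · rw [hS]
    exact serN_rename_sub (absSN v) (vT r o) ht (ϱ a) q0'.le (hγ0 o).le (hγ1 o) (hq' a)
      fun j => by rw [show vT r o j = .inr (o, j) from rfl, t2, div_mul_cancel₀ _ q0'.ne']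

theorem exists_loc {B : GV k ι} (v : AbsoluteValue k ℝ) {P : O → B.Pt k} {x : O → ι → k}
    (hx : ∀ o, GV.Rep (P o) (x o)) (h1 : ∀ o, 1 ≤ nm v (x o))
    {ξ : O → ι → MvPowerSeries (Fin r) k}
    (hξ : ∀ o a, MvPowerSeries.constantCoeff (ξ o a) = x o a) {ϱ : ι → MvPowerSeries (Fin g) k}
    (hϱ : ∀ a, MvPowerSeries.constantCoeff (ϱ a) = B.o a) {s q γ : O → ℝ} {q' : ℝ}
    (hs : ∀ o, Sz₀ B v (s o)) (hq : ∀ o a, Geo v (q o) (ξ o a)) (hq' : ∀ a, Geo v q' (ϱ a))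
    (hq1 : ∀ o, 1 ≤ q o) (hq1' : 1 ≤ q') (hγ0 : ∀ o, 0 < γ o) (hγ1 : ∀ o, γ o ≤ 1)
    (κ : O × Fin r →₀ ℕ) (α : O × Fin g →₀ ℕ) :
    ∃ S : SN (RR k O r g) (IsNonarchimedean v), S.Ov v ∧
      (∀ f, v (MvPowerSeries.coeff (κ.sumElim α) f) ≤
        S.N f * ∏ o, (q o / γ o) ^ bdeg κ o * (q' / γ o) ^ bdeg α o) ∧
      ∀ b o, (∀ a, S.N (ty B ξ ϱ b o a) ≤ s o ^ 12 * nm v (x o) ^ 2) ∧
        ∀ (u : MvPolynomial ι k) (e : ℕ), 1 ≤ e → u.IsHomogeneous e → pl v u ≤ s o →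
          v (eval (x o) u) ≤ s o * γ o * nm v (x o) ^ e →
          S.N (aeval (ty B ξ ϱ b o) u) ≤ γ o * (s o ^ 12 * nm v (x o) ^ 2) ^ e := by
  obtain ⟨S, hO, h2, h3, h4⟩ := exists_ser v ξ ϱ hq hq' hq1 hq1' hγ0 hγ1 κ α
  exact ⟨S, hO, h2, fun b o => eloc_blk hO (hx o) (h1 o) (hs o) (hγ0 o) (hγ1 o)
    (fun a => hξ o a ▸ h3 o a) (fun a => hϱ a ▸ h4 o a) (b o)⟩

end Pool.Agent.Lib.MP_8865d3_nt.Sv
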