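import Pool.Agent.Lib.MP_8865d3_nt.Sv.Voc

/-! Engine: definitions. -/

namespace Pool.Agent.Lib.MP_8865d3_nt.Sv

open MvPolynomial Finset
open Pool.Agent.Lib.MP_651af7_nt.Av

section ph

variable {k ι R R' : Type} [Field k] [CommRing R] [Algebra k R] [CommRing R'] [Algebra k R']

namespace GV

/-- Iterates of the endomorphism. -/
noncomputable def dbn (B : GV k ι) (y : ι → R) : ℕ → ι → R
  | 0 => y
  | j + 1 => fun a => aeval (B.dbn y j) (B.ψ a)

theorem map_dbn (B : GV k ι) (f : R →ₐ[k] R') (y : ι → R) (j : ℕ) (a : ι) :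
    f (B.dbn y j a) = B.dbn (fun c => f (y c)) j a := by
  induction j generalizing a with
  | zero => rfl
  | succ j ih => rw [dbn, dbn, ← AlgHom.comp_apply, comp_aeval, funext ih]

end GV

end ph

section red

variable {k ι : Type} [Field k] [Fintype ι] {g : ℕ}

/-- `s` bounds the group law at `v`. -/
structure Sz₀ (B : GV k ι) (v : AbsoluteValue k ℝ) (s : ℝ) : Prop where
  two : E (IsNonarchimedean v) 2 ≤ s
  Φ : ∀ a b, pl v (B.Φ a b) ≤ s
  o : ∀ a, v (B.o a) ≤ s
  ψ : ∀ a, pl v (B.ψ a) ≤ s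

/-- `s` bounds the data of a block at `v`. -/
structure Sz (B : GV k ι) (v : AbsoluteValue k ℝ) (u : Fin (g + 1) → MvPolynomial ι k)
    (rd : (ι →₀ ℕ) → MvPolynomial (Fin (g + 1) ⊕ ι) k) (s : ℝ) : Prop extends Sz₀ B v s where
  u : ∀ l, pl v (u l) ≤ s
  rd : ∀ μ ω, v (coeff ω (rd μ)) ≤ s ^ μ.degree

end red

/-- The centre and the differences `P i - ψ ^ j i (P none)`. -/
noncomputable def YY {k ι R : Type} [Field k] [CommRing R] [Algebra k R] [IsLocalRing R] {m : ℕ}
    {B : GV k ι} (j : Fin m × Bool → ℕ) (P : OO m → B.Pt R) : OO m → B.Pt R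
  | none => P none
  | some i => P (some i) - B.ps^[j i] (P none)

/-- The discrete data of the construction. -/
abbrev Cfg (k ι : Type) [Field k] (g m : ℕ) : Type := Pool.Agent.Lib.MP_651af7_nt.Av.Cfg k ι g m

section sections

variable {k ι R R' : Type} [Field k] [CommRing R] [Algebra k R] [CommRing R'] [Algebra k R']
  {g m : ℕ}

namespace Cfg

variable (F : Cfg k ι g m) (B : GV k ι)

/-- Coordinates of `y - ψ ^ j y₀` in the presentation `a`. -/
noncomputable def arm (i : Fin m × Bool) (a : ι) (y₀ y : ι → R) (l : Fin (g + 1)) : R :=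
  B.ph a (F.q (some i) l) y (B.dbn y₀ (F.j i))

/-- The arguments of the section. -/
noncomputable def Q (a : Fin m × Bool → ι) (y : OO m → ι → R) : OO m → Fin (g + 1) → R
  | none => fun l => y none (F.q none l)
  | some i => F.arm B i (a i) (y none) (y (some i))

/-- The auxiliary section in the presentation `a`. -/
noncomputable def FF (c : Co g F.n) (a : Fin m × Bool → ι) (y : OO m → ι → R) : R :=
  sec c (F.Q B a y)

/-- A basic factor as a polynomial in the coordinates of the arm. -/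
noncomputable def Ee (i : Fin m × Bool) (a : ι) (y₀ : ι → R) (t : Bx g (F.n (some i))) :
    MvPolynomial ι R := bx (F.arm B i a (fun c => C (y₀ c)) X) t

variable [Fintype ι]

/-- A coefficient of its normal form. -/
noncomputable def Jc (i : Fin m × Bool) (a : ι) (y₀ : ι → R) (t : Bx g (F.n (some i)))
    (ω : Ex g ι) : R := redc (F.rd (some i)) (F.Ee B i a y₀ t) ω

/-- The joint coefficient of a pattern in a slice. -/
noncomputable def slice (c : Co g F.n) (p : Fin m) (a : Bool → ι) (ω : Bool → Ex g ι)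
    (τ : ∀ p, TT g F.n p) (y₀ : ι → R) : R :=
  ∑ t : TT g F.n p, (∑ z, (c z (Function.update τ p t) : R) * bx (fun l => y₀ (F.q none l)) z) *
    ∏ s, F.Jc B (p, s) (a s) y₀ (t s) (ω s)

/-- The forbidden patterns do not occur. -/
def Van (e ρ L : ℕ) (mk : Bool → Finset (Fin (g + 1))) (c : Co g F.n) : Prop :=
  ∀ p a, ∀ ω ∈ F.low e ρ L mk p, ∀ τ, F.slice B c p a ω τ (X : ι → MvPolynomial ι k) ∈ B.I

omit [Fintype ι] in
theorem map_arm (f : R →ₐ[k] R') (i : Fin m × Bool) (a : ι) (y₀ y : ι → R) (l : Fin (g + 1)) :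
    f (F.arm B i a y₀ y l) = F.arm B i a (fun c => f (y₀ c)) (fun c => f (y c)) l := by
  simp only [arm, GV.map_ph, GV.map_dbn]

omit [Fintype ι] in
theorem map_FF (f : R →ₐ[k] R') (c : Co g F.n) (a : Fin m × Bool → ι) (y : OO m → ι → R) :
    f (F.FF B c a y) = F.FF B c a fun o b => f (y o b) := by
  refine (map_sec (f : R →+* R') c _).trans ?_
  unfold FF
  congr 1
  funext o l
  cases o with
  | none => rfl
  | some i => exact F.map_arm B f i _ _ _ l

end Cfg

end sections

/-- Coordinates of `ξ + ϱ (T)` in the presentation `b`. -/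
noncomputable def ty {k ι O : Type} [Field k] {r g : ℕ} (B : GV k ι)
    (ξ : O → ι → MvPowerSeries (Fin r) k) (ϱ : ι → MvPowerSeries (Fin g) k) (b : O → ι) (o : O)
    (a : ι) : RR k O r g :=
  B.ph a (b o) (xi g ξ o) (rh r ϱ o)

end Pool.Agent.Lib.MP_8865d3_nt.Sv
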