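import Pool.Agent.Lib.MP_651af7_nt.Av.EBd
import Pool.Agent.Lib.MP_8865d3_nt.Sv.EDefs

/-! Engine: homogeneity and crude bounds. -/

namespace Pool.Agent.Lib.MP_8865d3_nt.Sv

open MvPolynomial Finset
open Pool.Agent.Lib.MP_651af7_nt.Av

variable {k ι R R' : Type} [Field k] [CommRing R] [Algebra k R] [CommRing R'] [Algebra k R']
  {g m : ℕ}

theorem GV.dbn_mul (B : GV k ι) (s : R) (y : ι → R) (j : ℕ) (a : ι) :
    B.dbn (fun c => s * y c) j a = s ^ 4 ^ j * B.dbn y j a := by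
  induction j generalizing a with
  | zero => simp [GV.dbn]
  | succ j ih =>
    simp only [GV.dbn, funext ih]
    rw [aeval_mul_of_hom (B.ψ_hom a), ← pow_mul, pow_succ]

theorem Cfg.FF_mul (F : Cfg k ι g m) (B : GV k ι) (c : Co g F.n) (a : Fin m × Bool → ι)
    (s : OO m → R) (y : OO m → ι → R) :
    F.FF B c a (fun o b => s o * y o b) = (∏ o, s o ^ F.dg o) * F.FF B c a y := by
  have h : F.Q B a (fun o b => s o * y o b) = fun o l =>
      (Option.elim o (s none) fun i => s (some i) ^ 2 * (s none ^ 4 ^ F.j i) ^ 2) *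
        F.Q B a y o l := by
    funext o l
    cases o with
    | none => rfl
    | some i =>
      simp only [Cfg.Q, Cfg.arm, funext (B.dbn_mul (s none) (y none) (F.j i)), GV.ph_mul,
        Option.elim_some]
  rw [Cfg.FF, h, sec_mul, Cfg.FF]
  congr 1
  simp only [Fintype.prod_option, Option.elim_none, Option.elim_some, Cfg.dg, mul_pow, pow_add,
    prod_mul_distrib, ← prod_pow_eq_pow_sum, ← pow_mul]
  rw [mul_assoc, mul_comm (∏ i, s (some i) ^ _)]
  congr 2
  exact prod_congr rfl fun i _ => by rw [mul_comm (4 ^ F.j i)]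

theorem sec_le {na : Prop} (S : SN R na) {n : OO m → ℕ} {s Z : OO m → ℝ}
    (hs : ∀ o, E na 2 ≤ s o) {Q : OO m → Fin (g + 1) → R} (hQ : ∀ o l, S.N (Q o l) ≤ Z o)
    {c : Co g n} {H : ℝ} (hH : 1 ≤ H) (hc : ∀ z τ, |(c z τ : ℝ)| ≤ H) :
    S.N (sec c Q) ≤ E na H * ∏ o, (s o * Z o) ^ (g * n o) := by
  have h0 : ∀ o, 0 ≤ s o := fun o => zero_le_one.trans (one_le_of_two (hs o))
  have hZ0 : ∀ o, 0 ≤ Z o := fun o => (S.nonneg _).trans (hQ o 0)
  have hE : 0 ≤ E na H := E_nonneg (zero_le_one.trans hH)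
  have hc' : ∀ o, E na (Fintype.card (Bx g (n o))) ≤ s o ^ (g * n o) :=
    fun o => E_le_pow (hs o) (by exact_mod_cast card_Bx_le g (n o))
  have hz : ∀ τ, S.N (∑ z, (c z τ : R) * bx (Q none) z) ≤
      E na H * (s none * Z none) ^ (g * n none) := fun τ => by
    refine (S.sum_le_card univ (M := E na H * Z none ^ (g * n none))
      (mul_nonneg hE (pow_nonneg (hZ0 _) _)) fun z _ => S.mul_le
        ((S.intCast_le _).trans (E_mono (hc z τ))) (S.bx_le (hQ none) z)).trans ?_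
    rw [mul_pow, mul_left_comm]
    exact mul_le_mul_of_nonneg_left (mul_le_mul_of_nonneg_right (hc' none)
      (pow_nonneg (hZ0 _) _)) hE
  set b : Fin m × Bool → ℝ := fun i => Z (some i) ^ (g * n (some i)) with hb
  have hb0 : ∀ i, 0 ≤ b i := fun i => pow_nonneg (hZ0 _) _
  have ha : ∀ τ : ∀ p, TT g n p, S.N (∏ p, ∏ t, bx (Q (some (p, t))) (τ p t)) ≤
      ∏ p, ∏ t, b (p, t) := fun τ => S.prod_le _ fun p _ => S.prod_le _ fun t _ =>
    S.bx_le (hQ _) _
  have hM := mul_nonneg (mul_nonneg hE (pow_nonneg (mul_nonneg (h0 none) (hZ0 none))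
    (g * n none))) (prod_nonneg fun p (_ : p ∈ univ) => prod_nonneg fun t (_ : t ∈ univ) =>
      hb0 (p, t))
  refine (S.sum_le_card univ hM fun τ _ => S.mul_le (hz τ) (ha τ)).trans ?_
  have hcard : E na ((univ : Finset (∀ p, TT g n p)).card : ℝ) ≤
      ∏ p, ∏ t, s (some (p, t)) ^ (g * n (some (p, t))) := by
    rw [card_univ, Fintype.card_pi, Nat.cast_prod, E_prod]
    refine prod_le_prod (fun _ _ => E_nonneg (Nat.cast_nonneg _)) fun p _ => ?_
    rw [Fintype.card_pi, Nat.cast_prod, E_prod]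
    exact prod_le_prod (fun _ _ => E_nonneg (Nat.cast_nonneg _)) fun t _ => hc' _
  refine (mul_le_mul_of_nonneg_right hcard hM).trans (le_of_eq ?_)
  rw [← Fintype.prod_prod_type (f := fun i => s (some i) ^ (g * n (some i))),
    ← Fintype.prod_prod_type (f := b), Fintype.prod_option, mul_left_comm, mul_assoc,
    ← prod_mul_distrib, mul_left_comm, ← mul_assoc]
  simp only [hb, mul_pow]
  ring

variable [Fintype ι] {B : GV k ι} {v : AbsoluteValue k ℝ} {S : SN R (IsNonarchimedean v)}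

theorem GV.ph_le (hS : S.Ov v) {s X Y : ℝ} (hs : Sz₀ B v s) {x y : ι → R}
    (hx : ∀ a, S.N (x a) ≤ X) (hy : ∀ a, S.N (y a) ≤ Y) (a b : ι) :
    S.N (B.ph a b x y) ≤ s * (X ^ 2 * Y ^ 2) := by
  have hX : 0 ≤ X := (S.nonneg _).trans (hx a)
  have hY : 0 ≤ Y := (S.nonneg _).trans (hy a)
  have ht : ∀ c : ι ⊕ ι, 0 ≤ Sum.elim (fun _ => X) (fun _ => Y) c := by
    rintro (c | c)
    exacts [hX, hY]
  rw [GV.ph, aeval_def]
  refine (eval₂_le_polN (absSN v) S (algebraMap k R) hS (t := Sum.elim (fun _ => X) fun _ => Y)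
    (by rintro (c | c); exacts [hx c, hy c]) _).trans ((polN_le_mul (absSN v) ht
      (b := X ^ 2 * Y ^ 2) (by positivity) fun μ hμ => le_of_eq ?_).trans
      (mul_le_mul_of_nonneg_right (hs.Φ a b) (by positivity)))
  have h := B.bih a b (mem_support_iff.mp hμ)
  rw [Finsupp.weight_apply, Finsupp.sum] at h
  have h1 : ∀ i, Sum.elim (fun _ => X) (fun _ => Y) i ^ μ i =
      X ^ (μ i • bw ι ι i).1 * Y ^ (μ i • bw ι ι i).2 := by
    rintro (c | c) <;> simp [bw]
  simp only [Pool.Agent.Lib.MP_651af7_nt.Av.wt, Finsupp.prod, h1, prod_mul_distrib,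
    prod_pow_eq_pow_sum, ← Prod.fst_sum, ← Prod.snd_sum, h]

theorem GV.dbn_le (hS : S.Ov v) {s Y : ℝ} (hs : Sz₀ B v s) {y : ι → R}
    (hy : ∀ a, S.N (y a) ≤ Y) (j : ℕ) (a : ι) : S.N (B.dbn y j a) ≤ (s * Y) ^ 4 ^ j := by
  have h1 : 1 ≤ s := one_le_of_two hs.two
  have h0 : 0 < s := one_pos.trans_le h1
  have hY : 0 ≤ Y := (S.nonneg _).trans (hy a)
  have key : ∀ j a, S.N (B.dbn y j a) ≤ (s * Y) ^ 4 ^ j / s := by
    intro j
    induction j with
    | zero => exact fun a => (hy a).trans (le_of_eq (by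
        rw [pow_zero, pow_one, mul_div_cancel_left₀ _ h0.ne']))
    | succ j ih =>
      intro a
      refine (hS.aeval_le (B.ψ_hom a) (by positivity) ih).trans
        ((mul_le_mul_of_nonneg_right (hs.ψ a) (by positivity)).trans ?_)
      have e : s * ((s * Y) ^ 4 ^ j / s) ^ 4 = (s * Y) ^ 4 ^ (j + 1) / s / s ^ 2 := by
        rw [pow_succ 4, pow_mul]
        field_simp
      rw [e]
      exact div_le_self (by positivity) (one_le_pow₀ h1)
  exact (key j a).trans (div_le_self (by positivity) h1)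

/-- Bounds for the arguments of the section. -/
def Cfg.qb (F : Cfg k ι g m) (s Y : OO m → ℝ) : OO m → ℝ
  | none => Y none
  | some i => s (some i) * (Y (some i) ^ 2 * ((s none * Y none) ^ 4 ^ F.j i) ^ 2)

theorem Cfg.Q_le (hS : S.Ov v) (F : Cfg k ι g m) {s Y : OO m → ℝ} (hs : ∀ o, Sz₀ B v (s o))
    {y : OO m → ι → R} (hy : ∀ o a, S.N (y o a) ≤ Y o) (a : Fin m × Bool → ι) (o : OO m)
    (l : Fin (g + 1)) : S.N (F.Q B a y o l) ≤ F.qb s Y o := by
  cases o with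
  | none => exact hy none _
  | some i => exact GV.ph_le hS (hs _) (hy _) (GV.dbn_le hS (hs none) (hy none) _) _ _

omit [Fintype ι] in
theorem Cfg.prod_qb (F : Cfg k ι g m) (s Y : OO m → ℝ) :
    ∏ o, (s o * F.qb s Y o) ^ (g * F.n o) = ∏ o, (s o * Y o) ^ F.dg o := by
  rw [Fintype.prod_option, Fintype.prod_option, Cfg.dg, pow_add, ← prod_pow_eq_pow_sum, mul_assoc,
    ← prod_mul_distrib]
  congr 1
  refine prod_congr rfl fun i _ => ?_
  rw [Cfg.qb, Cfg.dg, pow_mul _ 2, pow_mul _ (2 * _), ← mul_pow, mul_comm 2, pow_mul]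
  ring

theorem GV.FF_le (hS : S.Ov v) (F : Cfg k ι g m) {s Y : OO m → ℝ} (hs : ∀ o, Sz₀ B v (s o))
    {y : OO m → ι → R} (hy : ∀ o a, S.N (y o a) ≤ Y o) {c : Co g F.n} {H : ℝ}
    (hH : 1 ≤ H) (hc : ∀ z τ, |(c z τ : ℝ)| ≤ H) (a : Fin m × Bool → ι) :
    S.N (F.FF B c a y) ≤ E (IsNonarchimedean v) H * ∏ o, (s o * Y o) ^ F.dg o :=
  F.prod_qb s Y ▸ sec_le S (fun o => (hs o).two) (F.Q_le hS hs hy a) hH hc

end Pool.Agent.Lib.MP_8865d3_nt.Sv
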