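import Pool.Agent.Lib.MP_8865d3_nt.Sv.ELam
import Pool.Agent.Lib.MP_8865d3_nt.Sv.EBd

/-! Engine: comparison of the presentations. -/

namespace Pool.Agent.Lib.MP_8865d3_nt.Sv

open Finset GV
open Pool.Agent.Lib.MP_651af7_nt.Av

variable {k ι R : Type} [Field k] [CommRing R] [Algebra k R] [IsLocalRing R] {g m : ℕ}
  {B : GV k ι}

theorem GV.ph_zero {P Q : B.Pt R} {x y : ι → R} (hx : Rep P x) (hy : Rep Q y) (b : ι) :
    ∀ f ∈ B.I, MvPolynomial.aeval (fun a => B.ph a b x y) f = 0 := by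
  obtain ⟨c, hc⟩ := law hx hy (rep_co _) (rep_co _)
  have h : (fun a => B.ph a b x y) = fun a => (c * (P - Q).co b) * (P + Q).co a :=
    funext fun a => by rw [hc]; ring
  rw [h]
  exact zero_mul_of_hom B.hom (rep_co (P + Q)).zero _

/-- `law` for `𝒳 o`, `𝒯 o`; `FF_mul`; `Rep.dbn`; `law` for the arms; `sec_mul`. -/
theorem Cfg.pres (F : Cfg k ι g m) (c : Co g F.n) {𝒳 𝒯 : OO m → B.Pt R} {x t Z d : OO m → ι → R}
    {s : Fin m × Bool → ι → R} (hx : ∀ o, Rep (𝒳 o) (x o)) (ht : ∀ o, Rep (𝒯 o) (t o))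
    (hZ : ∀ o, Rep (YY F.j (fun o => 𝒳 o + 𝒯 o) o) (Z o)) (hd : ∀ o, Rep (𝒳 o - 𝒯 o) (d o))
    (hs : ∀ i, Rep (𝒳 (some i) + 𝒯 (some i) + B.ps^[F.j i] (𝒳 none + 𝒯 none)) (s i)) :
    ∃ u : Rˣ, ∀ a (b : OO m → ι), F.FF B c a (fun o a' => B.ph a' (b o) (x o) (t o)) =
      u * ((∏ o, d o (b o) ^ F.dg o) * ∏ i, s i (a i) ^ (g * F.n (some i))) *
        sec c fun o l => Z o (F.q o l) := by
  choose c₁ h₁ using fun o => law (hx o) (ht o) (rep_co _) (hd o)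
  obtain ⟨u₀, h₀⟩ := (hZ none).exists_smul (rep_co (𝒳 none + 𝒯 none))
  choose c₂ h₂ using fun i => law (rep_co (𝒳 (some i) + 𝒯 (some i)))
    ((rep_co (𝒳 none + 𝒯 none)).dbn (F.j i)) (hs i) (hZ (some i))
  refine ⟨(∏ o, c₁ o ^ F.dg o) * (u₀ ^ (g * F.n none) * ∏ i, c₂ i ^ (g * F.n (some i))),
    fun a b => ?_⟩
  have e₁ : (fun o a' => B.ph a' (b o) (x o) (t o)) =
      fun o a' => (c₁ o * d o (b o)) * (𝒳 o + 𝒯 o).co a' :=
    funext fun o => funext fun a' => by rw [h₁]; ring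
  have e₂ : F.Q B a (fun o => (𝒳 o + 𝒯 o).co) =
      fun o l => (Option.elim o (u₀ : R) fun i => c₂ i * s i (a i)) * Z o (F.q o l) := by
    funext o l
    cases o with
    | none => exact h₀ _
    | some i => exact (h₂ i _ _).trans (mul_assoc _ _ _).symm
  rw [e₁, F.FF_mul, Cfg.FF, e₂, sec_mul, Fintype.prod_option (fun o =>
    (Option.elim o (u₀ : R) fun i => c₂ i * s i (a i)) ^ (g * F.n o))]
  simp only [Option.elim, mul_pow, prod_mul_distrib, Units.val_mul, Units.coe_prod,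
    Units.val_pow_eq_pow_val]
  ring

end Pool.Agent.Lib.MP_8865d3_nt.Sv
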