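import Pool.Agent.Lib.MP_8865d3_nt.Sv.Voc
import Pool.Agent.Lib.MP_651af7_nt.Av.LosB

/-! Sums over the places inside and outside a finite set. -/

namespace Pool.Agent.Lib.MP_8865d3_nt.Sv

open Height Filter Finset Pool.Agent.Lib.MP_651af7_nt.Av
open Pool.Agent.Lib.MP_651af7_nt.Vj

variable {k : Type} [Field k] [NumberField k] (T : Finset (AbsoluteValue k ℝ))
  {f g : AbsoluteValue k ℝ → ℝ}

open Classical in
theorem finS_out (hf : FinS f) : FinS fun v => if v ∈ T then 0 else f v :=
  pf_of_le hf fun v hv => by simp [hv]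

open Classical in
theorem finS_in (f : AbsoluteValue k ℝ → ℝ) : FinS fun v => if v ∈ T then f v else 0 :=
  (T.finite_toSet.preimage Subtype.val_injective.injOn).subset fun v hv => by
    by_contra h
    exact hv (if_neg h)

theorem finS_neg (hf : FinS f) : FinS fun v => -f v := by simpa using hf.const_mul (-1)

theorem finS_sub (hf : FinS f) (hg : FinS g) : FinS fun v => f v - g v := by
  simpa only [sub_eq_add_neg] using hf.add (finS_neg hg)

theorem finS_abs (hf : FinS f) : FinS fun v => |f v| := pf_of_le hf fun v hv => by simp [hv]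

theorem gsum_neg (hf : FinS f) : gsum (fun v => -f v) = -gsum f := by
  simpa using gsum_const_mul hf (-1)

theorem gsum_sub (hf : FinS f) (hg : FinS g) : gsum (fun v => f v - g v) = gsum f - gsum g := by
  simp only [sub_eq_add_neg]
  rw [gsum_add hf (finS_neg hg), gsum_neg hg]

theorem gsum_nonneg (h : ∀ v, Adm v → 0 ≤ f v) : 0 ≤ gsum f :=
  add_nonneg (Multiset.sum_nonneg fun a ha => by
    obtain ⟨v, hv, rfl⟩ := Multiset.mem_map.1 ha
    exact h v (Or.inl hv)) (finsum_nonneg fun v => h v.val (Or.inr v.2))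

theorem isum_add_osum (hf : FinS f) : isum T f + osum T f = gsum f := by
  rw [isum, osum, ← gsum_add (finS_in T f) (finS_out T hf)]
  congr 1
  funext v
  split_ifs <;> simp

theorem osum_mono (hf : FinS f) (hg : FinS g) (h : ∀ v, Adm v → v ∉ T → f v ≤ g v) :
    osum T f ≤ osum T g :=
  gsum_mono (finS_out T hf) (finS_out T hg) fun v hv => by
    split_ifs with h1
    exacts [le_rfl, h v hv h1]

theorem isum_mono (h : ∀ v, Adm v → v ∈ T → f v ≤ g v) : isum T f ≤ isum T g :=
  gsum_mono (finS_in T f) (finS_in T g) fun v hv => by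
    split_ifs with h1
    exacts [h v hv h1, le_rfl]

theorem osum_add (hf : FinS f) (hg : FinS g) :
    osum T (fun v => f v + g v) = osum T f + osum T g := by
  rw [osum, osum, osum, ← gsum_add (finS_out T hf) (finS_out T hg)]
  congr 1
  funext v
  split_ifs <;> simp

theorem isum_add (f g : AbsoluteValue k ℝ → ℝ) :
    isum T (fun v => f v + g v) = isum T f + isum T g := by
  rw [isum, isum, isum, ← gsum_add (finS_in T f) (finS_in T g)]
  congr 1
  funext v
  split_ifs <;> simp

theorem osum_const_mul (hf : FinS f) (c : ℝ) : osum T (fun v => c * f v) = c * osum T f := by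
  rw [osum, osum, ← gsum_const_mul (finS_out T hf)]
  congr 1
  funext v
  split_ifs <;> simp

theorem isum_const_mul (f : AbsoluteValue k ℝ → ℝ) (c : ℝ) :
    isum T (fun v => c * f v) = c * isum T f := by
  rw [isum, isum, ← gsum_const_mul (finS_in T f)]
  congr 1
  funext v
  split_ifs <;> simp

theorem osum_sub (hf : FinS f) (hg : FinS g) :
    osum T (fun v => f v - g v) = osum T f - osum T g := by
  have h := osum_add T (finS_sub hf hg) hg
  simp only [sub_add_cancel] at h
  exact eq_sub_of_add_eq h.symm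

theorem isum_sub (f g : AbsoluteValue k ℝ → ℝ) :
    isum T (fun v => f v - g v) = isum T f - isum T g := by
  have h := isum_add T (fun v => f v - g v) g
  simp only [sub_add_cancel] at h
  exact eq_sub_of_add_eq h.symm

theorem osum_zero : osum T (fun _ => 0) = 0 := by simpa [osum] using pf_gsum_zero (K := k)

theorem isum_zero : isum T (fun _ => 0) = 0 := by simpa [isum] using pf_gsum_zero (K := k)

theorem osum_sum {I : Type} (s : Finset I) {f : I → AbsoluteValue k ℝ → ℝ}
    (hf : ∀ i ∈ s, FinS (f i)) : osum T (fun v => ∑ i ∈ s, f i v) = ∑ i ∈ s, osum T (f i) := by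
  simp only [osum]
  rw [← gsum_sum s fun i hi => finS_out T (hf i hi)]
  congr 1
  funext v
  split_ifs <;> simp

theorem isum_sum {I : Type} (s : Finset I) (f : I → AbsoluteValue k ℝ → ℝ) :
    isum T (fun v => ∑ i ∈ s, f i v) = ∑ i ∈ s, isum T (f i) := by
  simp only [isum]
  rw [← gsum_sum s fun i _ => finS_in T (f i)]
  congr 1
  funext v
  split_ifs <;> simp

theorem osum_nonneg (h : ∀ v, Adm v → v ∉ T → 0 ≤ f v) : 0 ≤ osum T f :=
  gsum_nonneg fun v hv => by
    split_ifs with h1
    exacts [le_rfl, h v hv h1]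

theorem isum_nonneg (h : ∀ v, Adm v → v ∈ T → 0 ≤ f v) : 0 ≤ isum T f :=
  gsum_nonneg fun v hv => by
    split_ifs with h1
    exacts [h v hv h1, le_rfl]

theorem osum_le_gsum (hf : FinS f) (h : ∀ v, Adm v → 0 ≤ f v) : osum T f ≤ gsum f := by
  have := isum_nonneg T (f := f) fun v hv _ => h v hv
  linarith [isum_add_osum T hf]

theorem isum_le_gsum (hf : FinS f) (h : ∀ v, Adm v → 0 ≤ f v) : isum T f ≤ gsum f := by
  have := osum_nonneg T (f := f) fun v hv _ => h v hv
  linarith [isum_add_osum T hf]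

/-- The multiplicity of a place. -/
noncomputable def mlt (v : AbsoluteValue k ℝ) : ℝ := isum {v} fun _ => 1

theorem mlt_nonneg (v : AbsoluteValue k ℝ) : 0 ≤ mlt v := isum_nonneg _ fun _ _ _ => zero_le_one

theorem mlt_eq_zero {v : AbsoluteValue k ℝ} (h : ¬Adm v) : mlt v = 0 :=
  le_antisymm ((isum_mono _ fun _ hw hv => absurd (mem_singleton.1 hv ▸ hw) h).trans
    (isum_zero _).le) (mlt_nonneg v)

theorem isum_eq_sum (f : AbsoluteValue k ℝ → ℝ) : isum T f = ∑ v ∈ T, mlt v * f v := by
  classical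
  have h : ∀ v, mlt v * f v = isum {v} fun _ => f v := fun v => by
    rw [mlt, mul_comm, ← isum_const_mul]
    simp only [mul_one]
  simp only [h, isum]
  rw [← gsum_sum T fun v _ => finS_in {v} fun _ => f v]
  congr 1
  funext w
  simp only [mem_singleton, sum_ite_eq]

theorem osum_erase {v : AbsoluteValue k ℝ} [DecidableEq (AbsoluteValue k ℝ)] (hv : v ∈ T)
    (hf : FinS f) : osum (T.erase v) f = osum T f + mlt v * f v := by
  have h1 := isum_add_osum T hf
  have h2 := isum_add_osum (T.erase v) hf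
  rw [isum_eq_sum] at h1 h2
  rw [← add_sum_erase T _ hv] at h1
  linarith

theorem finS_df {s : ℕ} (u : Fin s → k) : FinS fun v : AbsoluteValue k ℝ =>
    ∑ j, |Real.log (v (u j))| := finS_sum univ fun j _ => finS_abs (finS_log (u j))

theorem df_nonneg {s : ℕ} (u : Fin s → k) : 0 ≤ df T u :=
  osum_nonneg T fun _ _ _ => sum_nonneg fun _ _ => abs_nonneg _

theorem gsum_abs_log (z : k) :
    gsum (fun v : AbsoluteValue k ℝ => |Real.log (v z)|) = 2 * logHeight₁ z := by
  rcases eq_or_ne z 0 with rfl | hz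
  · simpa using pf_gsum_zero (K := k)
  have h : (fun v : AbsoluteValue k ℝ => |Real.log (v z)|) =
      fun v => 2 * Real.log (max (v z) 1) - Real.log (v z) := funext fun v => by
    have h0 := v.pos hz
    rcases le_total (v z) 1 with h | h
    · rw [max_eq_right h, Real.log_one, abs_of_nonpos (Real.log_nonpos h0.le h)]
      ring
    · rw [max_eq_left h, abs_of_nonneg (Real.log_nonneg h)]
      ring
  rw [h, gsum_sub ((finS_max z).const_mul 2) (finS_log z), gsum_const_mul (finS_max z), gsum_max,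
    gsum_log hz, sub_zero]

theorem df_le {s : ℕ} (u : Fin s → k) : df T u ≤ 2 * ∑ j, logHeight₁ (u j) := by
  refine (osum_le_gsum T (finS_df u) fun _ _ => sum_nonneg fun _ _ => abs_nonneg _).trans ?_
  rw [gsum_sum univ fun j _ => finS_abs (finS_log (u j)), mul_sum]
  exact sum_le_sum fun j _ => (gsum_abs_log _).le

variable {α : Type} {U : Ultrafilter α} {H : α → ℝ}

theorem lo_mul_nonneg {f : α → ℝ} (hH : Tendsto H U atTop) (h : Lo U H f) {c : ℝ} (hc : 0 ≤ c) :
    Lo U H fun n => c * f n := by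
  rcases hc.eq_or_lt with rfl | hc
  · simpa using Lo.const hH 0
  · exact h.const_mul hc

theorem lo_isum (hH : Tendsto H U atTop) {f : α → AbsoluteValue k ℝ → ℝ}
    (h : ∀ v ∈ T, Adm v → Lo U H fun n => f n v) : Lo U H fun n => isum T (f n) := by
  simp only [isum_eq_sum]
  refine Lo.sum hH T fun v hv => ?_
  by_cases ha : Adm v
  · exact lo_mul_nonneg hH (h v hv ha) (mlt_nonneg v)
  · simpa [mlt_eq_zero ha] using Lo.const hH 0

theorem Bo.pos {f : α → ℝ} (hH : Tendsto H U atTop) (h : Bo U H f) :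
    ∃ C : ℝ, 0 < C ∧ ∀ᶠ n in U, f n ≤ C * H n := by
  obtain ⟨C, hC⟩ := h
  refine ⟨max C 1, by positivity, ?_⟩
  filter_upwards [hC, hH.eventually_ge_atTop 0] with n h1 h2
  exact h1.trans (mul_le_mul_of_nonneg_right (le_max_left _ _) h2)

theorem lo_of_bo {H' f : α → ℝ} (hH' : Tendsto H' U atTop) (hf : Lo U H f) (h : Bo U H' H) :
    Lo U H' f := fun ε hε => by
  obtain ⟨C, hC, h⟩ := h.pos hH'
  filter_upwards [hf (ε / C) (by positivity), h] with n h1 h2
  calc f n ≤ ε / C * H n := h1
    _ ≤ ε / C * (C * H' n) := by gcongr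
    _ = ε * H' n := by field_simp

theorem bo_of_not_lo {f : α → ℝ} (h : ¬Lo U H f) : Bo U f H := by
  simp only [Lo, not_forall] at h
  obtain ⟨ε, hε, h⟩ := h
  refine ⟨ε⁻¹, (Ultrafilter.eventually_not.2 h).mono fun n hn => ?_⟩
  rw [← div_eq_inv_mul, le_div_iff₀' hε]
  exact (not_le.1 hn).le

theorem tendsto_of_bo {H' : α → ℝ} (hH : Tendsto H U atTop) (h : Bo U H' H)
    (h0 : ∀ n, 0 ≤ H' n) : Tendsto H' U atTop := by
  obtain ⟨C, hC⟩ := h
  have h1 : 0 < max C 1 := by positivity
  refine tendsto_atTop_mono' _ (hC.mono fun n hn => ?_) (hH.const_mul_atTop (inv_pos.2 h1))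
  change (max C 1)⁻¹ * H n ≤ H' n
  rw [inv_mul_le_iff₀ h1]
  exact hn.trans (mul_le_mul_of_nonneg_right (le_max_left _ _) (h0 n))

theorem sm_congr' {H' : α → ℝ} (hH : Tendsto H U atTop) (hH' : Tendsto H' U atTop)
    (h : Bo U H' H) (h' : Bo U H H') : Sm k hH = Sm k hH' :=
  IntermediateField.ext fun _ => ⟨fun ⟨f, h1, h2⟩ => ⟨f, h1, lo_of_bo hH' h2 h⟩,
    fun ⟨f, h1, h2⟩ => ⟨f, h1, lo_of_bo hH h2 h'⟩⟩

end Pool.Agent.Lib.MP_8865d3_nt.Sv
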