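import Pool.Agent.Lib.MP_8865d3_nt.Sv.ELoc
import Pool.Agent.Lib.MP_8865d3_nt.Sv.Sum

/-! Engine: the torus parts are taken out of the section. -/

namespace Pool.Agent.Lib.MP_8865d3_nt.Sv

open MvPolynomial Finset Height
open Pool.Agent.Lib.MP_651af7_nt.Av
open Pool.Agent.Lib.MP_651af7_nt.Vj

variable {k ι R : Type} [Field k] [CommRing R] [Algebra k R] {g m s : ℕ} {B : GV k (SI ι s)}

theorem Tor.dbn (hB : Tor B) (u : Fin s → R) (y : SI ι s → R) (j : ℕ) (a : SI ι s) :
    B.dbn (fun c => ch u c.2 * y c) j a = ch (fun t => u t ^ 4 ^ j) a.2 * B.dbn y j a := by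
  induction j generalizing a with
  | zero => simp [GV.dbn]
  | succ j ih =>
    simp only [GV.dbn, funext ih]
    rw [hB.ψ, ch_pow, ch_pow, ← pow_mul, pow_succ]

/-- The characters that remain in the arguments of the section. -/
def Cfg.tf (F : Cfg k (SI ι s) g m) (u : OO m → Fin s → R) : OO m → Fin (g + 1) → R
  | none, l => ch (u none) (F.q none l).2
  | some i, l => ch (u (some i)) (F.q (some i) l).2 *
      ch (fun t => u none t ^ 4 ^ F.j i) fun t => !(F.q (some i) l).2 t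

/-- Bounds for these characters. -/
noncomputable def mx (j : Fin m × Bool → ℕ) (v : AbsoluteValue k ℝ) (u : OO m → Fin s → k) :
    OO m → ℝ
  | none => ∏ t, max 1 (v (u none t))
  | some i => ∏ t, max (v (u (some i) t)) (v (u none t) ^ 4 ^ j i)

theorem Cfg.Q_tor (F : Cfg k (SI ι s) g m) (hB : Tor B) (a : Fin m × Bool → ι)
    (u : OO m → Fin s → R) (y : OO m → SI ι s → R) (o : OO m) (l : Fin (g + 1)) :
    F.Q B (fun i => (a i, fun _ => false)) (fun o c => ch (u o) c.2 * y o c) o l =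
      F.tf u o l * F.Q B (fun i => (a i, fun _ => false)) y o l := by
  cases o with
  | none => rfl
  | some i =>
    simp only [Cfg.Q, Cfg.arm, Cfg.tf, funext (hB.dbn (u none) (y none) (F.j i))]
    rw [hB.ph, ch_false, ch_false, one_mul, one_mul]

theorem Cfg.map_tf (F : Cfg k (SI ι s) g m) (u : OO m → Fin s → k) (o : OO m) (l : Fin (g + 1)) :
    F.tf (fun o t => algebraMap k R (u o t)) o l = algebraMap k R (F.tf u o l) := by
  cases o <;> simp only [Cfg.tf, map_mul, map_ch, map_pow]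

theorem ch_le (v : AbsoluteValue k ℝ) (u : Fin s → k) (ε : Fin s → Bool) :
    v (ch u ε) ≤ ∏ t, max 1 (v (u t)) := by
  rw [ch, map_prod]
  refine prod_le_prod (fun _ _ => v.nonneg _) fun t _ => ?_
  split_ifs
  · exact le_max_right _ _
  · rw [map_one]
    exact le_max_left _ _

theorem Cfg.tf_le (F : Cfg k (SI ι s) g m) (v : AbsoluteValue k ℝ) (u : OO m → Fin s → k)
    (o : OO m) (l : Fin (g + 1)) : v (F.tf u o l) ≤ mx F.j v u o := by
  cases o with
  | none => exact ch_le v _ _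
  | some i =>
    rw [Cfg.tf, mx, ch, ch, ← prod_mul_distrib, map_prod]
    refine prod_le_prod (fun _ _ => v.nonneg _) fun t _ => ?_
    cases (F.q (some i) l).2 t <;> simp

theorem mx_pos (j : Fin m × Bool → ℕ) (v : AbsoluteValue k ℝ) {u : OO m → Fin s → k}
    (hu : ∀ o t, u o t ≠ 0) (o : OO m) : 0 < mx j v u o := by
  cases o with
  | none => exact prod_pos fun t _ => by positivity
  | some i => exact prod_pos fun t _ => lt_max_of_lt_left (v.pos (hu _ t))

theorem log_mx (j : Fin m × Bool → ℕ) (v : AbsoluteValue k ℝ) {u : OO m → Fin s → k}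
    (hu : ∀ o t, u o t ≠ 0) (i : Fin m × Bool) : Real.log (mx j v u (some i)) =
      ∑ t, max (Real.log (v (u (some i) t))) (4 ^ j i * Real.log (v (u none t))) := by
  rw [mx, Real.log_prod fun t _ => (lt_max_of_lt_left (v.pos (hu _ t))).ne']
  refine sum_congr rfl fun t _ => ?_
  have h1 := v.pos (hu (some i) t)
  have h2 := pow_pos (v.pos (hu none t)) (4 ^ j i)
  have h3 : (4 : ℝ) ^ j i * Real.log (v (u none t)) = Real.log (v (u none t) ^ 4 ^ j i) := by
    rw [Real.log_pow, Nat.cast_pow, Nat.cast_ofNat]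
  rw [h3]
  rcases le_total (v (u (some i) t)) (v (u none t) ^ 4 ^ j i) with h | h
  · rw [max_eq_right h, max_eq_right (Real.log_le_log h1 h)]
  · rw [max_eq_left h, max_eq_left (Real.log_le_log h2 h)]

variable [Fintype ι]

theorem Cfg.FF_tor (F : Cfg k (SI ι s) g m) (hB : Tor B) {v : AbsoluteValue k ℝ}
    {S : SN R (IsNonarchimedean v)} (hS : S.Ov v) {z Y : OO m → ℝ} (hs : ∀ o, Sz₀ B v (z o))
    {y : OO m → SI ι s → R} (hy : ∀ o a, S.N (y o a) ≤ Y o) {c : Co g F.n} {H : ℝ}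
    (hH : 1 ≤ H) (hc : ∀ z τ, |(c z τ : ℝ)| ≤ H) (a : Fin m × Bool → ι) (u : OO m → Fin s → k) :
    S.N (F.FF B c (fun i => (a i, fun _ => false))
        fun o c => ch (fun t => algebraMap k R (u o t)) c.2 * y o c) ≤
      E (IsNonarchimedean v) H * (∏ o, (z o * Y o) ^ F.dg o) * ∏ o, mx F.j v u o ^ (g * F.n o) := by
  refine (sec_le S (Z := fun o => mx F.j v u o * F.qb z Y o) (fun o => (hs o).two)
    (fun o l => ?_) hH hc).trans (le_of_eq ?_)
  · rw [F.Q_tor hB, F.map_tf]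
    exact S.mul_le ((hS _).trans (F.tf_le v u o l)) (F.Q_le hS hs hy _ o l)
  · rw [← F.prod_qb, mul_assoc, ← prod_mul_distrib]
    refine congrArg _ (prod_congr rfl fun o _ => ?_)
    rw [← mul_pow]
    congr 1
    ring

/-- The factor by which the radius of a branch grows. -/
noncomputable def rr (v : AbsoluteValue k ℝ) (u : Fin s → k) : ℝ :=
  (∏ t, max 1 (v (u t))) * ∏ t, max 1 (v (u t)⁻¹)

theorem geo_smul {τ : Type} [Fintype τ] {v : AbsoluteValue k ℝ} {q t : ℝ} {f : MvPowerSeries τ k}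
    (h : Geo v q f) (hq : 0 ≤ q) (ht : 1 ≤ t) {z : k} (hz : v z ≤ t) :
    Geo v (q * t) (MvPowerSeries.C z * f) := fun α hα => by
  rw [MvPowerSeries.coeff_C_mul, map_mul, mul_assoc, mul_pow, mul_comm (q ^ _)]
  have h1 : α.degree ≠ 0 := fun h0 => hα ((Finsupp.degree_eq_zero_iff α).1 h0)
  exact mul_le_mul (hz.trans (le_self_pow₀ ht h1)) (h α hα)
    (mul_nonneg (v.nonneg _) (pow_nonneg (E_nonneg (by positivity)) _)) (by positivity)

omit [Fintype ι] in
theorem Seg.apply {x : SI ι s → R} {u : Fin s → R} (h : Seg x u) (a : SI ι s) :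
    x a = ch u a.2 * hat x a.1 := congrFun h.2 a

theorem ch_ne_zero {u : Fin s → k} (h : ∀ t, u t ≠ 0) (ε : Fin s → Bool) : ch u ε ≠ 0 :=
  (isUnit_ch (fun t => (h t).isUnit) ε).ne_zero

theorem ch_inv (u : Fin s → k) (ε : Fin s → Bool) : ch (fun t => (u t)⁻¹) ε = (ch u ε)⁻¹ := by
  rw [ch, ch, ← prod_inv_distrib]
  exact prod_congr rfl fun t _ => by split_ifs <;> simp

theorem one_le_rr (v : AbsoluteValue k ℝ) (u : Fin s → k) : 1 ≤ rr v u :=
  one_le_mul_of_one_le_of_one_le (one_le_prod fun _ _ => le_max_left _ _)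
    (one_le_prod fun _ _ => le_max_left _ _)

theorem Seg.nm_le {x : SI ι s → k} {u : Fin s → k} (h : Seg x u) (v : AbsoluteValue k ℝ) :
    nm v x ≤ Real.exp (∑ t, |Real.log (v (u t))|) * nm v (hat x) := by
  refine Real.iSup_le (fun a => ?_) (mul_nonneg (Real.exp_pos _).le (nm_nn _ _))
  rw [h.apply, map_mul]
  refine mul_le_mul ((ch_le v u _).trans ?_) (le_nm v _ _) (v.nonneg _) (Real.exp_pos _).le
  rw [Real.exp_sum]
  refine prod_le_prod (fun _ _ => by positivity) fun t _ => max_le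
    (Real.one_le_exp (abs_nonneg _)) ?_
  exact (Real.exp_log (v.pos (h.1 t))).ge.trans (Real.exp_le_exp.2 (le_abs_self _))

theorem nm_hat_le (v : AbsoluteValue k ℝ) (x : SI ι s → k) : nm v (hat x) ≤ nm v x :=
  Real.iSup_le (fun _ => le_nm v x _) (nm_nn _ _)

theorem Seg.le_nm {x : SI ι s → k} {u : Fin s → k} (h : Seg x u) (v : AbsoluteValue k ℝ) :
    (∏ t, max 1 (v (u t))) * nm v (hat x) ≤ nm v x := by
  classical
  rcases isEmpty_or_nonempty ι with hι | hι
  · rw [nm, Real.iSup_of_isEmpty, mul_zero]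
    exact nm_nn _ _
  obtain ⟨a, ha⟩ := exists_nm v (hat x)
  refine le_trans (le_of_eq ?_)
    (Pool.Agent.Lib.MP_651af7_nt.Av.le_nm v x (a, fun t => decide (1 ≤ v (u t))))
  rw [h.apply, map_mul, ha, ch, map_prod]
  refine congrArg (· * _) (prod_congr rfl fun t _ => ?_)
  by_cases h1 : 1 ≤ v (u t)
  · simp [h1]
  · simp [h1, (not_le.1 h1).le]

omit [Fintype ι] in
theorem Seg.hat_ne {x : SI ι s → k} {u : Fin s → k} (h : Seg x u) (hx : x ≠ 0) : hat x ≠ 0 :=
  fun h0 => hx (funext fun a => by rw [h.apply, h0, Pi.zero_apply, mul_zero, Pi.zero_apply])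

omit [Fintype ι] in
theorem Tor.hat_ne (hB : Tor B) {P : B.Pt k} {x : SI ι s → k} (h : GV.Rep P x) : hat x ≠ 0 := by
  obtain ⟨⟨a, ε⟩, h1, h2⟩ := h.uni (B.ao.1, fun _ => false)
  obtain rfl : ε = fun _ => false := (hB.cl _ _).1 h1
  exact fun h0 => h2.ne_zero (congrFun h0 a)

variable [NumberField k]

theorem Seg.height {x : SI ι s → k} {u : Fin s → k} (h : Seg x u) (hx : x ≠ 0) :
    ∑ t, logHeight₁ (u t) + logHeight (hat x) ≤ logHeight x := by
  have a1 := ad_prod univ fun t _ => ad_max (u t)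
  have h1 := gsum_mono (a1.fin.add (finS_nm (hat x))) (finS_nm x) fun v _ => by
    rw [← Real.log_mul (a1.pos v).ne' (nm_pos v (h.hat_ne hx)).ne']
    exact Real.log_le_log (mul_pos (a1.pos v) (nm_pos v (h.hat_ne hx))) (h.le_nm v)
  rw [gsum_add a1.fin (finS_nm _), gsum_nm hx, gsum_nm (h.hat_ne hx)] at h1
  refine le_trans (add_le_add_left (le_of_eq ?_) _) h1
  have h2 : ∀ v : AbsoluteValue k ℝ, Real.log (∏ t, max 1 (v (u t))) =
      ∑ t, Real.log (max (v (u t)) 1) := fun v => by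
    rw [Real.log_prod fun t _ => by positivity]
    simp only [max_comm]
  simp only [h2]
  rw [gsum_sum univ fun t _ => finS_max (u t)]
  exact sum_congr rfl fun t _ => (gsum_max _).symm

theorem ad_rr (u : Fin s → k) : Ad (fun v => rr v u) (2 * ∑ t, logHeight₁ (u t)) := by
  refine ((ad_prod univ fun t _ => ad_max (u t)).mul
    (ad_prod univ fun t _ => ad_max (u t)⁻¹)).mono (le_of_eq ?_)
  simp only [logHeight₁_inv]
  ring

omit [NumberField k] in
/-- The section at a place where the torus parts are large. -/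
theorem Cfg.exists_tor (F : Cfg k (SI ι s) g m) (hB : Tor B) (v : AbsoluteValue k ℝ) {r : ℕ}
    {x : OO m → SI ι s → k} {u : OO m → Fin s → k} (hu : ∀ o, Seg (x o) (u o))
    {a₀ : OO m → SI ι s} (h1 : ∀ o, x o (a₀ o) = 1) {ξ : OO m → SI ι s → MvPowerSeries (Fin r) k}
    (hξ : ∀ o a, MvPowerSeries.constantCoeff (ξ o a) = x o a)
    {ϱ : SI ι s → MvPowerSeries (Fin g) k}
    (hϱ : ∀ a, MvPowerSeries.constantCoeff (ϱ a) = B.o a) {z q : OO m → ℝ} {q' : ℝ}
    (hs : ∀ o, Sz₀ B v (z o)) (hq : ∀ o a, Geo v (q o) (ξ o a)) (hq' : ∀ a, Geo v q' (ϱ a))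
    (hq1 : ∀ o, 1 ≤ q o) (hq1' : 1 ≤ q') {c : Co g F.n} {H : ℝ}
    (hH : 1 ≤ H) (hc : ∀ z τ, |(c z τ : ℝ)| ≤ H) (a : Fin m × Bool → ι) (b : OO m → ι)
    (κ : OO m × Fin r →₀ ℕ) (α : OO m × Fin g →₀ ℕ) :
    v (MvPowerSeries.coeff (κ.sumElim α) (F.FF B c (fun i => (a i, fun _ => false))
      (ty B ξ ϱ fun o => (b o, fun _ => false)))) ≤
      E (IsNonarchimedean v) H * (∏ o, (z o ^ 8 * nm v (hat (x o)) ^ 2) ^ F.dg o) *
        (∏ o, mx F.j v u o ^ (g * F.n o)) *
        ∏ o, (q o * rr v (u o)) ^ bdeg κ o * q' ^ bdeg α o := by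
  obtain ⟨lam, hlam⟩ : ∃ lam : OO m → k, ∀ o, lam o = ch (u o) (a₀ o).2 := ⟨_, fun _ => rfl⟩
  have l0 : ∀ o, lam o ≠ 0 := fun o => hlam o ▸ ch_ne_zero (hu o).1 _
  have c0 : ∀ o ε, ch (u o) ε ≠ 0 := fun o => ch_ne_zero (hu o).1
  obtain ⟨ξ', hξ'⟩ : ∃ ξ' : OO m → SI ι s → MvPowerSeries (Fin r) k,
      ∀ o a, ξ' o a = MvPowerSeries.C (lam o * (ch (u o) a.2)⁻¹) * ξ o a := ⟨_, fun _ _ => rfl⟩
  have e0 : ∀ o a, MvPowerSeries.constantCoeff (ξ' o a) = lam o * hat (x o) a.1 := fun o a => by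
    rw [hξ', map_mul, MvPowerSeries.constantCoeff_C, hξ, (hu o).apply, mul_assoc,
      inv_mul_cancel_left₀ (c0 _ _)]
  obtain ⟨S, hS, h2, h3, h4⟩ := exists_ser v ξ' ϱ (q := fun o => q o * rr v (u o))
    (γ := fun _ => 1) (fun o a => by
      rw [hξ']
      refine geo_smul (hq o a) (zero_le_one.trans (hq1 o)) (one_le_rr v _) ?_
      rw [map_mul, hlam, ← ch_inv]
      exact mul_le_mul (ch_le v _ _) (ch_le v _ _) (v.nonneg _)
        (prod_nonneg fun _ _ => by positivity)) hq'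
    (fun o => one_le_mul_of_one_le_of_one_le (hq1 o) (one_le_rr v _)) hq1' (fun _ => one_pos)
    (fun _ => le_rfl) κ α
  have e1 : (ty B ξ ϱ fun o => (b o, fun _ => false)) = fun o c =>
      ch (fun t => algebraMap k (RR k (OO m) r g) (u o t)) c.2 *
        (algebraMap k _ ((lam o)⁻¹ ^ 2) * ty B ξ' ϱ (fun o => (b o, fun _ => false)) o c) := by
    funext o c
    have e2 : xi g ξ o = fun c => algebraMap k _ (lam o)⁻¹ *
        (ch (fun t => algebraMap k (RR k (OO m) r g) (u o t)) c.2 * xi g ξ' o c) := by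
      funext c
      rw [xi, xi, hξ', map_mul, ← map_ch, MvPowerSeries.c_eq_algebraMap, AlgHom.commutes,
        ← mul_assoc, ← mul_assoc, ← map_mul, ← map_mul, mul_mul_mul_comm,
        inv_mul_cancel₀ (l0 o), mul_inv_cancel₀ (c0 _ _), one_mul, map_one, one_mul]
    have e3 := GV.ph_mul (A := B) c (b o, fun _ => false) (algebraMap k _ (lam o)⁻¹) 1
      (fun c => ch (fun t => algebraMap k (RR k (OO m) r g) (u o t)) c.2 * xi g ξ' o c) (rh r ϱ o)
    have e4 := hB.ph _ (fun t => algebraMap k (RR k (OO m) r g) (u o t)) (fun _ => 1)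
      (xi g ξ' o) (rh r ϱ o) c (b o, fun _ => false)
    simp only [ch_one, one_mul, one_pow, mul_one, ch_false] at e3 e4
    rw [ty, ty, e2, e3, e4, map_pow]
    ring
  have h5 : ∀ o c, S.N (algebraMap k _ ((lam o)⁻¹ ^ 2) *
      ty B ξ' ϱ (fun o => (b o, fun _ => false)) o c) ≤ z o ^ 7 * nm v (hat (x o)) ^ 2 := by
    intro o c
    have z1 := one_le_of_two (hs o).two
    have n1 : 1 ≤ nm v fun a : SI ι s => lam o * hat (x o) a.1 := by
      have h := le_nm v (fun a : SI ι s => lam o * hat (x o) a.1) (a₀ o)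
      rwa [hlam, ← (hu o).apply, h1, map_one, ← hlam] at h
    have n2 : (nm v fun a : SI ι s => lam o * hat (x o) a.1) ≤ v (lam o) * nm v (hat (x o)) :=
      Real.iSup_le (fun a => by
        rw [map_mul]
        exact mul_le_mul_of_nonneg_left (le_nm v _ _) (v.nonneg _))
        (mul_nonneg (v.nonneg _) (nm_nn _ _))
    refine (S.mul_le (hS _) (eloc_crude hS n1 (hs o) (fun a => e0 o a ▸ h3 o a)
      (fun a => hϱ a ▸ h4 o a) _ _)).trans ?_
    refine (mul_le_mul_of_nonneg_left (mul_le_mul_of_nonneg_left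
      (pow_le_pow_left₀ (nm_nn _ _) n2 2) (by positivity)) (v.nonneg _)).trans (le_of_eq ?_)
    have := (v.pos (l0 o)).ne'
    rw [map_pow, map_inv₀]
    field_simp
  refine (h2 _).trans ?_
  simp only [div_one]
  refine mul_le_mul_of_nonneg_right ?_ (prod_nonneg fun o _ => by
    have := hq1 o
    have := one_le_rr v (u o)
    positivity)
  rw [e1]
  refine (F.FF_tor hB hS hs h5 hH hc a u).trans (le_of_eq ?_)
  congr 2
  exact prod_congr rfl fun o _ => by ring

end Pool.Agent.Lib.MP_8865d3_nt.Sv
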