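import Pool.Agent.Lib.MP_8865d3_nt.Sv.ELocal
import Pool.Agent.Lib.MP_8865d3_nt.Sv.ETor

/-! Engine: the local inequality at all places and the global inequality. -/

namespace Pool.Agent.Lib.MP_8865d3_nt.Sv

open MvPolynomial Finset GV Height
open Pool.Agent.Lib.MP_651af7_nt.Av
open Pool.Agent.Lib.MP_651af7_nt.Vj

variable {k ι : Type} [Field k] [NumberField k] [Fintype ι] {g m r n : ℕ} {B : GV k (SI ι n)}
  {ϱ : SI ι n → MvPowerSeries (Fin g) k} {P : OO m → B.Pt k} {x : OO m → SI ι n → k}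
  {ξ : OO m → SI ι n → MvPowerSeries (Fin r) k} {e ρ L : ℕ} {mk : Bool → Finset (Fin (g + 1))}
  {T : Finset (AbsoluteValue k ℝ)}

open Classical in
/-- The loss caused by the torus parts. -/
noncomputable def Cfg.tl (F : Cfg k (SI ι n) g m) (T : Finset (AbsoluteValue k ℝ))
    (u : OO m → Fin n → k) (v : AbsoluteValue k ℝ) : ℝ :=
  (if v ∈ T then ∑ o, (g * F.n o : ℕ) * Real.log (mx F.j v u o) else 0) +
    if v ∈ T then 0 else ∑ o, F.dg o * ∑ t, |Real.log (v (u o t))|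

theorem Cfg.local_all (F : Cfg k (SI ι n) g m) (hB : Tor B) (hϱ : B.Par g ϱ) (he : 1 ≤ e)
    (hrd : ∀ o, IsRd B.I e ρ (F.u o) (F.rd o)) (hx : ∀ o, Rep (P o) (x o)) {a₀ : OO m → SI ι n}
    (h1 : ∀ o, x o (a₀ o) = 1) (hξ0 : ∀ o a, MvPowerSeries.constantCoeff (ξ o a) = x o a)
    (hξ : ∀ o, ∀ f ∈ B.I, aeval (ξ o) f = 0) {c : Co g F.n} {H : ℝ} (hH : 1 ≤ H)
    (hc : ∀ z τ, |(c z τ : ℝ)| ≤ H) (hV : F.Van B e ρ L mk c) {y : Fin m × Bool → SI ι n → k}
    {f : RR k (OO m) r g} {l : k}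
    (hU : ∀ a b, ∃ U, F.FF B c a (ty B ξ ϱ b) = U * f ∧ MvPowerSeries.constantCoeff U =
      l * ((∏ o, x o (b o) ^ F.dg o) * ∏ i, y i (a i) ^ (g * F.n (some i))))
    {κ : OO m × Fin r →₀ ℕ} {ν : OO m → ℕ} (hT : MinT f ν) (hX : MinX f κ ν)
    {α : OO m × Fin g →₀ ℕ} (hα : bdeg α = ν) (v : AbsoluteValue k ℝ) {s q : OO m → ℝ} {q' : ℝ}
    {σ : Fin m → ℝ} (hs : ∀ o, Sz B v (F.u o) (F.rd o) (s o)) (hq : ∀ o a, Geo v (q o) (ξ o a))
    (hq' : ∀ a, Geo v q' (ϱ a)) (hq1 : ∀ o, 1 ≤ q o) (hq1' : 1 ≤ q') (hσ : ∀ p, 0 ≤ σ p)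
    (hm : ∀ p b, ∀ l ∈ mk b, v ∉ T → v (eval (x (some (p, b))) (F.u (some (p, b)) l)) ≤
      s (some (p, b)) * Real.exp (-σ p) ^ 4 ^ F.j (p, b) * nm v (x (some (p, b))) ^ e)
    {u : OO m → Fin n → k} (hu : ∀ o, Seg (x o) (u o)) (hσT : v ∈ T → ∀ p, σ p = 0) :
    v l * v (MvPowerSeries.coeff (κ.sumElim α) f) * ∏ i, nm v (hat (y i)) ^ (g * F.n (some i)) ≤
      Real.exp (Real.log (E (IsNonarchimedean v) H) +
        ∑ o, ((g + Fintype.card (SI ι n) + 17) * F.dg o : ℕ) * Real.log (s o) - L * ∑ p, σ p +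
        ∑ o, (bdeg κ o * (Real.log (q o * rr v (u o)) + sg F.j σ o) +
          ν o * (Real.log q' + sg F.j σ o)) + F.tl T u v) *
      ∏ o, nm v (hat (x o)) ^ F.dg o := by
  have hs1 : ∀ o, 1 ≤ s o := fun o => one_le_of_two (hs o).two
  have hq2 : ∀ o, 1 ≤ q o * rr v (u o) := fun o =>
    one_le_mul_of_one_le_of_one_le (hq1 o) (one_le_rr v _)
  by_cases hv : v ∈ T
  · have : Nonempty ι := ⟨B.ao.1⟩
    obtain rfl : σ = fun _ => 0 := funext (hσT hv)
    have hsg : ∀ o, sg F.j (fun _ => 0) o = 0 := fun o => by cases o <;> simp [sg]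
    choose b hb using fun o => exists_nm v (hat (x o))
    choose a ha using fun i => exists_nm v (hat (y i))
    obtain ⟨U, hU1, hU2⟩ := hU (fun i => (a i, fun _ => false)) fun o => (b o, fun _ => false)
    have h5 := F.exists_tor hB v hu h1 hξ0 hϱ.const (fun o => (hs o).toSz₀) hq hq' hq1 hq1' hH hc
      a b κ α
    rw [hU1, coeff_mul_of_min hT hX U hα, hU2] at h5
    simp only [hat] at ha hb
    simp only [map_mul, map_prod, map_pow, ha, hb] at h5
    have hp : 0 < ∏ o, nm v (hat (x o)) ^ F.dg o :=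
      prod_pos fun o _ => pow_pos (nm_pos v (hB.hat_ne (hx o))) _
    refine le_of_mul_le_mul_right ?_ hp
    refine le_trans (le_of_eq (by ring)) (h5.trans ?_)
    have e1 : ∏ o, (s o ^ 8 * nm v (hat (x o)) ^ 2) ^ F.dg o ≤
        Real.exp (∑ o, ((g + Fintype.card (SI ι n) + 17) * F.dg o : ℕ) * Real.log (s o)) *
          ((∏ o, nm v (hat (x o)) ^ F.dg o) * ∏ o, nm v (hat (x o)) ^ F.dg o) := by
      rw [Real.exp_sum, ← prod_mul_distrib, ← prod_mul_distrib]
      refine prod_le_prod (fun o _ => by have := hs1 o; positivity) fun o _ => ?_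
      rw [Real.exp_nat_mul, Real.exp_log (by linarith [hs1 o]), ← mul_pow, ← sq, pow_mul, ← mul_pow]
      exact pow_le_pow_left₀ (by have := hs1 o; positivity) (mul_le_mul_of_nonneg_right
        (pow_le_pow_right₀ (hs1 o) (by omega)) (sq_nonneg _)) _
    have e2 : ∏ o, mx F.j v u o ^ (g * F.n o) = Real.exp (F.tl T u v) := by
      rw [Cfg.tl, if_pos hv, if_pos hv, add_zero, Real.exp_sum]
      exact prod_congr rfl fun o _ => by
        rw [Real.exp_nat_mul, Real.exp_log (mx_pos F.j v (fun o => (hu o).1) o)]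
    have e3 : ∏ o, (q o * rr v (u o)) ^ bdeg κ o * q' ^ bdeg α o = Real.exp (∑ o, (bdeg κ o *
        Real.log (q o * rr v (u o)) + ν o * Real.log q')) := by
      rw [Real.exp_sum, hα]
      refine prod_congr rfl fun o _ => ?_
      rw [Real.exp_add, Real.exp_nat_mul, Real.exp_nat_mul, Real.exp_log (by linarith [hq2 o]),
        Real.exp_log (by linarith)]
    have e4 := E_pos (na := IsNonarchimedean v) (one_pos.trans_le hH)
    rw [e2, e3]
    refine (mul_le_mul_of_nonneg_right (mul_le_mul_of_nonneg_right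
      (mul_le_mul_of_nonneg_left e1 e4.le) (Real.exp_pos _).le) (Real.exp_pos _).le).trans
      (le_of_eq ?_)
    simp only [hsg, add_zero, sum_const_zero, mul_zero, sub_zero, Real.exp_add, Real.exp_log e4]
    ring
  · have h2 := F.local_ineq hϱ he hrd hx h1 hξ0 hξ hH hc hV hU hT hX hα v hs
      (q := fun o => q o * rr v (u o)) (fun o a => by
        have h := geo_smul (hq o a) (zero_le_one.trans (hq1 o)) (one_le_rr v (u o)) (z := 1)
          (by rw [map_one]; exact one_le_rr v _)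
        rwa [map_one, one_mul] at h) hq' hq2 hq1' hσ fun p b l hl => hm p b l hl hv
    refine (mul_le_mul_of_nonneg_left (prod_le_prod (fun i _ => pow_nonneg (nm_nn _ _) _)
      fun i _ => pow_le_pow_left₀ (nm_nn _ _) (nm_hat_le v (y i)) _)
      (mul_nonneg (v.nonneg _) (v.nonneg _))).trans (h2.trans ?_)
    rw [Real.exp_add _ (F.tl T u v), mul_assoc]
    refine mul_le_mul_of_nonneg_left ?_ (Real.exp_pos _).le
    rw [Cfg.tl, if_neg hv, if_neg hv, zero_add, Real.exp_sum, ← prod_mul_distrib]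
    refine prod_le_prod (fun o _ => pow_nonneg (nm_nn _ _) _) fun o _ => ?_
    rw [Real.exp_nat_mul, ← mul_pow]
    exact pow_le_pow_left₀ (nm_nn _ _) ((hu o).nm_le v) _

omit [Fintype ι] in
theorem Cfg.gsum_tl (F : Cfg k (SI ι n) g m) (T : Finset (AbsoluteValue k ℝ))
    (u : OO m → Fin n → k) : FinS (F.tl T u) ∧ gsum (F.tl T u) =
      ∑ o, (g * F.n o : ℕ) * isum T (fun v => Real.log (mx F.j v u o)) +
        ∑ o, F.dg o * df T (u o) := by
  have f1 := fun o (_ : o ∈ univ) => (finS_df (u o)).const_mul (F.dg o)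
  have f2 := finS_out T (finS_sum univ f1)
  have f3 := finS_in T fun v => ∑ o, (g * F.n o : ℕ) * Real.log (mx F.j v u o)
  refine ⟨f3.add f2, (gsum_add f3 f2).trans ?_⟩
  have h1 := isum_sum T univ fun o v => (g * F.n o : ℕ) * Real.log (mx F.j v u o)
  have h2 := osum_sum T univ f1
  simp only [isum_const_mul] at h1
  simp only [osum_const_mul T (finS_df _)] at h2
  exact congrArg₂ (· + ·) h1 h2

theorem Cfg.global_ineq (F : Cfg k (SI ι n) g m) (hB : Tor B) (hϱ : B.Par g ϱ) (he : 1 ≤ e)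
    (hrd : ∀ o, IsRd B.I e ρ (F.u o) (F.rd o)) (hx : ∀ o, Rep (P o) (x o)) {a₀ : OO m → SI ι n}
    (h1 : ∀ o, x o (a₀ o) = 1) (hξ0 : ∀ o a, MvPowerSeries.constantCoeff (ξ o a) = x o a)
    (hξ : ∀ o, ∀ f ∈ B.I, aeval (ξ o) f = 0) {c : Co g F.n} {H : ℝ} (hH : 1 ≤ H)
    (hc : ∀ z τ, |(c z τ : ℝ)| ≤ H) (hV : F.Van B e ρ L mk c) {y : Fin m × Bool → SI ι n → k}
    (hy : ∀ i, hat (y i) ≠ 0) {f : RR k (OO m) r g} {l : k} (hl : l ≠ 0)
    (hU : ∀ a b, ∃ U, F.FF B c a (ty B ξ ϱ b) = U * f ∧ MvPowerSeries.constantCoeff U =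
      l * ((∏ o, x o (b o) ^ F.dg o) * ∏ i, y i (a i) ^ (g * F.n (some i))))
    {κ : OO m × Fin r →₀ ℕ} {ν : OO m → ℕ} (hT : MinT f ν) (hX : MinX f κ ν)
    {Ψ : MvPolynomial (OO m × Fin g) k} (hΨ : IsLead f κ ν Ψ) (hΨ0 : Ψ ≠ 0)
    {s q : OO m → AbsoluteValue k ℝ → ℝ} {q' : AbsoluteValue k ℝ → ℝ}
    {σ : Fin m → AbsoluteValue k ℝ → ℝ} {h h' : OO m → ℝ} {C t : ℝ} (as : ∀ o, Ad (s o) (h o))
    (aq : ∀ o, Ad (q o) (h' o)) (aq' : Ad q' C) (hσ : ∀ p v, 0 ≤ σ p v) (fσ : ∀ p, FinS (σ p))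
    (gσ : ∀ p, gsum (σ p) = t) (hs : ∀ o v, Sz B v (F.u o) (F.rd o) (s o v))
    (hq : ∀ o v a, Geo v (q o v) (ξ o a)) (hq' : ∀ v a, Geo v (q' v) (ϱ a))
    (hm : ∀ p v b, ∀ l ∈ mk b, v ∉ T → v (eval (x (some (p, b))) (F.u (some (p, b)) l)) ≤
      s (some (p, b)) v * Real.exp (-σ p v) ^ 4 ^ F.j (p, b) * nm v (x (some (p, b))) ^ e)
    {u : OO m → Fin n → k} (hu : ∀ o, Seg (x o) (u o)) (hσT : ∀ p, ∀ v ∈ T, σ p v = 0) :
    logHeight (fun α : Ψ.support => coeff α.1 Ψ) +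
        ∑ i, (g * F.n (some i) : ℕ) * logHeight (hat (y i)) + L * (m * t) ≤
      totalWeight k * Real.log H +
        ∑ o, F.dg o * ((g + Fintype.card (SI ι n) + 17 : ℕ) * h o + logHeight (hat (x o))) +
        ∑ o, (bdeg κ o * (h' o + 2 * ∑ j, logHeight₁ (u o j) + nn F.j o * t) +
          ν o * (C + nn F.j o * t)) +
        (∑ o, (g * F.n o : ℕ) * isum T (fun v => Real.log (mx F.j v u o)) +
          ∑ o, F.dg o * df T (u o)) := by
  have hx0 : ∀ o, hat (x o) ≠ 0 := fun o => hB.hat_ne (hx o)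
  have aQ := fun o => (aq o).mul (ad_rr (u o))
  obtain ⟨f7, g7⟩ := F.gsum_tl T u
  have hΨ1 : (fun α : Ψ.support => coeff α.1 Ψ) ≠ 0 := fun h0 => by
    obtain ⟨α, hα⟩ := ne_zero_iff.1 hΨ0
    exact hα (congrFun h0 ⟨α, mem_support_iff.2 hα⟩)
  have f0 : ∀ o, FinS fun v => sg F.j (fun p => σ p v) o := fun o => by
    cases o with
    | none => exact pf_finS_zero
    | some i => exact (fσ i.1).const_mul _
  have g0 : ∀ o, gsum (fun v => sg F.j (fun p => σ p v) o) = nn F.j o * t := fun o => by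
    cases o with
    | none => simpa [sg, nn] using pf_gsum_zero (K := k)
    | some i =>
      refine (gsum_const_mul (fσ i.1) _).trans ?_
      rw [gσ]
      simp [nn]
  have f1 := (ad_E (k := k) hH).fin
  have f2 := finS_sum univ fun o _ =>
    (as o).fin.const_mul ((g + Fintype.card (SI ι n) + 17) * F.dg o : ℕ)
  have f3 := (finS_sum univ fun p _ => fσ p).const_mul (-L)
  have f4 := fun o => ((aQ o).fin.add (f0 o)).const_mul (bdeg κ o)
  have f5 := fun o => (aq'.fin.add (f0 o)).const_mul (ν o)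
  have f6 := finS_sum univ fun o _ => (f4 o).add (f5 o)
  have key := height_ineq hΨ1 hl hx0 F.dg hy (fun i => g * F.n (some i))
    ((((f1.add f2).add f3).add f6).add f7) fun v _ α => by
      have hα : bdeg α.1 = ν := funext (hΨ.deg α.1 α.2)
      have h2 := F.local_all hB hϱ he hrd hx h1 hξ0 hξ hH hc hV hU hT hX hα v (fun o => hs o v)
        (fun o => hq o v) (hq' v) (fun o => (aq o).one v) (aq'.one v) (fun p => hσ p v)
        (fun p => hm p v) hu fun hv p => hσT p v hv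
      rw [(hΨ α.1).1 hα]
      simpa only [sub_eq_add_neg, neg_mul] using h2
  rw [gsum_add (((f1.add f2).add f3).add f6) f7, g7, gsum_add ((f1.add f2).add f3) f6, gsum_add (f1.add f2) f3, gsum_add f1 f2,
    gsum_sum univ (fun o _ => (as o).fin.const_mul _),
    gsum_const_mul (finS_sum univ fun p _ => fσ p), gsum_sum univ fun p _ => fσ p,
    gsum_sum univ fun o _ => (f4 o).add (f5 o)] at key
  have b1 := (ad_E (k := k) hH).le
  have b2 : ∑ o, gsum (fun v => (((g + Fintype.card (SI ι n) + 17) * F.dg o : ℕ) : ℝ) *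
      Real.log (s o v)) + ∑ o, F.dg o * logHeight (hat (x o)) ≤
      ∑ o, F.dg o * ((g + Fintype.card (SI ι n) + 17 : ℕ) * h o + logHeight (hat (x o))) := by
    rw [← sum_add_distrib]
    refine sum_le_sum fun o _ => ?_
    rw [gsum_const_mul (as o).fin, Nat.cast_mul]
    have := mul_le_mul_of_nonneg_left (as o).le
      (show (0 : ℝ) ≤ (g + Fintype.card (SI ι n) + 17 : ℕ) * F.dg o by positivity)
    linarith
  have b3 : ∑ o, gsum (fun v => bdeg κ o * (Real.log (q o v * rr v (u o)) + sg F.j (fun p => σ p v) o) +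
      ν o * (Real.log (q' v) + sg F.j (fun p => σ p v) o)) ≤
      ∑ o, (bdeg κ o * (h' o + 2 * ∑ j, logHeight₁ (u o j) + nn F.j o * t) +
        ν o * (C + nn F.j o * t)) := by
    refine sum_le_sum fun o _ => ?_
    rw [gsum_add (f4 o) (f5 o), gsum_const_mul ((aQ o).fin.add (f0 o)),
      gsum_const_mul (aq'.fin.add (f0 o)), gsum_add (aQ o).fin (f0 o), gsum_add aq'.fin (f0 o), g0]
    have := (aQ o).le
    have := aq'.le
    gcongr
  simp only [gσ, sum_const, card_univ, Fintype.card_fin, nsmul_eq_mul] at key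
  linarith

end Pool.Agent.Lib.MP_8865d3_nt.Sv
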