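import Pool.Agent.Lib.MP_651af7_nt.Av.ELead
import Pool.Agent.Lib.MP_8865d3_nt.Sv.EDefs

/-! Engine: the leading form and its height; degree sums. -/

namespace Pool.Agent.Lib.MP_8865d3_nt.Sv

open Finset Height
open Pool.Agent.Lib.MP_651af7_nt.Av

theorem lead_height (k : Type) [Field k] [NumberField k] (g : ℕ) : ∃ c : ℝ, 0 < c ∧ ∃ C : ℝ,
    ∀ (ι O : Type) [Fintype ι] [Fintype O] (B : GV k ι) (r : ℕ) (σ : Fin g → ι → k)
      (D : O → Chart k ι r) (x : O → ι → k) (ξ : O → ι → MvPowerSeries (Fin r) k) (H : O → ℝ)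
      (f : RR k O r g) (κ : O × Fin r →₀ ℕ) (ν : O → ℕ) (Ψ : MvPolynomial (O × Fin g) k),
      (∀ o, (D o).Br (x o) (ξ o)) →
      (∀ o (l : Fin g → k), l ≠ 0 → B.Kills σ (D o) (x o) l → H o ≤ logHeight l) →
      (∀ o a', ∃ w : Fin g → RR k O r g, MvPowerSeries.pderiv k (.inl (o, a')) f =
            ∑ j, w j * MvPowerSeries.pderiv k (.inr (o, j)) f ∧
          B.Tang (x o) (lin (ξ o) a')
            fun a => ∑ l, MvPowerSeries.constantCoeff (w l) * algebraMap k k (σ l a)) →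
      MinT f ν → MinX f κ ν → IsLead f κ ν Ψ → Ψ ≠ 0 →
      ∑ o, ν o * (c * H o - C) ≤ logHeight fun α : Ψ.support => MvPolynomial.coeff α.1 Ψ := by
  obtain ⟨c, hc, C, h⟩ := conormal_height k (Fin g)
  refine ⟨c, hc, C, fun ι O _ _ B r σ D x ξ H f κ ν Ψ hξ hK hw hT hX hΨ h0 => ?_⟩
  choose w hw1 hw2 using hw
  refine h O (fun o => Submodule.span k
    (Set.range fun a' j => MvPowerSeries.constantCoeff (w o a' j))) H ν Ψ h0 hΨ.deg
    (fun o τ hτ => ?_) fun o l hl hl' => hK o l hl fun a' =>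
      ⟨_, _, (hξ o).tv a', hw2 o a', hl' _ (Submodule.subset_span ⟨a', rfl⟩)⟩
  induction hτ using Submodule.span_induction with
  | mem τ hτ =>
    obtain ⟨a', rfl⟩ := hτ
    exact hΨ.inv hT hX (hw1 o a')
  | zero => simp
  | add τ τ' _ _ h1 h2 => simp only [Pi.add_apply, add_smul, sum_add_distrib, h1, h2, add_zero]
  | smul a τ _ h1 => simp only [Pi.smul_apply, smul_eq_mul, mul_smul, ← smul_sum, h1, smul_zero]

theorem Cfg.sum_dg_hat {k ι : Type} [Field k] {g m : ℕ} (F : Cfg k ι g m)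
    (hn : ∀ i, F.n (some i) * 4 ^ F.j i = F.n none) {w w' : OO m → ℝ}
    (h : ∀ i, w (some i) ≤ 2 * (4 ^ F.j i * w none)) {θ : ℝ} (hθ : 0 ≤ θ)
    {p : Fin m × Bool → ℝ}
    (hp : ∀ i, 2 * (w' (some i) + 4 ^ F.j i * w' none) ≤ p i + θ * w (some i)) :
    ∑ o, F.dg o * w' o + ∑ i, (g * F.n (some i) : ℕ) * (θ * w (some i)) ≤
      ∑ i, (g * F.n (some i) : ℕ) * p i + g * (F.n none * w' none) +
      2 * m * g * (4 * θ * (F.n none * w none)) := by
  rw [Fintype.sum_option, F.dg_none hn]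
  have h1 : ∑ i, (F.dg (some i) * w' (some i) + 2 * g * (F.n none * w' none) +
      (g * F.n (some i) : ℕ) * (θ * w (some i))) ≤
      ∑ i, ((g * F.n (some i) : ℕ) * p i + g * (4 * θ * (F.n none * w none))) :=
    sum_le_sum fun i _ => by
    have h2 := mul_le_mul_of_nonneg_left (F.n_mul_le hn h i) (show (0 : ℝ) ≤ θ * g by positivity)
    have h3 := mul_le_mul_of_nonneg_left (hp i) (show (0 : ℝ) ≤ g * F.n (some i) by positivity)
    have h4 : (F.n none : ℝ) = F.n (some i) * 4 ^ F.j i := by rw [← hn i]; push_cast; ring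
    simp only [Cfg.dg]
    push_cast
    rw [h4] at h2 ⊢
    linarith
  simp only [sum_add_distrib, sum_const, card_univ, Fintype.card_prod, Fintype.card_fin,
    Fintype.card_bool, nsmul_eq_mul] at h1
  push_cast at h1 ⊢
  linarith

end Pool.Agent.Lib.MP_8865d3_nt.Sv
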