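import Pool.Agent.Lib.MP_651af7_nt.Av.EMark
import Pool.Agent.Lib.MP_8865d3_nt.Sv.Sum

/-! Engine: the local gains. -/

namespace Pool.Agent.Lib.MP_8865d3_nt.Sv

open MvPolynomial Finset Height
open Pool.Agent.Lib.MP_651af7_nt.Av
open Pool.Agent.Lib.MP_651af7_nt Pool.Agent.Lib.MP_651af7_nt.Vj

variable {k ι : Type} [Field k] [NumberField k] [Fintype ι] {g e : ℕ}

theorem exists_sigma (T : Finset (AbsoluteValue k ℝ)) {md : Option (AbsoluteValue k ℝ)} (hmd : Mode g md)
    {η t : ℝ} (ht : 0 ≤ t)
    {u : Bool → Fin (g + 1) → MvPolynomial ι k} {x : Bool → ι → k} (hx : ∀ b, x b ≠ 0)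
    (hu : ∀ b l, (u b l).IsHomogeneous e) (hb : ∀ b, BadT T md e η (u b) (x b))
    {c : Bool → AbsoluteValue k ℝ → ℝ} {h : Bool → ℝ} (hc : ∀ b, Ad (c b) (h b))
    (hcu : ∀ b v l, pl v (u b l) ≤ c b v) {N : Bool → ℕ} (hN1 : ∀ b, 1 ≤ N b)
    (hN : ∀ b, N b * t ≤ η * logHeight (x b)) :
    ∃ σ : AbsoluteValue k ℝ → ℝ, (∀ v, 0 ≤ σ v) ∧ FinS σ ∧ gsum σ = t ∧ (∀ v ∈ T, σ v = 0) ∧
      ∀ v b, ∀ l ∈ mark g md b, v ∉ T →
        v (eval (x b) (u b l)) ≤ c b v * Real.exp (-σ v) ^ N b * nm v (x b) ^ e := by
  classical
  have hev : ∀ b v l, v (eval (x b) (u b l)) ≤ c b v * nm v (x b) ^ e := fun b v l => by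
    have h1 := (absSN_ov v).aeval_le (hu b l) (y := x b) (nm_nn v (x b)) (le_nm v (x b))
    rw [aeval_eq_eval] at h1
    exact h1.trans (mul_le_mul_of_nonneg_right (hcu b v l) (pow_nonneg (nm_nn v _) _))
  have hN' : ∀ b, (1 : ℝ) ≤ N b := fun b => by exact_mod_cast hN1 b
  cases md with
  | none =>
    obtain ⟨hW, hη⟩ := hb false
    set W : Fin 2 → k := ![eval (x false) (u false 0), eval (x false) (u false 1)] with hWd
    set lam : AbsoluteValue k ℝ → ℝ := fun v => Real.log (c false v) +
      ((e : ℝ) * Real.log (nm v (x false)) + -1 * Real.log (nm v W)) with hlam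
    have hexp : ∀ v, c false v * Real.exp (-lam v) * nm v (x false) ^ e = nm v W := fun v => by
      have h1 := (hc false).pos v
      have h2 := pow_pos (nm_pos v (hx false)) e
      have h3 : -lam v = Real.log (nm v W) -
          (Real.log (c false v) + Real.log (nm v (x false) ^ e)) := by
        rw [Real.log_pow]; simp only [hlam]; ring
      rw [h3, Real.exp_sub, Real.exp_add, Real.exp_log h1, Real.exp_log h2,
        Real.exp_log (nm_pos v hW)]
      field_simp
    have hl0 : ∀ v, 0 ≤ lam v := fun v => by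
      have h1 : nm v W ≤ c false v * nm v (x false) ^ e := by
        obtain ⟨a, ha⟩ := exists_nm v W
        rw [← ha]
        fin_cases a
        · exact hev false v 0
        · exact hev false v 1
      have h2 := Real.log_le_log (nm_pos v hW) h1
      rw [Real.log_mul ((hc false).pos v).ne' (pow_pos (nm_pos v (hx false)) e).ne',
        Real.log_pow] at h2
      simp only [hlam]
      linarith
    have f1 := finS_sub ((finS_nm (x false)).const_mul (e : ℝ)) (finS_nm W)
    have hf : FinS lam := by
      simpa only [hlam, neg_one_mul, sub_eq_add_neg] using (hc false).fin.add f1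
    have hS : N false * t ≤ osum T lam := by
      have h1 := osum_mono T f1 hf fun v _ _ => by
        have := Real.log_nonneg ((hc false).one v)
        simp only [hlam]
        linarith
      linarith [hN false]
    have htS : t ≤ osum T lam := le_trans (le_mul_of_one_le_left ht (hN' false)) hS
    have hS0 : 0 ≤ osum T lam := ht.trans htS
    refine ⟨fun v => t / osum T lam * if v ∈ T then 0 else lam v, fun v =>
      mul_nonneg (div_nonneg ht hS0) (by split_ifs; exacts [le_rfl, hl0 v]),
      (finS_out T hf).const_mul _, ?_, fun v hv => by simp [hv], ?_⟩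
    · rw [Vj.gsum_const_mul (finS_out T hf)]
      change _ * osum T lam = t
      rcases hS0.eq_or_lt with h0 | h0
      · rw [← h0, mul_zero]; linarith
      · exact div_mul_cancel₀ _ h0.ne'
    · intro v b l hl hv
      cases b with
      | true => simp [mark] at hl
      | false =>
        have hl' : l = 0 ∨ l = 1 := by simpa [mark] using hl
        have h1 : v (eval (x false) (u false l)) ≤ nm v W := by
          rcases hl' with rfl | rfl
          · exact le_nm v W 0
          · exact le_nm v W 1
        refine h1.trans ?_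
        beta_reduce
        rw [← hexp v, ← Real.exp_nat_mul, if_neg hv]
        refine mul_le_mul_of_nonneg_right (mul_le_mul_of_nonneg_left (Real.exp_le_exp.mpr ?_)
          ((hc false).pos v).le) (pow_nonneg (nm_nn v _) _)
        have h2 : N false * (t / osum T lam) ≤ 1 := by
          rw [← mul_div_assoc]
          exact div_le_one_of_le₀ hS hS0
        have h3 := mul_le_mul_of_nonneg_right h2 (hl0 v)
        nlinarith [h3]
  | some v₀ =>
    obtain ⟨hf, hn⟩ := emark_ind v₀ (hmd.2 v₀ rfl)
    set n₀ := gsum (fun v : AbsoluteValue k ℝ => if v = v₀ then (1 : ℝ) else 0) with hn₀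
    have hn0 : 0 < n₀ := one_pos.trans_le hn
    refine ⟨fun v => t / n₀ * if v = v₀ then (1 : ℝ) else 0, fun v => mul_nonneg
      (div_nonneg ht hn0.le) (by split_ifs <;> norm_num), hf.const_mul _, ?_, fun v hv => ?_, ?_⟩
    · rw [Vj.gsum_const_mul hf]
      exact div_mul_cancel₀ _ hn0.ne'
    · have h1 : v ≠ v₀ := fun h => (hb true).1 (h ▸ hv)
      simp [h1]
    · intro v b l hl _
      have hl' : l = 0 := by simpa [mark] using hl
      subst hl'
      by_cases hv : v = v₀
      · subst hv
        have h1 : v (eval (x b) (u b 0)) ≤ nm v (x b) ^ e * Real.exp (-(η * logHeight (x b))) :=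
          (hb b).2
        refine h1.trans ?_
        beta_reduce
        rw [mul_comm, if_pos rfl, mul_one, ← Real.exp_nat_mul]
        refine mul_le_mul_of_nonneg_right ?_ (pow_nonneg (nm_nn v _) _)
        refine le_trans (Real.exp_le_exp.mpr ?_)
          (le_mul_of_one_le_left (Real.exp_pos _).le ((hc b).one v))
        have h2 : t / n₀ ≤ t := div_le_self ht hn
        have h3 := mul_le_mul_of_nonneg_left h2 (Nat.cast_nonneg (α := ℝ) (N b))
        linarith [hN b]
      · simpa [if_neg hv] using hev b v 0

end Pool.Agent.Lib.MP_8865d3_nt.Sv
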