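import Pool.Agent.Lib.MP_651af7_nt.Av.EJc
import Pool.Agent.Lib.MP_8865d3_nt.Sv.EBd

/-! Engine: the coefficients of the normal forms of the basic factors. -/

namespace Pool.Agent.Lib.MP_8865d3_nt.Sv.Cfg

open MvPolynomial Finset
open Pool.Agent.Lib.MP_651af7_nt.Av Pool.Agent.Lib.MP_651af7_nt.Av.Cfg

variable {k ι R R' : Type} [Field k] [Fintype ι] [CommRing R] [Algebra k R] [CommRing R']
  [Algebra k R'] {g m : ℕ} (F : Cfg k ι g m) (B : GV k ι)

omit [Fintype ι] in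
lemma ejc_ph_hom {σ : Type} {x y : ι → MvPolynomial σ R} {d d' : ℕ}
    (hx : ∀ c, (x c).IsHomogeneous d) (hy : ∀ c, (y c).IsHomogeneous d') (a b : ι) :
    (B.ph a b x y).IsHomogeneous (2 * d + 2 * d') := by
  rw [GV.ph, aeval_def, eval₂_eq]
  refine IsHomogeneous.sum _ _ _ fun μ hμ => ?_
  have h := B.bih a b (mem_support_iff.mp hμ)
  rw [Finsupp.weight_apply, Finsupp.sum] at h
  have h1 : (∏ i ∈ μ.support, Sum.elim x y i ^ μ i).IsHomogeneous
      (∑ i ∈ μ.support, ((μ i • bw ι ι i).1 * d + (μ i • bw ι ι i).2 * d')) :=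
    IsHomogeneous.prod _ _ _ fun i _ => by
      rcases i with c | c
      · simpa [bw, mul_comm] using (hx c).pow (μ (.inl c))
      · simpa [bw, mul_comm] using (hy c).pow (μ (.inr c))
  rw [sum_add_distrib, ← sum_mul, ← sum_mul, ← Prod.fst_sum, ← Prod.snd_sum, h] at h1
  rw [MvPolynomial.algebraMap_apply]
  exact h1.C_mul _

omit [Fintype ι] in
lemma ejc_dbn_hom {σ : Type} {y : ι → MvPolynomial σ R} (hy : ∀ c, (y c).IsHomogeneous 0)
    (j : ℕ) (a : ι) : (B.dbn y j a).IsHomogeneous 0 := by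
  induction j generalizing a with
  | zero => exact hy a
  | succ j ih =>
    simp only [GV.dbn, aeval_def]
    simpa only [zero_mul] using (B.ψ_hom a).eval₂ (algebraMap k _) _
      (fun r => MvPolynomial.algebraMap_apply (S₁ := R) (σ := σ) r ▸ isHomogeneous_C _ _) ih

omit [Fintype ι] in
lemma ejc_arm_mul (i : Fin m × Bool) (a : ι) (s : R) (y₀ y : ι → R) (l : Fin (g + 1)) :
    F.arm B i a (fun c => s * y₀ c) y l = s ^ (2 * 4 ^ F.j i) * F.arm B i a y₀ y l := by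
  have h1 : B.dbn (fun c => s * y₀ c) (F.j i) = fun c => s ^ 4 ^ F.j i * B.dbn y₀ (F.j i) c :=
    funext fun c => B.dbn_mul s y₀ _ c
  have h2 := GV.ph_mul (A := B) a (F.q (some i) l) 1 (s ^ 4 ^ F.j i) y (B.dbn y₀ (F.j i))
  simp only [one_mul, one_pow] at h2
  rw [arm, arm, h1, h2, ← pow_mul, mul_comm (4 ^ F.j i)]

lemma ejc_Jc_mul (i : Fin m × Bool) (a : ι) (s : R) (y₀ : ι → R) (t : Bx g (F.n (some i)))
    (ω : Ex g ι) : F.Jc B i a (fun c => s * y₀ c) t ω =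
      s ^ (2 * 4 ^ F.j i * (g * F.n (some i))) * F.Jc B i a y₀ t ω := by
  have h1 : F.arm B i a (fun c => (C (s * y₀ c) : MvPolynomial ι R)) X =
      fun l => C s ^ (2 * 4 ^ F.j i) * F.arm B i a (fun c => C (y₀ c)) X l := by
    funext l
    simp only [map_mul]
    exact ejc_arm_mul F B i a _ _ _ l
  rw [Jc, Jc, Ee, Ee, h1, bx_mul, ← pow_mul, ← map_pow, redc_C_mul]

omit [Fintype ι] in
theorem eval_Ee (i : Fin m × Bool) (a : ι) (y₀ y : ι → R) (t : Bx g (F.n (some i))) :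
    eval y (F.Ee B i a y₀ t) = bx (F.arm B i a y₀ y) t := by
  let f : MvPolynomial ι R →ₐ[k] R := (aeval y : MvPolynomial ι R →ₐ[R] R).restrictScalars k
  refine (map_bx (eval y) _ t).trans ?_
  congr 1
  funext l
  have h := F.map_arm B f i a (fun c => C (y₀ c)) X l
  simpa [f, aeval_eq_eval] using h

omit [Fintype ι] in
theorem map_Ee (f : R →ₐ[k] R') (i : Fin m × Bool) (a : ι) (y₀ : ι → R) (t : Bx g (F.n (some i))) :
    MvPolynomial.map (f : R →+* R') (F.Ee B i a y₀ t) = F.Ee B i a (fun c => f (y₀ c)) t := by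
  refine (map_bx _ _ t).trans ?_
  unfold Ee
  congr 1
  funext l
  have h := F.map_arm B (mapAlgHom (σ := ι) f) i a (fun c => C (y₀ c)) X l
  simpa using h

omit [Fintype ι] in
/-- `ph a b x y` is homogeneous of degree `2 d + 2 d'` if the `x`, `y` have degrees `d`, `d'`. -/
theorem Ee_hom (i : Fin m × Bool) (a : ι) (y₀ : ι → R) (t : Bx g (F.n (some i))) :
    (F.Ee B i a y₀ t).IsHomogeneous (F.dg (some i)) := by
  refine ejc_bx_hom (d := 2) (fun l => ?_) t
  exact ejc_ph_hom B (d := 1) (d' := 0) (fun c => isHomogeneous_X R c)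
    (ejc_dbn_hom B (fun c => isHomogeneous_C _ _) _) _ _

theorem map_Jc (f : R →ₐ[k] R') (i : Fin m × Bool) (a : ι) (y₀ : ι → R) (t : Bx g (F.n (some i)))
    (ω : Ex g ι) : f (F.Jc B i a y₀ t ω) = F.Jc B i a (fun c => f (y₀ c)) t ω := by
  rw [Jc, map_redc, map_Ee, Jc]

/-- Either: all coefficients of `Ee` are homogeneous (the polynomials over `k [X]` all of whose
coefficients are forms of degree `d` are a graded monoid), or: `Jc (s * y₀) = s ^ d * Jc y₀` in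
every algebra, and a polynomial with `P (T X) = T ^ d P (X)` is homogeneous. -/
theorem Jc_hom (i : Fin m × Bool) (a : ι) (t : Bx g (F.n (some i))) (ω : Ex g ι) :
    (F.Jc B i a (X : ι → MvPolynomial ι k) t ω).IsHomogeneous
      (2 * 4 ^ F.j i * (g * F.n (some i))) := by
  refine ejc_hom_of_scale ?_
  have h := F.map_Jc B
    (IsScalarTower.toAlgHom k (MvPolynomial ι k) (Polynomial (MvPolynomial ι k))) i a X t ω
  rw [F.map_Jc B]
  simp only [aeval_X]
  rw [ejc_Jc_mul]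
  exact congrArg _ h.symm

theorem map_slice (f : R →ₐ[k] R') (c : Co g F.n) (p : Fin m) (a : Bool → ι) (ω : Bool → Ex g ι)
    (τ : ∀ p, TT g F.n p) (y₀ : ι → R) :
    f (F.slice B c p a ω τ y₀) = F.slice B c p a ω τ fun c => f (y₀ c) := by
  have h : ∀ {n : ℕ} (Q : Fin (g + 1) → R) (z : Bx g n), f (bx Q z) = bx (fun l => f (Q l)) z :=
    fun Q z => map_bx (f : R →+* R') Q z
  simp only [slice, map_sum, map_mul, map_prod, map_intCast, h, map_Jc]

variable {B}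

theorem Van.eq_zero {F : Cfg k ι g m} {e ρ L : ℕ} {mk : Bool → Finset (Fin (g + 1))}
    {c : Co g F.n} (h : F.Van B e ρ L mk c) {y₀ : ι → R} (hy : ∀ f ∈ B.I, aeval y₀ f = 0)
    (p : Fin m) (a : Bool → ι) {ω : Bool → Ex g ι} (hω : ω ∈ F.low e ρ L mk p)
    (τ : ∀ p, TT g F.n p) : F.slice B c p a ω τ y₀ = 0 := by
  have h1 := hy _ (h p a ω hω τ)
  rw [F.map_slice B] at h1
  simpa using h1

/-- Use the seminorm of `exists_polSN` with radii `1` on `R [X]`, `ph_le`, `dbn_le`, `bx_le`,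
`redc_le`. -/
theorem Jc_le {v : AbsoluteValue k ℝ} {S : SN R (IsNonarchimedean v)} (hS : S.Ov v)
    (i : Fin m × Bool) {s₀ s Y : ℝ} (hs₀ : Sz₀ B v s₀)
    (hs : Sz B v (F.u (some i)) (F.rd (some i)) s) {y₀ : ι → R} (hy : ∀ a, S.N (y₀ a) ≤ Y) (a : ι)
    (t : Bx g (F.n (some i))) (ω : Ex g ι) : S.N (F.Jc B i a y₀ t ω) ≤
      s ^ (2 * F.dg (some i)) * (s₀ * Y) ^ (2 * 4 ^ F.j i * (g * F.n (some i))) := by
  obtain ⟨S', hS'⟩ := exists_polSN (σ := ι) S (t := fun _ => 1) fun _ => zero_le_one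
  have hO : S'.Ov v := hS.pol (fun _ => zero_le_one) hS'
  have h1 : 1 ≤ s := one_le_of_two hs.two
  have h0 : 0 ≤ s₀ * Y :=
    mul_nonneg (zero_le_one.trans (one_le_of_two hs₀.two)) ((S.nonneg _).trans (hy a))
  have hC : ∀ c, S'.N (C (y₀ c)) ≤ Y := fun c => by
    rw [hS']
    exact (polN_C S (fun _ => zero_le_one) _).trans (hy c)
  have hX : ∀ c, S'.N (X c) ≤ 1 := fun c => by
    rw [hS']
    exact polN_X S (fun _ => zero_le_one) c
  have h2 : S'.N (F.Ee B i a y₀ t) ≤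
      (s * (1 ^ 2 * ((s₀ * Y) ^ 4 ^ F.j i) ^ 2)) ^ (g * F.n (some i)) :=
    S'.bx_le (fun l => GV.ph_le hO hs.toSz₀ hX (GV.dbn_le hO hs₀ hC _) _ _) t
  rw [hS'] at h2
  refine (hS.redc_le (zero_le_one.trans h1) hs.rd (F.Ee_hom B i a y₀ t) ω).trans ?_
  refine (mul_le_mul_of_nonneg_right h2 (by positivity)).trans ?_
  have h3 : (s * (1 ^ 2 * ((s₀ * Y) ^ 4 ^ F.j i) ^ 2)) ^ (g * F.n (some i)) * s ^ F.dg (some i) =
      s ^ (3 * (g * F.n (some i))) * (s₀ * Y) ^ (2 * 4 ^ F.j i * (g * F.n (some i))) := by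
    simp only [dg]
    generalize s₀ * Y = Z
    generalize g * F.n (some i) = N
    ring
  rw [h3]
  refine mul_le_mul_of_nonneg_right (pow_le_pow_right₀ h1 ?_) (pow_nonneg h0 _)
  simp only [dg]
  omega

end Pool.Agent.Lib.MP_8865d3_nt.Sv.Cfg
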