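import Pool.Agent.Lib.MP_651af7_nt.Av.ESieg
import Pool.Agent.Lib.MP_8865d3_nt.Sv.EJc

/-! Engine: Siegel's lemma. -/

namespace Pool.Agent.Lib.MP_8865d3_nt.Sv

open MvPolynomial Finset
open Pool.Agent.Lib.MP_651af7_nt.Av

section

variable {k ι : Type} [Field k] [Fintype ι] {g m : ℕ} (F : Cfg k ι g m) (B : GV k ι)

/-- The polynomial in the centre attached to one unknown and one pattern. -/
noncomputable def esieg_pol (p : Fin m) (a : Bool → ι) (ω : Bool → Ex g ι) (z : Bx g (F.n none))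
    (t : TT g F.n p) : MvPolynomial ι k :=
  bx (fun l => X (F.q none l)) z * ∏ s, F.Jc B (p, s) (a s) X (t s) (ω s)

theorem esieg_hom (p : Fin m) (a : Bool → ι) (ω : Bool → Ex g ι) (z : Bx g (F.n none))
    (t : TT g F.n p) : (esieg_pol F B p a ω z t).IsHomogeneous (F.dh p) := by
  refine IsHomogeneous.mul ?_ (IsHomogeneous.prod _ _ _ fun s _ => F.Jc_hom B (p, s) _ _ _)
  have h := IsHomogeneous.prod (R := k) univ (fun l : Fin g =>
    X (F.q none l.succ) ^ (z l : ℕ) * X (F.q none 0) ^ (F.n none - z l)) (fun _ => F.n none)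
    fun l _ => by
      have := (isHomogeneous_X_pow (R := k) (F.q none l.succ) (z l)).mul
        (isHomogeneous_X_pow (R := k) (F.q none 0) (F.n none - z l))
      rwa [Nat.add_sub_cancel' (z l).is_le] at this
  rwa [sum_const, card_univ, Fintype.card_fin, smul_eq_mul] at h

theorem esieg_le {v : AbsoluteValue k ℝ} {s : OO m → ℝ}
    (hs : ∀ o, Sz B v (F.u o) (F.rd o) (s o)) (p : Fin m) (a : Bool → ι) (ω : Bool → Ex g ι)
    (z : Bx g (F.n none)) (t : TT g F.n p) (ω₀ : Ex g ι) :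
    v (redc (F.rd none) (esieg_pol F B p a ω z t) ω₀) ≤ ∏ o, s o ^ (2 * F.dg o) := by
  have h1 : ∀ o, 1 ≤ s o := fun o => one_le_of_two (hs o).two
  have h0 : ∀ o, 0 ≤ s o := fun o => zero_le_one.trans (h1 o)
  obtain ⟨S, hS⟩ := exists_polSN (σ := ι) (absSN v) (t := fun _ => 1) fun _ => zero_le_one
  have hov : S.Ov v := (absSN_ov v).pol (fun _ => zero_le_one) hS
  have hX : ∀ c, S.N (X c) ≤ 1 := fun c => hS ▸ polN_X (absSN v) (fun _ => zero_le_one) c
  have h2 := S.mul_le (S.bx_le (fun l => hX (F.q none l)) z) (S.prod_le univ fun b _ =>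
    F.Jc_le hov (p, b) (hs none).toSz₀ (hs (some (p, b))) hX (a b) (t b) (ω b))
  rw [one_pow, one_mul, mul_one, prod_mul_distrib, prod_pow_eq_pow_sum, hS] at h2
  refine ((absSN_ov v).redc_le (h0 none) (hs none).rd (esieg_hom F B p a ω z t) ω₀).trans
    ((mul_le_mul_of_nonneg_right h2 (pow_nonneg (h0 _) _)).trans ?_)
  rw [mul_assoc, ← pow_add, mul_comm, Fintype.prod_option, Fintype.prod_prod_type,
    ← mul_prod_erase _ _ (mem_univ p)]
  have h3 := F.dh_le p
  refine mul_le_mul (pow_le_pow_right₀ (h1 _) ?_) (le_mul_of_one_le_right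
    (prod_nonneg fun _ _ => pow_nonneg (h0 _) _) (one_le_prod fun _ _ => one_le_prod
      fun _ _ => one_le_pow₀ (h1 _))) (prod_nonneg fun _ _ => pow_nonneg (h0 _) _)
    (pow_nonneg (h0 _) _)
  unfold Cfg.dh at h3 ⊢
  omega

end



/-- Conditions of the pair `p`: triples `(a, ω₀, ω)`, `a : Bool → ι`, `ω₀ ∈ Mon (dh p)`,
`ω ∈ low p`; `Λ = redc (rd none) (bx (X ∘ q none) z * ∏ b, Jc X (a b) (t b) (ω b)) ω₀`, which is
bounded by `∏ o, s o ^ (2 * dg o)` (`redc_le` for `absSN`, `Jc_le` for the seminorm of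
`exists_polSN`, `Jc_hom`, `dh_le`).  `IsRd.mem`, `redc_sum`, `redc_C_mul` give `Van`. -/
theorem siegel (k ι : Type) [Field k] [NumberField k] [Fintype ι] : ∃ (N : ℕ) (C : ℝ), 0 ≤ C ∧
    ∀ (B : GV k ι) (g m e ρ L : ℕ) (F : Cfg k ι g m) (mk : Bool → Finset (Fin (g + 1)))
      (s : OO m → AbsoluteValue k ℝ → ℝ) (h : OO m → ℝ),
      (∀ o, IsRd B.I e ρ (F.u o) (F.rd o)) → (∀ o, Ad (s o) (h o)) →
      (∀ o v, Sz B v (F.u o) (F.rd o) (s o v)) →
      (∀ p, 2 * m * (N * ((Mon ι g e ρ (F.dh p)).card * (F.low e ρ L mk p).card)) ≤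
        Fintype.card (Bx g (F.n none)) * Fintype.card (TT g F.n p)) →
      ∃ c : Co g F.n, c ≠ 0 ∧
        (∀ z τ, |(c z τ : ℝ)| ≤ Real.exp (C + ∑ o, F.dg o * (2 * h o + 1))) ∧
        F.Van B e ρ L mk c := by
  classical
  obtain ⟨N, C, hC, H⟩ := exists_slices_k k
  refine ⟨N * Fintype.card ι ^ 2, Real.log C, Real.log_nonneg hC,
    fun B g m e ρ L F mk s h hrd had hsz hcard => ?_⟩
  obtain ⟨c, h0, h1, h2⟩ := H m (Bx g (F.n none)) (TT g F.n)
    (fun p => (Bool → ι) × Mon ι g e ρ (F.dh p) × F.low e ρ L mk p)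
    (fun p n z t => redc (F.rd none) (esieg_pol F B p n.1 n.2.2.1 z t) n.2.1.1)
    (fun v => ∏ o, s o v ^ (2 * F.dg o)) _ (ad_prod univ fun o _ => (had o).pow (2 * F.dg o))
    (fun p n z t v _ => esieg_le F B (fun o => hsz o v) p _ _ z t _) fun p => by
      refine le_of_eq_of_le ?_ (hcard p)
      simp only [Fintype.card_prod, Fintype.card_fun, Fintype.card_bool, Fintype.card_coe]
      ring
  refine ⟨c, h0, fun z τ => (h1 z τ).trans ?_, fun p a ω hω τ => ?_⟩
  · have h3 : ∀ o, (Fintype.card (Bx g (F.n o)) : ℝ) ≤ Real.exp (F.dg o) := fun o => by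
      have h4 : g * F.n o ≤ F.dg o := by
        cases o with
        | none => exact Nat.le_add_right _ _
        | some i => exact Nat.le_mul_of_pos_left _ two_pos
      have h5 : (2 : ℝ) ≤ Real.exp 1 := by linarith [Real.add_one_le_exp 1]
      calc (Fintype.card (Bx g (F.n o)) : ℝ) ≤ 2 ^ F.dg o := by
            exact_mod_cast (card_Bx_le g _).trans (Nat.pow_le_pow_right two_pos h4)
        _ ≤ Real.exp 1 ^ F.dg o := pow_le_pow_left₀ zero_le_two h5 _
        _ = _ := by rw [← Real.exp_nat_mul, mul_one]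
    have h4 : (Fintype.card (Bx g (F.n none)) : ℝ) * ∏ p, (Fintype.card (TT g F.n p) : ℝ) =
        ∏ o, (Fintype.card (Bx g (F.n o)) : ℝ) := by
      rw [Fintype.prod_option, Fintype.prod_prod_type]
      simp only [Fintype.card_pi (α := fun s : Bool => Bx g _), Nat.cast_prod]
    rw [h4]
    refine (mul_le_mul_of_nonneg_right (prod_le_prod (fun o _ => Nat.cast_nonneg _)
      fun o _ => h3 o) (by positivity)).trans (le_of_eq ?_)
    rw [← Real.exp_sum, ← Real.exp_log (one_pos.trans_le hC), ← Real.exp_add, ← Real.exp_add,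
      Real.log_exp, add_left_comm, ← sum_add_distrib]
    congr 2
    exact sum_congr rfl fun o _ => by push_cast; ring
  · have e1 : F.slice B c p a ω τ (X : ι → MvPolynomial ι k) =
        ∑ z, ∑ t, MvPolynomial.C (c z (Function.update τ p t) : k) * esieg_pol F B p a ω z t := by
      rw [Cfg.slice, sum_comm]
      refine sum_congr rfl fun t _ => ?_
      rw [sum_mul]
      exact sum_congr rfl fun z _ => by rw [esieg_pol, mul_assoc, map_intCast]
    rw [e1]
    refine (hrd none).mem (n := F.dh p) (IsHomogeneous.sum _ _ _ fun z _ =>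
      IsHomogeneous.sum _ _ _ fun t _ => (esieg_hom F B p a ω z t).C_mul _) fun ω₀ h₀ => ?_
    simp only [redc_sum, redc_C_mul]
    exact h2 p (a, ⟨ω₀, h₀⟩, ⟨ω, hω⟩) τ

end Pool.Agent.Lib.MP_8865d3_nt.Sv
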