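import Pool.Agent.Lib.MP_651af7_nt.Av.ESize
import Pool.Agent.Lib.MP_8865d3_nt.Sv.EDefs

/-! Engine: sizes and radii of the blocks. -/

namespace Pool.Agent.Lib.MP_8865d3_nt.Sv

open MvPolynomial Finset Height
open Pool.Agent.Lib.MP_651af7_nt.Av

variable {k ι : Type} [Field k] [Fintype ι]

variable [NumberField k]

/-- `s` is the product of `E 2`, `E (ρ + 1)` and of sizes for the `Φ a b`, `o a`, `u l`, `c a l`. -/
theorem exists_sz (B : GV k ι) (g ρ B₀ : ℕ) {e : ℕ} (he : 1 ≤ e) : ∃ κ : ℝ, 0 ≤ κ ∧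
    ∀ (u : Fin (g + 1) → MvPolynomial ι k) (c : ι → Fin ρ → MvPolynomial (Fin (g + 1)) k) (h : ℝ),
      0 ≤ h → NN B.I e ρ u c → (∀ i, SmallP B₀ h (u i)) → (∀ a l, SmallP B₀ h (c a l)) →
      ∃ rd s, IsRd B.I e ρ u rd ∧ Ad s (κ * (h + 1)) ∧ ∀ v, Sz B v u rd (s v) := by
  obtain ⟨κ₁, hκ₁, H₁⟩ := exists_ad_pl k ι B₀
  obtain ⟨κ₂, hκ₂, H₂⟩ := exists_ad_pl k (Fin (g + 1)) B₀
  obtain ⟨sΦ, CΦ, hsΦ, hΦ, hψ⟩ : ∃ s C, Ad s C ∧ (∀ a b v, pl v (B.Φ a b) ≤ s v) ∧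
      ∀ a v, pl v (B.ψ a) ≤ s v := by
    choose cΦ hΦ hcΦ hcΦ' using fun p : ι × ι => exists_ad_fixed (B.Φ p.1 p.2)
    choose cψ hψ hcψ hcψ' using fun a : ι => exists_ad_fixed (B.ψ a)
    obtain ⟨sΦ, hsΦ, hsΦ'⟩ := esize_fam hcΦ
    obtain ⟨sψ, hsψ, hsψ'⟩ := esize_fam hcψ
    exact ⟨_, _, hsΦ.mul hsψ, fun a b v => ((hcΦ' (a, b) v).trans (hsΦ' (a, b) v)).trans
      (le_mul_of_one_le_right (hsΦ.pos v).le (hsψ.one v)), fun a v => ((hcψ' a v).trans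
      (hsψ' a v)).trans (le_mul_of_one_le_left (hsψ.pos v).le (hsΦ.one v))⟩
  obtain ⟨so, hso, hso'⟩ := esize_fam fun a => ad_max (B.o a)
  have hρ : (1 : ℝ) ≤ ρ + 1 := le_add_of_nonneg_left (Nat.cast_nonneg ρ)
  obtain ⟨C₀, hf⟩ : ∃ C₀, Ad (fun v : AbsoluteValue k ℝ => E (IsNonarchimedean v) 2 * sΦ v * so v *
      E (IsNonarchimedean v) (ρ + 1)) C₀ :=
    ⟨_, (((ad_E one_le_two).mul hsΦ).mul hso).mul (ad_E hρ)⟩
  have hC₀ := hf.nonneg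
  refine ⟨C₀ + Fintype.card (Fin (g + 1)) * κ₁ + Fintype.card (ι × Fin ρ) * κ₂, by positivity,
    fun u c h hh hNN hu hc => ?_⟩
  choose cu hcu hcu' using fun i => H₁ (u i) h hh (hu i)
  choose cc hcc hcc' using fun p : ι × Fin ρ => H₂ (c p.1 p.2) h hh (hc p.1 p.2)
  obtain ⟨su, hsu, hsu'⟩ := esize_fam' hcu
  obtain ⟨sc, hsc, hsc'⟩ := esize_fam' hcc
  obtain ⟨rd, hrd, hrd'⟩ := exists_rd he hNN
  refine ⟨rd, _, hrd, ((hf.mul hsu).mul hsc).mono ?_, fun v => ?_⟩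
  · have := mul_nonneg hC₀ hh
    nlinarith
  · have a1 : 1 ≤ E (IsNonarchimedean v) 2 := one_le_E one_le_two
    have a2 := hsΦ.one v
    have a3 := hso.one v
    have a4 : 1 ≤ E (IsNonarchimedean v) (ρ + 1) := one_le_E hρ
    have a5 := hsu.one v
    have a6 := hsc.one v
    have hl : ∀ {x y z : ℝ}, x ≤ y → 0 ≤ y → 1 ≤ z → x ≤ y * z := fun h1 h2 h3 =>
      h1.trans (le_mul_of_one_le_right h2 h3)
    have hr : ∀ {x y z : ℝ}, x ≤ z → 1 ≤ y → 0 ≤ z → x ≤ y * z := fun h1 h2 h3 =>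
      h1.trans (le_mul_of_one_le_left h3 h2)
    have b2 := one_le_mul_of_one_le_of_one_le a1 a2
    have b3 := one_le_mul_of_one_le_of_one_le b2 a3
    have b4 := one_le_mul_of_one_le_of_one_le b3 a4
    have b5 := one_le_mul_of_one_le_of_one_le b4 a5
    have z : ∀ {x : ℝ}, 1 ≤ x → 0 ≤ x := fun h => zero_le_one.trans h
    refine ⟨⟨?_, fun a b => ?_, fun a => ?_, fun a => ?_⟩, fun l => ?_, fun μ ω => ?_⟩
    · exact hl (hl (hl (hl (hl le_rfl (z a1) a2) (z b2) a3) (z b3) a4) (z b4) a5) (z b5) a6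
    · exact hl (hl (hl (hl (hr (hΦ a b v) a1 (z a2)) (z b2) a3) (z b3) a4) (z b4) a5) (z b5) a6
    · exact hl (hl (hl (hr ((le_max_right _ _).trans (hso' a v)) b2 (z a3)) (z b3) a4) (z b4) a5)
        (z b5) a6
    · exact hl (hl (hl (hl (hr (hψ a v) a1 (z a2)) (z b2) a3) (z b3) a4) (z b4) a5) (z b5) a6
    · exact hl (hr ((hcu' l v).trans (hsu' l v)) b4 (z a5)) (z b5) a6
    · refine (hrd' v (sc v) a6 (fun a l => (hcc' (a, l) v).trans (hsc' (a, l) v)) μ ω).trans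
        (pow_le_pow_left₀ (mul_nonneg (z a4) (z a6)) ?_ _)
      exact mul_le_mul_of_nonneg_right (hl (hr le_rfl b3 (z a4)) (z b4) a5) (z a6)

theorem GV.Par.exists_rad {B : GV k ι} {g : ℕ} {ϱ : ι → MvPowerSeries (Fin g) k}
    (h : B.Par g ϱ) : ∃ q C, Ad q C ∧ ∀ v a, Geo v (q v) (ϱ a) := by
  obtain ⟨c, s, hs⟩ := h.bd
  have hr : (1 : ℝ) ≤ 2 * Fintype.card (Fin g) + 1 := le_add_of_nonneg_left (by positivity)
  have hc : (1 : ℝ) ≤ |c| + 1 := le_add_of_nonneg_left (abs_nonneg c)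
  have hP := ad_prod s fun z _ => ad_max z
  have hy := (ad_E hc).mul hP
  refine ⟨_, _, (ad_E hr).mul hy, fun v a => esize_geo fun α hα => ?_⟩
  refine (hs v a α hα).trans ((le_abs_self _).trans ?_)
  rw [abs_pow, abs_mul, abs_of_pos (hP.pos v)]
  refine pow_le_pow_left₀ (mul_nonneg (abs_nonneg _) (hP.pos v).le)
    (mul_le_mul_of_nonneg_right ?_ (hP.pos v).le) _
  by_cases hv : IsNonarchimedean v
  · rw [E_pos_case hv, E_pos_case hv, abs_one]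
  · rw [E_neg_case hv, E_neg_case hv]
    linarith

end Pool.Agent.Lib.MP_8865d3_nt.Sv
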