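import Pool.Agent.Lib.MP_651af7_nt.Av.EMain
import Pool.Agent.Lib.MP_8865d3_nt.Sv.EGlob
import Pool.Agent.Lib.MP_8865d3_nt.Sv.ELead
import Pool.Agent.Lib.MP_8865d3_nt.Sv.ESieg
import Pool.Agent.Lib.MP_8865d3_nt.Sv.ESize
import Pool.Agent.Lib.MP_8865d3_nt.Sv.EMark
import Pool.Agent.Lib.MP_8865d3_nt.Sv.ENest

/-! Engine: choice of the parameters and conclusion. -/

namespace Pool.Agent.Lib.MP_8865d3_nt.Sv

open MvPolynomial Finset GV Height
open Pool.Agent.Lib.MP_651af7_nt.Av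

variable {k ι : Type} [Field k] [NumberField k] [Fintype ι] {n : ℕ}

theorem GV.engine' (B : GV k (SI ι n)) (hB : Tor B) {g : ℕ}
    {ϱ : SI ι n → MvPowerSeries (Fin g) k} (hϱ : B.Par g ϱ)
    (r ρ B₀ : ℕ) {e : ℕ} (he : 1 ≤ e) {δ η : ℝ} (hδ : 0 < δ) (hη : 0 < η)
    {md : Option (AbsoluteValue k ℝ)} (hmd : Mode g md) :
    ∃ (m B' : ℕ) (θ ζ ε₀ : ℝ), 0 < θ ∧ 0 < ζ ∧ 0 < ε₀ ∧ ∀ ε : ℝ, 0 < ε → ε ≤ ε₀ → ∃ W : ℝ,
      ∀ (T : Finset (AbsoluteValue k ℝ)) (b : OO m → B.Blk g r ρ) (u : OO m → Fin n → k)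
        (j : Fin m × Bool → ℕ),
        (∀ o, (b o).Good (lin ϱ) B₀ e ε δ) → (∀ o, W ≤ ht (b o).P) →
        (∀ o o', o ≠ o' → ht (b o).P ≤ ζ * ht (b o').P ∨ ht (b o').P ≤ ζ * ht (b o).P) →
        (∀ o, Seg (b o).x (u o)) → (∀ o, df T (u o) ≤ ε * ht (b o).P) →
        (∀ i, Close T θ (j i) (b none).P (b (some i)).P (u none) (u (some i))) →
        (∀ i, BadT T md e η (b (some i)).u (b (some i)).x) →
        ∃ o, (b o).Exit B' (B' * ε * ht (b o).P) := by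
  classical
  obtain ⟨c₀, hc₀, C₀, hlead⟩ := lead_height k g
  obtain ⟨κs, hκs, hsz⟩ := exists_sz B g ρ B₀ he
  obtain ⟨κ₀, hκ₀, hrad⟩ := exists_rad k (SI ι n) r B₀
  obtain ⟨κr, hκe⟩ : ∃ κr, κr = κ₀ + 2 := ⟨_, rfl⟩
  have hκr : 0 ≤ κr := by linarith
  obtain ⟨q', C', aq', hq'⟩ := hϱ.exists_rad
  obtain ⟨N, Cs, hCs, hsieg⟩ := siegel k (SI ι n)
  obtain ⟨C₁, hcnt⟩ := card_low (SI ι n) g ρ
  obtain ⟨η', hη0, hη1, hη2⟩ : ∃ η' : ℝ, 0 < η' ∧ 2 * η' ≤ η ∧ 8 * η' ≤ c₀ * δ :=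
    ⟨min (η / 2) (c₀ * δ / 8), by positivity, by linarith [min_le_left (η / 2) (c₀ * δ / 8)],
      by linarith [min_le_right (η / 2) (c₀ * δ / 8)]⟩
  obtain ⟨T₀, hT⟩ := exists_nat_ge ((3 * g + 3) / η')
  rw [div_le_iff₀ hη0] at hT
  have hT0 : 0 < T₀ := Nat.pos_of_ne_zero fun h => by
    rw [h, Nat.cast_zero, zero_mul] at hT
    linarith [Nat.cast_nonneg (α := ℝ) g]
  obtain ⟨M, hM1, hM2⟩ : ∃ M : ℕ, 2 * T₀ * N * C₁ ≤ M ∧ e + ρ * Fintype.card (SI ι n) ≤ M :=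
    ⟨_, le_max_left _ _, le_max_right _ _⟩
  have hM0 : 0 < M := by omega
  obtain ⟨m, hm⟩ : ∃ m, m = T₀ * M := ⟨_, rfl⟩
  have hm0 : (0 : ℝ) < m := by rw [hm]; positivity
  obtain ⟨tw, htw⟩ : ∃ tw : ℝ, tw = totalWeight k := ⟨_, rfl⟩
  have htw0 : 0 ≤ tw := by rw [htw]; positivity
  obtain ⟨K₁, hK₁⟩ : ∃ K₁ : ℝ, K₁ = g * (1 + 12 * m) := ⟨_, rfl⟩
  have hK₁0 : 0 ≤ K₁ := by rw [hK₁]; positivity
  obtain ⟨K₂, hK₂⟩ : ∃ K₂ : ℝ, K₂ = 1 + (4 * κs + 1) * K₁ := ⟨_, rfl⟩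
  have hK₂0 : 0 ≤ K₂ := by rw [hK₂]; positivity
  obtain ⟨K, hK⟩ : ∃ K : ℝ, K = 2 * K₁ + tw * K₂ + 12 * κs * K₁ + 1 := ⟨_, rfl⟩
  have hK1 : 2 * K₁ + 1 ≤ K := by
    have : 0 ≤ tw * K₂ + 12 * κs * K₁ := by positivity
    linarith
  have hK0 : 0 < K := by linarith
  obtain ⟨a, ha0, ha1, ha2⟩ : ∃ a : ℝ, 0 < a ∧ a * K ≤ 1 ∧ 4 * a ≤ c₀ * δ :=
    ⟨min (1 / K) (c₀ * δ / 4), by positivity, (le_div_iff₀ hK0).1 (min_le_left _ _),
      by linarith [min_le_right (1 / K) (c₀ * δ / 4)]⟩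
  obtain ⟨B', ζ, hζ, hnv⟩ := nvk k (SI ι n) (OO m) r B₀ (θ := a / (2 * κr + 2 * η')) (by positivity)
  obtain ⟨A, hA⟩ : ∃ A : ℝ, A = (g + Fintype.card (SI ι n) + 17 : ℕ) := ⟨_, rfl⟩
  have hA0 : 0 ≤ A := by rw [hA]; positivity
  have hX0 : 0 ≤ 2 * (tw * K₂ + 2 * A * κs * K₁) := by positivity
  refine ⟨m, B', 1 / (4 * m), ζ, 1 / (2 * (tw * K₂ + 2 * A * κs * K₁) + 2 * K₁ + 1), by positivity, hζ,
    by positivity, fun ε hε hε0 => ?_⟩
  rw [le_div_iff₀ (by linarith)] at hε0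
  have hε2 := mul_nonneg hX0 hε.le
  have hε3 := mul_nonneg hK₁0 hε.le
  have hε1 : ε ≤ 1 := by linarith
  obtain ⟨Wn, hWn⟩ := hnv ε hε
  refine ⟨max (max Wn 1) (max (max (1 / ε) (Cs / ε)) (max (C' / ε)
    (2 * (C₀ + C') / (c₀ * δ)))), fun T b u j hG hW hr hu hd hC hT' => ?_⟩
  simp only [max_le_iff, div_le_iff₀' hε, div_le_iff₀' (mul_pos hc₀ hδ), forall_and] at hW
  obtain ⟨⟨hW0, hW1⟩, ⟨hW2, hW3⟩, hW4, hW5⟩ := hW
  have hw0 : ∀ o, 0 ≤ ht (b o).P := fun o => ht_nonneg _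
  have hx1 : ∀ o, (b o).x (b o).C.a₀ = 1 := fun o => (hG o).atx.one
  have hx0 : ∀ o, (b o).x ≠ 0 := fun o h0 => by simpa [h0] using hx1 o
  have hht : ∀ o, ht (b o).P = logHeight (b o).x := fun o => ht_eq (hG o).rep
  choose ξ hξ using fun o => (b o).C.exists_br (hG o).atx
  choose rd s hrd as hs using fun o => hsz (b o).u (b o).c (ε * ht (b o).P)
    (mul_nonneg hε.le (hw0 o)) (hG o).nn (hG o).smu (hG o).smc
  choose q aq hq using fun o => hrad (b o).C (b o).x (ξ o) (ht (b o).P) (hG o).atx (hξ o)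
    (hht o).ge fun a => ⟨((hG o).smφ a).1, fun μ => (((hG o).smφ a).2 μ).trans
      (mul_le_of_le_one_left (hw0 o) hε1)⟩
  have hξ0 := fun o => (hξ o).const
  have hξ1 := fun o => (hξ o).mem (hG o).on
  obtain ⟨fr, hfr⟩ := hϱ.exists_str j (fun o => (hG o).rep) hξ0 hξ1
  obtain ⟨J, hJ⟩ : ∃ J, ∀ i, j i ≤ J := ⟨univ.sup j, fun i => le_sup (mem_univ i)⟩
  let F : Cfg k (SI ι n) g m :=
    ⟨fun o => o.elim (M * 4 ^ J) fun i => M * 4 ^ (J - j i), j, fr, fun o => (b o).u, rd⟩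
  have hn : ∀ i, F.n (some i) * 4 ^ F.j i = F.n none := fun i => by
    change M * 4 ^ (J - j i) * 4 ^ j i = M * 4 ^ J
    rw [mul_assoc, ← pow_add, Nat.sub_add_cancel (hJ i)]
  obtain ⟨c, hc0, hc, hV⟩ := hsieg B g m e ρ (4 ^ J) F (mark g md) s _ hrd as hs fun p => by
    have h1 := hcnt k m e M J F (mark g md) he hmd.1 (card_mark hmd.1 md) hM2 rfl hJ
      (fun _ => rfl) p
    exact emain_card hm hM0 hM1 h1
  obtain ⟨f, l, hf, hl, hinv, hU⟩ := hfr F rfl rfl c hc0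
  have hnt : ∀ o, (nn j o : ℝ) * (η' * ht (b none).P) ≤ 2 * η' * ht (b o).P := fun o => by
    cases o with
    | none => simpa [nn] using mul_nonneg (by linarith) (hw0 none)
    | some i =>
      have := mul_le_mul_of_nonneg_left (hC i).2.2.2 hη0.le
      simp only [nn]
      push_cast
      linarith
  choose σ hσ fσ gσ hσT hmk using fun p : Fin m => exists_sigma T hmd (η := η)
    (mul_nonneg hη0.le (hw0 none)) (u := fun s => (b (some (p, s))).u)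
    (fun s => hx0 (some (p, s))) (fun s => (hrd _).hu) (fun s => hT' (p, s))
    (fun s => as (some (p, s))) (fun s v => (hs _ v).u) (N := fun s => 4 ^ j (p, s))
    (fun s => Nat.one_le_pow _ _ (by norm_num)) fun s => (hnt (some (p, s))).trans (by
      rw [← hht]
      exact mul_le_mul_of_nonneg_right hη1 (hw0 _))
  have hy : ∀ i, ((b (some i)).P + B.ps^[j i] (b none).P).co ≠ 0 := fun i h0 => by
    obtain ⟨a, ha⟩ := (rep_co ((b (some i)).P + B.ps^[j i] (b none).P)).unit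
    exact ha.ne_zero (congrFun h0 a)
  choose a₁ ha₁ using fun i => Function.ne_iff.1 (hy i)
  obtain ⟨U, hU1, hU2⟩ := hU a₁ fun o => (b o).C.a₀
  obtain ⟨D, hD⟩ : ∃ D : ℝ, D = F.n none * ht (b none).P := ⟨_, rfl⟩
  have hn1 : (1 : ℝ) ≤ F.n none := by
    exact_mod_cast (show 0 < M * 4 ^ J by positivity)
  have hD1 : ht (b none).P ≤ D := hD ▸ le_mul_of_one_le_left (hw0 _) hn1
  have hD0 : 0 < D := by linarith [hW1 none]
  have hdg : ∀ o, (0 : ℝ) ≤ F.dg o := fun o => Nat.cast_nonneg _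
  have h8 : ∑ o, F.dg o * ht (b o).P ≤ K₁ * D := by
    rw [hK₁, hD]
    exact F.sum_dg_le hn fun i => (hC i).2.2.1
  have h7 := emain_log hW2 ((hW3 none).trans (mul_le_mul_of_nonneg_left hD1 hε.le)) hdg hκs hε h8
  rw [← hK₂] at h7
  obtain ⟨lH, hlH⟩ : ∃ lH, lH = Cs + ∑ o, F.dg o * (2 * (κs * (ε * ht (b o).P + 1)) + 1) :=
    ⟨_, rfl⟩
  rw [← hlH] at h7 hc
  have hH : 1 ≤ Real.exp lH := Real.one_le_exp (hlH ▸ add_nonneg hCs (sum_nonneg fun o _ => by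
    have := hw0 o
    positivity))
  have key := exists_lead hf (U := U) (by
      rw [hU2]
      exact mul_ne_zero hl (mul_ne_zero (prod_ne_zero_iff.2 fun o _ => by simp [hx1])
        (prod_ne_zero_iff.2 fun i _ => pow_ne_zero _ (ha₁ i))))
    (Sm := fun κ ν => ∑ o, ht (b o).P * bdeg κ o <
      a / (2 * κr + 2 * η') * (K * D + ∑ o, ν o * ht (b o).P))
    (Out := ∃ o, (b o).Exit B' (B' * ε * ht (b o).P)) fun α ⟨κ, hκ⟩ => by
      obtain ⟨G, g1, g2, g3⟩ := F.exists_coef B hϱ.const c a₁ (fun o => (b o).C.a₀) α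
      have s0 : 0 ≤ ∑ o, bdeg α o * ht (b o).P :=
        sum_nonneg fun o _ => mul_nonneg (Nat.cast_nonneg _) (hw0 o)
      have s1 := mul_le_mul_of_nonneg_right hK1 hD0.le
      have s2 := mul_nonneg hK₁0 hD0.le
      have aG := ((ad_E (k := k) hH).mul (ad_prod univ fun o _ => (as o).pow (6 * F.dg o))).mul
        (aq'.pow α.degree)
      rw [← hU1] at hκ ⊢
      simp only [← g1] at hκ ⊢
      refine hWn (fun o => ht (b o).P) (fun o => (b o).C) (fun o => (b o).x) ξ hW0 hr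
        (fun o => (hG o).atx) hξ (fun o => (hG o).smφ) _ G _ (by linarith [hW0 none])
        (fun μ hμ p => ?_) (aG.mono ?_) (fun μ v _ => g3 v _ _ _ (fun o => (hs o v).toSz₀)
          (hq' v) (aq'.one v) hH hc μ) fun h0 => hκ (by rw [h0, map_zero])
      · have h1 : (μ p : ℝ) ≤ 2 * F.dg p.1 := by exact_mod_cast g2 μ hμ p
        have h2 := mul_le_mul_of_nonneg_left h1 (hw0 p.1)
        have h3 := single_le_sum (f := fun o => F.dg o * ht (b o).P)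
          (fun o _ => mul_nonneg (hdg o) (hw0 o)) (mem_univ p.1)
        linarith
      · rw [Real.log_exp, ← htw, degree_eq_sum_bdeg, hK]
        push_cast
        exact emain_coef hD0.le hW2 hW4 (fun _ => Nat.cast_nonneg _) hdg hκs htw0 hε hK₁0 h7 h8
  refine key.resolve_left ?_
  rintro ⟨κ, κ', ν, Ψ, k1, k2, k3, k4, k5, k6⟩
  have h1 := hlead (SI ι n) (OO m) B r (lin ϱ) (fun o => (b o).C) (fun o => (b o).x) ξ
    (fun o => δ * ht (b o).P) f κ ν Ψ hξ (fun o => (hG o).nsv) hinv k3 k4 k5 k6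
  have hht' := fun o => (hu o).height (hx0 o)
  have h2 := F.global_ineq hB hϱ he hrd (fun o => (hG o).rep) hx1 hξ0 hξ1 hH hc hV
    (fun i => hB.hat_ne (rep_co _)) hl hU k3 k4 k5 k6 as
    (h' := fun o => κr * (ht (b o).P + 1) - 2 * ∑ t, logHeight₁ (u o t)) (fun o => (aq o).mono (by
      have := hht' o
      have := logHeight_nonneg (hat (b o).x)
      rw [hκe, hht]
      linarith)) aq' hσ fσ gσ hs hq hq' hmk hu hσT
  have hhat : ∀ o, logHeight (hat (b o).P.co) = logHeight (hat (b o).x) := fun o => by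
    obtain ⟨z, hz⟩ := (hG o).rep
    rw [funext hz]
    exact (logHeight_smul_eq_logHeight (hat (b o).P.co) z.ne_zero).symm
  have h10 := F.sum_dg_hat hn (w := fun o => ht (b o).P) (w' := fun o => logHeight (hat (b o).x))
    (fun i => (hC i).2.2.1) (θ := 1 / (4 * m)) (by positivity) fun i => by
      simpa only [hhat] using (hC i).1
  have h11 : ∑ o, (g * F.n o : ℕ) * isum T (fun v => Real.log (mx F.j v u o)) ≤
      g * (F.n none * ∑ t, logHeight₁ (u none t)) +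
        ∑ i, (g * F.n (some i) : ℕ) * (1 / (4 * m) * ht (b (some i)).P) := by
    rw [Fintype.sum_option, Nat.cast_mul, mul_assoc]
    have a1 := ad_prod univ fun t _ => ad_max (u none t)
    refine add_le_add (mul_le_mul_of_nonneg_left (mul_le_mul_of_nonneg_left ((isum_le_gsum T a1.fin
      fun v _ => Real.log_nonneg (a1.one v)).trans a1.le) (Nat.cast_nonneg _)) (Nat.cast_nonneg _))
      (sum_le_sum fun i _ => mul_le_mul_of_nonneg_left ?_ (Nat.cast_nonneg _))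
    simp only [log_mx F.j _ fun o => (hu o).1]
    exact (hC i).2.1
  have h12 : ∑ o, F.dg o * df T (u o) ≤ ε * ∑ o, F.dg o * ht (b o).P := by
    rw [mul_sum]
    exact sum_le_sum fun o _ => (mul_le_mul_of_nonneg_left (hd o) (hdg o)).trans_eq (by ring)
  simp only [← mul_assoc] at h1
  simp only [Real.log_exp, ← htw, ← hA, sub_add_cancel, mul_add (F.dg _ : ℝ), sum_add_distrib
    (f := fun o => (F.dg o : ℝ) * (A * _))] at h2
  refine emain_num (g := 3 * g / 2) (Y := ∑ i, (g * F.n (some i) : ℕ) * logHeight (hat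
      ((b (some i)).P + B.ps^[j i] (b none).P).co) - (∑ o, (g * F.n o : ℕ) * isum T (fun v =>
      Real.log (mx F.j v u o)) + ∑ o, F.dg o * df T (u o)) -
      ∑ o, F.dg o * logHeight (hat (b o).x) + ∑ o, F.dg o * ht (b o).P)
    (G := (4 ^ J : ℕ) * (m * (η' * ht (b none).P))) hD0 hW1 hW2 (fun _ => Nat.cast_nonneg _)
    (fun o => Nat.cast_le.2 (bdeg_mono k1 o)) (fun _ => Nat.cast_nonneg _) hdg hnt hη0 hη2 hW5 hκr
    hκs hA0 htw0 hε h1 ?_ k2 (le_of_eq (mul_div_cancel₀ _ (by positivity))) ha1 ha2 hK0.le h7 h8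
    (by linarith) ?_ ?_
  · simp only [mul_add (F.dg _ : ℝ), sum_add_distrib (f := fun o => (F.dg o : ℝ) * (A * _))]
    linarith
  · have h3 := mul_le_mul_of_nonneg_left (mul_le_mul_of_nonneg_left (hht' none)
      (zero_le_one.trans hn1)) (Nat.cast_nonneg (α := ℝ) g)
    have h4 : 2 * m * g * (4 * (1 / (4 * m)) * D) = 2 * g * D := by
      field_simp
    have h5 := mul_le_mul_of_nonneg_left h8 hε.le
    have h6 := mul_le_mul_of_nonneg_right (show 2 * (K₁ * ε) ≤ 1 by linarith) hD0.le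
    rw [← hht, ← hD] at h3
    rw [← hD, h4] at h10
    linarith
  · have h3 := mul_le_mul_of_nonneg_right hT hD0.le
    refine le_trans (le_of_eq (by ring)) (h3.trans (le_of_eq ?_))
    rw [hD, show (m : ℝ) = T₀ * M by exact_mod_cast hm]
    change _ * (((M * 4 ^ J : ℕ) : ℝ) * _) = _
    push_cast
    ring

end Pool.Agent.Lib.MP_8865d3_nt.Sv
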