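import Pool.Agent.Lib.MP_8865d3_nt.Sv.EMain

/-! The auxiliary construction. -/

namespace Pool.Agent.Lib.MP_8865d3_nt.Sv

open MvPolynomial Height Filter Pool.Agent.Lib.MP_651af7_nt.Av

variable {k ι : Type} [Field k] [NumberField k] [Fintype ι] {s : ℕ}

/-- `none` is the centre, the point of least height; `u o` is the torus part of the block `o`. -/
theorem GV.engine (B : GV k (SI ι s)) (hB : Tor B) {g : ℕ}
    {ϱ : SI ι s → MvPowerSeries (Fin g) k} (hϱ : B.Par g ϱ)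
    (r ρ B₀ : ℕ) {e : ℕ} (he : 1 ≤ e) {δ η : ℝ} (hδ : 0 < δ) (hη : 0 < η)
    {md : Option (AbsoluteValue k ℝ)} (hmd : Mode g md) :
    ∃ (m B' : ℕ) (θ ζ ε₀ : ℝ), 0 < θ ∧ 0 < ζ ∧ 0 < ε₀ ∧ ∀ ε : ℝ, 0 < ε → ε ≤ ε₀ → ∃ W : ℝ,
      ∀ (T : Finset (AbsoluteValue k ℝ)) (b : Option (Fin m) → B.Blk g r ρ)
        (u : Option (Fin m) → Fin s → k) (j : Fin m → ℕ),
        (∀ o, (b o).Good (lin ϱ) B₀ e ε δ) → (∀ o, W ≤ GV.ht (b o).P) →
        (∀ o o', o ≠ o' → GV.ht (b o).P ≤ ζ * GV.ht (b o').P ∨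
          GV.ht (b o').P ≤ ζ * GV.ht (b o).P) →
        (∀ o, Seg (b o).x (u o)) → (∀ o, df T (u o) ≤ ε * GV.ht (b o).P) →
        (∀ i, Close T θ (j i) (b none).P (b (some i)).P (u none) (u (some i))) →
        (∀ i, BadT T md e η (b (some i)).u (b (some i)).x) →
        ∃ o, (b o).Exit B' (B' * ε * GV.ht (b o).P) := by
  obtain ⟨m, B', θ, ζ, ε₀, h1, h2, h3, H⟩ := B.engine' hB hϱ r ρ B₀ he hδ hη hmd
  refine ⟨Fintype.card (Fin m × Bool), B', θ, ζ, ε₀, h1, h2, h3, fun ε h4 h5 => ?_⟩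
  obtain ⟨W, hW⟩ := H ε h4 h5
  refine ⟨W, fun T b u j g1 g2 g3 g4 g5 g6 g7 => ?_⟩
  let φ := Fintype.equivFin (Fin m × Bool)
  obtain ⟨o, ho⟩ := hW T (fun o => b (o.map φ)) (fun o => u (o.map φ)) (fun i => j (φ i))
    (fun _ => g1 _) (fun _ => g2 _)
    (fun o o' h => g3 _ _ fun h' => h (Option.map_injective φ.injective h')) (fun _ => g4 _)
    (fun _ => g5 _) (fun _ => g6 _) fun _ => g7 _
  exact ⟨_, ho⟩

end Pool.Agent.Lib.MP_8865d3_nt.Sv
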