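import Pool.Agent.Lib.MP_8865d3_nt.Sv.Defs
import Pool.Agent.Lib.MP_651af7_nt.Av.LieA

/-! Tangent vectors and logarithmic derivatives. -/

namespace Pool.Agent.Lib.MP_8865d3_nt.Sv

open MvPolynomial TrivSqZeroExt Pool.Agent.Lib.MP_651af7_nt.Av

variable {k : Type} [Field k] {ι : Type}

namespace GV

variable (A : GV k ι) {R R' : Type} [CommRing R] [Algebra k R] [CommRing R'] [Algebra k R']

variable (R) in
/-- The coordinates of the origin in `R`. -/
def oo : ι → R := fun a => algebraMap k R (A.o a)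

theorem oo_ao : A.oo R A.ao = 1 := by rw [oo, A.o_ao, map_one]

/-- Tangent vectors to the affine cone at `v`. -/
def Tan (v : ι → R) : Submodule R (ι → R) where
  carrier := {w | ∀ F ∈ A.I, dP v w F = 0}
  add_mem' h h' F hF := by rw [dP_add, h F hF, h' F hF, add_zero]
  zero_mem' F _ := dP_zero v F
  smul_mem' r _ h F hF := by rw [dP_smul, h F hF, mul_zero]

variable (R) in
/-- The tangent space at the origin. -/
def Lie : Submodule R (ι → R) := A.Tan (A.oo R) ⊓ LinearMap.ker (LinearMap.proj A.ao)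

variable {A}

theorem mem_Tan {v w : ι → R} : w ∈ A.Tan v ↔ ∀ F ∈ A.I, dP v w F = 0 := Iff.rfl

theorem mem_Lie {w : ι → R} : w ∈ A.Lie R ↔ w ∈ A.Tan (A.oo R) ∧ w A.ao = 0 := Iff.rfl

variable (A) in
/-- The numerator of the translation of the tangent vector `w` at `v` to the origin. -/
noncomputable def trN (a : ι) (v w : ι → R) (b : ι) : R :=
  dP (Sum.elim v v) (Sum.elim w 0) (A.Φ a b) -
    A.oo R b * dP (Sum.elim v v) (Sum.elim w 0) (A.Φ a A.ao)

theorem trN_lin (a : ι) (v w w' : ι → R) (r : R) (b : ι) :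
    A.trN a v (r • w + w') b = r * A.trN a v w b + A.trN a v w' b := by
  have h : Sum.elim (r • w + w') (0 : ι → R) = r • Sum.elim w 0 + Sum.elim w' 0 := by
    funext s
    cases s <;> simp
  rw [trN, trN, trN, h, dP_lin, dP_lin]
  ring

variable (A) in
/-- Translation of tangent vectors at `v` to the origin. -/
noncomputable def trl (v : ι → R) : (ι → R) →ₗ[R] (ι → R) where
  toFun w b :=
    Ring.inverse (A.ph (@Classical.epsilon ι ⟨A.ao⟩ fun a => IsUnit (A.ph a A.ao v v)) A.ao v v) *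
      A.trN (@Classical.epsilon ι ⟨A.ao⟩ fun a => IsUnit (A.ph a A.ao v v)) v w b
  map_add' w w' := by
    funext b
    rw [Pi.add_apply, ← mul_add, ← one_smul R w, trN_lin, one_mul, one_smul]
  map_smul' r w := by
    funext b
    have h0 : ∀ a, A.trN a v 0 b = 0 := fun a => by
      rw [trN, Sum.elim_zero_zero, dP_zero, dP_zero, mul_zero, sub_zero]
    rw [RingHom.id_apply, Pi.smul_apply, smul_eq_mul, ← add_zero (r • w), trN_lin, h0, add_zero,
      mul_left_comm]

theorem exists_rep_dw {p : A.Pt R} {v w : ι → R} (hv : Rep p v) (hw : w ∈ A.Tan v) :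
    ∃ q : A.Pt (DualNumber R), Rep q (dw v w) :=
  exists_rep (fun c => (hv.uni c).imp fun _ h => ⟨h.1, isUnit_iff_isUnit_fst.mpr h.2⟩) fun F hF =>
    TrivSqZeroExt.ext ((fst_aeval_dw v w F).trans (hv.zero F hF)) (hw F hF)

theorem Rep.mem_Tan {q : A.Pt (DualNumber R)} {v w : ι → R} (h : Rep q (dw v w)) : w ∈ A.Tan v :=
  fun F hF => congrArg snd (h.zero F hF)

theorem Rep.self_mem_Tan {p : A.Pt R} {v : ι → R} (hv : Rep p v) : v ∈ A.Tan v := by
  obtain ⟨q, hq⟩ := exists_rep_dw hv (A.Tan v).zero_mem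
  have h := hq.smul (c := ⟨1, 1⟩) (isUnit_iff_isUnit_fst.mpr isUnit_one)
  refine Rep.mem_Tan (q := q) ?_
  convert h using 1
  funext a
  exact TrivSqZeroExt.ext (one_mul _).symm (by simp)

variable [IsLocalRing R] [IsLocalRing R']

theorem rep_oo : Rep (0 : A.Pt R) (A.oo R) := rep_zero

theorem Rep.fst {q : A.Pt (DualNumber R)} {v w : ι → R} (h : Rep q (dw v w)) :
    Rep (A.map (fstHom k R R) q) v := h.map (fstHom k R R)

theorem Rep.inl {p : A.Pt R} {v : ι → R} (h : Rep p v) :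
    Rep (A.map (inlAlgHom k R R) p) (dw v 0) := h.map (inlAlgHom k R R)

/-- Coordinates of a point over the dual numbers can be chosen above given ones. -/
theorem exists_dw {q : A.Pt (DualNumber R)} {v : ι → R} (h : Rep (A.map (fstHom k R R) q) v) :
    ∃ w, Rep q (dw v w) := by
  obtain ⟨u, hu⟩ := ((rep_co q).map (fstHom k R R)).exists_smul h
  have h1 := (rep_co q).smul (c := TrivSqZeroExt.inl (u : R)) (isUnit_inl_iff.mpr u.isUnit)
  refine ⟨fun a => (TrivSqZeroExt.inl (u : R) * q.co a : DualNumber R).snd, ?_⟩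
  convert h1 using 1
  funext a
  exact TrivSqZeroExt.ext (hu a) rfl

theorem exists_dw' {q : A.Pt (DualNumber R)} {v : ι → R} (h : Rep (A.map (fstHom k R R) q) v)
    {b : ι} (hb : v b = 1) : ∃ w, w b = 0 ∧ Rep q (dw v w) := by
  obtain ⟨w, hw⟩ := exists_dw h
  have h1 := hw.smul (c := ⟨1, -w b⟩) (isUnit_iff_isUnit_fst.mpr isUnit_one)
  refine ⟨fun a => w a - w b * v a, by simp only [hb, mul_one, sub_self], ?_⟩
  convert h1 using 1
  funext a
  exact TrivSqZeroExt.ext (one_mul _).symm (by simp [sub_eq_add_neg])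

omit [IsLocalRing R] in
theorem dw_unique {q : A.Pt (DualNumber R)} {v w w' : ι → R} (h : Rep q (dw v w))
    (h' : Rep q (dw v w')) : ∃ c : R, w' = w + c • v := by
  obtain ⟨u, hu⟩ := h.exists_smul h'
  obtain ⟨a, ha⟩ := h.unit
  have h1 : (u : DualNumber R).fst = 1 := by
    have h2 := congrArg TrivSqZeroExt.fst (hu a)
    rw [fst_mul, fst_dw, fst_dw] at h2
    exact (isUnit_iff_isUnit_fst.mp ha).mul_right_cancel (h2.symm.trans (one_mul _).symm)
  refine ⟨(u : DualNumber R).snd, funext fun b => ?_⟩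
  have h2 := congrArg snd (hu b)
  rw [DualNumber.snd_mul, h1, one_mul] at h2
  exact h2

theorem exists_tv (q : A.Pt (DualNumber R)) : ∃ l : ι → R, l A.ao = 0 ∧
    Rep (q - A.map (inlAlgHom k R R) (A.map (fstHom k R R) q)) (dw (A.oo R) l) := by
  refine exists_dw' ?_ A.oo_ao
  rw [map_sub, map_map (inlAlgHom k R R),
    show (fstHom k R R).comp (inlAlgHom k R R) = AlgHom.id k R from rfl, map_id, sub_self]
  exact rep_oo

omit [IsLocalRing R] in
theorem tv_unique {q : A.Pt (DualNumber R)} {l l' : ι → R} (h : Rep q (dw (A.oo R) l))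
    (h' : Rep q (dw (A.oo R) l')) (h0 : l A.ao = 0) (h0' : l' A.ao = 0) : l = l' := by
  obtain ⟨c, hc⟩ := dw_unique h h'
  have h1 := congrFun hc A.ao
  rw [Pi.add_apply, Pi.smul_apply, h0, h0', oo_ao, smul_eq_mul, mul_one, zero_add] at h1
  rw [hc, ← h1, zero_smul, add_zero]

theorem tv_add_aux {q q' : A.Pt (DualNumber R)} {l l' s : ι → R} (h : Rep q (dw (A.oo R) l))
    (h' : Rep q' (dw (A.oo R) l')) (hs : Rep (q + q') (dw (A.oo R) s)) (h0 : s A.ao = 0) (a : ι) :
    A.ph A.ao A.ao (A.oo R) (A.oo R) * s a =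
      dP (Sum.elim (A.oo R) (A.oo R)) (Sum.elim l l') (A.Φ a A.ao) -
        A.oo R a * dP (Sum.elim (A.oo R) (A.oo R)) (Sum.elim l l') (A.Φ A.ao A.ao) := by
  obtain ⟨c, hc⟩ := law h h' hs (rep_co _)
  have h1 : dw (A.oo R) s A.ao = 1 := TrivSqZeroExt.ext A.oo_ao h0
  have h2 : A.ph a A.ao (dw (A.oo R) l) (dw (A.oo R) l') =
      A.ph A.ao A.ao (dw (A.oo R) l) (dw (A.oo R) l') * dw (A.oo R) s a := by
    rw [hc, hc, h1]; ring
  have h3 := congrArg snd h2
  rw [DualNumber.snd_mul, ph, ph, dw_elim, fst_aeval_dw, fst_dw, snd_dw] at h3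
  rw [dP, dP, h3, ph]
  ring

theorem tv_add {q q' : A.Pt (DualNumber R)} {l l' s : ι → R} (h : Rep q (dw (A.oo R) l))
    (h' : Rep q' (dw (A.oo R) l')) (hs : Rep (q + q') (dw (A.oo R) s)) (hl : l A.ao = 0)
    (hl' : l' A.ao = 0) (h0 : s A.ao = 0) : s = l + l' := by
  have hz : Rep (0 : A.Pt (DualNumber R)) (dw (A.oo R) 0) := rep_oo
  have hu : IsUnit (A.ph A.ao A.ao (A.oo R) (A.oo R)) := by
    obtain ⟨c, hc⟩ := law (A := A) (R := R) rep_oo rep_oo (by rw [add_zero]; exact rep_oo)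
      (by rw [sub_zero]; exact rep_oo)
    rw [hc, oo_ao, mul_one, mul_one]
    exact c.isUnit
  funext a
  have h1 := tv_add_aux h h' hs h0 a
  have h2 := tv_add_aux h hz (by rwa [add_zero]) hl a
  have h3 := tv_add_aux hz h' (by rwa [zero_add]) hl' a
  have e : Sum.elim l l' = Sum.elim l (0 : ι → R) + Sum.elim (0 : ι → R) l' := by
    funext s
    cases s <;> simp
  refine hu.mul_left_cancel ?_
  rw [Pi.add_apply, mul_add, h1, h2, h3, e, dP_add, dP_add]
  ring

variable (A R) in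
/-- The tangent vector at the origin obtained by translating a tangent vector. -/
noncomputable def lamE : A.Pt (DualNumber R) →+ (ι → R) :=
  AddMonoidHom.mk' (fun q => (exists_tv q).choose) fun q q' =>
    tv_add (exists_tv q).choose_spec.2 (exists_tv q').choose_spec.2 (by
      rw [← add_sub_add_comm, ← map_add, ← map_add]
      exact (exists_tv (q + q')).choose_spec.2) (exists_tv q).choose_spec.1
      (exists_tv q').choose_spec.1 (exists_tv (q + q')).choose_spec.1

theorem lamE_ao (q : A.Pt (DualNumber R)) : A.lamE R q A.ao = 0 := (exists_tv q).choose_spec.1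

theorem lamE_spec (q : A.Pt (DualNumber R)) :
    Rep (q - A.map (inlAlgHom k R R) (A.map (fstHom k R R) q)) (dw (A.oo R) (A.lamE R q)) :=
  (exists_tv q).choose_spec.2

theorem lamE_mem (q : A.Pt (DualNumber R)) : A.lamE R q ∈ A.Lie R :=
  ⟨(lamE_spec q).mem_Tan, lamE_ao q⟩

theorem lamE_eq_zero_iff {q : A.Pt (DualNumber R)} :
    A.lamE R q = 0 ↔ q = A.map (inlAlgHom k R R) (A.map (fstHom k R R) q) := by
  have hz : Rep (0 : A.Pt (DualNumber R)) (dw (A.oo R) 0) := rep_oo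
  refine ⟨fun h => sub_eq_zero.mp ((h ▸ lamE_spec q).inj hz), fun h => ?_⟩
  have h1 := lamE_spec q
  rw [← h, sub_self] at h1
  exact tv_unique h1 hz (lamE_ao q) rfl

theorem lamE_inl (p : A.Pt R) : A.lamE R (A.map (inlAlgHom k R R) p) = 0 :=
  lamE_eq_zero_iff.mpr ((rep_co p).inl.inj (rep_co p).inl.fst.inl)

theorem lamE_of_rep {q : A.Pt (DualNumber R)} {l : ι → R} (h : Rep q (dw (A.oo R) l))
    (h0 : l A.ao = 0) : A.lamE R q = l := by
  have h1 := lamE_spec q
  rw [h.fst.inj rep_oo, map_zero, sub_zero] at h1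
  exact tv_unique h1 h (lamE_ao q) h0

/-- The explicit formula, for every index `a`. -/
theorem ph_mul_lamE {q : A.Pt (DualNumber R)} {v w : ι → R} (h : Rep q (dw v w)) (a b : ι) :
    A.ph a A.ao v v * A.lamE R q b = A.trN a v w b := by
  obtain ⟨c, hc⟩ := law h h.fst.inl (rep_co _) (lamE_spec q)
  have h1 : dw (A.oo R) (A.lamE R q) A.ao = 1 := TrivSqZeroExt.ext A.oo_ao (lamE_ao q)
  have h2 : A.ph a b (dw v w) (dw v 0) =
      A.ph a A.ao (dw v w) (dw v 0) * dw (A.oo R) (A.lamE R q) b := by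
    rw [hc, hc, h1]; ring
  have h3 := congrArg snd h2
  rw [DualNumber.snd_mul, ph, ph, dw_elim, fst_aeval_dw, fst_dw, snd_dw] at h3
  rw [trN, dP, dP, h3, ph]
  ring

theorem Rep.exists_unit_ph_self {p : A.Pt R} {v : ι → R} (h : Rep p v) :
    ∃ a, IsUnit (A.ph a A.ao v v) := by
  obtain ⟨c, hc⟩ := law h h (rep_co _) (by rw [sub_self]; exact rep_oo)
  obtain ⟨a, ha⟩ := (rep_co (p + p)).unit
  exact ⟨a, by rw [hc, oo_ao, mul_one]; exact c.isUnit.mul ha⟩

theorem lamE_eq_trl {q : A.Pt (DualNumber R)} {v w : ι → R} (h : Rep q (dw v w)) :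
    A.lamE R q = A.trl v w := by
  funext b
  have hu := Classical.epsilon_spec h.fst.exists_unit_ph_self
  change _ = Ring.inverse (_ : R) * _
  rw [← ph_mul_lamE h, ← mul_assoc, Ring.inverse_mul_cancel _ hu, one_mul]

section trl

variable {p : A.Pt R} {v w : ι → R}

theorem ph_mul_trl (hv : Rep p v) (hw : w ∈ A.Tan v) (a b : ι) :
    A.ph a A.ao v v * A.trl v w b = A.trN a v w b := by
  obtain ⟨q, hq⟩ := exists_rep_dw hv hw
  rw [← lamE_eq_trl hq, ph_mul_lamE hq]

theorem trl_mem (hv : Rep p v) (hw : w ∈ A.Tan v) : A.trl v w ∈ A.Lie R := by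
  obtain ⟨q, hq⟩ := exists_rep_dw hv hw
  rw [← lamE_eq_trl hq]
  exact lamE_mem q

theorem trl_eq_zero_iff (hv : Rep p v) (hw : w ∈ A.Tan v) :
    A.trl v w = 0 ↔ ∃ c : R, w = c • v := by
  obtain ⟨q, hq⟩ := exists_rep_dw hv hw
  rw [← lamE_eq_trl hq, lamE_eq_zero_iff]
  constructor
  · intro h
    obtain ⟨c, hc⟩ := dw_unique hq.fst.inl (h ▸ hq)
    exact ⟨c, by rw [hc, zero_add]⟩
  · rintro ⟨c, rfl⟩
    refine hq.inj ?_
    have h := hq.fst.inl.smul (c := ⟨1, c⟩) (isUnit_iff_isUnit_fst.mpr isUnit_one)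
    convert h using 1
    funext a
    exact TrivSqZeroExt.ext (one_mul _).symm (by simp)

theorem trl_self (hv : Rep p v) : A.trl v v = 0 :=
  (trl_eq_zero_iff hv hv.self_mem_Tan).mpr ⟨1, (one_smul _ _).symm⟩

theorem eq_zero_of_trl (hv : Rep p v) (hw : w ∈ A.Tan v) {b : ι} (hb : v b = 1) (h0 : w b = 0)
    (h : A.trl v w = 0) : w = 0 := by
  obtain ⟨c, hc⟩ := (trl_eq_zero_iff hv hw).mp h
  have h1 := congrFun hc b
  rw [h0, Pi.smul_apply, hb, smul_eq_mul, mul_one] at h1
  rw [hc, ← h1, zero_smul]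

theorem exists_lamE_eq (p : A.Pt R) {l : ι → R} (hl : l ∈ A.Lie R) :
    ∃ q : A.Pt (DualNumber R), A.map (fstHom k R R) q = p ∧ A.lamE R q = l := by
  obtain ⟨q, hq⟩ := exists_rep_dw rep_oo hl.1
  refine ⟨A.map (inlAlgHom k R R) p + q, ?_, ?_⟩
  · rw [map_add, hq.fst.inj rep_oo, add_zero]
    exact (rep_co p).inl.fst.inj (rep_co p)
  · rw [map_add, lamE_inl, zero_add, lamE_of_rep hq hl.2]

theorem trl_surj (hv : Rep p v) {l : ι → R} (hl : l ∈ A.Lie R) :
    ∃ w ∈ A.Tan v, A.trl v w = l := by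
  obtain ⟨q, rfl, hq⟩ := exists_lamE_eq p hl
  obtain ⟨w, hw⟩ := exists_dw hv
  exact ⟨w, hw.mem_Tan, by rw [← lamE_eq_trl hw, hq]⟩

theorem trl_surj' (hv : Rep p v) {b : ι} (hb : v b = 1) {l : ι → R} (hl : l ∈ A.Lie R) :
    ∃ w ∈ A.Tan v, w b = 0 ∧ A.trl v w = l := by
  obtain ⟨q, rfl, hq⟩ := exists_lamE_eq p hl
  obtain ⟨w, h0, hw⟩ := exists_dw' hv hb
  exact ⟨w, hw.mem_Tan, h0, by rw [← lamE_eq_trl hw, hq]⟩

theorem trl_oo {l : ι → R} (hl : l ∈ A.Lie R) : A.trl (A.oo R) l = l := by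
  obtain ⟨q, hq⟩ := exists_rep_dw rep_oo hl.1
  rw [← lamE_eq_trl hq, lamE_of_rep hq hl.2]

end trl

theorem lamE_map (f : R →ₐ[k] R') (q : A.Pt (DualNumber R)) :
    A.lamE R' (A.map (dmap f) q) = fun a => f (A.lamE R q a) := by
  have h1 := (lamE_spec q).map (dmap f)
  have h2 : (fun a => dmap f (dw (A.oo R) (A.lamE R q) a)) =
      dw (A.oo R') fun a => f (A.lamE R q a) :=
    funext fun a => TrivSqZeroExt.ext (f.commutes _) rfl
  have h3 : A.map (dmap f) (A.map (inlAlgHom k R R) (A.map (fstHom k R R) q)) =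
      A.map (inlAlgHom k R' R') (A.map (fstHom k R' R') (A.map (dmap f) q)) := by
    simp only [map_map]
    exact map_congr (rep_co q) fun a => TrivSqZeroExt.ext rfl (map_zero f)
  rw [h2, map_sub, h3] at h1
  exact tv_unique (lamE_spec _) h1 (lamE_ao _) (by rw [lamE_ao, map_zero])

omit [IsLocalRing R] [IsLocalRing R'] in
theorem map_mem_Tan (f : R →ₐ[k] R') {v w : ι → R} (hw : w ∈ A.Tan v) :
    (fun a => f (w a)) ∈ A.Tan fun a => f (v a) := fun F hF => by
  rw [← map_dP, hw F hF, map_zero]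

omit [IsLocalRing R] [IsLocalRing R'] in
theorem map_mem_Lie (f : R →ₐ[k] R') {w : ι → R} (hw : w ∈ A.Lie R) :
    (fun a => f (w a)) ∈ A.Lie R' := by
  refine ⟨?_, (congrArg f hw.2).trans (map_zero f)⟩
  have h := map_mem_Tan f hw.1
  have e : (fun a => f (A.oo R a)) = A.oo R' := funext fun a => f.commutes _
  rwa [e] at h

theorem trl_map (f : R →ₐ[k] R') {p : A.Pt R} {v w : ι → R} (hv : Rep p v) (hw : w ∈ A.Tan v) :
    A.trl (fun a => f (v a)) (fun a => f (w a)) = fun a => f (A.trl v w a) := by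
  obtain ⟨q, hq⟩ := exists_rep_dw hv hw
  rw [← lamE_eq_trl hq, ← lamE_map]
  exact (lamE_eq_trl (hq.map (dmap f))).symm

variable (A) in
/-- The logarithmic derivative of a point along the derivation `D`. -/
noncomputable def lamD (D : Derivation k R R) : A.Pt R →+ (ι → R) :=
  (A.lamE R).comp (A.map (eD D))

section lamD

variable {p : A.Pt R} {v : ι → R}

omit [IsLocalRing R] in
theorem Rep.der_mem_Tan (hv : Rep p v) (D : Derivation k R R) : (fun a => D (v a)) ∈ A.Tan v :=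
  fun F hF => by rw [dP_der D D.map_algebraMap, hv.zero F hF, map_zero]

theorem lamD_eq (hv : Rep p v) (D : Derivation k R R) :
    A.lamD D p = A.trl v fun a => D (v a) := lamE_eq_trl (hv.map (eD D))

theorem lamD_mem (D : Derivation k R R) (p : A.Pt R) : A.lamD D p ∈ A.Lie R := lamE_mem _

theorem ph_mul_lamD (hv : Rep p v) (D : Derivation k R R) (a b : ι) :
    A.ph a A.ao v v * A.lamD D p b = A.trN a v (fun c => D (v c)) b :=
  ph_mul_lamE (hv.map (eD D)) a b

variable (p) in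
/-- The logarithmic derivative as a linear function of the derivation. -/
noncomputable def lamL : Derivation k R R →ₗ[R] (ι → R) where
  toFun D := A.lamD D p
  map_add' D D' := by
    rw [lamD_eq (rep_co p), lamD_eq (rep_co p), lamD_eq (rep_co p), ← map_add]
    rfl
  map_smul' r D := by
    rw [lamD_eq (rep_co p), lamD_eq (rep_co p), RingHom.id_apply, ← map_smul]
    rfl

theorem lamD_zero (p : A.Pt R) : A.lamD 0 p = 0 := map_zero (lamL p)

theorem lamD_add (D D' : Derivation k R R) (p : A.Pt R) :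
    A.lamD (D + D') p = A.lamD D p + A.lamD D' p := map_add (lamL p) D D'

theorem lamD_sub (D D' : Derivation k R R) (p : A.Pt R) :
    A.lamD (D - D') p = A.lamD D p - A.lamD D' p := map_sub (lamL p) D D'

theorem lamD_smul (r : R) (D : Derivation k R R) (p : A.Pt R) :
    A.lamD (r • D) p = r • A.lamD D p := map_smul (lamL p) r D

theorem lamD_sum {J : Type} (s : Finset J) (c : J → R) (D : J → Derivation k R R) (p : A.Pt R) :
    A.lamD (∑ j ∈ s, c j • D j) p = ∑ j ∈ s, c j • A.lamD (D j) p := by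
  refine (map_sum (lamL p) _ s).trans (Finset.sum_congr rfl fun j _ => lamD_smul _ _ _)

theorem lamD_eq_zero (hv : Rep p v) {D : Derivation k R R} (h : ∀ a, D (v a) = 0) :
    A.lamD D p = 0 := by
  rw [lamD_eq hv, show (fun a => D (v a)) = 0 from funext h, map_zero]

theorem lamD_eq_zero_iff (hv : Rep p v) {b : ι} (hb : v b = 1) {D : Derivation k R R} :
    A.lamD D p = 0 ↔ ∀ a, D (v a) = 0 :=
  ⟨fun h => congrFun (eq_zero_of_trl hv (hv.der_mem_Tan D) hb
    (by rw [hb, D.map_one_eq_zero]) (by rwa [← lamD_eq hv])), lamD_eq_zero hv⟩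

/-- Points coming from a ring of constants of `D`. -/
theorem lamD_map_const (f : R' →ₐ[k] R) {D : Derivation k R R} (h : ∀ r, D (f r) = 0)
    (q : A.Pt R') : A.lamD D (A.map f q) = 0 :=
  lamD_eq_zero ((rep_co q).map f) fun _ => h _

theorem map_lamD (f : R →ₐ[k] R') (hv : Rep p v) (D : Derivation k R R) :
    (fun a => f (A.lamD D p a)) = A.trl (fun a => f (v a)) fun a => f (D (v a)) := by
  rw [lamD_eq hv, trl_map f hv (hv.der_mem_Tan D)]

theorem lamD_map (f : R →ₐ[k] R') (hv : Rep p v) {D : Derivation k R R} {D' : Derivation k R' R'}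
    (h : ∀ a, D' (f (v a)) = f (D (v a))) :
    A.lamD D' (A.map f p) = fun a => f (A.lamD D p a) := by
  rw [map_lamD f hv, lamD_eq (hv.map f), funext h]

end lamD

end GV

end Pool.Agent.Lib.MP_8865d3_nt.Sv
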