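import Pool.Agent.Lib.MP_8865d3_nt.Sv.Voc
import Pool.Agent.Lib.MP_8865d3_nt.Sv.LieA
import Pool.Agent.Lib.MP_651af7_nt.Av.Lie

/-! The relation `Tang` and the logarithmic derivative. -/

namespace Pool.Agent.Lib.MP_8865d3_nt.Sv

open MvPolynomial Pool.Agent.Lib.MP_651af7_nt.Av

variable {k ι : Type} [Field k]

namespace GV

variable {A : GV k ι} {R R' : Type} [CommRing R] [Algebra k R] [CommRing R'] [Algebra k R']

theorem Tang.map (f : R →ₐ[k] R') {x v l : ι → R} (h : A.Tang x v l) :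
    A.Tang (fun a => f (x a)) (fun a => f (v a)) fun a => f (l a) := by
  have e : ∀ x v : ι → R, (fun a => dmap f (dv x v a)) = dv (fun a => f (x a)) fun a => f (v a) :=
    fun x v => by rw [dv_eq_dw, dv_eq_dw]; rfl
  have e0 : (fun a => dmap f (dv x 0 a)) = dv (fun a => f (x a)) 0 := by
    rw [e]
    exact congrArg _ (funext fun _ => map_zero f)
  refine ⟨fun F hF => ?_, by rw [h.ao, map_zero], fun a b => ?_⟩
  · have h1 := congrArg (dmap f) (h.mem F hF)
    rwa [map_zero, ← AlgHom.comp_apply, comp_aeval, e] at h1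
  · have h1 := congrArg (dmap f) (h.eq a b)
    rw [map_mul, map_ph, map_ph, e, e0, congrFun (e _ l) b] at h1
    simpa only [AlgHom.commutes] using h1

/-- Tangent data over a product of rings. -/
theorem tang_pi {α : Type} {x v l : α → ι → R} (h : ∀ n, A.Tang (x n) (v n) (l n)) :
    A.Tang (R := α → R) (fun a n => x n a) (fun a n => v n a) fun a n => l n a := by
  have key : ∀ y z : DualNumber (α → R), (∀ n, dmap (Pi.evalAlgHom k (fun _ => R) n) y =
      dmap (Pi.evalAlgHom k (fun _ => R) n) z) → y = z := fun y z hyz =>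
    TrivSqZeroExt.ext (funext fun n => congrArg TrivSqZeroExt.fst (hyz n))
      (funext fun n => congrArg TrivSqZeroExt.snd (hyz n))
  have e : ∀ n (x v : ι → α → R), (fun a => dmap (Pi.evalAlgHom k (fun _ => R) n) (dv x v a)) =
      dv (fun a => x a n) fun a => v a n := fun n x v => by rw [dv_eq_dw, dv_eq_dw]; rfl
  refine ⟨fun F hF => key _ _ fun n => ?_, funext fun n => (h n).ao, fun a b => key _ _ fun n => ?_⟩
  · rw [map_zero, ← AlgHom.comp_apply, comp_aeval, e]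
    exact (h n).mem F hF
  · have e0 : (fun a => (0 : ι → α → R) a n) = 0 := rfl
    have e1 : (fun c => algebraMap k (α → R) (A.o c) n) = fun c => algebraMap k R (A.o c) := rfl
    rw [map_mul, map_ph, map_ph, e, e, congrFun (e n _ _) b, e0, e1]
    exact (h n).eq a b

theorem isLie_iff {l : ι → R} : A.IsLie l ↔ l ∈ A.Lie R := by
  refine ⟨fun h => ⟨fun F hF => (aeval_dv_eq_zero_iff.mp (h.2 F hF)).2, h.1⟩,
    fun h => ⟨h.2, fun F hF => aeval_dv_eq_zero_iff.mpr ⟨?_, h.1 F hF⟩⟩⟩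
  have h1 := congrArg (Algebra.ofId k R) ((rep_zero (A := A) (R := k)).zero F hF)
  rwa [map_zero, ← AlgHom.comp_apply, comp_aeval] at h1

theorem IsLie.add {l l' : ι → R} (h : A.IsLie l) (h' : A.IsLie l') : A.IsLie (l + l') :=
  isLie_iff.mpr ((A.Lie R).add_mem (isLie_iff.mp h) (isLie_iff.mp h'))

theorem IsLie.smul {l : ι → R} (h : A.IsLie l) (c : R) : A.IsLie (c • l) :=
  isLie_iff.mpr ((A.Lie R).smul_mem c (isLie_iff.mp h))

variable [IsLocalRing R] {P Q : A.Pt R} {x v v' l l' : ι → R}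

theorem tang_iff_trl (h : Rep P x) : A.Tang x v l ↔ v ∈ A.Tan x ∧ A.trl x v = l := by
  have key : ∀ (l : ι → R) (a b : ι), (A.ph a b (dv x v) (dv x 0) =
      A.ph a A.ao (dv x v) (dv x 0) * dv (fun c => algebraMap k R (A.o c)) l b) ↔
      A.ph a b x x = A.ph a A.ao x x * A.oo R b ∧ A.ph a A.ao x x * l b = A.trN a x v b := by
    intro l a b
    rw [dv_eq_dw, dv_eq_dw, dv_eq_dw, TrivSqZeroExt.ext_iff, TrivSqZeroExt.fst_mul,
      DualNumber.snd_mul, ph, ph, dw_elim, fst_aeval_dw, fst_aeval_dw, trN, dP, dP]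
    refine and_congr Iff.rfl ?_
    rw [eq_sub_iff_add_eq, eq_comm, mul_comm (A.oo R b)]
    rfl
  constructor
  · intro h1
    have hv : v ∈ A.Tan x := fun F hF => (aeval_dv_eq_zero_iff.mp (h1.mem F hF)).2
    obtain ⟨a, ha⟩ := h.exists_unit_ph_self
    refine ⟨hv, funext fun b => ha.mul_left_cancel ?_⟩
    rw [ph_mul_trl h hv a b, ((key l a b).mp (h1.eq a b)).2]
  · rintro ⟨hv, rfl⟩
    refine ⟨fun F hF => aeval_dv_eq_zero_iff.mpr ⟨h.zero F hF, hv F hF⟩, (trl_mem h hv).2,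
      fun a b => (key _ a b).mpr ⟨?_, ph_mul_trl h hv a b⟩⟩
    obtain ⟨c, hc⟩ := law h h (rep_co _) (by rw [sub_self]; exact rep_oo)
    rw [hc, hc, oo_ao]
    ring

theorem exists_tang (h : Rep P x) (hv : ∀ f ∈ A.I, aeval (dv x v) f = 0) : ∃ l, A.Tang x v l :=
  ⟨_, (tang_iff_trl h).mpr ⟨fun F hF => (aeval_dv_eq_zero_iff.mp (hv F hF)).2, rfl⟩⟩

theorem Tang.unique (h : Rep P x) (h1 : A.Tang x v l) (h2 : A.Tang x v l') : l = l' :=
  ((tang_iff_trl h).mp h1).2.symm.trans ((tang_iff_trl h).mp h2).2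

theorem Tang.isLie (h : Rep P x) (h1 : A.Tang x v l) : A.IsLie l := by
  obtain ⟨h2, rfl⟩ := (tang_iff_trl h).mp h1
  exact isLie_iff.mpr (trl_mem h h2)

theorem Tang.add (h : Rep P x) (h1 : A.Tang x v l) (h2 : A.Tang x v' l') :
    A.Tang x (v + v') (l + l') := by
  obtain ⟨h3, rfl⟩ := (tang_iff_trl h).mp h1
  obtain ⟨h4, rfl⟩ := (tang_iff_trl h).mp h2
  exact (tang_iff_trl h).mpr ⟨(A.Tan x).add_mem h3 h4, map_add _ _ _⟩

theorem Tang.smul (h : Rep P x) (h1 : A.Tang x v l) (c : R) : A.Tang x (c • v) (c • l) := by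
  obtain ⟨h3, rfl⟩ := (tang_iff_trl h).mp h1
  exact (tang_iff_trl h).mpr ⟨(A.Tan x).smul_mem c h3, map_smul _ _ _⟩

theorem tang_self (h : Rep P x) (c : R) : A.Tang x (c • x) 0 :=
  (tang_iff_trl h).mpr ⟨(A.Tan x).smul_mem c h.self_mem_Tan, by
    rw [map_smul, trl_self h, smul_zero]⟩

theorem tang_zero (h : A.IsLie l) : A.Tang (fun a => algebraMap k R (A.o a)) l l :=
  (tang_iff_trl rep_zero).mpr ⟨(isLie_iff.mp h).1, trl_oo (isLie_iff.mp h)⟩

theorem Tang.eq_smul (h : Rep P x) (h1 : A.Tang x v 0) : ∃ c : R, v = c • x :=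
  (trl_eq_zero_iff h ((tang_iff_trl h).mp h1).1).mp ((tang_iff_trl h).mp h1).2

theorem IsLie.exists_tang (h : Rep P x) (hl : A.IsLie l) : ∃ v, A.Tang x v l :=
  (trl_surj h (isLie_iff.mp hl)).imp fun _ h1 => (tang_iff_trl h).mpr h1

/-- The logarithmic derivative. -/
noncomputable def lam (D : Derivation k R R) (P : A.Pt R) : ι → R :=
  Classical.epsilon fun l => A.Tang P.co (fun a => D (P.co a)) l

theorem lam_eq_lamD (D : Derivation k R R) (P : A.Pt R) : lam D P = A.lamD D P := by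
  have h := Classical.epsilon_spec (p := fun l => A.Tang P.co (fun a => D (P.co a)) l)
    ⟨_, (tang_iff_trl (rep_co P)).mpr ⟨(rep_co P).der_mem_Tan D, rfl⟩⟩
  have h' : A.Tang P.co (fun a => D (P.co a)) (lam D P) := h
  rw [lamD_eq (rep_co P), ((tang_iff_trl (rep_co P)).mp h').2]

theorem lam_tang (D : Derivation k R R) (h : Rep P x) :
    A.Tang x (fun a => D (x a)) (lam D P) :=
  (tang_iff_trl h).mpr ⟨h.der_mem_Tan D, by rw [lam_eq_lamD, lamD_eq h]⟩

theorem lam_add (D : Derivation k R R) (P Q : A.Pt R) : lam D (P + Q) = lam D P + lam D Q := by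
  simp only [lam_eq_lamD, map_add]

theorem lam_sub (D : Derivation k R R) (P Q : A.Pt R) : lam D (P - Q) = lam D P - lam D Q := by
  simp only [lam_eq_lamD, map_sub]

theorem lam_sum (D : Derivation k R R) {J : Type} (s : Finset J) (P : J → A.Pt R) :
    lam D (∑ j ∈ s, P j) = ∑ j ∈ s, lam D (P j) := by
  simp only [lam_eq_lamD, map_sum]

end GV

end Pool.Agent.Lib.MP_8865d3_nt.Sv
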