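import Pool.Agent.Lib.MP_8865d3_nt.Sv.Prod1
import Pool.Agent.Lib.MP_8865d3_nt.Sv.Lie
import Pool.Agent.Lib.MP_651af7_nt.Av.Par

/-! Tangent vectors and the parametrisation of the product. -/

namespace Pool.Agent.Lib.MP_8865d3_nt.Sv

open MvPolynomial Height Filter Pool.Agent.Lib.MP_651af7_nt.Av

set_option linter.unusedSectionVars false

section

open TrivSqZeroExt

variable {ι R : Type} [CommRing R] {s : ℕ}

theorem prod2_ch (t : Fin s → R) (ε : Fin s → Bool) :
    ch (fun j => (1 + inr (t j) : DualNumber R)) ε = 1 + inr (∑ j, if ε j then t j else 0) := by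
  have h : ∀ (r : Fin s → R) (S : Finset (Fin s)),
      ∏ j ∈ S, (1 + inr (r j) : DualNumber R) = 1 + inr (∑ j ∈ S, r j) := fun r S => by
    induction S using Finset.induction_on with
    | empty => simp
    | insert j S hj ih =>
      rw [Finset.prod_insert hj, Finset.sum_insert hj, ih]
      ext <;> simp [add_comm]
  rw [← h, ch]
  exact Finset.prod_congr rfl fun j _ => by split_ifs <;> simp

theorem prod2_dv (x v : ι → R) (u t : Fin s → R) :
    dv (sgr x u) (fun a => ch u a.2 * (v a.1 + (∑ j, if a.2 j then t j else 0) * x a.1)) =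
      sgr (dv x v) fun j => inl (u j) * (1 + inr (t j)) := by
  funext a
  have h := map_ch (inlAlgHom ℤ R R) u a.2
  simp only [inlAlgHom_apply] at h
  rw [sgr, ch_mul, prod2_ch, ← h]
  ext
  · simp [dv, sgr]
  · simp [dv, sgr]
    ring

theorem prod2_dv_one (x v : ι → R) (t : Fin s → R) :
    dv (fun a : SI ι s => x a.1) (fun a => v a.1 + (∑ j, if a.2 j then t j else 0) * x a.1) =
      sgr (dv x v) fun j => 1 + inr (t j) := by
  have h := prod2_dv x v (fun _ => 1) t
  rw [show sgr x (fun _ : Fin s => (1 : R)) = fun a => x a.1 from funext fun a => by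
    rw [sgr, ch_one, one_mul]] at h
  simpa only [ch_one, one_mul, inl_one] using h

variable {k : Type} [Field k] {n : ℕ}

theorem prod2_bd (v : AbsoluteValue k ℝ) {r : ℝ} (hr : 1 ≤ r) (f : MvPowerSeries (Fin n) k)
    (hf : ∀ α, v (MvPowerSeries.coeff α f) ≤ r ^ max 1 α.degree) (i : Fin s → Fin n)
    (ε : Fin s → Bool) (α : Fin n →₀ ℕ) :
    v (MvPowerSeries.coeff α (ch (fun j => 1 + MvPowerSeries.X (i j)) ε * f)) ≤
      E (IsNonarchimedean v) 2 ^ s * r ^ max 1 α.degree := by
  have h2 := par_one_le_E (IsNonarchimedean v) one_le_two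
  have key : ∀ (S : Finset (Fin s)) α, v (MvPowerSeries.coeff α
      ((∏ j ∈ S, if ε j then 1 + MvPowerSeries.X (i j) else 1) * f)) ≤
        E (IsNonarchimedean v) 2 ^ S.card * r ^ max 1 α.degree := fun S => by
    induction S using Finset.induction_on with
    | empty => simpa using hf
    | insert j S hj ih =>
      intro α
      rw [Finset.prod_insert hj, Finset.card_insert_of_notMem hj, pow_succ', mul_assoc, mul_assoc]
      generalize (∏ j ∈ S, if ε j then 1 + MvPowerSeries.X (i j) else 1) * f = f at ih
      split_ifs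
      · have h3 : v (MvPowerSeries.coeff α (MvPowerSeries.X (i j) * f)) ≤
            E (IsNonarchimedean v) 2 ^ S.card * r ^ max 1 α.degree := by
          rw [MvPowerSeries.X_def, MvPowerSeries.coeff_monomial_mul]
          split_ifs
          · rw [one_mul]
            exact (ih _).trans (mul_le_mul_of_nonneg_left (pow_le_pow_right₀ hr
              (max_le_max le_rfl (Finsupp.degree_mono tsub_le_self))) (by positivity))
          · rw [map_zero]
            positivity
        have h4 := ih α
        rw [add_mul, one_mul, map_add]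
        generalize E (IsNonarchimedean v) 2 ^ S.card * r ^ max 1 α.degree = t at h3 h4
        by_cases hv : IsNonarchimedean v
        · rw [E, if_pos hv, one_mul]
          exact (hv _ _).trans (max_le h4 h3)
        · rw [E, if_neg hv, two_mul]
          exact (v.add_le _ _).trans (add_le_add h4 h3)
      · rw [one_mul]
        exact (ih α).trans (le_mul_of_one_le_left (by positivity) h2)
  have h3 := key Finset.univ α
  rwa [Finset.card_univ, Fintype.card_fin] at h3

end

variable {k ι : Type} [Field k] [Fintype ι] {s : ℕ} {B : AV k ι} {G : GV k (SI ι s)}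
  (h : IsProd B G)
include h

namespace IsProd

/-- Sketch.  Over the dual numbers the vector is `sgr (dv x v) (u * (1 + ε t))`; `zero_sgr`,
`ph_sgr`. -/
theorem tang_sgr {R : Type} [CommRing R] [Algebra k R] {x v l : ι → R} (ht : B.Tang x v l)
    (u t : Fin s → R) :
    G.Tang (sgr x u) (fun a => ch u a.2 * (v a.1 + (∑ j, if a.2 j then t j else 0) * x a.1))
      fun a => l a.1 + (∑ j, if a.2 j then t j else 0) * algebraMap k R (B.o a.1) := by
  have h0 := prod2_dv x 0 u fun _ => 0
  simp only [Pi.zero_apply, ite_self, Finset.sum_const_zero, zero_mul, add_zero, mul_zero,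
    TrivSqZeroExt.inr_zero, mul_one] at h0
  refine ⟨?_, ?_, fun a b => ?_⟩
  · rw [prod2_dv]
    exact h.zero_sgr ht.mem _
  · simp [h.ao, ht.ao]
  · have h1 := ch_mul_not (fun j => (TrivSqZeroExt.inl (u j) : DualNumber R)) b.2
    have h2 := ch_mul_not (fun j => (TrivSqZeroExt.inl (u j) : DualNumber R)) fun _ => false
    rw [prod2_dv, show dv (sgr x u) 0 = _ from h0, h.ph_sgr, h.ph_sgr, ht.eq, h.ao]
    simp only [h.o]
    rw [prod2_dv_one (fun c => algebraMap k R (B.o c)), sgr, ch_mul _ _ b.2, ch_false]
    rw [ch_false, one_mul, ← h1] at h2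
    rw [h2]
    ring

theorem prod2_isLie {R : Type} [CommRing R] [Algebra k R] {l : ι → R} (hl : B.IsLie l)
    (t : Fin s → R) :
    G.IsLie fun a => l a.1 + (∑ j, if a.2 j then t j else 0) * algebraMap k R (B.o a.1) := by
  refine ⟨by simp [h.ao, hl.1], ?_⟩
  simp only [h.o]
  rw [prod2_dv_one fun c => algebraMap k R (B.o c)]
  exact h.zero_sgr hl.2 _

/-- Sketch.  For `span` use the quadrics `X (a, ε) * X (ao, 0) - X (a, 0) * X (ao, ε)` and
`X (ao, ε) * X (ao, 0) - X (ao, ε₁) * X (ao, ε₂)` of the ideal, and `f (X (·, 0))` for `f ∈ B.I`. -/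
theorem lieBasis {g : ℕ} {σ : Fin g → ι → k} (hσ : B.LieBasis σ) : G.LieBasis (prs s B.o σ) := by
  have h0 : B.IsLie (0 : ι → k) := AV.isLie_iff.2 (zero_mem _)
  refine ⟨fun J => ?_, Fintype.linearIndependent_iff.2 fun c hc => ?_, fun R _ _ l hl => ?_⟩
  · induction J using Fin.addCases with
    | left j => simpa [prs] using h.prod2_isLie (hσ.mem j) fun _ => 0
    | right j =>
      convert h.prod2_isLie h0 (Pi.single j 1) using 2 with a
      rw [Finset.sum_eq_single j (fun l _ hl => by simp [hl]) (by simp)]
      simp [prs]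
  · have h1 := fun a => congrFun hc a
    simp only [Fin.sum_univ_add, prs, Fin.addCases_left, Fin.addCases_right,
      Finset.sum_apply, Pi.smul_apply, smul_eq_mul, Pi.zero_apply] at h1
    intro J
    induction J using Fin.addCases with
    | left j =>
      refine Fintype.linearIndependent_iff.1 hσ.indep (fun j => c (Fin.castAdd s j))
        (funext fun a => ?_) j
      simpa using h1 (a, fun _ => false)
    | right j => simpa [B.o_ao, fun l => (hσ.mem l).1] using h1 (B.ao, fun l => decide (l = j))
  · have h1 : l (B.ao, fun _ => false) = 0 := h.ao ▸ hl.1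
    have h2 := hl.2
    simp only [h.o] at h2
    obtain ⟨τ, hτ⟩ := hσ.span R (fun a => l (a, fun _ => false))
      ⟨h1, h.zero_slice h2 fun _ => false⟩
    refine ⟨Fin.addCases τ fun j => l (B.ao, Function.update (fun _ => false) j true),
      fun ⟨a, ε⟩ => ?_⟩
    have h3 := h.rel h2 a B.ao ε fun _ => false
    have h4 : ∏ j, dv (fun c : SI ι s => algebraMap k R (B.o c.1)) l
        (B.ao, Function.update (fun _ => false) j (ε j)) = ch (fun j => 1 + TrivSqZeroExt.inr
          (l (B.ao, Function.update (fun _ => false) j true))) ε :=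
      Finset.prod_congr rfl fun j _ => by cases ε j <;> simp [dv, B.o_ao, h1]
    rw [h4, prod2_ch] at h3
    have h5 := congrArg TrivSqZeroExt.snd h3
    simp only [Fin.sum_univ_add, prs, Fin.addCases_left, Fin.addCases_right, ← hτ]
    simp only [dv, B.o_ao, h1, map_one, TrivSqZeroExt.inl_one, TrivSqZeroExt.inr_zero, add_zero,
      one_pow, mul_one] at h5
    refine (by simpa using h5 : l (a, ε) = _).trans ((add_comm _ _).trans ?_)
    rw [Finset.mul_sum]
    exact congrArg _ (Finset.sum_congr rfl fun j _ => by split_ifs <;> simp [mul_comm])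

/-- Sketch.  `ϱ' = sgr (rename (Fin.castAdd s) ∘ ϱ) (1 + X (Fin.natAdd g ·))`. -/
theorem exists_par [NumberField k] {g : ℕ} {ϱ : ι → MvPowerSeries (Fin g) k} (hϱ : B.Par g ϱ) :
    ∃ ϱ', G.Par (g + s) ϱ' ∧ lin ϱ' = prs s B.o (lin ϱ) := by
  have hc : ∀ a, MvPowerSeries.constantCoeff
      (MvPowerSeries.rename (Fin.castAddEmb s) (ϱ a)) = B.o a := fun a => by
    rw [MvPowerSeries.constantCoeff_rename, hϱ.const]
  have hc' : ∀ a, MvPowerSeries.constantCoeff (sgr (fun a => MvPowerSeries.rename
      (Fin.castAddEmb s) (ϱ a)) (fun j => 1 + MvPowerSeries.X (Fin.natAdd g j)) a) = B.o a.1 :=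
    fun a => by simp [sgr, map_ch, hϱ.const, ch_one]
  have hl : lin (sgr (fun a => MvPowerSeries.rename (Fin.castAddEmb s) (ϱ a))
      fun j => 1 + MvPowerSeries.X (Fin.natAdd g j)) = prs s B.o (lin ϱ) := by
    funext J a
    have h1 := parJet_dv hc' J
    have h2 : (fun j => parJet J (1 + MvPowerSeries.X (Fin.natAdd g j))) = fun j =>
        (1 + TrivSqZeroExt.inr (if J = Fin.natAdd g j then 1 else 0) : DualNumber k) :=
      funext fun j => by
        rw [map_add, map_one]
        ext <;> simp [parJet, MvPowerSeries.coeff_index_single_X]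
    rw [prod1_map_sgr, parJet_dv hc, h2, ← prod2_dv_one] at h1
    have h3 := congrArg TrivSqZeroExt.snd (congrFun h1 a)
    simp only [dv, TrivSqZeroExt.snd_add, TrivSqZeroExt.snd_inl, TrivSqZeroExt.snd_inr,
      zero_add] at h3
    rw [← h3]
    induction J using Fin.addCases with
    | left j =>
      have h4 := MvPowerSeries.coeff_embDomain_rename (Fin.castAddEmb s) (ϱ a.1) (.single j 1)
      have h5 : ∀ l, Fin.castAdd s j ≠ Fin.natAdd g l := fun l e => by
        have := congrArg Fin.val e
        simp only [Fin.val_castAdd, Fin.val_natAdd] at this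
        omega
      rw [Finsupp.embDomain_single] at h4
      simpa [prs, h5, lin] using h4
    | right j =>
      have h4 := MvPowerSeries.coeff_rename_eq_zero (Fin.castAddEmb s) (ϱ a.1)
        (x := .single (Fin.natAdd g j) 1) (by
          rintro ⟨β, e⟩
          have h5 := Finsupp.mapDomain_of_notMem_range (f := Fin.castAddEmb s) β (.natAdd g j) (by
            rintro ⟨l, e⟩
            have := congrArg Fin.val e
            simp only [Fin.castAddEmb_apply, Fin.val_castAdd, Fin.val_natAdd] at this
            omega)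
          rw [e, Finsupp.single_eq_same] at h5
          exact one_ne_zero h5)
      rw [lin, h4, Finset.sum_eq_single j (fun l _ hl => by simp [hl.symm]) (by simp)]
      simp [prs]
  refine ⟨_, ⟨h.zero_sgr (fun f hf => ?_) _, fun a => (hc' a).trans (h.o a).symm,
    hl ▸ h.lieBasis hϱ.basis, ?_⟩, hl⟩
  · rw [← par_map_aeval, hϱ.mem f hf, map_zero]
  · classical
    obtain ⟨c, S, hS⟩ := hϱ.bd
    refine ⟨2 ^ s * max 1 |c|, S ∪ Finset.univ.image B.o, fun v a α hα => ?_⟩
    have h1 := par_one_le_E (IsNonarchimedean v) (le_max_left 1 |c|)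
    have h2 : ∀ T ⊆ S ∪ Finset.univ.image B.o, ∏ z ∈ T, max 1 (v z) ≤
        ∏ z ∈ S ∪ Finset.univ.image B.o, max 1 (v z) := fun T hT =>
      Finset.prod_le_prod_of_subset_of_one_le hT (fun _ _ => by positivity)
        fun _ _ _ => le_max_left _ _
    have h3 := h2 ∅ (Finset.empty_subset _)
    rw [Finset.prod_empty] at h3
    have h4 : 1 ≤ α.degree := Nat.one_le_iff_ne_zero.2 ((Finsupp.degree_eq_zero_iff α).not.2 hα)
    refine (prod2_bd v (one_le_mul_of_one_le_of_one_le h1 h3) _ (fun β => ?_) _ _ _).trans ?_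
    · by_cases hβ : β ∈ Set.range (Finsupp.mapDomain (Fin.castAddEmb s : Fin g ↪ _))
      · obtain ⟨β, rfl⟩ := hβ
        rw [Finsupp.degree_mapDomain, ← Finsupp.embDomain_eq_mapDomain,
          MvPowerSeries.coeff_embDomain_rename]
        rcases eq_or_ne β 0 with rfl | h0
        · have h5 := h2 {B.o a.1} (by simp)
          rw [Finset.prod_singleton] at h5
          rw [MvPowerSeries.coeff_zero_eq_constantCoeff_apply, hϱ.const, map_zero,
            max_eq_left zero_le_one, pow_one]
          exact ((le_max_right _ _).trans h5).trans (le_mul_of_one_le_left (by positivity) h1)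
        · rw [max_eq_right (Nat.one_le_iff_ne_zero.2 ((Finsupp.degree_eq_zero_iff β).not.2 h0))]
          refine ((hS v a.1 β h0).trans (le_abs_self _)).trans ?_
          rw [abs_pow, abs_mul, abs_of_nonneg (a := ∏ z ∈ S, _) (by positivity)]
          refine pow_le_pow_left₀ (by positivity) (mul_le_mul ?_ (h2 S Finset.subset_union_left)
            (by positivity) (by positivity)) _
          unfold E
          split_ifs <;> simp
      · rw [MvPowerSeries.coeff_rename_eq_zero _ _ hβ, map_zero]
        positivity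
    · rw [max_eq_right h4, par_E_mul, par_E_pow, mul_assoc, mul_pow (_ ^ s)]
      exact mul_le_mul_of_nonneg_right (le_self_pow₀
        (one_le_pow₀ (par_one_le_E _ one_le_two)) (by omega)) (by positivity)

end IsProd

end Pool.Agent.Lib.MP_8865d3_nt.Sv
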