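import Pool.Agent.Lib.MP_8865d3_nt.Sv.Res
import Pool.Agent.Lib.MP_8865d3_nt.Sv.Prod2
import Pool.Agent.Lib.MP_651af7_nt.Av.Geo

/-! No covector kills the locus of a point that generates the product. -/

namespace Pool.Agent.Lib.MP_8865d3_nt.Sv

open MvPolynomial Height Filter Pool.Agent.Lib.MP_651af7_nt.Av

variable {k ι K E : Type} [Field k] [CharZero k] [Fintype ι] [Field K] [Field E] [Algebra k K]
  [Algebra k E] [Algebra K E] [IsScalarTower k K E] {B : AV k ι}

omit [CharZero k] [Fintype ι] in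
theorem kill_lam {D : Derivation K E E} {Y : B.Pt E} {l : ι → E}
    (h : B.Tang Y.co (fun a => D (Y.co a)) l) {x : ι → E} (hx : AV.Rep Y x) :
    B.Tang x (fun a => D (x a)) l :=
  (AV.lam_tang (D.restrictScalars k) (AV.rep_co Y)).unique (AV.rep_co Y) h ▸
    AV.lam_tang (D.restrictScalars k) hx

/-- Sketch.  Normalise the coordinates, `exists_chart`, `exists_derivation` for the coordinates of
the chart, `AV.kills_eq_zero`. -/
theorem kill_ab {σ : Fin B.dim → ι → k} (hσ : B.LieBasis σ) {Y : B.Pt E} (hY : B.Gens K Y)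
    (ℓ : Fin B.dim → K) (h : ∀ D : Derivation K E E, ∃ τ : Fin B.dim → E,
      B.Tang Y.co (fun a => D (Y.co a)) (fun a => ∑ l, τ l * algebraMap k E (σ l a)) ∧
        ∑ l, algebraMap K E (ℓ l) * τ l = 0) : ℓ = 0 := by
  have : CharZero K := charZero_of_injective_algebraMap (algebraMap k K).injective
  obtain ⟨b, hb⟩ := (AV.rep_co Y).unit
  have hw := (AV.rep_co Y).smul hb.inv
  obtain ⟨r, C, -, hC, -, hi, -⟩ := exists_chart (K := K) (fun a => (Y.co b)⁻¹ * Y.co a) b
    (inv_mul_cancel₀ hb.ne_zero)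
  refine AV.kills_eq_zero B hσ hY C hw hC ℓ fun j => ?_
  obtain ⟨D, hD⟩ := exists_derivation hi fun l => if l = j then 1 else 0
  obtain ⟨τ, h1, h2⟩ := h D
  refine ⟨_, τ, ⟨hD, fun a ha => ?_⟩, kill_lam h1 hw, h2⟩
  rw [← dP_eq_sum, dP_der D D.map_algebraMap, (hC a ha).1, map_zero]

theorem kill_prod {J : Type} (D : Derivation K E E) (T : Finset J) {u t : J → E}
    (h : ∀ j, D (u j) = u j * t j) : D (∏ j ∈ T, u j) = (∏ j ∈ T, u j) * ∑ j ∈ T, t j := by
  classical
  induction T using Finset.induction_on with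
  | empty => simp
  | insert j T hj ih =>
    rw [Finset.prod_insert hj, Finset.sum_insert hj, D.leibniz, ih, h, smul_eq_mul, smul_eq_mul]
    ring

theorem kill_int [CharZero K] {s : ℕ} {ℓ : Fin s → K} (h : ℓ ≠ 0) : ∃ m : Fin s → ℤ, m ≠ 0 ∧
    ∀ ρ : Fin s → ℤ, ∑ t, ℓ t * ρ t = 0 → ∑ t, m t * ρ t = 0 := by
  obtain ⟨t₀, h0⟩ := Function.ne_iff.1 h
  obtain ⟨φ, hφ⟩ := not_forall.1 (mt (Module.forall_dual_apply_eq_zero_iff ℚ (ℓ t₀)).1 h0)
  obtain ⟨b, hb⟩ := IsLocalization.exist_integer_multiples_of_finite (nonZeroDivisors ℤ)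
    fun t => φ (ℓ t)
  choose m hm using hb
  replace hm : ∀ t, (m t : ℚ) = (b : ℤ) * φ (ℓ t) := fun t => (hm t).trans (zsmul_eq_mul _ _)
  refine ⟨m, fun e => mul_ne_zero (Int.cast_ne_zero.2 (nonZeroDivisors.coe_ne_zero b)) hφ ?_,
    fun ρ hρ => Int.cast_injective (α := ℚ) ?_⟩
  · rw [← hm, e, Pi.zero_apply, Int.cast_zero]
  · have h1 := congrArg (fun c => ((b : ℤ) : ℚ) * φ c) hρ
    simp only [map_sum, map_zero, mul_zero, Finset.mul_sum] at h1
    push_cast
    rw [← h1]
    refine Finset.sum_congr rfl fun t _ => ?_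
    rw [hm, mul_comm (ℓ t), ← zsmul_eq_mul (ℓ t), map_zsmul, zsmul_eq_mul]
    ring

omit [CharZero k] in
theorem kill_indep {g : ℕ} {σ : Fin g → ι → k} (hσ : B.LieBasis σ) {τ τ' : Fin g → E}
    (h : (fun a => ∑ l, τ l * algebraMap k E (σ l a)) =
      fun a => ∑ l, τ' l * algebraMap k E (σ l a)) : τ = τ' := by
  refine funext ((Fintype.linearIndependent_iffₛ.1
    ((linearIndependent_algebraMap_comp_iff (S := E)).2 hσ.indep)) τ τ' (funext fun a => ?_))
  simpa only [Finset.sum_apply, Pi.smul_apply, smul_eq_mul, Function.comp_apply] using congrFun h a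

omit [CharZero k] in
/-- A derivation that moves the coordinates into the maximal ideal. -/
theorem kill_loc {g : ℕ} {σ : Fin g → ι → k} (hσ : B.LieBasis σ) {O : Type} [CommRing O]
    [IsLocalRing O] [Algebra k O] {f : O →ₐ[k] E} (hf : Function.Injective f)
    (D : Derivation K E E) {Y : B.Pt E} {v v' : ι → O} (hu : ∃ a, IsUnit (v a))
    (hv : AV.Rep Y fun a => f (v a)) (h1 : ∀ a, f (v' a) = D (f (v a)))
    (h2 : ∀ a, v' a ∈ IsLocalRing.maximalIdeal O) {τ : Fin g → E}
    (h : B.Tang Y.co (fun a => D (Y.co a)) fun a => ∑ l, τ l * algebraMap k E (σ l a)) (l : Fin g) :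
    ∃ c ∈ IsLocalRing.maximalIdeal O, f c = τ l := by
  obtain ⟨p, hp, -⟩ := AV.exists_map_eq hf hu hv
  have h3 := kill_lam h hv
  obtain ⟨z, hz⟩ := AV.exists_tang (v := v') hp fun P hP =>
    aeval_dv_eq_zero_iff.2 ⟨hp.zero P hP, hf (by
      rw [map_dP, map_zero, funext h1]
      exact (aeval_dv_eq_zero_iff.1 (h3.mem P hP)).2)⟩
  obtain ⟨c, hc⟩ := hσ.span O z (hz.isLie hp)
  have key : ∀ {M : Type} [Field M] [Algebra k M] (e : O →ₐ[k] M),
      (fun a => e (z a)) = fun a => ∑ l, e (c l) * algebraMap k M (σ l a) := fun e =>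
    funext fun a => by simp only [hc, map_sum, map_mul, AlgHom.commutes]
  have h4 := hz.map f
  rw [funext h1, key] at h4
  refine ⟨c l, ?_, congrFun (kill_indep hσ (h4.unique hv h3)) l⟩
  let e : O →ₐ[k] IsLocalRing.ResidueField O := IsScalarTower.toAlgHom k O _
  have h5 := hz.map e
  have h6 : (fun a => e (v' a)) = (0 : IsLocalRing.ResidueField O) • fun a => e (v a) :=
    funext fun a => ((IsLocalRing.residue_eq_zero_iff _).2 (h2 a)).trans (zero_mul _).symm
  rw [h6, key] at h5
  have h7 := h5.unique (hp.map e) (AV.tang_self (hp.map e) 0)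
  exact (IsLocalRing.residue_eq_zero_iff _).1
    (congrFun (kill_indep (τ' := 0) hσ (h7.trans (funext fun a => by simp))) l)

theorem kill_core {F : Type} [Field F] [Algebra K F] [Algebra F E] [IsScalarTower K F E]
    (S : Finset F) (hS : IntermediateField.adjoin K (S : Set F) = ⊤) {g s : ℕ} {σ : Fin g → ι → k}
    (hσ : B.LieBasis σ) {Y : B.Pt E} {y : ι → F} (hy : ∀ a, algebraMap F E (y a) = Y.co a)
    {w : Fin s → F} (hw : ∀ t, w t ≠ 0) {m : Fin s → ℤ} (hm : Transcendental K (∏ t, w t ^ m t))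
    (ℓ : Fin g → K) (ℓ' : Fin s → K) (h : ∀ D : Derivation K E E, ∃ τ : Fin g → E,
      B.Tang Y.co (fun a => D (Y.co a)) (fun a => ∑ l, τ l * algebraMap k E (σ l a)) ∧
        ∑ l, algebraMap K E (ℓ l) * τ l + ∑ t, algebraMap K E (ℓ' t) *
          (D (algebraMap F E (w t)) / algebraMap F E (w t)) = 0) :
    ∃ ρ : Fin s → ℤ, ∑ t, ℓ' t * ρ t = 0 ∧ ∑ t, m t * ρ t ≠ 0 := by
  have : CharZero K := charZero_of_injective_algebraMap (algebraMap k K).injective
  have : CharZero F := charZero_of_injective_algebraMap (algebraMap K F).injective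
  obtain ⟨O, D₀, r, h1, h2, h3, h4⟩ := exists_residue S hS hm
  obtain ⟨D, hD⟩ := exists_derivation_ext (F := E) D₀
  obtain ⟨τ, h5, h6⟩ := h D
  have hK : ∀ c : K, O.valuation (algebraMap K F c) ≤ 1 := fun c =>
    (O.valuation_le_one_iff _).2 (h1 c)
  have key : ∀ c : K, O.valuation (algebraMap K F c) < 1 → c = 0 := fun c hc => by
    by_contra h0
    exact hc.ne (res_const hK h0)
  have small : ∀ {n : ℕ} (c : Fin n → K) (z : Fin n → F), (∀ l, O.valuation (z l) < 1) →
      O.valuation (∑ l, algebraMap K F (c l) * z l) < 1 := fun c z hz =>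
    O.valuation.map_sum_lt one_ne_zero fun l _ => by
      rw [map_mul]
      exact (mul_le_of_le_one_left' (hK _)).trans_lt (hz l)
  let _ : Algebra k O := (((algebraMap K F).codRestrict O h1).comp (algebraMap k K)).toAlgebra
  let f : O →ₐ[k] E := ⟨(algebraMap F E).comp O.subtype, fun c =>
    (IsScalarTower.algebraMap_apply K F E _).symm.trans
      (IsScalarTower.algebraMap_apply k K E c).symm⟩
  obtain ⟨b, hb, h7⟩ := exists_scale O.toSubring O.mem_or_inv_mem (v := y)
    ((AV.rep_co Y).unit.imp fun a ha e => ha.ne_zero (by rw [← hy, e, map_zero]))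
  have h8 := kill_loc hσ (f := f) ((algebraMap F E).injective.comp Subtype.val_injective) D
    (v := fun a => ⟨_, h7 a⟩)
    (v' := fun a => ⟨_, (O.valuation_le_one_iff _).1 (h2 _ (h7 a)).le⟩)
    ⟨b, (O.valuation_eq_one_iff _).2 (by
      change O.valuation ((y b)⁻¹ * y b) = 1
      rw [inv_mul_cancel₀ hb, map_one])⟩ (Y := Y) (by
      change AV.Rep Y fun a => algebraMap F E ((y b)⁻¹ * y a)
      simp only [map_mul, hy]
      exact (AV.rep_co Y).smul (IsUnit.mk0 _ ((map_ne_zero _).2 (inv_ne_zero hb))))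
    (fun a => (hD _).symm) (fun a => (O.valuation_lt_one_iff _).2 (h2 _ (h7 a))) h5
  choose c hc hc' using h8
  replace hc' : ∀ l, τ l = algebraMap F E (c l) := fun l => (hc' l).symm
  have h9 : ∑ l, algebraMap K F (ℓ l) * c l + ∑ t, algebraMap K F (ℓ' t) * (D₀ (w t) / w t) = 0 :=
    (algebraMap F E).injective (by
      simpa only [map_add, map_sum, map_mul, map_div₀, map_zero, ← hD, ← hc',
        ← IsScalarTower.algebraMap_apply] using h6)
  refine ⟨fun t => r (w t), key _ ?_, fun e => h4 (Int.cast_eq_zero.1 (key _ ?_))⟩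
  · have e : algebraMap K F (∑ t, ℓ' t * r (w t)) = -(∑ l, algebraMap K F (ℓ l) * c l +
        ∑ t, algebraMap K F (ℓ' t) * (D₀ (w t) / w t - r (w t))) := by
      simp only [mul_sub, Finset.sum_sub_distrib, map_sum, map_mul, map_intCast]
      linear_combination h9
    rw [e, Valuation.map_neg]
    exact O.valuation.map_add_lt (small _ _ fun l => (O.valuation_lt_one_iff _).1 (hc l))
      (small _ _ fun t => h3 _ (hw t))
  · have h0 : ∏ t, w t ^ m t ≠ 0 := Finset.prod_ne_zero_iff.2 fun t _ => zpow_ne_zero _ (hw t)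
    have e1 := kill_prod D₀ Finset.univ (u := fun t => w t ^ m t)
      (t := fun t => m t * (D₀ (w t) / w t)) fun t => by
        rw [D₀.leibniz_zpow, zpow_sub_one₀ (hw t), smul_eq_mul, zsmul_eq_mul]
        ring
    have e2 : algebraMap K F (r (∏ t, w t ^ m t)) =
        ∑ t, algebraMap K F (m t) * (D₀ (w t) / w t - r (w t)) -
          (D₀ (∏ t, w t ^ m t) / ∏ t, w t ^ m t - r (∏ t, w t ^ m t)) := by
      have e3 := congrArg (Int.cast : ℤ → F) e
      push_cast at e3
      simp only [e1, mul_div_cancel_left₀ _ h0, mul_sub, Finset.sum_sub_distrib, map_intCast, e3]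
      ring
    rw [e2]
    exact O.valuation.map_sub_lt (small _ _ fun t => h3 _ (hw t)) (h3 _ h0)

/-- Sketch.  Let `F` be generated over `K` by the `Y.co a` and the `W t`.  A derivation of `F`
extends to `E` (`exists_derivation_ext`), so the hypothesis holds in `F`.  For `O`, `D`, `r` as in
`exists_residue` the point comes from `O` (`AV.map_surjective_of_valuation`), so the `τ l` lie in
the maximal ideal (`map_lamD` for the residue map, independence of `σ`), hence
`∑ t, ℓ' t * r (W t) = 0`.  The vectors `r (W ·)` span `ℚ ^ s`: otherwise an integer vector `m ≠ 0`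
is orthogonal to all of them, but `∏ W t ^ m t` is transcendental over `K`. -/
theorem kill_tor {g s : ℕ} {σ : Fin g → ι → k} (hσ : B.LieBasis σ) (hE : RelCl K E) (Y : B.Pt E)
    {W : Fin s → E} (hW0 : ∀ t, W t ≠ 0)
    (hW : ∀ m : Fin s → ℤ, ∏ t, W t ^ m t ∈ Set.range (algebraMap K E) → m = 0)
    (ℓ : Fin g → K) (ℓ' : Fin s → K) (h : ∀ D : Derivation K E E, ∃ τ : Fin g → E,
      B.Tang Y.co (fun a => D (Y.co a)) (fun a => ∑ l, τ l * algebraMap k E (σ l a)) ∧
        ∑ l, algebraMap K E (ℓ l) * τ l + ∑ t, algebraMap K E (ℓ' t) * (D (W t) / W t) = 0) :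
    ℓ' = 0 := by
  classical
  have : CharZero K := charZero_of_injective_algebraMap (algebraMap k K).injective
  by_contra h0
  obtain ⟨m, hm, h1⟩ := kill_int h0
  let F := IntermediateField.adjoin K (Set.range (Sum.elim Y.co W))
  let y : ι ⊕ Fin s → F := fun j => ⟨_, IntermediateField.subset_adjoin K _ ⟨j, rfl⟩⟩
  obtain ⟨ρ, h2, h3⟩ := kill_core (F := F) (Finset.univ.image y) (F.lift_injective (by
      rw [IntermediateField.lift_adjoin, IntermediateField.lift_top, Finset.coe_image,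
        Finset.coe_univ, Set.image_univ, ← Set.range_comp]
      rfl)) hσ (Y := Y) (y := fun a => y (.inl a)) (fun _ => rfl) (w := fun t => y (.inr t))
    (fun t e => hW0 t (congrArg Subtype.val e)) (m := m) (fun e => hm (hW m (hE _ (by
      have e' := e.algebraMap (A := E)
      rwa [map_prod, Finset.prod_congr rfl fun t _ => map_zpow₀ _ _ _] at e')))) ℓ ℓ' h
  exact h3 (h1 ρ h2)

/-- Sketch.  `tang_sgr` for `AV.lam_tang`, `GV.Tang.unique` (through `GV.lam`, which does not depend
on the coordinates), `Fin.sum_univ_add`, then `kill_tor` and `kill_ab`. -/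
theorem IsProd.noKill {s : ℕ} {G : GV k (SI ι s)} (h : IsProd B G) {σ : Fin B.dim → ι → k}
    (hσ : B.LieBasis σ) (hE : RelCl K E) {Y : B.Pt E} (hY : B.Gens K Y) {W : Fin s → E}
    (hW : ∀ m : Fin s → ℤ, ∏ t, W t ^ m t ∈ Set.range (algebraMap K E) → m = 0)
    {Z : G.Pt E} (hZ : GV.Rep Z (sgr Y.co W)) : GV.NoKill K (prs s B.o σ) Z := by
  intro ℓ hℓ
  have hW0 : ∀ t, W t ≠ 0 := fun t => (h.isUnit_of_rep hZ t).ne_zero
  have key : ∀ D : Derivation K E E, ∃ τ : Fin B.dim → E,
      B.Tang Y.co (fun a => D (Y.co a)) (fun a => ∑ l, τ l * algebraMap k E (σ l a)) ∧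
        ∑ l, algebraMap K E (ℓ (Fin.castAdd s l)) * τ l +
          ∑ t, algebraMap K E (ℓ (Fin.natAdd _ t)) * (D (W t) / W t) = 0 := by
    intro D
    obtain ⟨τ, h1, h2⟩ := hℓ D
    have h3 := AV.lam_tang (D.restrictScalars k) (AV.rep_co Y)
    have h4 := h.tang_sgr h3 W fun t => D (W t) / W t
    have h5 := GV.lam_tang (D.restrictScalars k) hZ
    rw [(GV.lam_tang (D.restrictScalars k) (GV.rep_co Z)).unique (GV.rep_co Z) h1] at h5
    have h6 : (fun a => D.restrictScalars k (sgr Y.co W a)) = fun a => ch W a.2 *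
        (D.restrictScalars k (Y.co a.1) + (∑ j, if a.2 j then D (W j) / W j else 0) * Y.co a.1) := by
      funext a
      have e := kill_prod D Finset.univ (u := fun j => if a.2 j then W j else 1)
        (t := fun j => if a.2 j then D (W j) / W j else 0) fun j => by
          split_ifs
          · rw [mul_div_cancel₀ _ (hW0 j)]
          · rw [D.map_one_eq_zero, mul_zero]
      change D (ch W a.2 * Y.co a.1) = ch W a.2 * (D (Y.co a.1) + _)
      rw [D.leibniz, ch, e, smul_eq_mul, smul_eq_mul]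
      ring
    rw [h6] at h5
    have h7 := congrFun (h5.unique hZ h4)
    simp only [Fin.sum_univ_add, prs, Fin.addCases_left, Fin.addCases_right] at h7
    have h8 : (fun a => ∑ l, τ (Fin.castAdd s l) * algebraMap k E (σ l a)) =
        AV.lam (D.restrictScalars k) Y := funext fun a => by simpa using h7 (a, fun _ => false)
    have h9 : ∀ t, τ (Fin.natAdd _ t) = D (W t) / W t := fun t => by
      simpa [← h8, B.o_ao, apply_ite (algebraMap k E)] using h7 (B.ao, fun j => decide (j = t))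
    refine ⟨fun l => τ (Fin.castAdd s l), h8 ▸ h3, ?_⟩
    rw [← h2, Fin.sum_univ_add]
    simp only [h9]
  have h1 := kill_tor hσ hE Y hW0 hW _ _ key
  have h2 := kill_ab hσ hY (fun l => ℓ (Fin.castAdd s l)) fun D => (key D).imp fun τ hτ =>
    ⟨hτ.1, by simpa [show ∀ t, ℓ (Fin.natAdd _ t) = 0 from congrFun h1] using hτ.2⟩
  exact funext (Fin.addCases (congrFun h2) (congrFun h1))

end Pool.Agent.Lib.MP_8865d3_nt.Sv
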