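import Pool.Agent.Lib.MP_8865d3_nt.Sv.Tr
import Pool.Agent.Lib.MP_651af7_nt.Av.Noe

/-! Noether normalisation with prescribed parameters. -/

namespace Pool.Agent.Lib.MP_8865d3_nt.Sv

open MvPolynomial Pool.Agent.Lib.MP_651af7_nt.Av

namespace GV

variable {k ι : Type} [Field k] [CharZero k] [Fintype ι] (B : GV k ι) (K : Type) [Field K]
  [Algebra k K]

/-- The common zeros of `S` on `B` have codimension at least `n`. -/
def Cod (S : Set (MvPolynomial ι K)) (n : ℕ) : Prop :=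
  ∀ (F : Type) [Field F] [Algebra k F] [Algebra K F] [IsScalarTower k K F] (w : ι → F), w ≠ 0 →
    (∀ f ∈ B.I, aeval w f = 0) → (∀ f ∈ S, aeval w f = 0) → td K (rat w) + (n : ℕ) ≤ B.dim

variable {B K}

omit [CharZero k] [Fintype ι] in
theorem zero_IK_iff {F : Type} [Field F] [Algebra k F] [Algebra K F] [IsScalarTower k K F]
    {w : ι → F} : B.IK K ≤ RingHom.ker (aeval w : MvPolynomial ι K →ₐ[K] F) ↔
      ∀ f ∈ B.I, aeval w f = 0 := by
  rw [IK, Ideal.map_le_iff_le_comap]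
  refine forall₂_congr fun f _ => ?_
  rw [Ideal.mem_comap, RingHom.mem_ker, aeval_map_algebraMap]

omit [CharZero k] [Fintype ι] in
theorem Cod.prime {S : Set (MvPolynomial ι K)} {n : ℕ} (h : B.Cod K S n)
    {P : Ideal (MvPolynomial ι K)} (hP : B.IK K ⊔ Ideal.span S ≤ P) {a : ι} (ha : X a ∉ P)
    {F : Type} [Field F] [Algebra k F] [Algebra K F] [IsScalarTower k K F] {x : ι → F}
    (hx : ∀ f : MvPolynomial ι K, aeval x f = 0 ↔ f ∈ P) : td K (rat x) + (n : ℕ) ≤ B.dim := by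
  refine h F x (fun h0 => ha ((hx _).1 (by rw [aeval_X, h0]; rfl)))
    (zero_IK_iff.1 fun f hf => (hx f).2 (hP (Ideal.mem_sup_left hf)))
    fun f hf => (hx f).2 (hP (Ideal.mem_sup_right (Ideal.subset_span hf)))

omit [CharZero k] in
theorem Cod.exists_notMem {S : Set (MvPolynomial ι K)} {n : ℕ} (h : B.Cod K S (n + 1)) :
    ∃ f ∈ S, f ∉ B.IK K := by
  by_contra! hc
  obtain ⟨M, _, _, _, _, x, hx, hx0, hd, -⟩ := B.tr_gen K
  have h1 := h M x (Function.ne_iff.2 ⟨_, hx0⟩) (zero_IK_iff.1 fun f hf => (hx f).2 hf)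
    fun f hf => (hx f).2 (hc f hf)
  rw [hd] at h1
  have h2 : B.dim + (n + 1) ≤ B.dim := by exact_mod_cast h1
  omega

/-- One more parameter. -/
theorem Cod.step {S : Set (MvPolynomial ι K)} {n e : ℕ} (h : B.Cod K S n)
    {G : Finset (MvPolynomial ι K)} (hG : ∀ f ∈ G, f.IsHomogeneous e)
    (h' : B.Cod K G (n + 1)) : ∃ γ : MvPolynomial ι K → ℚ,
      B.Cod K (insert (∑ f ∈ G, C ((γ f : ℚ) : K) * f) S) (n + 1) ∧
        ∑ f ∈ G, C ((γ f : ℚ) : K) * f ∉ B.IK K := by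
  classical
  have : CharZero K := charZero_of_injective_algebraMap (algebraMap k K).injective
  have : Finite {P // P ∈ insert (B.IK K) (B.IK K ⊔ Ideal.span S).minimalPrimes ∧
      ∃ f ∈ G, f ∉ P} :=
    ((((B.IK K ⊔ Ideal.span S).finite_minimalPrimes_of_isNoetherianRing _).insert _).subset
      fun P hP => hP.1).to_subtype
  obtain ⟨γ, hγ⟩ := Submodule.exists_forall_notMem_of_forall_ne_top
    (K := ℚ) (M := MvPolynomial ι K → ℚ)
    (fun P : {P // P ∈ insert (B.IK K) (B.IK K ⊔ Ideal.span S).minimalPrimes ∧ ∃ f ∈ G, f ∉ P} =>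
      { carrier := {γ | ∑ f ∈ G, C ((γ f : ℚ) : K) * f ∈ P.1}
        add_mem' := fun {x y} hx hy => by
          have := P.1.add_mem hx hy
          simpa [Finset.sum_add_distrib, add_mul] using this
        zero_mem' := by simp
        smul_mem' := fun c x hx => by
          have := P.1.mul_mem_left (C (c : K)) hx
          simpa [Finset.mul_sum, mul_assoc] using this })
    (fun P hP => by
      obtain ⟨f, hf, hfP⟩ := P.2.2
      have h1 : (Pi.single f 1 : MvPolynomial ι K → ℚ) ∈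
        (⊤ : Submodule ℚ (MvPolynomial ι K → ℚ)) := trivial
      rw [← hP] at h1
      change ∑ f' ∈ G, C (((Pi.single f 1 : MvPolynomial ι K → ℚ) f' : ℚ) : K) * f' ∈ P.1 at h1
      rw [Finset.sum_eq_single_of_mem f hf fun b _ hb => by simp [Pi.single_eq_of_ne hb]] at h1
      exact hfP (by simpa using h1))
  refine ⟨γ, fun F _ _ _ _ w hw hI hS => ?_, hγ ⟨_, Set.mem_insert _ _, h'.exists_notMem⟩⟩
  have : (RingHom.ker (aeval w : MvPolynomial ι K →ₐ[K] F)).IsPrime := RingHom.ker_isPrime _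
  obtain ⟨P, hP, hle⟩ := Ideal.exists_minimalPrimes_le
    (I := B.IK K ⊔ Ideal.span S) (J := RingHom.ker (aeval w : MvPolynomial ι K →ₐ[K] F))
    (sup_le (zero_IK_iff.2 hI) (Ideal.span_le.2 fun f hf => hS f (Set.mem_insert_of_mem _ hf)))
  by_cases hc : ∃ f ∈ G, f ∉ P
  · have := hP.1.1
    obtain ⟨F', _, _, _, _, x, hx⟩ := exists_genpt k P
    obtain ⟨a, ha⟩ := Function.ne_iff.mp hw
    have h1 := h.prime hP.1.2 (a := a) (fun hX => ha (by simpa using hle hX)) hx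
    obtain ⟨-, h2⟩ := td_rat_le_of_spec (K := K) (x := x) hw fun f _ _ hf => hle ((hx f).1 hf)
    have h3 : td K (rat w) < td K (rat x) := lt_of_not_ge fun h4 =>
      hγ ⟨P, Set.mem_insert_of_mem _ hP, hc⟩ ((hx _).1 (h2 h4 _ e
        (IsHomogeneous.sum _ _ _ fun f hf => (hG f hf).C_mul _) (hS _ (Set.mem_insert _ _))))
    refine le_trans ?_ h1
    push_cast
    rw [add_comm (n : ℕ∞) 1, ← add_assoc]
    exact add_le_add_left (Order.add_one_le_of_lt h3) _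
  · exact h' F w hw hI fun f hf => hle (by_contra fun hn => hc ⟨f, hf, hn⟩)

variable (B K)

/-- The parameter `u i` is a rational combination of the forms of the finite set `𝒢 i`; the
codimensions of the zero sets may come in any order. -/
theorem exists_nn_perm {e : ℕ} (he : 1 ≤ e) (π : Equiv.Perm (Fin (B.dim + 1)))
    (𝒢 : Fin (B.dim + 1) → Finset (MvPolynomial ι K))
    (h𝒢 : ∀ i, ∀ f ∈ 𝒢 i, f.IsHomogeneous e)
    (hd : ∀ (i : Fin (B.dim + 1)) (F : Type) [Field F] [Algebra k F] [Algebra K F]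
      [IsScalarTower k K F] (w : ι → F), w ≠ 0 → (∀ f ∈ B.I, aeval w f = 0) →
      (∀ f ∈ 𝒢 i, aeval w f = 0) → td K (rat w) + ((π i : ℕ) + 1 : ℕ) ≤ B.dim) :
    ∃ (γ : Fin (B.dim + 1) → MvPolynomial ι K → ℚ) (ρ : ℕ)
      (c : ι → Fin ρ → MvPolynomial (Fin (B.dim + 1)) K),
      NN (B.IK K) e ρ (fun i => ∑ f ∈ 𝒢 i, C ((γ i f : ℚ) : K) * f) c ∧
        ∀ i, ∑ f ∈ 𝒢 i, C ((γ i f : ℚ) : K) * f ∉ B.IK K := by
  classical
  have key : ∀ n, n ≤ B.dim + 1 → ∃ γ : Fin (B.dim + 1) → MvPolynomial ι K → ℚ,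
      B.Cod K ((fun i => ∑ f ∈ 𝒢 i, C ((γ i f : ℚ) : K) * f) '' {i | (π i : ℕ) < n}) n ∧
        ∀ i, (π i : ℕ) < n → ∑ f ∈ 𝒢 i, C ((γ i f : ℚ) : K) * f ∉ B.IK K := by
    intro n
    induction n with
    | zero =>
      exact fun _ => ⟨0, fun F _ _ _ _ w _ hI _ => by simpa using B.td_le_dim hI, by simp⟩
    | succ n ih =>
      intro hn
      obtain ⟨γ, hγ, hγ'⟩ := ih (by omega)
      have hj : (π (π.symm ⟨n, hn⟩) : ℕ) = n := by rw [Equiv.apply_symm_apply]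
      generalize π.symm ⟨n, hn⟩ = j at hj
      obtain ⟨γ₀, h0, h0'⟩ := hγ.step (h𝒢 j) fun F _ _ _ _ w hw hI hS => hj ▸ hd j F w hw hI hS
      refine ⟨Function.update γ j γ₀, fun F _ _ _ _ w hw hI hS => h0 F w hw hI ?_, fun i hi => ?_⟩
      · rintro f (rfl | ⟨i, hi, rfl⟩)
        · exact hS _ ⟨j, by simp [hj], by simp⟩
        · have hi' : (π i : ℕ) < n := hi
          have hne : i ≠ j := fun h => by subst h; omega
          exact hS _ ⟨i, Nat.lt_succ_of_lt hi', by simp [Function.update_of_ne hne]⟩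
      · rcases eq_or_ne i j with rfl | hne
        · rwa [Function.update_self]
        · rw [Function.update_of_ne hne]
          have : (π i : ℕ) ≠ π j := fun h => hne (π.injective (Fin.ext h))
          exact hγ' i (by omega)
  obtain ⟨γ, hγ, hγ'⟩ := key _ le_rfl
  suffices h : ∃ ρ c, NN (B.IK K) e ρ (fun i => ∑ f ∈ 𝒢 i, C ((γ i f : ℚ) : K) * f) c from
    ⟨γ, h.choose, h.choose_spec.choose, h.choose_spec.choose_spec, fun i => hγ' i (π i).2⟩
  refine nn_of_radical B.IK_hom he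
    (fun i => IsHomogeneous.sum _ _ _ fun f hf => (h𝒢 i f hf).C_mul _) fun a => ?_
  rw [Ideal.radical_eq_sInf, Submodule.mem_sInf]
  rintro P ⟨hP, _⟩
  obtain ⟨F, _, _, _, _, x, hx⟩ := exists_genpt k P
  by_contra ha
  have h1 := hγ.prime ((sup_le_sup_left (Ideal.span_mono (Set.image_subset_range _ _)) _).trans
    hP) ha hx
  have h2 : ((B.dim + 1 : ℕ) : ℕ∞) ≤ B.dim := le_add_self.trans h1
  have h3 := ENat.natCast_le_natCast.mp h2
  omega

/-- The parameter `u i` is a rational combination of the forms of the finite set `𝒢 i`. -/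
theorem exists_nn {e : ℕ} (he : 1 ≤ e) (𝒢 : Fin (B.dim + 1) → Finset (MvPolynomial ι K))
    (h𝒢 : ∀ i, ∀ f ∈ 𝒢 i, f.IsHomogeneous e)
    (hd : ∀ (i : Fin (B.dim + 1)) (F : Type) [Field F] [Algebra k F] [Algebra K F]
      [IsScalarTower k K F] (w : ι → F), w ≠ 0 → (∀ f ∈ B.I, aeval w f = 0) →
      (∀ f ∈ 𝒢 i, aeval w f = 0) → td K (rat w) + ((i : ℕ) + 1 : ℕ) ≤ B.dim) :
    ∃ (γ : Fin (B.dim + 1) → MvPolynomial ι K → ℚ) (ρ : ℕ)
      (c : ι → Fin ρ → MvPolynomial (Fin (B.dim + 1)) K),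
      NN (B.IK K) e ρ (fun i => ∑ f ∈ 𝒢 i, C ((γ i f : ℚ) : K) * f) c ∧
        ∑ f ∈ 𝒢 0, C ((γ 0 f : ℚ) : K) * f ∉ B.IK K := by
  obtain ⟨γ, ρ, c, h, h'⟩ := exists_nn_perm B K he 1 𝒢 h𝒢 hd
  exact ⟨γ, ρ, c, h, h' 0⟩

end GV

end Pool.Agent.Lib.MP_8865d3_nt.Sv
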