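import Pool.Agent.Lib.MP_8865d3_nt.Sv.Los
import Pool.Agent.Lib.MP_8865d3_nt.Sv.Eng
import Pool.Agent.Lib.MP_8865d3_nt.Sv.Noe
import Pool.Agent.Lib.MP_8865d3_nt.Sv.Kill
import Pool.Agent.Lib.MP_8865d3_nt.Sv.Cone
import Pool.Agent.Lib.MP_8865d3_nt.Sv.Sz
import Pool.Agent.Lib.MP_651af7_nt.Av.Seq

/-! The contradiction along an ultrafilter on a fixed product. -/

namespace Pool.Agent.Lib.MP_8865d3_nt.Sv

open MvPolynomial Filter Height Pool.Agent.Lib.MP_651af7_nt.Av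

variable {α : Type} {U : Ultrafilter α} {k ι : Type} [Field k] [NumberField k] [Fintype ι] {s : ℕ}

omit [NumberField k] in
theorem nm_mul_left (v : AbsoluteValue k ℝ) (c : k) (x : ι → k) :
    nm v (fun a => c * x a) = v c * nm v x := iSup_mul_left v c x

theorem BadT.smul {g : ℕ} {T : Finset (AbsoluteValue k ℝ)} {md : Option (AbsoluteValue k ℝ)} {e : ℕ}
    {η : ℝ} {u : Fin (g + 1) → MvPolynomial ι k} (hu : ∀ i, (u i).IsHomogeneous e) {x : ι → k}
    (hx : x ≠ 0) {c : k} (hc : c ≠ 0) (h : BadT T md e η u x) :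
    BadT T md e η u fun a => c * x a := by
  cases md with
  | none =>
    obtain ⟨h0, h1⟩ := h
    have e1 : ![eval (fun a => c * x a) (u 0), eval (fun a => c * x a) (u 1)] =
        fun i => c ^ e * ![eval x (u 0), eval x (u 1)] i := by
      funext i
      fin_cases i <;> simp [eval_mul_of_hom (hu _)]
    refine ⟨?_, ?_⟩
    · rw [e1]
      exact fun h => h0 (funext fun i =>
        (mul_eq_zero.1 (congrFun h i)).resolve_left (pow_ne_zero e hc))
    · rw [e1, logHeight_mul_left hc]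
      refine h1.trans (le_of_eq ?_)
      congr 1
      funext v
      rw [nm_mul_left, nm_mul_left, Real.log_mul (v.pos hc).ne' (nm_pos v hx).ne',
        Real.log_mul (v.pos (pow_ne_zero e hc)).ne' (nm_pos v h0).ne', map_pow, Real.log_pow]
      ring
  | some v => exact ⟨h.1, Bad.smul (md := some v) hu hc h.2⟩

theorem GV.seq_core (B : GV k (SI ι s)) (hB : Tor B) {g : ℕ} {ϱ : SI ι s → MvPowerSeries (Fin g) k}
    (hϱ : B.Par g ϱ) (y : α → B.Pt k) (hH : Tendsto (fun n => GV.ht (y n)) U atTop)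
    {Y : B.Pt (Up U k)} (hY : GV.IsGerm U Y y) (hg : GV.NoKill (Sm k hH) (lin ϱ) Y)
    (T : α → Finset (AbsoluteValue k ℝ)) {w : α → Fin s → k} (hw : ∀ n, Seg (y n).co (w n))
    (hdf : Fib U T (fun n => GV.ht (y n)) fun n => df (T n) (w n))
    (hcone : ∀ (V : Ultrafilter α) (t : Finset (AbsoluteValue k ℝ)),
      Tendsto (fun n => GV.ht (y n)) V atTop → Lo V (fun n => GV.ht (y n)) (fun n => df t (w n)) →
      ∀ θ : ℝ, 0 < θ → ∃ S ∈ V, ∀ n ∈ S, ∀ n' ∈ S, GV.ht (y n) ≤ GV.ht (y n') →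
        ∃ j, Close t θ j (y n) (y n') (w n) (w n'))
    {e ρ : ℕ} (he : 1 ≤ e) {u : Fin (g + 1) → MvPolynomial (SI ι s) (Sm k hH)}
    {c : SI ι s → Fin ρ → MvPolynomial (Fin (g + 1)) (Sm k hH)}
    (hnn : NN (B.IK (Sm k hH)) e ρ u c) {un : α → Fin (g + 1) → MvPolynomial (SI ι s) k}
    (hu : ∀ i, Repr U (MvPolynomial.map (algebraMap _ (Up U k)) (u i)) fun n => un n i)
    {md : Option (AbsoluteValue k ℝ)} (hmd : Mode g md) {η : ℝ} (hη : 0 < η)
    (hbad : ∀ᶠ n in U, BadT (T n) md e η (un n) (y n).co) : False := by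
  obtain ⟨r, B₀, δ, b, hδ, hb, hgood, hex⟩ := B.exists_blk y hH hY hg hnn hu
  obtain ⟨m, B', θ, ζ, ε₀, hθ, hζ, hε₀, heng⟩ := B.engine hB hϱ r ρ B₀ he hδ hη hmd
  obtain ⟨δ', hδ', hex'⟩ := hex B'
  have hε : 0 < min ε₀ (δ' / (B' + 1)) := lt_min hε₀ (by positivity)
  obtain ⟨W, hW⟩ := heng _ hε (min_le_left _ _)
  obtain ⟨V, t, hV, ht, hHV, hlo⟩ := hdf _ (((hgood _ hε).and hex').and hbad)
  have hlo' : Lo V (fun n => GV.ht (y n)) fun n => df t (w n) :=
    hlo.mono (ht.mono fun n hn => by rw [hn])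
  obtain ⟨S, hS, hcone⟩ := hcone V t hHV hlo' θ hθ
  have hall : ∀ᶠ n in V, ((b n).Good (lin ϱ) B₀ e (min ε₀ (δ' / (B' + 1))) δ ∧
      ¬(b n).Exit B' (δ' * GV.ht (y n))) ∧ BadT t md e η (un n) (y n).co ∧ (W ≤ GV.ht (y n) ∧
        df t (w n) ≤ min ε₀ (δ' / (B' + 1)) * GV.ht (y n)) ∧ n ∈ S := by
    filter_upwards [hV, ht, hHV.eventually_ge_atTop W, hlo' _ hε, hS] with n h1 h2 h3 h4 h5
    exact ⟨h1.1, h2 ▸ h1.2, ⟨h3, h4⟩, h5⟩
  obtain ⟨f, hf, hsep⟩ := exists_chain hHV hall hζ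
  let ix : Option (Fin m) → ℕ := fun o => o.elim 0 fun i => i + 1
  have hix : Function.Injective ix := by
    rintro (_ | i) (_ | i') h
    · rfl
    · simp [ix] at h
    · simp [ix] at h
    · simp only [ix, Option.elim_some, add_left_inj] at h
      rw [Fin.ext h]
  choose j hj using fun i : Fin m => hcone (f 0) (hf 0).2.2.2 (f (i + 1)) (hf (i + 1)).2.2.2
    (hsep 0 (i + 1) (Nat.succ_pos _)).1
  obtain ⟨o, q, h0, h1, h2, h3, h4⟩ := hW t (fun o => b (f (ix o))) (fun o => w (f (ix o))) j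
    (fun o => (hf _).1.1) (fun o => by rw [(hb _).1]; exact (hf _).2.2.1.1)
    (fun o o' h => by
      simp only [(hb _).1]
      rcases lt_or_gt_of_ne (hix.ne h) with h | h
      · exact Or.inl (hsep _ _ h).2
      · exact Or.inr (hsep _ _ h).2)
    (fun o => by
      obtain ⟨c, hc⟩ := (hf (ix o)).1.1.rep
      rw [funext hc, (hb _).1]
      exact (hw _).smul _)
    (fun o => by rw [(hb _).1]; exact (hf _).2.2.1.2)
    (fun i => by rw [(hb _).1, (hb _).1]; exact hj i)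
    (fun i => by
      have hG := (hf (ix (some i))).1.1
      obtain ⟨c, hc⟩ := hG.rep
      obtain ⟨a, ha⟩ := (GV.rep_co (y (f (ix (some i))))).unit
      rw [funext hc, (hb _).1]
      refine BadT.smul hG.nn.hu (Function.ne_iff.2 ⟨a, ha.ne_zero⟩) c.ne_zero ?_
      rw [(hb _).2]
      exact (hf _).2.1)
  refine (hf (ix o)).1.2 ⟨q, h0, h1, h2, h3.trans (Real.exp_le_exp.2 ?_), h4⟩
  rw [(hb _).1]
  refine mul_le_mul_of_nonneg_right ?_ (GV.ht_nonneg _)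
  calc (B' : ℝ) * min ε₀ (δ' / (B' + 1)) ≤ (B' + 1) * (δ' / (B' + 1)) := by
        gcongr
        · linarith
        · exact min_le_right _ _
    _ = δ' := by field_simp

/-- The contradiction from families of forms on the product. -/
theorem IsProd.finish {B : AV k ι} {G : GV k (SI ι s)} (h : IsProd B G) {H : α → ℝ}
    (hH : Tendsto H U atTop) {y : α → B.Pt k} {w : α → Fin s → k} (hw : ∀ n t, w n t ≠ 0)
    (h1 : Bo U H fun n => hp (y n) (w n)) (h2 : Bo U (fun n => hp (y n) (w n)) H)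
    {Y : B.Pt (Up U k)} (hY : IsGerm U Y y) (hg : B.Gens (Sm k hH) Y)
    (hW : ∀ m : Fin s → ℤ, ∏ t, (germ U fun n => w n t) ^ m t ∈
      Set.range (algebraMap (Sm k hH) (Up U k)) → m = 0)
    (T : α → Finset (AbsoluteValue k ℝ)) (hdf : Fib U T H fun n => df (T n) (w n))
    {e : ℕ} (he : 1 ≤ e) (𝒢 : Fin (G.dim + 1) → Finset (MvPolynomial (SI ι s) (Sm k hH)))
    (h𝒢 : ∀ i, ∀ f ∈ 𝒢 i, f.IsHomogeneous e)
    (hd : ∀ (i : Fin (G.dim + 1)) (F : Type) [Field F] [Algebra k F] [Algebra (Sm k hH) F]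
      [IsScalarTower k (Sm k hH) F] (x : SI ι s → F), x ≠ 0 → (∀ f ∈ G.I, aeval x f = 0) →
      (∀ f ∈ 𝒢 i, aeval x f = 0) → td (Sm k hH) (rat x) + ((i : ℕ) + 1 : ℕ) ≤ G.dim)
    {md : Option (AbsoluteValue k ℝ)} (hmd : Mode G.dim md) {η : ℝ} (hη : 0 < η)
    (hbad : ∀ (γ : Fin (G.dim + 1) → MvPolynomial (SI ι s) (Sm k hH) → ℚ)
      (un : α → Fin (G.dim + 1) → MvPolynomial (SI ι s) k),
      ∑ f ∈ 𝒢 0, C ((γ 0 f : ℚ) : Sm k hH) * f ∉ G.IK (Sm k hH) →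
      (∀ i, Repr U (MvPolynomial.map (algebraMap _ (Up U k))
        (∑ f ∈ 𝒢 i, C ((γ i f : ℚ) : Sm k hH) * f)) fun n => un n i) →
      ∀ᶠ n in U, BadT (T n) md e η (un n) (sgr (y n).co (w n))) : False := by
  choose z hz using fun n => h.exists_pt (AV.rep_co (y n)) fun t => (hw n t).isUnit
  have hht : ∀ n, GV.ht (z n) = hp (y n) (w n) := fun n => (h.ht_rep (AV.rep_co _) (hz n)).1
  simp only [← hht] at h1 h2
  have hH' := tendsto_of_bo hH h2 fun n => GV.ht_nonneg _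
  have hdf' := hdf.of_bo h2 fun n => GV.ht_nonneg _
  obtain ⟨γ, ρ, c, hnn, h0⟩ := G.exists_nn (Sm k hH) he 𝒢 h𝒢 hd
  choose un hun using fun i => exists_repr (U := U) (MvPolynomial.map (algebraMap _ (Up U k))
    (∑ f ∈ 𝒢 i, C ((γ i f : ℚ) : Sm k hH) * f))
  have hb := hbad γ (fun n i => un i n) h0 hun
  obtain ⟨Z, hZ⟩ := GV.exists_isGerm U z
  have hZ' : GV.Rep Z (sgr Y.co fun t => germ U fun n => w n t) := by
    obtain ⟨t, ht⟩ := AV.Rep.exists_smul hY (AV.rep_co Y)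
    have h3 := (hZ.rep (.of_forall hz)).smul t.isUnit
    convert h3 using 2 with a
    rw [sgr, ht, mul_left_comm]
    congr 1
    have h4 := map_ch (germ U) (fun t n => w n t) a.2
    rw [← h4, ← map_mul]
    congr 1
    funext n
    exact congrArg (· * _) (map_ch (Pi.evalRingHom (fun _ : α => k) n) (fun t n => w n t) a.2)
  obtain ⟨ϱ, hϱ⟩ := B.exists_par (B.dense_of_gens hg fun f n hf h =>
    (AV.aeval_germ_co hY hf).2 (.of_forall fun l => h _))
  have h3 : ∃ ϱ' : SI ι s → MvPowerSeries (Fin G.dim) k,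
      G.Par G.dim ϱ' ∧ GV.NoKill (Sm k hH) (lin ϱ') Z := by
    rw [h.dim_eq]
    obtain ⟨ϱ', h3, h4⟩ := h.exists_par hϱ
    exact ⟨ϱ', h3, h4 ▸ h.noKill hϱ.basis (relCl_sm hH).2 hg hW hZ'⟩
  obtain ⟨ϱ', hϱ', hk⟩ := h3
  have hb' : ∀ᶠ n in U, BadT (T n) md e η (fun i => un i n) (z n).co := by
    have h4 : ∀ᶠ n in U, ∀ i, (un i n).support ⊆ _ := eventually_all.2 fun i => (hun i).supp'
    filter_upwards [hb, h4] with n h3 h4
    obtain ⟨t, ht⟩ := (hz n).exists_smul (GV.rep_co _)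
    obtain ⟨a, ha⟩ := (hz n).unit
    rw [funext ht]
    exact BadT.smul (fun i d hd => hnn.hu i (mem_support_iff.1 (h4 i (mem_support_iff.2 hd))))
      (Function.ne_iff.2 ⟨a, ha.ne_zero⟩) t.ne_zero h3
  have hK := sm_congr' (k := k) hH hH' h2 h1
  generalize Sm k hH = K at *
  subst hK
  exact G.seq_core h.toTor hϱ' z hH' hZ hk T (fun n => (h.ht_rep (AV.rep_co _) (hz n)).2.2) hdf'
    (fun V t h3 h4 θ hθ => h.cone t y w z hz h3 h4 hθ) he hnn (un := fun n i => un i n) hun hmd hη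
    hb'

end Pool.Agent.Lib.MP_8865d3_nt.Sv
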