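import Pool.Agent.Lib.MP_8865d3_nt.Sv.CodA

/-! Lifting forms to the Segre coordinates. -/

namespace Pool.Agent.Lib.MP_8865d3_nt.Sv

open MvPolynomial Pool.Agent.Lib.MP_651af7_nt.Av

set_option linter.unusedSectionVars false

variable {k ι K F : Type} [Field k] [Fintype ι] [Field K] [Field F] [Algebra K F] {s : ℕ}

theorem fam_lift_ms (m : Multiset ι) : ∀ n : Fin s → ℕ, (∀ t, n t ≤ m.card) →
    ∃ f : MvPolynomial (SI ι s) K, f.IsHomogeneous m.card ∧
      ∀ (R : Type) [CommRing R] [Algebra K R] (x : ι → R) (p q : Fin s → R),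
        aeval (sgp x p q) f = (m.map x).prod * ∏ t, p t ^ (m.card - n t) * q t ^ n t := by
  induction m using Multiset.induction_on with
  | empty =>
    refine fun n hn => ⟨1, isHomogeneous_one _ _, fun R _ _ x p q => ?_⟩
    have h : ∀ t, n t = 0 := fun t => Nat.le_zero.1 (hn t)
    simp [h]
  | cons a m ih =>
    intro n hn
    rw [Multiset.card_cons] at hn ⊢
    obtain ⟨f, hf, h⟩ := ih (fun t => min (n t) m.card) fun t => min_le_right _ _
    refine ⟨f * X (a, fun t => decide (m.card < n t)), hf.mul (isHomogeneous_X _ _),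
      fun R _ _ x p q => ?_⟩
    have e : ∏ t, p t ^ (m.card + 1 - n t) * q t ^ n t =
        (∏ t, p t ^ (m.card - min (n t) m.card) * q t ^ min (n t) m.card) *
          ∏ t, if decide (m.card < n t) then q t else p t := by
      rw [← Finset.prod_mul_distrib]
      refine Finset.prod_congr rfl fun t _ => ?_
      rcases Nat.lt_or_ge m.card (n t) with h1 | h1
      · rw [if_pos (decide_eq_true h1), min_eq_right h1.le, le_antisymm (hn t) h1, Nat.sub_self,
          Nat.sub_self, pow_succ, mul_assoc]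
      · rw [if_neg (by simpa using h1), min_eq_left h1, Nat.sub_add_comm h1, pow_succ]
        ring
    rw [map_mul, aeval_X, h, Multiset.map_cons, Multiset.prod_cons, sgp, e]
    ring

/-- A form of degree `e` times a monomial with exponents at most `e` is a form in the Segre
coordinates. -/
theorem fam_lift {P : MvPolynomial ι K} {e : ℕ} (hP : P.IsHomogeneous e) {n : Fin s → ℕ}
    (hn : ∀ t, n t ≤ e) : ∃ f : MvPolynomial (SI ι s) K, f.IsHomogeneous e ∧
      ∀ (R : Type) [CommRing R] [Algebra K R] (x : ι → R) (p q : Fin s → R),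
        aeval (sgp x p q) f = aeval x P * ∏ t, p t ^ (e - n t) * q t ^ n t := by
  induction hP using IsWeightedHomogeneous.induction_on with
  | zero => exact ⟨0, isHomogeneous_zero _ _ _, fun R _ _ x p q => by simp⟩
  | add P Q _ _ hP hQ =>
    obtain ⟨f, hf, h⟩ := hP
    obtain ⟨g, hg, h'⟩ := hQ
    exact ⟨f + g, hf.add hg, fun R _ _ x p q => by rw [map_add, map_add, h, h', add_mul]⟩
  | monomial m r hm =>
    have h1 : (Finsupp.toMultiset m).card = e := by
      rw [← hm, Finsupp.card_toMultiset, Finsupp.weight_apply]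
      simp only [Pi.one_apply, smul_eq_mul, mul_one]
      rfl
    obtain ⟨f, hf, h⟩ := fam_lift_ms (K := K) (Finsupp.toMultiset m) n (h1 ▸ hn)
    rw [h1] at hf h
    refine ⟨C r * f, hf.C_mul r, fun R _ _ x p q => ?_⟩
    rw [map_mul, h, aeval_monomial, algHom_C, Finsupp.toMultiset_map, Finsupp.prod_toMultiset,
      Finsupp.prod_mapDomain_index (fun _ => pow_zero _) (fun _ _ _ => pow_add _ _ _), mul_assoc]

/-- A shift that moves the exponents to the bottom or to the top of the interval `[0, e]`. -/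
theorem fam_shift (S : Finset (Fin s →₀ ℕ)) {e : ℕ} (he : ∀ ν ∈ S, ∀ t, ν t ≤ e) (β : Bool) :
    ∃ (μ : Fin s → ℤ) (n : (Fin s →₀ ℕ) → Fin s → ℕ), (∀ ν ∈ S, ∀ t, (n ν t : ℤ) = μ t + ν t) ∧
      (∀ ν t, n ν t ≤ e) ∧ (S.Nonempty → ∀ t, ∃ ν ∈ S, n ν t = if β then e else 0) := by
  have key : ∀ t, ∃ μ : ℤ, (∀ ν ∈ S, 0 ≤ μ + ν t ∧ μ + ν t ≤ e) ∧
      (S.Nonempty → ∃ ν ∈ S, μ + ν t = (if β then e else 0 : ℕ)) := by
    intro t
    rcases S.eq_empty_or_nonempty with rfl | hS
    · exact ⟨0, by simp, by simp⟩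
    cases β
    · obtain ⟨ν₀, h0, h1⟩ := S.exists_min_image (fun ν => ν t) hS
      refine ⟨-(ν₀ t : ℤ), fun ν hν => ?_, fun _ => ⟨ν₀, h0, by simp⟩⟩
      have := h1 ν hν
      have := he ν hν t
      omega
    · obtain ⟨ν₀, h0, h1⟩ := S.exists_max_image (fun ν => ν t) hS
      refine ⟨e - (ν₀ t : ℤ), fun ν hν => ?_, fun _ => ⟨ν₀, h0, by simp⟩⟩
      have := h1 ν hν
      have := he ν₀ h0 t
      omega
  choose μ h1 h2 using key
  refine ⟨μ, fun ν t => min (μ t + ν t).toNat e, fun ν hν t => ?_, fun _ _ => min_le_right _ _,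
    fun hS t => ?_⟩
  · have := h1 t ν hν
    change ((min (μ t + ν t).toNat e : ℕ) : ℤ) = _
    omega
  · obtain ⟨ν, hν, h⟩ := h2 t hS
    refine ⟨ν, hν, ?_⟩
    change min (μ t + ν t).toNat e = _
    rw [h, Int.toNat_natCast]
    split_ifs <;> simp

theorem sgr_eq_sgp {R : Type} [CommRing R] (x : ι → R) (u : Fin s → R) :
    sgr x u = sgp x (fun _ => 1) u := rfl

theorem sgp_eq_sgr (x : ι → F) {p : Fin s → F} (hp : ∀ t, p t ≠ 0) (q : Fin s → F) :
    sgp x p q = fun a => (∏ t, p t) * sgr x (fun t => q t / p t) a := by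
  funext a
  rw [sgp, sgr, ch, ← mul_assoc, ← Finset.prod_mul_distrib]
  congr 1
  refine Finset.prod_congr rfl fun t _ => ?_
  split_ifs
  · rw [mul_div_cancel₀ _ (hp t)]
  · rw [mul_one]

/-- The degree of a point in Segre coordinates; the indices outside the range of `i` lie on the
boundary. -/
theorem td_sgp_le {σ : Type} (x : ι → F) (p q : Fin s → F) (i : σ → Fin s)
    (h : ∀ t, t ∈ Set.range i ∨ p t = 0 ∨ q t = 0) :
    td K (rat (sgp x p q)) ≤ td K (rat x ∪ Set.range fun l => q (i l) / p (i l)) := by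
  obtain ⟨L, hL, hS⟩ := tr_cl (K := K) (rat x ∪ Set.range fun l => q (i l) / p (i l))
  have h1 : ∀ t, q t / p t ∈ L := fun t => by
    rcases h t with ⟨l, rfl⟩ | h0 | h0
    · exact hS (.inr ⟨l, rfl⟩)
    · rw [h0, div_zero]
      exact L.zero_mem
    · rw [h0, zero_div]
      exact L.zero_mem
  have h2 : ∀ c : F, c / c ∈ L := fun c => by
    rcases eq_or_ne c 0 with rfl | hc
    · rw [div_zero]
      exact L.zero_mem
    · rw [div_self hc]
      exact L.one_mem
  refine tr_td_le ?_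
  rw [← hL]
  rintro _ ⟨⟨a, b⟩, rfl⟩
  change sgp x p q a / sgp x p q b ∈ L
  rw [sgp, sgp, mul_div_mul_comm, ← Finset.prod_div_distrib]
  refine L.mul_mem (prod_mem fun t _ => ?_) (hS (.inl ⟨(a.1, b.1), rfl⟩))
  split_ifs
  · exact h2 _
  · exact h1 t
  · rw [← inv_div]
    exact L.inv_mem (h1 t)
  · exact h2 _

end Pool.Agent.Lib.MP_8865d3_nt.Sv
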