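import Pool.Agent.Lib.MP_8865d3_nt.Sv.Prod1
import Pool.Agent.Lib.MP_8865d3_nt.Sv.Cod
import Pool.Agent.Lib.MP_8865d3_nt.Sv.FamA

/-! Forms in the Segre coordinates. -/

namespace Pool.Agent.Lib.MP_8865d3_nt.Sv

open MvPolynomial Height Filter Pool.Agent.Lib.MP_651af7_nt.Av

set_option linter.unusedSectionVars false

variable {k ι K : Type} [Field k] [CharZero k] [Fintype ι] [Field K] [Algebra k K] {s : ℕ}

/-- The substitution of `ph · b X a` and of the Laurent monomials `c j * W ^ M j`, with the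
denominators cleared. -/
theorem exists_shift (A : AV k ι) (a : ι → K) (b : ι) {s' : ℕ} (c : Fin s → K)
    (M : Fin s → Fin s' → ℤ) {G : MvPolynomial (ι ⊕ Fin s) k} {d : ℕ}
    (hG : G.IsWeightedHomogeneous (xw ι s) d) : ∃ (L : ℕ) (g : MvPolynomial (ι ⊕ Fin s') K),
      g.IsWeightedHomogeneous (xw ι s') (2 * d) ∧
      ∀ (F : Type) [Field F] [Algebra k F] [Algebra K F] [IsScalarTower k K F] (w : ι → F)
        (z : Fin s' → F), (∀ t, z t ≠ 0) → aeval (Sum.elim w z) g = (∏ t, z t) ^ L *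
          aeval (Sum.elim (fun e => A.ph e b w fun e => algebraMap K F (a e))
            fun j => algebraMap K F (c j) * ∏ t, z t ^ M j t) G := by
  obtain ⟨L, hL⟩ : ∃ L : ℕ, ∀ ν ∈ (toW G).support, ∀ t, 0 ≤ (L : ℤ) + ∑ j, M j t * ν j := by
    refine ⟨(toW G).support.sup fun ν => Finset.univ.sup fun t => (∑ j, M j t * ν j).natAbs,
      fun ν hν t => ?_⟩
    have h := (Finset.le_sup (f := fun t => (∑ j, M j t * ν j).natAbs) (Finset.mem_univ t)).trans
      (Finset.le_sup (f := fun ν : Fin s →₀ ℕ =>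
        Finset.univ.sup fun t => (∑ j, M j t * ν j).natAbs) hν)
    omega
  refine ⟨L, ∑ ν ∈ (toW G).support, rename Sum.inl (A.shift a (coeff ν (toW G)) b) *
    rename Sum.inr (C (∏ j, c j ^ ν j) * ∏ t, X t ^ ((L : ℤ) + ∑ j, M j t * ν j).toNat),
    IsWeightedHomogeneous.sum _ _ _ fun ν _ => (cw_hom_inl ?_).mul (cw_hom_inr _),
    fun F _ _ _ _ w z hz => ?_⟩
  · exact (toW_hom hG ν).aeval _ fun e => A.geo_ph_hom (fun e => isHomogeneous_X _ _)
      (fun e => isHomogeneous_C _ _) e b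
  rw [aeval_eq_sum_toW _ _ G, map_sum, Finset.mul_sum]
  refine Finset.sum_congr rfl fun ν hν => ?_
  rw [map_mul, aeval_rename, aeval_rename, Sum.elim_comp_inl, Sum.elim_comp_inr, AV.shift,
    A.geo_aeval_ph _ _ (fun c => c) (fun _ => b), mul_left_comm]
  simp only [aeval_C, aeval_X, map_mul, map_prod, map_pow]
  congr 1
  simp only [← zpow_natCast, mul_zpow, Finset.prod_mul_distrib, ← Finset.prod_zpow, ← zpow_mul]
  rw [mul_left_comm, Finset.prod_comm (s := (Finset.univ : Finset (Fin s))),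
    ← Finset.prod_mul_distrib (s := (Finset.univ : Finset (Fin s')))]
  congr 1
  refine Finset.prod_congr rfl fun t _ => ?_
  rw [Int.toNat_of_nonneg (hL ν hν t), zpow_add₀ (hz t), cod_zpow _ (hz t)]

/-- On a boundary divisor an extremal member cuts out a proper subset. -/
theorem fam_bdry (B : AV k ι) {F : Type} [Field F] [Algebra k F] [Algebra K F] [IsScalarTower k K F]
    {x : ι → F} (hx0 : x ≠ 0) (hx : ∀ f ∈ B.I, aeval x f = 0) {p q : Fin s → F} {t₀ : Fin s}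
    (hp : ∀ t, t ≠ t₀ → p t ≠ 0) {e c : ℕ}
    (h0 : ∀ m ≤ e, p t₀ ^ (e - m) * q t₀ ^ m = if m = c then 1 else 0)
    {S : Finset (Fin s →₀ ℕ)} {P : (Fin s →₀ ℕ) → MvPolynomial ι K} {d : ℕ}
    (hP : ∀ ν, (P ν).IsHomogeneous d) (hS : ∀ ν ∈ S, P ν ∉ B.IK K) {μ : Fin s → ℤ}
    {n : (Fin s →₀ ℕ) → Fin s → ℕ} (hμ : ∀ ν ∈ S, ∀ t, (n ν t : ℤ) = μ t + ν t)
    (hn : ∀ ν t, n ν t ≤ e) (hc : ∃ ν ∈ S, n ν t₀ = c)
    (h : ∑ ν ∈ S, aeval x (P ν) * ∏ t, p t ^ (e - n ν t) * q t ^ n ν t = 0) :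
    td K (rat x ∪ Set.range fun l : {t // t ≠ t₀} => q l / p l) + 2 ≤ (B.dim + s : ℕ) := by
  classical
  have h1 : Fintype.card {t // t ≠ t₀} + 1 = s := by
    have := t₀.pos
    rw [Fintype.card_subtype_compl, Fintype.card_fin, Fintype.card_unique]
    omega
  have h2 : td K (rat x ∪ Set.range fun l : {t // t ≠ t₀} => q l / p l) <
      (B.dim + Fintype.card {t // t ≠ t₀} : ℕ) := by
    refine lt_of_le_of_ne (cod_le B hx _) fun hd => ?_
    obtain ⟨ν₀, hν₀, e₀⟩ := hc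
    refine hS ν₀ hν₀ (cod_indep B hx0 hx hd (S.filter fun ν => n ν t₀ = c) (fun ν l => n ν l)
      (fun ν hν ν' hν' e' => ?_) P hP ?_ ν₀ (Finset.mem_filter.2 ⟨hν₀, e₀⟩))
    · obtain ⟨a1, a2⟩ := Finset.mem_filter.1 hν
      obtain ⟨a3, a4⟩ := Finset.mem_filter.1 hν'
      ext t
      have a5 : n ν t = n ν' t := by
        rcases eq_or_ne t t₀ with rfl | ht
        · rw [a2, a4]
        · exact congrFun e' ⟨t, ht⟩
      have a6 := hμ ν a1 t
      have a7 := hμ ν' a3 t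
      omega
    · refine (mul_eq_zero.1 ?_).resolve_left (Finset.prod_ne_zero_iff.2
        fun (l : {t // t ≠ t₀}) (_ : l ∈ Finset.univ) => pow_ne_zero e (hp l l.2))
      rw [← h, Finset.sum_filter, Finset.mul_sum]
      refine Finset.sum_congr rfl fun ν _ => ?_
      rw [Fintype.prod_eq_mul_prod_subtype_ne _ t₀, h0 _ (hn ν t₀)]
      split_ifs
      · rw [one_mul, mul_left_comm, ← Finset.prod_mul_distrib]
        congr 1
        refine Finset.prod_congr rfl fun l _ => ?_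
        rw [div_pow, pow_sub₀ _ (hp l l.2) (hn ν l), div_eq_mul_inv, mul_assoc, mul_comm _⁻¹]
      · rw [zero_mul, mul_zero, mul_zero]
  rw [show B.dim + s = B.dim + Fintype.card {t // t ≠ t₀} + 1 by omega, Nat.cast_succ,
    ← one_add_one_eq_two, ← add_assoc]
  exact add_le_add (Order.add_one_le_of_lt h2) le_rfl

/-- Sketch.  Write `g j = ∑ ν, g j ν (X) * W ^ ν` and drop the terms with `g j ν ∈ B.IK K`.  Take `e`
large.  The members are the products with `X a ^ (e - d)` and with all monomials `W ^ μ` that keep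
the exponents in `[0, e]`; the monomial `X (a 1) ⋯ X (a e) * W ^ ν` is the image of
`∏ i, X (a i, fun t => i < ν t)`.  A zero of the ideal is `sgp x p q` (`exists_sgp`).  In the
interior use the hypothesis; if two indices are on the boundary the dimension drops by two; if
exactly one is, a member with extremal exponent `0` or `e` restricts to a polynomial outside the
ideal (`gen_prod_iff` with `s - 1`, or a direct argument). -/
theorem IsProd.exists_fam {B : AV k ι} {G : GV k (SI ι s)} (h : IsProd B G) {J : Type} [Fintype J]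
    (g : J → MvPolynomial (ι ⊕ Fin s) K) {d : ℕ}
    (hg : ∀ j, (g j).IsWeightedHomogeneous (xw ι s) d)
    (h0 : ∃ j, g j ∉ (B.IK K).map (rename Sum.inl)) :
    ∃ (e : ℕ) (L : Type) (_ : Fintype L) (f : L → MvPolynomial (SI ι s) K) (j : L → J) (a : L → ι)
      (μ : L → Fin s → ℤ), d < e ∧ (∀ l, (f l).IsHomogeneous e) ∧
      (∀ j₀ a₀, ∃ l, j l = j₀ ∧ a l = a₀) ∧
      (∀ l (F : Type) [Field F] [Algebra k F] [Algebra K F] [IsScalarTower k K F] (w : ι → F)
        (z : Fin s → F), (∀ p ∈ B.I, aeval w p = 0) → (∀ t, z t ≠ 0) →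
        aeval (sgr w z) (f l) =
          w (a l) ^ (e - d) * (∏ t, z t ^ μ l t) * aeval (Sum.elim w z) (g (j l))) ∧
      (Cod2 (B.IK K) g (B.dim + s) →
        ∀ (F : Type) [Field F] [Algebra k F] [Algebra K F] [IsScalarTower k K F]
          (w : SI ι s → F), w ≠ 0 → (∀ p ∈ G.I, aeval w p = 0) → (∀ l, aeval w (f l) = 0) →
          td K (rat w) + 2 ≤ G.dim) := by
  classical
  let P : J → (Fin s →₀ ℕ) → MvPolynomial ι K := fun j ν => coeff ν (toW (g j))
  have hP : ∀ j ν, (P j ν).IsHomogeneous d := fun j ν => toW_hom (hg j) ν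
  let S : J → Finset (Fin s →₀ ℕ) := fun j => (toW (g j)).support.filter fun ν => P j ν ∉ B.IK K
  obtain ⟨e, hde, he⟩ : ∃ e, d < e ∧ ∀ j, ∀ ν ∈ S j, ∀ t, ν t ≤ e := by
    refine ⟨d + 1 + Finset.univ.sup fun j => (toW (g j)).totalDegree, by omega,
      fun j ν hν t => le_add_left ?_⟩
    exact ((Finsupp.le_degree t ν).trans (le_totalDegree (Finset.mem_filter.1 hν).1)).trans
      (Finset.le_sup (f := fun j => (toW (g j)).totalDegree) (Finset.mem_univ j))
  choose μ n hμ hn hex using fun (j : J) (β : Bool) => fam_shift (S j) (he j) β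
  have hQ : ∀ j ν a, (X a ^ (e - d) * P j ν).IsHomogeneous e := fun j ν a => by
    have h1 := (isHomogeneous_X_pow (R := K) a (e - d)).mul (hP j ν)
    rwa [Nat.sub_add_cancel hde.le] at h1
  choose φ hφ hφ' using fun j β a ν => fam_lift (hQ j ν a) (hn j β ν)
  let f : J × ι × Bool → MvPolynomial (SI ι s) K := fun l => ∑ ν ∈ S l.1, φ l.1 l.2.2 l.2.1 ν
  have hf : ∀ l, (f l).IsHomogeneous e := fun l => IsHomogeneous.sum _ _ _ fun ν _ => hφ _ _ _ ν
  have hv : ∀ j a β (F : Type) [Field F] [Algebra K F] (x : ι → F) (p q : Fin s → F),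
      aeval (sgp x p q) (f (j, a, β)) = x a ^ (e - d) *
        ∑ ν ∈ S j, aeval x (P j ν) * ∏ t, p t ^ (e - n j β ν t) * q t ^ n j β ν t := by
    intro j a β F _ _ x p q
    rw [map_sum, Finset.mul_sum]
    exact Finset.sum_congr rfl fun ν _ => by rw [hφ', map_mul, map_pow, aeval_X, mul_assoc]
  have hi : ∀ (l : J × ι × Bool) (F : Type) [Field F] [Algebra k F] [Algebra K F]
      [IsScalarTower k K F] (w : ι → F) (z : Fin s → F), (∀ p ∈ B.I, aeval w p = 0) →
      (∀ t, z t ≠ 0) → aeval (sgr w z) (f l) = w l.2.1 ^ (e - d) * (∏ t, z t ^ μ l.1 l.2.2 t) *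
        aeval (Sum.elim w z) (g l.1) := by
    rintro ⟨j, a, β⟩ F _ _ _ _ w z hw hz
    have h1 : aeval (Sum.elim w z) (g j) = ∑ ν ∈ S j, aeval w (P j ν) * ∏ t, z t ^ ν t := by
      rw [aeval_eq_sum_toW]
      exact (Finset.sum_filter_of_ne (p := fun ν => P j ν ∉ B.IK K) fun ν _ h1 h2 =>
        h1 (mul_eq_zero_of_left (B.tr_zero_IK hw _ h2) _)).symm
    rw [sgr_eq_sgp, hv, mul_assoc, h1]
    congr 1
    rw [Finset.mul_sum]
    refine Finset.sum_congr rfl fun ν hν => ?_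
    rw [mul_left_comm, ← Finset.prod_mul_distrib]
    congr 1
    refine Finset.prod_congr rfl fun t _ => ?_
    rw [one_pow, one_mul, ← zpow_natCast, hμ j β ν hν t, zpow_add₀ (hz t), zpow_natCast]
  obtain ⟨j₀, hj₀⟩ := h0
  have hS : (S j₀).Nonempty := by
    obtain ⟨ν, hν⟩ := not_forall.1 (mt mem_toW_iff.2 hj₀)
    exact ⟨ν, Finset.mem_filter.2 ⟨mem_support_iff.2 fun h1 => hν (h1 ▸ zero_mem _), hν⟩⟩
  refine ⟨e, J × ι × Bool, inferInstance, f, fun l => l.1, fun l => l.2.1, fun l => μ l.1 l.2.2,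
    hde, hf, fun j a => ⟨(j, a, false), rfl, rfl⟩, hi, fun hc F _ _ _ _ w hw0 hw hw' => ?_⟩
  obtain ⟨x, p, q, hx0, hx, hpq, rfl⟩ := h.exists_sgp hw0 hw
  obtain ⟨a, ha⟩ := Function.ne_iff.1 hx0
  have ha' : x a ^ (e - d) ≠ 0 := pow_ne_zero _ ha
  rw [h.dim_eq]
  by_cases h1 : ∀ t, p t ≠ 0 ∧ q t ≠ 0
  · have hz : ∀ t, q t / p t ≠ 0 := fun t => div_ne_zero (h1 t).2 (h1 t).1
    refine (add_le_add (td_sgp_le x p q id fun t => .inl ⟨t, rfl⟩) le_rfl).trans
      (hc F x _ hx0 (B.tr_zero_IK hx) hz fun j => ?_)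
    have h2 := hw' (j, a, false)
    rw [sgp_eq_sgr x fun t => (h1 t).1, aeval_mul_of_hom (hf _), hi _ F x _ hx hz] at h2
    exact (mul_eq_zero.1 ((mul_eq_zero.1 h2).resolve_left
      (pow_ne_zero _ (Finset.prod_ne_zero_iff.2 fun t _ => (h1 t).1)))).resolve_left
      (mul_ne_zero ha' (Finset.prod_ne_zero_iff.2 fun t _ => zpow_ne_zero _ (hz t)))
  obtain ⟨t₀, h2⟩ := not_forall.1 h1
  have h3 : p t₀ = 0 ∨ q t₀ = 0 := by tauto
  by_cases h4 : ∀ t, t ≠ t₀ → p t ≠ 0 ∧ q t ≠ 0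
  · obtain ⟨β, hβ⟩ : ∃ β : Bool, ∀ m ≤ e, p t₀ ^ (e - m) * q t₀ ^ m =
        if m = (if β then e else 0) then 1 else 0 := by
      rcases h3 with h3 | h3
      · refine ⟨true, fun m hm => ?_⟩
        rw [h3, (hpq t₀).resolve_left (h3 ▸ zero_ne_one), one_pow, mul_one, zero_pow_eq, if_pos rfl]
        exact if_congr (by omega) rfl rfl
      · refine ⟨false, fun m _ => ?_⟩
        rw [h3, (hpq t₀).resolve_right (h3 ▸ zero_ne_one), one_pow, one_mul, zero_pow_eq]
        rfl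
    have h5 := hw' (j₀, a, β)
    rw [hv] at h5
    refine (add_le_add (td_sgp_le x p q (Subtype.val : {t // t ≠ t₀} → Fin s) fun t => ?_)
      le_rfl).trans (fam_bdry B hx0 hx (fun t ht => (h4 t ht).1) hβ (hP j₀)
        (fun ν hν => (Finset.mem_filter.1 hν).2) (hμ j₀ β) (hn j₀ β) (hex j₀ β hS t₀)
        ((mul_eq_zero.1 h5).resolve_left ha'))
    rcases eq_or_ne t t₀ with rfl | ht
    exacts [.inr h3, .inl ⟨⟨t, ht⟩, rfl⟩]
  · obtain ⟨t₁, h5⟩ := not_forall.1 h4
    have h6 : t₁ ≠ t₀ ∧ (p t₁ = 0 ∨ q t₁ = 0) := by tauto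
    have h7 : Fintype.card {t // t ∉ ({t₁, t₀} : Finset (Fin s))} + 2 = s := by
      have h8 := Finset.card_le_univ ({t₁, t₀} : Finset (Fin s))
      rw [Fintype.card_subtype_compl, Fintype.card_coe]
      rw [Finset.card_pair h6.1, Fintype.card_fin] at *
      omega
    refine (add_le_add ((td_sgp_le x p q
      (Subtype.val : {t // t ∉ ({t₁, t₀} : Finset (Fin s))} → Fin s) fun t => ?_).trans
      (cod_le B hx _)) le_rfl).trans (le_of_eq ?_)
    · by_cases ht : t ∈ ({t₁, t₀} : Finset (Fin s))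
      · rcases Finset.mem_insert.1 ht with rfl | ht
        · exact .inr h6.2
        · rw [Finset.mem_singleton.1 ht]
          exact .inr h3
      · exact .inl ⟨⟨t, ht⟩, rfl⟩
    · conv_rhs => rw [← h7]
      push_cast
      ring

end Pool.Agent.Lib.MP_8865d3_nt.Sv
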