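import Pool.Agent.Lib.MP_8865d3_nt.Sv.Lat
import Pool.Agent.Lib.MP_8865d3_nt.Sv.Sz
import Pool.Agent.Lib.MP_651af7_nt.Av.SeqS

/-! The reduction to the subgroup generated by the locus over the small field. -/

namespace Pool.Agent.Lib.MP_8865d3_nt.Sv

open MvPolynomial Filter Height Pool.Agent.Lib.MP_651af7_nt.Av AV

variable {α : Type} {U : Ultrafilter α} {k ι : Type} [Field k] [NumberField k] [Fintype ι]
  {H : α → ℝ}

/-- `x = y + a` with `a` small and `y` generating `B` over the small field; `a'` are small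
coordinates of `a`. -/
structure Cos {A B : AV k ι} (h : Sub A B) (x : α → A.Pt k) (y : α → B.Pt k) (a : α → A.Pt k)
    (hH : Tendsto H U atTop) (X : A.Pt (Up U k)) (Y : B.Pt (Up U k))
    (aK : A.Pt (Sm k hH)) (a' : α → ι → k) : Prop where
  gX : IsGerm U X x
  gY : IsGerm U Y y
  gens : B.Gens (Sm k hH) Y
  add : ∀ n, x n = h.inc k (y n) + a n
  sub : h.inc (Up U k) Y = X - A.map (IsScalarTower.toAlgHom k (Sm k hH) (Up U k)) aK
  co : ∀ c, algebraMap (Sm k hH) (Up U k) (aK.co c) = germ U fun n => a' n c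
  rep : ∀ᶠ n in U, Rep (a n) (a' n)
  small : ∀ c, Lo U H fun n => logHeight₁ (a' n c)
  le : Lo U H fun n => ht (y n) - 2 * ht (x n)
  ge : Lo U H fun n => ht (x n) - 2 * ht (y n)

theorem exists_cos (A : AV k ι) (x : α → A.Pt k) (hH : Tendsto H U atTop) :
    ∃ (B : AV k ι) (h : Sub A B) (y : α → B.Pt k) (a : α → A.Pt k)
      (X : A.Pt (Up U k)) (Y : B.Pt (Up U k))
      (aK : A.Pt (Sm k hH)) (a' : α → ι → k), Cos h x y a hH X Y aK a' := by
  obtain ⟨γ, hγ, gγ, zγ⟩ := A.exists_germ U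
  obtain ⟨B, h, D, s, hD, ⟨Z, hZ⟩, hgens⟩ :=
    A.exists_sub (relCl_sm hH).1 (relCl_sm hH).2 (γ x)
  obtain ⟨β, hβ, gβ, -⟩ := B.exists_germ U
  have hinc : ∀ z, h.inc _ (β z) = γ fun n => h.inc k (z n) := fun z =>
    (h.rep_inc (gβ z)).inj ((gγ _).rep (.of_forall fun n => h.rep_inc (rep_co _)))
  obtain ⟨s', hs'⟩ := hγ (A.map (IsScalarTower.toAlgHom k (Sm k hH) (Up U k)) s)
  have hls := (small_pt_iff hH (gγ s')).1 ⟨s, hs'.symm⟩
  obtain ⟨z, rfl⟩ := hβ Z
  have hz : ∀ᶠ n in U, h.inc k (z n) = D • x n - s' n := by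
    rw [hinc, ← hs', ← map_nsmul, ← map_sub, ← sub_eq_zero, ← map_sub, zγ] at hZ
    exact hZ.mono fun n hn => sub_eq_zero.1 hn
  have := B.fg
  have := AddSubgroup.finiteIndex_range_nsmulAddMonoidHom_of_fg (B.Pt k) hD.ne'
  obtain ⟨q, hq⟩ := Ultrafilter.eventually_exists_iff.1 (Eventually.of_forall (f := U) fun n =>
    (⟨_, rfl⟩ : ∃ q : B.Pt k ⧸ (nsmulAddMonoidHom (α := B.Pt k) D).range, q = z n))
  obtain ⟨p, rfl⟩ := QuotientAddGroup.mk_surjective q
  have hy : ∀ n, ∃ y : B.Pt k, ((p : B.Pt k ⧸ (nsmulAddMonoidHom (α := B.Pt k) D).range) = z n →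
      D • y = -p + z n) := fun n => by
    by_cases hn : (p : B.Pt k ⧸ (nsmulAddMonoidHom (α := B.Pt k) D).range) = z n
    · obtain ⟨y, hy⟩ := QuotientAddGroup.eq.1 hn
      exact ⟨y, fun _ => hy⟩
    · exact ⟨0, fun h => (hn h).elim⟩
  choose y hy using hy
  set a : α → A.Pt k := fun n => x n - h.inc k (y n) with ha
  obtain ⟨C, hC, hadd⟩ := A.ht_add_le one_pos
  obtain ⟨C', hC'⟩ := A.ht_le_smul hD
  have hla : Lo U H fun n => ht (a n) := by
    refine ((hls.const_mul (c := 1 + 1) (by norm_num)).add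
      (Lo.const hH (C * (ht (h.inc k p) + 1) + C'))).mono ?_
    filter_upwards [hz, hq] with n h1 h2
    have h3 : D • a n = s' n + h.inc k p := by
      simp only [ha, smul_sub, ← map_nsmul, hy n h2, map_add, map_neg, h1]
      abel
    have h4 := hC' (a n)
    have h5 := (hadd (s' n) (h.inc k p)).1
    rw [h3] at h4
    linarith
  have herr : Lo U H fun n => C * (ht (a n) + 1) := lo_mul_nonneg hH (hla.add (Lo.const hH 1)) hC
  have hY : h.inc _ (β y) = γ x - γ a := by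
    rw [hinc, ← map_sub]
    exact congrArg γ (funext fun n => (sub_sub_cancel _ _).symm)
  obtain ⟨aK, haK⟩ := (small_pt_iff hH (gγ a)).2 hla
  choose f hf hf' using fun c => (aK.co c).2
  refine ⟨B, h, y, a, γ x, β y, aK, fun n c => f c n, gγ x, gβ y, hgens aK _ (haK ▸ hY),
    fun n => (add_sub_cancel _ _).symm, haK ▸ hY, fun c => (hf c).symm, ?_, hf',
    herr.mono (.of_forall fun n => ?_), herr.mono (.of_forall fun n => ?_)⟩
  · refine (gγ a).of_rep ?_
    have h3 := (rep_co aK).map (IsScalarTower.toAlgHom k (Sm k hH) (Up U k))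
    rw [haK] at h3
    convert h3 using 2 with c
    exact hf c
  · have h3 := (hadd (x n) (a n)).2
    rw [ha, sub_sub_cancel, ht_inc] at h3
    simp only [ha]
    linarith
  · have h3 := (hadd (h.inc k (y n)) (a n)).1
    rw [ha, add_sub_cancel, ht_inc] at h3
    simp only [ha]
    linarith

theorem hp_nonneg {A : AV k ι} {s : ℕ} (P : A.Pt k) (u : Fin s → k) : 0 ≤ hp P u :=
  add_nonneg (ht_nonneg P) (Finset.sum_nonneg fun _ _ => zero_le_logHeight₁ _)

variable {A B : AV k ι} {h : Sub A B} {x : α → A.Pt k} {y : α → B.Pt k} {a : α → A.Pt k}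
  {s s' : ℕ} {u : α → Fin s → k} {hH : Tendsto H U atTop}
  {X : A.Pt (Up U k)} {Y : B.Pt (Up U k)} {aK : A.Pt (Sm k hH)} {a' : α → ι → k}
  {M : Fin s → Fin s' → ℤ} {N : Fin s' → Fin s → ℤ} {c : α → Fin s → k} {w : α → Fin s' → k}
  {cK : Fin s → Sm k hH} (hC : Cos h x y a hH X Y aK a')

include hC

/-- The addition law at the members of the family. -/
theorem Cos.val_mem : ∀ᶠ n in U, ∃ p, Rep (h.inc k (y n) - a n) p ∧
    ∀ c b, A.ph c b (y n).co (a' n) = p b * (x n).co c :=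
  hC.rep.mono fun n hn => exists_ph_eq (h.rep_inc (rep_co (y n))) hn (hC.add n ▸ rep_co (x n))

variable (hL : Lat hH u M N c w cK)
include hL

theorem Cos.bo_le (h1 : Bo U H fun n => hp (x n) (u n)) : Bo U H fun n => hp (y n) (w n) := by
  obtain ⟨C, hC0, h1⟩ := h1.pos hH
  obtain ⟨C', hC', h2⟩ := hL.ht_w
  refine ⟨1 + (2 + C') * C, ?_⟩
  filter_upwards [h1, hC.le 1 one_pos] with n h3 h4
  have h5 := h2 n
  have h6 := ht_nonneg (x n)
  have h7 : 0 ≤ ∑ j, logHeight₁ (u n j) := Finset.sum_nonneg fun _ _ => zero_le_logHeight₁ _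
  have h8 := mul_le_mul_of_nonneg_left h3 (show 0 ≤ 2 + C' by positivity)
  have h9 := mul_nonneg hC' h6
  simp only [hp] at h8 ⊢
  linarith

theorem Cos.bo_ge (h1 : Bo U (fun n => hp (x n) (u n)) H) :
    Bo U (fun n => hp (y n) (w n)) H := by
  obtain ⟨C, h1⟩ := h1
  obtain ⟨C', hC', h2⟩ := hL.ht_u
  have hC0 : 0 < |C| + 1 := by positivity
  refine ⟨2 * (|C| + 1) * (2 + C'), ?_⟩
  filter_upwards [h1, (hC.ge.add (Lo.sum hH Finset.univ fun j _ => hL.small j)).const_mul hC0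
    (1 / 2) one_half_pos] with n h3 h4
  have h5 := h2 n
  have h6 := ht_nonneg (y n)
  have h7 : 0 ≤ ∑ j, logHeight₁ (w n j) := Finset.sum_nonneg fun _ _ => zero_le_logHeight₁ _
  have h8 := mul_le_mul_of_nonneg_right ((le_abs_self C).trans (lt_add_one _).le)
    (hp_nonneg (x n) (u n))
  have h9 : hp (x n) (u n) ≤ (ht (x n) - 2 * ht (y n) + ∑ j, logHeight₁ (c n j)) +
      (2 + C') * hp (y n) (w n) := by
    have := mul_nonneg hC' h6
    simp only [hp]
    linarith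
  have h10 := mul_le_mul_of_nonneg_left h9 hC0.le
  linarith

omit hL in
theorem Cos.one_le_dim (h1 : Bo U (fun n => hp (y n) (w n)) H) : 1 ≤ B.dim + s' := by
  rcases Nat.eq_zero_or_pos s' with rfl | h0
  · simp only [hp, Finset.univ_eq_empty, Finset.sum_empty, add_zero] at h1
    exact B.one_le_dim (tendsto_of_bo hH h1 fun n => ht_nonneg _) hC.gY
  · omega

omit hC in
theorem Lat.fib_df {T : α → Finset (AbsoluteValue k ℝ)}
    (h1 : Fib U T H fun n => df (T n) (u n)) : Fib U T H fun n => df (T n) (w n) := by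
  obtain ⟨C, hC, h2⟩ := hL.df_w
  exact h1.mono hC fun n => h2 n (T n)

end Pool.Agent.Lib.MP_8865d3_nt.Sv
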