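import Pool.Agent.Lib.MP_8865d3_nt.Sv.Seq
import Pool.Agent.Lib.MP_8865d3_nt.Sv.Red
import Pool.Agent.Lib.MP_8865d3_nt.Sv.Fam
import Pool.Agent.Lib.MP_8865d3_nt.Sv.Ord
import Pool.Agent.Lib.MP_8865d3_nt.Sv.Sz
import Pool.Agent.Lib.MP_651af7_nt.Av.SeqC

/-! Forms on the product attached to a family of polynomials. -/

namespace Pool.Agent.Lib.MP_8865d3_nt.Sv

open MvPolynomial Height Filter Pool.Agent.Lib.MP_651af7_nt.Av
open Pool.Agent.Lib.MP_651af7_nt.Vj

variable {α : Type} {U : Ultrafilter α} {k ι : Type} [Field k] {s s' : ℕ}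

theorem germ_prod {I : Type} [Fintype I] (f : α → I → k) :
    (germ U fun n => ∏ i, f n i) = ∏ i, germ U fun n => f n i := by
  rw [← map_prod]
  congr 1
  funext n
  rw [Finset.prod_apply]

theorem germ_zpow (f : α → k) (m : ℤ) : (germ U fun n => f n ^ m) = germ U f ^ m := by
  cases m with
  | ofNat m =>
    simp only [Int.ofNat_eq_natCast, zpow_natCast]
    exact map_pow (germ U) f m
  | negSucc m =>
    simp only [zpow_negSucc]
    rw [← map_pow]
    rfl

theorem germ_sgr (y : α → ι → k) (w : α → Fin s → k) :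
    (fun a => germ U fun n => sgr (y n) (w n) a) =
      sgr (fun a => germ U fun n => y n a) fun t => germ U fun n => w n t := by
  funext a
  rw [sgr, ← map_ch (germ U) (fun t n => w n t) a.2, ← map_mul]
  congr 1
  funext n
  exact congrArg (· * _) (map_ch (Pi.evalRingHom (fun _ : α => k) n) (fun t n => w n t) a.2).symm

theorem aeval_germ_elim {σ : Type} (y : α → ι → k) (w : α → σ → k) (f : MvPolynomial (ι ⊕ σ) k) :
    aeval (Sum.elim (fun a => germ U fun n => y n a) fun t => germ U fun n => w n t) f =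
      germ U fun n => eval (Sum.elim (y n) (w n)) f := by
  rw [← aeval_germ]
  congr 2
  funext a
  rcases a with a | a <;> rfl

theorem nm_le_sgr [Fintype ι] (v : AbsoluteValue k ℝ) (y : ι → k) (w : Fin s → k) :
    nm v y ≤ nm v (sgr y w) :=
  Real.iSup_le (fun a => by
    simpa only [sgr, ch_false, one_mul] using le_nm v (sgr y w) (a, fun _ => false)) (nm_nn _ _)

variable [NumberField k] [Fintype ι] {H : α → ℝ}

theorem GenF.td_eq {A : AV k ι} {x : α → A.Pt k} {u : α → Fin s → k} (h : GenF U x u)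
    {X : A.Pt (Up U k)} (hX : IsGerm U X x) :
    td k (rat X.co ∪ Set.range fun j => germ U fun n => u n j) = (A.dim + s : ℕ) := by
  obtain ⟨a, ha⟩ := (AV.rep_co X).unit
  refine (gen_prod_iff (K := k) A (Function.ne_iff.2 ⟨a, ha.ne_zero⟩) (AV.rep_co X).zero _).1
    fun f m hf h0 => ?_
  obtain ⟨t, ht⟩ := (AV.rep_co X).exists_smul hX
  have h1 := aeval_mul_of_xw hf (t : Up U k) X.co fun j => germ U fun n => u n j
  rw [h0, mul_zero, ← funext ht, aeval_germ_elim, germ_eq_zero] at h1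
  refine Ideal.map_mono (fun g hg => ?_) (h f m hf h1)
  have h2 := Ideal.mem_map_of_mem (MvPolynomial.map (algebraMap k k)) hg
  rwa [show MvPolynomial.map (algebraMap k k) g = g from map_id g] at h2

/-- The forms `f l` of degree `e` have the values `val n l` along the family. -/
structure Frm {A B : AV k ι} (hH : Tendsto H U atTop) (T : α → Finset (AbsoluteValue k ℝ))
    (x : α → A.Pt k) (u : α → Fin s → k) (y : α → B.Pt k) (w : α → Fin s' → k) {J : Type}
    (Γ : J → MvPolynomial (ι ⊕ Fin s) k) (d e : ℕ) {L : Type}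
    (f : L → MvPolynomial (SI ι s') (Sm k hH)) (j : L → J) (val : α → L → k)
    (cc : α → AbsoluteValue k ℝ → ℝ) : Prop where
  pos : 1 ≤ e
  hom : ∀ l, (f l).IsHomogeneous e
  germ : ∀ l, aeval (fun a => germ U fun n => sgr (y n).co (w n) a) (f l) = germ U fun n => val n l
  one : ∀ n v, 1 ≤ cc n v
  fin : ∀ n, FinS fun v => Real.log (cc n v)
  lo : Lo U H fun n => osum (T n) fun v => Real.log (cc n v)
  le : ∀ᶠ n in U, ∀ v l, v (val n l) * nm v (x n).co ^ d ≤
    cc n v * nm v (sgr (y n).co (w n)) ^ e * v (eval (Sum.elim (x n).co (u n)) (Γ (j l)))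
  ne : ∃ l, ∀ᶠ n in U, val n l ≠ 0

variable {A B : AV k ι} {h : Sub A B} {x : α → A.Pt k} {y : α → B.Pt k} {a : α → A.Pt k}
  {u : α → Fin s → k} {hH : Tendsto H U atTop}
  {X : A.Pt (Up U k)} {Y : B.Pt (Up U k)} {aK : A.Pt (Sm k hH)} {a' : α → ι → k}
  {M : Fin s → Fin s' → ℤ} {N : Fin s' → Fin s → ℤ} {c : α → Fin s → k} {w : α → Fin s' → k}
  {cK : Fin s → Sm k hH}

theorem exists_frm (hC : Cos h x y a hH X Y aK a') (hL : Lat hH u M N c w cK)
    {G : GV k (SI ι s')} (hG : IsProd B G) (T : α → Finset (AbsoluteValue k ℝ))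
    (hdf : Lo U H fun n => df (T n) (w n)) {J : Type} [Fintype J]
    {Γ : J → MvPolynomial (ι ⊕ Fin s) k} {d : ℕ}
    (hΓ : ∀ j, (Γ j).IsWeightedHomogeneous (xw ι s) d)
    (h0 : ∀ᶠ n in U, (fun j => eval (Sum.elim (x n).co (u n)) (Γ j)) ≠ 0) :
    ∃ (e : ℕ) (L : Type) (_ : Fintype L) (f : L → MvPolynomial (SI ι s') (Sm k hH)) (j : L → J)
      (val : α → L → k) (cc : α → AbsoluteValue k ℝ → ℝ), Frm hH T x u y w Γ d e f j val cc ∧
      (Cod2 A.I Γ (A.dim + s) → GenF U x u →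
        ∀ (F : Type) [Field F] [Algebra k F] [Algebra (Sm k hH) F] [IsScalarTower k (Sm k hH) F]
          (z : SI ι s' → F), z ≠ 0 → (∀ p ∈ G.I, aeval z p = 0) → (∀ l, aeval z (f l) = 0) →
          td (Sm k hH) (rat z) + 2 ≤ G.dim) := by
  classical
  choose Lx g hg hg' using fun t : J × ι => exists_shift A aK.co t.2 cK M (hΓ t.1)
  have hW : ∀ t, (germ U fun n => w n t) ≠ 0 := fun t =>
    germ_ne_zero.2 (.of_forall fun n => hL.w_ne n t)
  have hY : ∀ p ∈ B.I, aeval (fun a => germ U fun n => (y n).co a) p = 0 := AV.Rep.zero hC.gY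
  let z : α → J × ι → k := fun n t => (∏ i, w n i) ^ Lx t *
    eval (Sum.elim (fun e => A.ph e t.2 (y n).co (a' n)) (u n)) (Γ t.1)
  have hz : ∀ t, aeval (Sum.elim (fun a => germ U fun n => (y n).co a)
      fun i => germ U fun n => w n i) (g t) = germ U fun n => z n t := fun t => by
    rw [hg' t _ _ _ hW]
    simp only [hC.co, AV.seqC_germ, ← hL.germ_eq]
    rw [aeval_germ_elim, ← germ_prod, ← map_pow, ← map_mul]
    rfl
  obtain ⟨p, hp⟩ := hC.val_mem.choice
  have hzp : ∀ᶠ n in U, ∀ t, z n t =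
      (∏ i, w n i) ^ Lx t * (p n t.2 ^ d * eval (Sum.elim (x n).co (u n)) (Γ t.1)) :=
    hp.mono fun n hn t => by
      simp only [z, hn.2]
      exact congrArg _ (aeval_mul_of_xw (hΓ t.1) _ _ _)
  obtain ⟨j₀, hj₀⟩ := Ultrafilter.eventually_exists_iff.1 (h0.mono fun n => Function.ne_iff.1)
  obtain ⟨b₀, hb₀⟩ := Ultrafilter.eventually_exists_iff.1 (hp.mono fun n hn => hn.1.unit)
  obtain ⟨a₀, ha₀⟩ := Ultrafilter.eventually_exists_iff.1
    (Eventually.of_forall (f := U) fun n => (AV.rep_co (y n)).unit)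
  have hz0 : ∀ᶠ n in U, z n (j₀, b₀) ≠ 0 := by
    filter_upwards [hzp, hj₀, hb₀] with n h1 h2 h3
    rw [h1]
    exact mul_ne_zero (pow_ne_zero _ (Finset.prod_ne_zero_iff.2 fun i _ => hL.w_ne n i))
      (mul_ne_zero (pow_ne_zero _ h3.ne_zero) h2)
  obtain ⟨e, L, _, f, j, b, μ, he, hf, hsur, hval, hcod⟩ := hG.exists_fam g hg ⟨(j₀, b₀),
    fun hm => germ_ne_zero.2 hz0 ((hz _).symm.trans (aeval_zero_of_mem (B.tr_zero_IK hY) _ hm))⟩
  obtain ⟨κ, h₀, hκ, hκ'⟩ := exists_ad_fam fun q : ι × ι => A.Φ q.1 q.2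
  obtain ⟨Cw, hCw⟩ := Finite.exists_le fun q : L × Fin s' => (μ q.1 q.2 + Lx (j q.1)).natAbs
  have hAd : ∀ n, Ad (fun v => (κ v * (∏ i, max 1 (v (a' n i))) ^ 2) ^ d) _ := fun n =>
    (hκ.mul ((ad_prod Finset.univ fun i _ => ad_max (a' n i)).pow 2)).pow d
  have hlog : ∀ n, (fun v : AbsoluteValue k ℝ => Real.log (Real.exp
      (Cw * ∑ t, |Real.log (v (w n t))|) * (κ v * (∏ i, max 1 (v (a' n i))) ^ 2) ^ d)) =
      fun v => Cw * ∑ t, |Real.log (v (w n t))| +
        Real.log ((κ v * (∏ i, max 1 (v (a' n i))) ^ 2) ^ d) := fun n => funext fun v => by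
    rw [Real.log_mul (Real.exp_pos _).ne' ((hAd n).pos v).ne', Real.log_exp]
  refine ⟨e, L, inferInstance, f, fun l => (j l).1,
    fun n l => (y n).co (b l) ^ (e - 2 * d) * (∏ t, w n t ^ μ l t) * z n (j l),
    fun n v => Real.exp (Cw * ∑ t, |Real.log (v (w n t))|) *
      (κ v * (∏ i, max 1 (v (a' n i))) ^ 2) ^ d,
    ⟨by omega, hf, fun l => ?_, fun n v => ?_, fun n => ?_, ?_, ?_, ?_⟩, fun hc hgen => hcod ?_⟩
  · rw [germ_sgr, hval l _ _ _ hY hW, hz]
    simp only [← germ_zpow]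
    rw [← germ_prod, ← map_pow, ← map_mul, ← map_mul]
    rfl
  · exact one_le_mul_of_one_le_of_one_le (Real.one_le_exp (by positivity)) ((hAd n).one v)
  · rw [hlog]
    exact ((finS_df _).const_mul _).add (hAd n).fin
  · refine ((lo_mul_nonneg hH hdf (Nat.cast_nonneg Cw)).add (lo_mul_nonneg hH ((Lo.const hH h₀).add
      (lo_mul_nonneg hH (Lo.sum hH Finset.univ fun i _ => hC.small i) (Nat.cast_nonneg 2)))
      (Nat.cast_nonneg d))).mono (.of_forall fun n => ?_)
    rw [hlog, osum_add _ ((finS_df _).const_mul _) (hAd n).fin, osum_const_mul _ (finS_df _)]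
    exact add_le_add le_rfl (ad_osum_le (hAd n) _)
  · filter_upwards [hp, hzp] with n h1 h2 v l
    have h3 : (∏ t, w n t ^ μ l t) * (∏ i, w n i) ^ Lx (j l) =
        ∏ t, w n t ^ (μ l t + Lx (j l)) := by
      rw [← Finset.prod_pow, ← Finset.prod_mul_distrib]
      exact Finset.prod_congr rfl fun t _ => by rw [zpow_add₀ (hL.w_ne n t), zpow_natCast]
    have h4 := zpow_le_exp v (hL.w_ne n) (m := fun t => μ l t + Lx (j l)) (C := Cw) fun t => by
      rw [← Int.cast_abs, ← Int.natCast_natAbs, Int.cast_natCast]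
      exact_mod_cast hCw (l, t)
    have h5 := nm_le_sgr v (y n).co (w n)
    have h6 := nm_nn v (sgr (y n).co (w n))
    have h7 : (1 : ℝ) ≤ ∏ i, max 1 (v (a' n i)) := Finset.one_le_prod fun _ _ => le_max_left _ _
    have h8 := hκ.pos v
    have h9 : v (p n (j l).2) * nm v (x n).co ≤
        κ v * (nm v (sgr (y n).co (w n)) ^ 2 * (∏ i, max 1 (v (a' n i))) ^ 2) := by
      rw [← nm_mul_left]
      refine Real.iSup_le (fun i => ?_) (by positivity)
      beta_reduce
      rw [← h1.2]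
      exact (bih_le v (A.bih i _) h6 (by positivity) (fun i => (le_nm v _ i).trans h5)
        (le_prod_max v _)).trans (mul_le_mul_of_nonneg_right (hκ' v (i, _)) (by positivity))
    have h10 := (le_nm v (y n).co (b l)).trans h5
    have h11 := mul_nonneg (v.nonneg (p n (j l).2)) (nm_nn v (x n).co)
    obtain ⟨e', rfl⟩ : ∃ e', e = 2 * d + e' := ⟨e - 2 * d, by omega⟩
    rw [h2, Nat.add_sub_cancel_left, mul_assoc, ← mul_assoc (∏ t, _), h3]
    simp only [map_mul, map_pow]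
    calc _ = v ((y n).co (b l)) ^ e' * v (∏ t, w n t ^ (μ l t + Lx (j l))) *
          (v (p n (j l).2) * nm v (x n).co) ^ d *
          v (eval (Sum.elim (x n).co (u n)) (Γ (j l).1)) := by ring
      _ ≤ nm v (sgr (y n).co (w n)) ^ e' * Real.exp (Cw * ∑ t, |Real.log (v (w n t))|) *
          (κ v * (nm v (sgr (y n).co (w n)) ^ 2 * (∏ i, max 1 (v (a' n i))) ^ 2)) ^ d *
          v (eval (Sum.elim (x n).co (u n)) (Γ (j l).1)) := by gcongr
      _ = _ := by ring
  · obtain ⟨l, h1, h2⟩ := hsur (j₀, b₀) a₀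
    refine ⟨l, ?_⟩
    filter_upwards [hz0, ha₀] with n h3 h4
    rw [h1, h2]
    exact mul_ne_zero (mul_ne_zero (pow_ne_zero _ h4.ne_zero)
      (Finset.prod_ne_zero_iff.2 fun t _ => zpow_ne_zero _ (hL.w_ne n t))) h3
  · intro F _ _ w' z' h1 h2 h3 h4
    let _ : Algebra k F := ((algebraMap (Sm k hH) F).comp (algebraMap k (Sm k hH))).toAlgebra
    have : IsScalarTower k (Sm k hH) F := IsScalarTower.of_algebraMap_eq fun _ => rfl
    refine cod_shift h (relCl_sm hH).2 (hgen.td_eq hC.gX) hC.sub hL.inv hL.cK_ne hL.cK_pow hW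
      hL.germ_eq hΓ hc F w' z' h1 (fun q hq => ?_) h3 fun j b => ?_
    · rw [← aeval_map_algebraMap (Sm k hH)]
      exact h2 _ (Ideal.mem_map_of_mem _ hq)
    · have h5 := h4 (j, b)
      rw [hg' _ F w' z' h3] at h5
      exact (mul_eq_zero.1 h5).resolve_left
        (pow_ne_zero _ (Finset.prod_ne_zero_iff.2 fun t _ => h3 t))

theorem IsProd.logHeight_sgr {G : GV k (SI ι s')} (hG : IsProd B G) (P : B.Pt k) {z : Fin s' → k}
    (hz : ∀ t, z t ≠ 0) : logHeight (sgr P.co z) = hp P z := by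
  obtain ⟨Z, hZ⟩ := hG.exists_pt (AV.rep_co P) fun t => (hz t).isUnit
  rw [← GV.ht_eq hZ, (hG.ht_rep (AV.rep_co P) hZ).1]

variable {T : α → Finset (AbsoluteValue k ℝ)} {J : Type} {Γ : J → MvPolynomial (ι ⊕ Fin s) k}
  {d e : ℕ} {L : Type} {f : L → MvPolynomial (SI ι s') (Sm k hH)} {j : L → J} {val : α → L → k}
  {cc : α → AbsoluteValue k ℝ → ℝ} (hF : Frm hH T x u y w Γ d e f j val cc)

include hF

theorem Frm.notMem {G : GV k (SI ι s')} (hG : IsProd B G) (hY : IsGerm U Y y) {l : L}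
    (hl : ∀ᶠ n in U, val n l ≠ 0) : f l ∉ G.IK (Sm k hH) := fun hm => by
  refine germ_ne_zero.2 hl ?_
  rw [← hF.germ, germ_sgr]
  exact G.tr_zero_IK (hG.zero_sgr (AV.Rep.zero hY) _) _ hm

theorem Frm.td_le {G : GV k (SI ι s')} (hG : IsProd B G) (hY : IsGerm U Y y) {l : L}
    (hl : ∀ᶠ n in U, val n l ≠ 0) {F : Type} [Field F] [Algebra k F] [Algebra (Sm k hH) F]
    [IsScalarTower k (Sm k hH) F] {z : SI ι s' → F} (h0 : z ≠ 0) (hz : ∀ p ∈ G.I, aeval z p = 0)
    (h1 : aeval z (f l) = 0) : td (Sm k hH) (rat z) + 1 ≤ G.dim :=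
  Order.add_one_le_of_lt (lt_of_le_of_ne (G.td_le_dim hz) fun h2 =>
    hF.notMem hG hY hl ((G.gen_iff h0 hz).2 h2 _ _ (hF.hom l) h1))

omit [Fintype ι] in
theorem Frm.eval_ne {l : L} (hl : ∀ᶠ n in U, val n l ≠ 0) {γ : Sm k hH} (hγ : γ ≠ 0)
    {un : α → MvPolynomial (SI ι s') k}
    (hu : Repr U (MvPolynomial.map (algebraMap _ (Up U k)) (C γ * f l)) un) :
    ∀ᶠ n in U, eval (sgr (y n).co (w n)) (un n) ≠ 0 := by
  rw [← germ_ne_zero, ← hu.aeval, aeval_map_algebraMap, map_mul, hF.germ, aeval_C]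
  exact mul_ne_zero ((map_ne_zero _).2 hγ) (germ_ne_zero.2 hl)

theorem Frm.bound [Fintype J] [Fintype L] {I : Type} [Fintype I]
    {𝒢 : I → Finset (MvPolynomial (SI ι s') (Sm k hH))} (h𝒢 : ∀ i, ∀ g ∈ 𝒢 i, g ∈ Set.range f)
    {γ : I → MvPolynomial (SI ι s') (Sm k hH) → ℚ} {un : α → I → MvPolynomial (SI ι s') k}
    (hu : ∀ i, Repr U (MvPolynomial.map (algebraMap _ (Up U k))
      (∑ g ∈ 𝒢 i, C ((γ i g : ℚ) : Sm k hH) * g)) fun n => un n i) :
    ∃ c' : α → AbsoluteValue k ℝ → ℝ, (∀ n v, 1 ≤ c' n v) ∧ (∀ n, FinS fun v => Real.log (c' n v)) ∧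
      Lo U H (fun n => osum (T n) fun v => Real.log (c' n v)) ∧ ∀ᶠ n in U, ∀ v,
        nm v (fun i => eval (sgr (y n).co (w n)) (un n i)) * nm v (x n).co ^ d ≤
          c' n v * nm v (sgr (y n).co (w n)) ^ e *
            nm v fun i => eval (Sum.elim (x n).co (u n)) (Γ i) := by
  have hM : ∀ i, ∃ M : L → k, ∀ᶠ n in U,
      eval (sgr (y n).co (w n)) (un n i) = ∑ l, M l * val n l := fun i => by
    obtain ⟨M, hM, e⟩ := AV.seqC_comb f (fun g => ((γ i g : ℚ) : Sm k hH)) (𝒢 i)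
      (algebraMap k (Sm k hH)).fieldRange (fun g => ⟨(γ i g : k), map_ratCast _ _⟩) (h𝒢 i)
    choose M' hM' using hM
    refine ⟨M', (germ_eq U).1 ?_⟩
    rw [← (hu i).aeval, aeval_map_algebraMap, e, map_sum]
    have e1 : (fun n => ∑ t, M' t * val n t) = ∑ t, (fun _ => M' t) * fun n => val n t := by
      funext n
      rw [Finset.sum_apply]
      rfl
    rw [e1, map_sum]
    refine Finset.sum_congr rfl fun t _ => ?_
    rw [map_mul, map_mul, hF.germ, aeval_C, ← hM' t, ← IsScalarTower.algebraMap_apply,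
      algebraMap_up]
  choose M hM using hM
  obtain ⟨κ, h₀, hκ, hκ'⟩ := exists_ad_lin M
  have hlog : ∀ n, (fun v => Real.log (κ v * cc n v)) =
      fun v => Real.log (κ v) + Real.log (cc n v) := fun n => funext fun v =>
    Real.log_mul (hκ.pos v).ne' (one_pos.trans_le (hF.one n v)).ne'
  refine ⟨fun n v => κ v * cc n v, fun n v => one_le_mul_of_one_le_of_one_le (hκ.one v) (hF.one n v),
    fun n => hlog n ▸ hκ.fin.add (hF.fin n),
    ((Lo.const hH h₀).add hF.lo).mono (.of_forall fun n => ?_), ?_⟩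
  · rw [hlog, osum_add _ hκ.fin (hF.fin n)]
    exact add_le_add (ad_osum_le hκ _) le_rfl
  · filter_upwards [eventually_all.2 hM, hF.le] with n h1 h2 v
    obtain ⟨b, hb⟩ := (AV.rep_co (x n)).unit
    have h3 := pow_pos (nm_pos v (Function.ne_iff.2 ⟨b, hb.ne_zero⟩ : (x n).co ≠ 0)) d
    have h4 := nm_nn v (sgr (y n).co (w n))
    have h5 := nm_nn v fun i => eval (Sum.elim (x n).co (u n)) (Γ i)
    have h6 := zero_le_one.trans (hF.one n v)
    have h7 := hκ.pos v
    rw [← le_div_iff₀ h3, mul_assoc, mul_assoc, mul_div_assoc, ← mul_assoc (cc n v)]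
    refine Real.iSup_le (fun i => ?_) (by positivity)
    beta_reduce
    rw [h1]
    refine hκ' v _ _ (by positivity) (fun l => ?_) i
    rw [le_div_iff₀ h3]
    exact (h2 v l).trans (mul_le_mul_of_nonneg_left
      (le_nm v (fun i => eval (Sum.elim (x n).co (u n)) (Γ i)) (j l)) (by positivity))

end Pool.Agent.Lib.MP_8865d3_nt.Sv
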