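import Pool.Agent.Lib.MP_651af7_nt.Av.TrB

/-! Residues of logarithmic differentials. -/

namespace Pool.Agent.Lib.MP_8865d3_nt.Sv

open Pool.Agent.Lib.MP_651af7_nt.Av

section

open Polynomial WithZero IsDedekindDomain

variable {K F : Type} [Field K] [CharZero K] [Field F] [Algebra K F]

omit [CharZero K] in
theorem res_const {Γ : Type} [LinearOrderedCommGroupWithZero Γ] {v : Valuation F Γ}
    (hK : ∀ c : K, v (algebraMap K F c) ≤ 1) {c : K} (hc : c ≠ 0) : v (algebraMap K F c) = 1 := by
  refine le_antisymm (hK c) ?_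
  have h := mul_le_mul' (le_refl (v (algebraMap K F c))) (hK c⁻¹)
  rwa [← map_mul, ← map_mul, mul_inv_cancel₀ hc, map_one, map_one, mul_one] at h

/-- The residue of `a` is a simple root of some polynomial. -/
theorem res_simple {v : Valuation F ℤᵐ⁰} (hK : ∀ c : K, v (algebraMap K F c) ≤ 1) (a : F) (n : ℕ) :
    ∀ p : K[X], p.natDegree = n → p ≠ 0 → v (aeval a p) < 1 →
      ∃ q : K[X], v (aeval a q) < 1 ∧ 1 ≤ v (aeval a (derivative q)) := by
  induction n using Nat.strong_induction_on with
  | h n ih =>
    intro p hn h0 hp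
    by_cases h1 : 1 ≤ v (aeval a (derivative p))
    · exact ⟨p, hp, h1⟩
    have h2 : p.natDegree ≠ 0 := fun h => by
      rw [eq_C_of_natDegree_eq_zero h] at h0 hp
      rw [aeval_C, res_const hK (C_ne_zero.1 h0)] at hp
      exact lt_irrefl _ hp
    exact ih _ (hn ▸ natDegree_derivative_lt h2) _ rfl
      (fun h => h2 (derivative_eq_zero.1 h)) (not_le.1 h1)

/-- The logarithmic derivation of a discrete valuation. -/
theorem res_abs {v : Valuation F ℤᵐ⁰} (hK : ∀ c : K, v (algebraMap K F c) ≤ 1) {π : F}
    (hπ : v π = exp (-1)) (δ : Derivation K F F) {a : F} (h0 : δ a ≠ 0)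
    (hmax : ∀ z, v z ≤ 1 → v (δ z) ≤ v (δ a)) {p : K[X]} (hp0 : p ≠ 0) (hp : v (aeval a p) < 1) :
    ∃ D : Derivation K F F, (∀ z, v z ≤ 1 → v (D z) < 1) ∧
      ∀ w : F, w ≠ 0 → v (D w / w - (-log (v w) : ℤ)) < 1 := by
  have v0 : 0 < v (δ a) := zero_lt_iff.2 ((map_ne_zero v).2 h0)
  have π0 : π ≠ 0 := (map_ne_zero v).1 (hπ ▸ exp_ne_zero)
  have π1 : v π < 1 := by
    rw [hπ, ← exp_zero, exp_lt_exp]
    omega
  obtain ⟨q, hq, hq'⟩ := res_simple hK a _ p rfl hp0 hp
  have hb : v (aeval a q / π) ≤ 1 := by
    rw [map_div₀, div_le_one₀ (hπ ▸ exp_pos), hπ, ← lt_mul_exp_iff_le exp_ne_zero, ← exp_add]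
    exact hq
  have h1 : v (δ a) ≤ v (δ π) := by
    by_contra hn
    have e : aeval a (derivative q) * δ a =
        π * δ (aeval a q / π) + aeval a q / π * δ π := by
      rw [← smul_eq_mul, ← δ.map_aeval, ← smul_eq_mul π, ← smul_eq_mul (aeval a q / π),
        ← δ.leibniz, mul_div_cancel₀ _ π0]
    have h2 : v (aeval a (derivative q) * δ a) < v (δ a) := by
      rw [e]
      refine v.map_add_lt ?_ ?_
      · rw [map_mul]
        exact (mul_le_mul' le_rfl (hmax _ hb)).trans_lt (mul_lt_of_lt_one_left v0 π1)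
      · rw [map_mul]
        exact (mul_le_of_le_one_left' hb).trans_lt (not_le.1 hn)
    rw [map_mul] at h2
    exact h2.not_ge (le_mul_of_one_le_left' hq')
  have d0 : δ π ≠ 0 := (map_ne_zero v).1 (v0.trans_le h1).ne'
  have key : ∀ z, v z ≤ 1 → v (((π / δ π) • δ) z) < 1 := fun z hz => by
    rw [Derivation.smul_apply, smul_eq_mul, div_mul_eq_mul_div, mul_div_assoc, map_mul, map_div₀]
    exact (mul_le_of_le_one_right'
      ((div_le_one₀ (v0.trans_le h1)).2 ((hmax z hz).trans h1))).trans_lt π1
  refine ⟨(π / δ π) • δ, key, fun w hw => ?_⟩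
  have e0 : ((π / δ π) • δ) π = π := by
    rw [Derivation.smul_apply, smul_eq_mul, div_mul_cancel₀ _ d0]
  generalize (π / δ π) • δ = D at key e0
  set n : ℤ := -log (v w) with hn
  have hu : v (w / π ^ n) = 1 := by
    rw [map_div₀, map_zpow₀, hπ, ← exp_zsmul, hn, smul_eq_mul, neg_mul_neg, mul_one,
      exp_log ((map_ne_zero v).2 hw), div_self ((map_ne_zero v).2 hw)]
  have e : D w / w - n = D (w / π ^ n) / (w / π ^ n) := by
    have h3 : π ^ n ≠ 0 := zpow_ne_zero _ π0
    rw [D.leibniz_div, D.leibniz_zpow, e0, zpow_sub_one₀ π0]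
    simp only [smul_eq_mul, zsmul_eq_mul]
    field_simp
  rw [e, map_div₀, hu, div_one]
  exact key _ hu.le

theorem res_ded {A : Type} [CommRing A] [IsDedekindDomain A] [Algebra K A] [Algebra A F]
    [IsFractionRing A F] [IsScalarTower K A F] [Algebra.FiniteType K A] (P : HeightOneSpectrum A)
    (δ : Derivation K F F) (f : A) (hf : δ (algebraMap A F f) ≠ 0) :
    ∃ D : Derivation K F F, (∀ z, P.valuation F z ≤ 1 → P.valuation F (D z) < 1) ∧
      ∀ w : F, w ≠ 0 → P.valuation F (D w / w - (-log (P.valuation F w) : ℤ)) < 1 := by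
  classical
  obtain ⟨T, hT⟩ := Algebra.FiniteType.out (R := K) (A := A)
  obtain ⟨a, -, ha⟩ := Finset.exists_max_image (insert f T)
    (fun t => P.valuation F (δ (algebraMap A F t))) ⟨f, Finset.mem_insert_self _ _⟩
  have h1 : ∀ t : A, P.valuation F (δ (algebraMap A F t)) ≤
      P.valuation F (δ (algebraMap A F a)) := by
    intro t
    have ht : t ∈ Algebra.adjoin K (T : Set A) := hT ▸ Algebra.mem_top
    induction ht using Algebra.adjoin_induction with
    | mem t ht => exact ha t (Finset.mem_insert_of_mem ht)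
    | algebraMap c =>
      rw [← IsScalarTower.algebraMap_apply, δ.map_algebraMap, map_zero]
      exact zero_le
    | add x y _ _ hx hy =>
      rw [map_add, map_add]
      exact (P.valuation F).map_add_le hx hy
    | mul x y _ _ hx hy =>
      rw [map_mul, δ.leibniz, smul_eq_mul, smul_eq_mul]
      refine (P.valuation F).map_add_le ?_ ?_
      · rw [map_mul]
        exact (mul_le_of_le_one_left' (P.valuation_le_one x)).trans hy
      · rw [map_mul]
        exact (mul_le_of_le_one_left' (P.valuation_le_one y)).trans hx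
  obtain ⟨π, hπ⟩ := P.valuation_exists_uniformizer F
  have hm := P.isMaximal
  let _ := Ideal.Quotient.field P.asIdeal
  have hfin := finite_of_finite_type_of_isJacobsonRing K (A ⧸ P.asIdeal)
  obtain ⟨p, hp0, hp⟩ : IsAlgebraic K (Ideal.Quotient.mkₐ K P.asIdeal a) :=
    Algebra.IsAlgebraic.isAlgebraic _
  rw [aeval_algHom_apply, Ideal.Quotient.mkₐ_eq_mk, Ideal.Quotient.eq_zero_iff_mem] at hp
  refine res_abs (a := algebraMap A F a) (fun c => ?_) hπ δ (fun h => hf ?_) (fun z hz => ?_) hp0 ?_
  · rw [IsScalarTower.algebraMap_apply K A F]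
    exact P.valuation_le_one _
  · have h2 := h1 f
    rwa [h, map_zero, le_zero_iff, map_eq_zero] at h2
  · obtain ⟨x, d, hd⟩ := P.exists_primeCompl_mul_eq_of_integer z hz
    have h2 : P.valuation F (algebraMap A F d) = 1 := (P.valuation_le_one _).eq_of_not_lt
      fun h => d.2 ((P.valuation_lt_one_iff_mem _).1 h)
    have e : algebraMap A F d * δ z = δ (algebraMap A F x) - z * δ (algebraMap A F d) := by
      rw [← hd, δ.leibniz, smul_eq_mul, smul_eq_mul]
      ring
    have h3 : P.valuation F (algebraMap A F d * δ z) ≤ P.valuation F (δ (algebraMap A F a)) := by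
      rw [e]
      refine (P.valuation F).map_sub_le (h1 x) ?_
      rw [map_mul]
      exact (mul_le_of_le_one_left' hz).trans (h1 d)
    rwa [map_mul, h2, one_mul] at h3
  · rw [aeval_algebraMap_apply]
    exact (P.valuation_lt_one_iff_mem _).2 hp

open scoped IntermediateField.algebraAdjoinAdjoin in
theorem res_one {f : F} (hf : Transcendental K f)
    [FiniteDimensional (IntermediateField.adjoin K {f}) F] :
    ∃ (v : Valuation F ℤᵐ⁰) (D : Derivation K F F), (∀ c : K, v (algebraMap K F c) ≤ 1) ∧
      (∀ z, v z ≤ 1 → v (D z) < 1) ∧ (∀ w : F, w ≠ 0 → v (D w / w - (-log (v w) : ℤ)) < 1) ∧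
      v f < 1 := by
  let e := algEquivOfTranscendental K f hf
  have i1 : IsPrincipalIdealRing (Algebra.adjoin K {f}) :=
    IsPrincipalIdealRing.of_surjective e.toRingHom e.surjective
  have i2 := integralClosure.isDedekindDomain (Algebra.adjoin K {f})
    (IntermediateField.adjoin K {f}) F
  have i3 := integralClosure.isFractionRing_of_finite_extension (A := Algebra.adjoin K {f})
    (IntermediateField.adjoin K {f}) F
  have i4 := IsIntegralClosure.finite (Algebra.adjoin K {f}) (IntermediateField.adjoin K {f}) F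
    (integralClosure (Algebra.adjoin K {f}) F)
  have i5 : Algebra.FiniteType K (Algebra.adjoin K {f}) :=
    Algebra.FiniteType.adjoin_of_finite (Set.finite_singleton f)
  have i6 : Algebra.FiniteType K (integralClosure (Algebra.adjoin K {f}) F) :=
    .trans i5 inferInstance
  obtain ⟨m, hm, hfm⟩ := exists_max_ideal_of_mem_nonunits (a := e X) fun h =>
    not_isUnit_X (by simpa using h.map e.symm)
  obtain ⟨Q, hQ, hQm⟩ := Ideal.exists_ideal_over_maximal_of_isIntegral
    (S := integralClosure (Algebra.adjoin K {f}) F) m (by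
      intro x hx
      rw [RingHom.mem_ker] at hx
      have h3 : x = 0 := Subtype.ext (congrArg (fun y : integralClosure (Algebra.adjoin K {f}) F =>
        (y : F)) hx)
      rw [h3]
      exact m.zero_mem)
  rw [← hQm, Ideal.mem_comap] at hfm
  set g := algebraMap _ (integralClosure (Algebra.adjoin K {f}) F) (e X) with hg
  have eg : algebraMap _ F g = f := by
    rw [hg, ← IsScalarTower.algebraMap_apply, algEquivOfTranscendental_apply_X]
    rfl
  have g0 : g ≠ 0 := fun h => hf (by rw [← eg, h, map_zero]; exact isAlgebraic_zero)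
  let P : HeightOneSpectrum (integralClosure (Algebra.adjoin K {f}) F) :=
    ⟨Q, hQ.isPrime, fun h => g0 (by rwa [h, Ideal.mem_bot] at hfm)⟩
  obtain ⟨δ, hδ⟩ := exists_derivation (t := fun _ : Unit => f)
    (algebraicIndependent_unique_type_iff.2 hf) fun _ => 1
  obtain ⟨D, h1, h2⟩ := res_ded P δ g (by rw [eg, hδ ()]; exact one_ne_zero)
  refine ⟨P.valuation F, D, fun c => ?_, h1, h2, ?_⟩
  · rw [IsScalarTower.algebraMap_apply K (integralClosure (Algebra.adjoin K {f}) F) F]
    exact P.valuation_le_one _
  · exact (congrArg (P.valuation F) eg).symm.trans_lt ((P.valuation_lt_one_iff_mem _).2 hfm)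

omit [CharZero K] in
theorem res_base (S : Finset F) (hS : IntermediateField.adjoin K (S : Set F) = ⊤) {f : F}
    (hf : Transcendental K f) : ∃ L : IntermediateField K F, Transcendental L f ∧
      FiniteDimensional (IntermediateField.adjoin L {f}) F := by
  obtain ⟨t, ht, hb⟩ := exists_isTranscendenceBasis_superset (R := K) (s := {f})
    (algebraicIndependent_unique_type_iff.2 hf)
  have hft : f ∈ t := ht rfl
  let L := IntermediateField.adjoin K (((↑) : t → F) '' {⟨f, hft⟩}ᶜ)
  refine ⟨L, IntermediateField.transcendental_adjoin_iff.2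
    (hb.1.transcendental_adjoin (i := ⟨f, hft⟩) fun h => h rfl), ?_⟩
  have h1 : Algebra.adjoin K (Set.range ((↑) : t → F)) ≤
      ((IntermediateField.adjoin L {f}).restrictScalars K).toSubalgebra := by
    refine Algebra.adjoin_le ?_
    rintro _ ⟨x, rfl⟩
    by_cases hx : x = ⟨f, hft⟩
    · rw [hx]
      exact IntermediateField.subset_adjoin L {f} rfl
    · exact (IntermediateField.adjoin L {f}).algebraMap_mem
        ⟨x, IntermediateField.subset_adjoin K _ ⟨x, hx, rfl⟩⟩
  have h2 : ∀ z : F, IsIntegral (IntermediateField.adjoin L {f}) z := fun z =>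
    IsAlgebraic.isIntegral ((hb.isAlgebraic.isAlgebraic z).tower_top_of_subalgebra_le h1)
  have h3 := IntermediateField.finiteDimensional_adjoin (S := (S : Set F)) fun z _ => h2 z
  have h4 : IntermediateField.adjoin (IntermediateField.adjoin L {f}) (S : Set F) = ⊤ := by
    refine eq_top_iff.2 fun z _ => ?_
    have hz : z ∈ IntermediateField.adjoin K (S : Set F) := hS ▸ IntermediateField.mem_top
    induction hz using IntermediateField.adjoin_induction with
    | mem x hx => exact IntermediateField.subset_adjoin _ _ hx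
    | algebraMap c =>
      exact IntermediateField.algebraMap_mem _ (algebraMap L _ (algebraMap K L c))
    | add x y _ _ hx hy => exact add_mem (hx trivial) (hy trivial)
    | inv x _ hx => exact inv_mem (hx trivial)
    | mul x y _ _ hx hy => exact mul_mem (hx trivial) (hy trivial)
  rw [h4] at h3
  exact IntermediateField.topEquiv.toLinearEquiv.finiteDimensional

end

/-- Sketch.  Complete `f` to a transcendence basis `f, t`; `K₁ = K (t)`; `F` is finite over `K₁ (f)`.
`O` is the localisation of the integral closure of `K₁ [f]` (or of its localisation at `f`) at a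
maximal ideal over `f`, a discrete valuation ring with uniformiser `π`, transcendental over `K₁`;
`D` is the derivation over `K₁` with `D π = π` (`exists_derivation`), `r` is the order.  `D O` has
bounded denominators (the integral closure is a finite module).  For `a ∈ O` let `p` be the minimal
polynomial of its residue over `K₁`; `p (a) = π b`, `p' (a)` is a unit, so
`D a ∈ π O + π O * D b`; iterate. -/
theorem exists_residue {K F : Type} [Field K] [CharZero K] [Field F] [Algebra K F] (S : Finset F)
    (hS : IntermediateField.adjoin K (S : Set F) = ⊤) {f : F} (hf : Transcendental K f) :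
    ∃ (O : ValuationSubring F) (D : Derivation K F F) (r : F → ℤ),
      (∀ c : K, algebraMap K F c ∈ O) ∧ (∀ a ∈ O, O.valuation (D a) < 1) ∧
      (∀ w : F, w ≠ 0 → O.valuation (D w / w - r w) < 1) ∧ r f ≠ 0 := by
  obtain ⟨L, h1, h2⟩ := res_base S hS hf
  obtain ⟨v, D, h3, h4, h5, h6⟩ := res_one h1
  have e := v.isEquiv_valuation_valuationSubring
  refine ⟨v.valuationSubring, D.restrictScalars K, fun w => -WithZero.log (v w), fun c => ?_,
    fun a ha => e.lt_one_iff_lt_one.1 (h4 a ha), fun w hw => e.lt_one_iff_lt_one.1 (h5 w hw),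
    fun h => h6.ne ?_⟩
  · rw [IsScalarTower.algebraMap_apply K L F]
    exact h3 _
  · have f0 : f ≠ 0 := fun h0 => hf (h0 ▸ isAlgebraic_zero)
    rw [← WithZero.exp_log ((map_ne_zero v).2 f0), neg_eq_zero.1 h, WithZero.exp_zero]

end Pool.Agent.Lib.MP_8865d3_nt.Sv
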