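import Pool.Agent.Lib.MP_8865d3_nt.Sv.Lie
import Pool.Agent.Lib.MP_651af7_nt.Av.Los

/-! Transfer of the data to the members of the family. -/

namespace Pool.Agent.Lib.MP_8865d3_nt.Sv

open MvPolynomial Filter Height Pool.Agent.Lib.MP_651af7_nt.Av

variable {α : Type} {U : Ultrafilter α} {k ι K : Type} [Field k] [Field K] {r : ℕ}

theorem GV.tang_germ {A : GV k ι} {x v l : α → ι → k} (h : ∀ᶠ n in U, A.Tang (x n) (v n) (l n)) :
    A.Tang (fun a => germ U fun n => x n a) (fun a => germ U fun n => v n a)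
      fun a => germ U fun n => l n a := by
  classical
  obtain ⟨n₀, h₀⟩ := h.exists
  let π : α → α := fun n => if A.Tang (x n) (v n) (l n) then n else n₀
  have h1 : ∀ n, A.Tang (x (π n)) (v (π n)) (l (π n)) := fun n => by
    by_cases hn : A.Tang (x n) (v n) (l n)
    · simpa only [π, if_pos hn] using hn
    · simpa only [π, if_neg hn] using h₀
  have h2 := (GV.tang_pi h1).map (germA U k)
  have h3 : ∀ z : α → ι → k, (fun a => germA U k fun n => z (π n) a) =
      fun a => germ U fun n => z n a := fun z => funext fun a =>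
    (germ_eq U).2 (h.mono fun n hn => by simp only [π, if_pos hn])
  rwa [h3, h3, h3] at h2

theorem GV.Kills.mul [Fintype ι] {A : GV k ι} {R : Type} [CommRing R] [Algebra k R] [Algebra K R]
    {g : ℕ} {σ : Fin g → ι → k} {C : Chart K ι r} {x : ι → R} {ℓ : Fin g → R}
    (h : A.Kills σ C x ℓ) (c : R) : A.Kills σ C x fun l => c * ℓ l := fun j => by
  obtain ⟨v, τ, h1, h2, h3⟩ := h j
  refine ⟨v, τ, h1, h2, ?_⟩
  simp only [mul_assoc]
  rw [← Finset.mul_sum, h3, mul_zero]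

theorem GV.kills_germ [Algebra K (Up U k)] {C : Chart K ι r} {Cn : α → Chart k ι r}
    (h : ReprC U C Cn) {x : α → ι → k} [Fintype ι] {A : GV k ι} {g : ℕ} {σ : Fin g → ι → k} {ℓ : α → Fin g → k}
    (hℓ : ∀ᶠ n in U, A.Kills σ (Cn n) (x n) (ℓ n)) :
    A.Kills σ C (fun a => germ U fun n => x n a) fun l => germ U fun n => ℓ n l := by
  intro j
  have h1 : ∀ n, ∃ (v : ι → k) (τ : Fin g → k), A.Kills σ (Cn n) (x n) (ℓ n) →
      (Cn n).Tv (x n) j v ∧ A.Tang (x n) v (fun a => ∑ l, τ l * algebraMap k k (σ l a)) ∧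
        ∑ l, ℓ n l * τ l = 0 := by
    intro n
    by_cases hn : A.Kills σ (Cn n) (x n) (ℓ n)
    · obtain ⟨v, τ, h⟩ := hn j
      exact ⟨v, τ, fun _ => h⟩
    · exact ⟨0, 0, fun h => absurd h hn⟩
  choose v τ hv using h1
  have h2 := hℓ.mono hv
  refine ⟨fun a => germ U fun n => v n a, fun l => germ U fun n => τ n l, ⟨fun l => ?_,
    fun a ha => ?_⟩, ?_, ?_⟩
  · have e : (if l = j then 1 else 0 : Up U k) = germ U fun _ => if l = j then 1 else 0 := by
      split_ifs
      · exact (map_one _).symm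
      · exact (map_zero _).symm
    rw [e, germ_eq]
    exact h2.mono fun n hn => h.I n ▸ hn.1.1 l
  · simp only [fun b => ((h.φ a).pderiv' b).aeval' x, ← map_mul, ← map_sum, germ_eq_zero]
    refine h2.mono fun n hn => ?_
    rw [Finset.sum_apply]
    exact hn.1.2 a (h.I n ▸ ha)
  · have h3 := GV.tang_germ (h2.mono fun n hn => hn.2.1)
    have e : (fun a => ∑ l, (germ U fun n => τ n l) * algebraMap k (Up U k) (σ l a)) =
        fun a => germ U fun n => ∑ l, τ n l * algebraMap k k (σ l a) := by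
      funext a
      simp only [algebraMap_up, ← map_mul, ← map_sum]
      congr 1
      funext n
      rw [Finset.sum_apply]
      rfl
    rw [e]
    exact h3
  · simp only [← map_mul, ← map_sum, germ_eq_zero]
    refine h2.mono fun n hn => ?_
    rw [Finset.sum_apply]
    exact hn.2.2

theorem GV.IsGerm.rep [Finite ι] {A : GV k ι} {Y : A.Pt (Up U k)} {y : α → A.Pt k} (h : GV.IsGerm U Y y)
    {x : α → ι → k} (hx : ∀ᶠ n in U, GV.Rep (y n) (x n)) :
    GV.Rep Y fun a => germ U fun n => x n a := by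
  refine GV.Rep.of_minors h (exists_unit_germ (hx.mono fun n hn => hn.unit)) fun a b => ?_
  rw [← map_mul, ← map_mul, germ_eq]
  exact hx.mono fun n hn => (GV.rep_co _).minors hn a b

theorem GV.IsGerm.of_rep [Finite ι] {A : GV k ι} {Y : A.Pt (Up U k)} {y : α → A.Pt k}
    (h : GV.IsGerm U Y y) {x : α → ι → k} (hx : GV.Rep Y fun a => germ U fun n => x n a) :
    ∀ᶠ n in U, GV.Rep (y n) (x n) := by
  obtain ⟨a, ha⟩ := hx.unit
  have h1 : ∀ᶠ n in U, ∀ a b, (y n).co a * x n b = (y n).co b * x n a :=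
    eventually_all.2 fun a => eventually_all.2 fun b => by
      have h2 := GV.Rep.minors h hx a b
      rwa [← map_mul, ← map_mul, germ_eq] at h2
  exact (h1.and (germ_isUnit.1 ha)).mono fun n hn => (GV.rep_co _).of_minors ⟨a, hn.2⟩ hn.1

theorem GV.tang_sum {B : GV k ι} {F J : Type} [Field F] [Algebra k F] {P : B.Pt F} {x : ι → F}
    (h : GV.Rep P x) (s : Finset J) (c : J → F) {v l : J → ι → F}
    (hv : ∀ j ∈ s, B.Tang x (v j) (l j)) :
    B.Tang x (∑ j ∈ s, c j • v j) (∑ j ∈ s, c j • l j) := by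
  classical
  induction s using Finset.induction_on with
  | empty => simpa using GV.tang_self h 0
  | insert j s hj ih =>
    rw [Finset.sum_insert hj, Finset.sum_insert hj]
    exact GV.Tang.add h (GV.Tang.smul h (hv j (Finset.mem_insert_self _ _)) _)
      (ih fun t ht => hv t (Finset.mem_insert_of_mem ht))

theorem GV.NoKill.eq_zero [Fintype ι] {E : Type} [Field E] [Algebra k K] [Algebra k E] [Algebra K E]
    [IsScalarTower k K E] {B : GV k ι} {g : ℕ} {σ : Fin g → ι → k} {Z : B.Pt E}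
    (hZ : GV.NoKill K σ Z) (C : Chart K ι r) {w : ι → E} (hw : GV.Rep Z w) (hC : C.At w)
    (ℓ : Fin g → K) (h : B.Kills σ C w fun l => algebraMap K E (ℓ l)) : ℓ = 0 := by
  choose v τ hv hτ hℓ using h
  refine hZ ℓ fun D => ⟨fun l => ∑ j, D (w (C.I j)) * τ j l, ?_, ?_⟩
  · have h1 := GV.tang_sum hw Finset.univ (fun j => D (w (C.I j))) fun j _ => hτ j
    have h2 := GV.lam_tang (D.restrictScalars k) hw
    have h3 := AV.geo_der C hC hv D (AlgHom.id K E)
    change B.Tang _ (fun a => D (w a)) _ at h2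
    simp only [AlgHom.id_apply] at h3
    rw [h3] at h2
    have h4 := GV.lam_tang (D.restrictScalars k) (GV.rep_co Z)
    rw [GV.Tang.unique hw h2 h1] at h4
    have e : (fun a => ∑ l, (∑ j, D (w (C.I j)) * τ j l) * algebraMap k E (σ l a)) =
        ∑ j, D (w (C.I j)) • fun a => ∑ l, τ j l * algebraMap k E (σ l a) := by
      funext a
      simp only [Finset.sum_apply, Pi.smul_apply, smul_eq_mul, Finset.sum_mul, Finset.mul_sum,
        mul_assoc]
      exact Finset.sum_comm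
    rw [e]
    exact h4
  · simp only [Finset.mul_sum]
    rw [Finset.sum_comm]
    refine Finset.sum_eq_zero fun j _ => ?_
    have h1 := congrArg (D (w (C.I j)) * ·) (hℓ j)
    simp only [Finset.mul_sum, mul_zero] at h1
    rw [← h1]
    exact Finset.sum_congr rfl fun l _ => mul_left_comm _ _ _

theorem GV.exists_isGerm [Finite ι] {A : GV k ι} (U : Ultrafilter α) (y : α → A.Pt k) :
    ∃ Y, GV.IsGerm U Y y :=
  GV.exists_rep (fun c => by
    obtain ⟨a, ha⟩ := Ultrafilter.eventually_exists_iff.1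
      (Eventually.of_forall (f := U) fun n => (GV.rep_co (y n)).uni c)
    exact ⟨a, ha.exists.elim fun _ h => h.1, germ_isUnit.2 (ha.mono fun _ h => h.2)⟩)
    fun P hP => by
      rw [aeval_germ, germ_eq_zero]
      exact .of_forall fun n => by simpa only [aeval_eq_eval] using (GV.rep_co (y n)).zero P hP

variable [NumberField k]

/-- The transfer of all the data. -/
theorem GV.exists_blk [Fintype ι] (B : GV k ι) {g : ℕ} {σ : Fin g → ι → k}
    (y : α → B.Pt k) (hH : Tendsto (fun n => GV.ht (y n)) U atTop) {Y : B.Pt (Up U k)}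
    (hY : GV.IsGerm U Y y) (hg : GV.NoKill (Sm k hH) σ Y) {e ρ : ℕ}
    {u : Fin (g + 1) → MvPolynomial ι (Sm k hH)}
    {c : ι → Fin ρ → MvPolynomial (Fin (g + 1)) (Sm k hH)} (hnn : NN (B.IK (Sm k hH)) e ρ u c)
    {un : α → Fin (g + 1) → MvPolynomial ι k}
    (hu : ∀ i, Repr U (MvPolynomial.map (algebraMap _ (Up U k)) (u i)) fun n => un n i) :
    ∃ (r B₀ : ℕ) (δ : ℝ) (b : α → B.Blk g r ρ), 0 < δ ∧ (∀ n, (b n).P = y n ∧ (b n).u = un n) ∧
      (∀ ε : ℝ, 0 < ε → ∀ᶠ n in U, (b n).Good σ B₀ e ε δ) ∧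
      ∀ B' : ℕ, ∃ δ' : ℝ, 0 < δ' ∧ ∀ᶠ n in U, ¬(b n).Exit B' (δ' * GV.ht (y n)) := by
  classical
  have : CharZero (Sm k hH) := charZero_of_injective_algebraMap (algebraMap k _).injective
  obtain ⟨a₀, ha₀⟩ := GV.Rep.unit hY
  obtain ⟨x, hx, hx0⟩ : ∃ x : α → ι → k, (∀ᶠ n in U, GV.Rep (y n) (x n)) ∧
      (germ U fun n => x n a₀) = 1 := by
    refine ⟨fun n a => ((y n).co a₀)⁻¹ * (y n).co a,
      (germ_isUnit.1 ha₀).mono fun n hn => (GV.rep_co (y n)).smul hn.inv, ?_⟩
    rw [← map_one (germ U), germ_eq]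
    exact (germ_isUnit.1 ha₀).mono fun n hn => inv_mul_cancel₀ hn.ne_zero
  have hX := hY.rep hx
  obtain ⟨r, C, -, hat, -, hind, hon⟩ :=
    exists_chart (K := Sm k hH) (fun a => germ U fun n => x n a) a₀ hx0
  obtain ⟨Cn, hC⟩ := exists_reprC (U := U) (k := k) C
  choose cn hcn using fun a l =>
    exists_repr (MvPolynomial.map (algebraMap (Sm k hH) (Up U k)) (c a l))
  obtain ⟨B₁, hB₁⟩ := Finite.exists_le fun a => (C.φ a).totalDegree
  obtain ⟨B₂, hB₂⟩ := Finite.exists_le fun i => (u i).totalDegree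
  obtain ⟨B₃, hB₃⟩ := Finite.exists_le fun p : ι × Fin ρ => (c p.1 p.2).totalDegree
  obtain ⟨δ, hδ, hnsv⟩ := exists_delta hH (p := fun δ n => ∃ ℓ : Fin g → k, ℓ ≠ 0 ∧
      B.Kills σ (Cn n) (x n) ℓ ∧ logHeight ℓ < δ * GV.ht (y n)) fun d hd h => by
    have h1 : ∀ n, ∃ ℓ : Fin g → k, (∃ ℓ : Fin g → k, ℓ ≠ 0 ∧
        B.Kills σ (Cn n) (x n) ℓ ∧ logHeight ℓ < d n * GV.ht (y n)) →
        ℓ ≠ 0 ∧ B.Kills σ (Cn n) (x n) ℓ ∧ logHeight ℓ < d n * GV.ht (y n) := fun n =>
      ⟨Classical.epsilon fun ℓ => ℓ ≠ 0 ∧ B.Kills σ (Cn n) (x n) ℓ ∧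
        logHeight ℓ < d n * GV.ht (y n), fun h => Classical.epsilon_spec h⟩
    choose ℓ hℓ using h1
    have h2 := h.mono hℓ
    obtain ⟨l₀, hl₀⟩ := Ultrafilter.eventually_exists_iff.1
      (h2.mono fun n hn => Function.ne_iff.1 hn.1)
    have h3 : ∀ l, (germ U fun n => (ℓ n l₀)⁻¹ * ℓ n l) ∈ Sm k hH := fun l =>
      (mem_sm_iff hH).2 (hd.mono (h2.mono fun n hn => by
        rw [← div_eq_inv_mul]
        exact (logHeight₁_div_le _ _ _).trans hn.2.2.le))
    have h4 := hg.eq_zero C hX hat (fun l => ⟨_, h3 l⟩)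
      (GV.kills_germ hC (ℓ := fun n l => (ℓ n l₀)⁻¹ * ℓ n l) (h2.mono fun n hn => hn.2.1.mul _))
    have h5 : (germ U fun n => (ℓ n l₀)⁻¹ * ℓ n l₀) = 0 := congrArg Subtype.val (congrFun h4 l₀)
    obtain ⟨n, h6, h7⟩ := ((germ_eq_zero.1 h5).and hl₀).exists
    exact mul_ne_zero (inv_ne_zero h7) h7 h6
  refine ⟨r, max B₁ (max B₂ B₃), δ, fun n => ⟨y n, x n, Cn n, un n, fun a l => cn a l n⟩, hδ,
    fun n => ⟨rfl, rfl⟩, fun ε hε => ?_, fun B' => ?_⟩
  · have h1 := hC.on hon (I := B.I) fun f hf => by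
      rw [RingHom.mem_ker, aeval_map_algebraMap]
      exact hX.zero f hf
    have h2 := hnn.transfer (cn := fun n a l => cn a l n) hu hcn
    have h3 := eventually_all.2 fun a => (hC.φ a).small hH (B := max B₁ (max B₂ B₃))
      ((hB₁ a).trans (le_max_left _ _)) hε
    have h4 := eventually_all.2 fun i => (hu i).small hH (B := max B₁ (max B₂ B₃))
      ((hB₂ i).trans ((le_max_left _ _).trans (le_max_right _ _))) hε
    have h5 := eventually_all.2 fun a => eventually_all.2 fun l =>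
      (hcn a l).small hH (B := max B₁ (max B₂ B₃))
        ((hB₃ (a, l)).trans ((le_max_right _ _).trans (le_max_right _ _))) hε
    filter_upwards [hx, hC.atx hat, h1, h2, h3, h4, h5, hnsv] with n h0 h0' h1 h2 h3 h4 h5 h6
    exact ⟨h0, h0', h1, h2, h3, h4, h5, fun ℓ hℓ hk => not_lt.1 fun hlt => h6 ⟨ℓ, hℓ, hk, hlt⟩⟩
  · obtain ⟨δ', hδ', h⟩ := exists_not_exit hH (fun n j => x n (C.I j)) hind B'
    refine ⟨δ', hδ', h.mono ?_⟩
    rintro n hn ⟨q, h1, h2, h3, h4, h5⟩
    refine hn q h1 h2 h3 h4 ?_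
    simpa only [hC.I] using h5

end Pool.Agent.Lib.MP_8865d3_nt.Sv
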