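import Pool.Agent.Lib.MP_8865d3_nt.Sv.Prod0B

/-! The product of an abelian variety and a torus exists. -/

namespace Pool.Agent.Lib.MP_8865d3_nt.Sv

open MvPolynomial Height Filter Pool.Agent.Lib.MP_651af7_nt.Av

variable {k ι : Type} [Field k] [Fintype ι]

section grp

variable (B : AV k ι) (s : ℕ)

/-- The classes of the Segre coordinates. -/
def p0cl (a : SI ι s) : SI ι s := (B.ao, a.2)

/-- The points of the product. -/
abbrev P0 (R : Type) [CommRing R] [Algebra k R] : Type := Prj (p0I B.I s) (p0cl B s) R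

variable {B s} {R : Type} [CommRing R] [Algebra k R]

omit [Fintype ι] [Algebra k R] in
theorem p0_uni {v : SI ι s → R} : Uni (p0cl B s) v ↔ ∀ ε, ∃ a, IsUnit (v (a, ε)) := by
  refine ⟨fun h ε => ?_, fun h c => ?_⟩
  · obtain ⟨⟨a, δ⟩, h1, h2⟩ := h (B.ao, ε)
    obtain rfl : δ = ε := congrArg Prod.snd h1
    exact ⟨a, h2⟩
  · obtain ⟨a, ha⟩ := h c.2
    exact ⟨(a, c.2), rfl, ha⟩

omit [Fintype ι] [Algebra k R] in
theorem p0_uni_sgr {x : ι → R} (hx : ∃ a, IsUnit (x a)) {u : Fin s → R} (hu : ∀ j, IsUnit (u j)) :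
    Uni (p0cl B s) (sgr x u) := p0_uni.2 fun ε => hx.imp fun _ h => (isUnit_ch hu ε).mul h

/-- The point with given components. -/
noncomputable def p0mk (z : B.Pt R × Additive (Fin s → Rˣ)) : P0 B s R :=
  Quotient.mk (Vec.rel _ _ R) ⟨sgr z.1.co fun j => z.2.toMul j,
    p0_uni_sgr (AV.rep_co z.1).unit fun _ => Units.isUnit _, p0_zero_sgr (AV.rep_co z.1).zero _⟩

omit [Fintype ι] in
theorem p0mk_co (z : B.Pt R × Additive (Fin s → Rˣ)) :
    ∃ c : Rˣ, ∀ a, (p0mk z).co a = c * sgr z.1.co (fun j => (z.2.toMul j : R)) a :=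
  Setoid.symm' (Vec.rel (p0I B.I s) (p0cl B s) R) (Quotient.mk_out _)

omit [Fintype ι] in
theorem p0mk_bij : Function.Bijective (p0mk : B.Pt R × Additive (Fin s → Rˣ) → P0 B s R) := by
  refine ⟨fun ⟨P, u⟩ ⟨Q, w⟩ h => ?_, fun p => ?_⟩
  · obtain ⟨c, hc⟩ := Quotient.exact h
    have h1 : ∀ a, Q.co a = c * P.co a := fun a => by
      simpa only [sgr, ch_false, one_mul] using hc (a, fun _ => false)
    obtain rfl : P = Q := AV.Rep.inj ⟨c, h1⟩ (AV.rep_co Q)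
    obtain ⟨a, ha⟩ := (AV.rep_co P).unit
    refine Prod.ext rfl (Additive.toMul.injective (funext fun j => Units.ext ?_))
    have h2 := hc (a, fun l => decide (l = j))
    simp only [sgr, ch_single] at h2
    rw [mul_left_comm, ← h1, ha.mul_left_inj] at h2
    exact h2.symm
  · induction p using Quotient.inductionOn with
    | h v =>
      obtain ⟨h1, u, hu⟩ := p0_struct (p0_uni.1 v.unit) v.zero
      obtain ⟨P, c, hc⟩ := AV.exists_rep (A := B) (v := hat v.co) (p0_uni.1 v.unit _) h1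
      refine ⟨(P, Additive.ofMul u), Quotient.sound ⟨c, fun a => ?_⟩⟩
      rw [congrFun hu a, sgr, hc]
      exact mul_left_comm _ _ _

variable [IsLocalRing R]

/-- The group structure of the product. -/
@[reducible] noncomputable def p0grp : AddCommGroup (P0 B s R) :=
  (Equiv.ofBijective _ p0mk_bij).symm.addCommGroup

theorem p0_law {c : ι → ι → ι × ι × ι × ι → k}
    (hc : ∀ a b (x y : ι → R), B.ph a b x y = p0q (c a b) x x y y) :
    @Law k _ _ (p0I B.I s) (p0cl B s) (p0Φ c) (fun a => B.o a.1) R _ _ p0grp := by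
  let _ : AddCommGroup (P0 B s R) := p0grp
  let e := Equiv.ofBijective _ (p0mk_bij (B := B) (s := s) (R := R))
  refine ⟨?_, fun p q => ?_⟩
  · obtain ⟨c₁, h₁⟩ := p0mk_co (0 : B.Pt R × Additive (Fin s → Rˣ))
    obtain ⟨c₂, h₂⟩ := AV.rep_zero (A := B) (R := R)
    refine ⟨c₂ * c₁⁻¹, fun a => ?_⟩
    change _ = _ * (p0mk (0 : B.Pt R × Additive (Fin s → Rˣ))).co a
    rw [h₁, Units.val_mul, mul_assoc, Units.inv_mul_cancel_left]
    exact (h₂ a.1).trans (congrArg _ (by simp [sgr, ch_one]))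
  obtain ⟨⟨P, u⟩, rfl⟩ := e.surjective p
  obtain ⟨⟨Q, w⟩, rfl⟩ := e.surjective q
  have e1 : e (P, u) + e (Q, w) = p0mk (P + Q, u + w) := by
    rw [Equiv.add_def]
    simp only [Equiv.symm_symm, Equiv.symm_apply_apply, e]
    rfl
  have e2 : e (P, u) - e (Q, w) = p0mk (P - Q, u - w) := by
    rw [Equiv.sub_def]
    simp only [Equiv.symm_symm, Equiv.symm_apply_apply, e]
    rfl
  obtain ⟨c₁, h₁⟩ := p0mk_co (P, u)
  obtain ⟨c₂, h₂⟩ := p0mk_co (Q, w)
  obtain ⟨c₃, h₃⟩ := p0mk_co (P + Q, u + w)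
  obtain ⟨c₄, h₄⟩ := p0mk_co (P - Q, u - w)
  obtain ⟨c₅, h₅⟩ := AV.law (AV.rep_co P) (AV.rep_co Q) (AV.rep_co _) (AV.rep_co _)
  refine ⟨c₁ ^ 2 * c₂ ^ 2 * c₅ * (∏ j, w.toMul j) * c₃⁻¹ * c₄⁻¹, fun a b => ?_⟩
  have e3 : ch (fun j => ((u + w).toMul j : R)) a.2 =
      ch (fun j => (u.toMul j : R)) a.2 * ch (fun j => (w.toMul j : R)) a.2 := by
    rw [← ch_mul]
    rfl
  have e4 : ch (fun j => ((u - w).toMul j : R)) b.2 * ∏ j, (w.toMul j : R) =
      ch (fun j => (u.toMul j : R)) b.2 * ch (fun j => (w.toMul j : R)) fun j => !b.2 j := by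
    rw [← ch_mul_not _ b.2, ← mul_assoc, ← ch_mul]
    simp only [toMul_sub, Pi.div_apply, ← Units.val_mul, div_mul_cancel]
  rw [e1, e2, h₃, h₄, p0Φ_aeval]
  change p0q _ (fun i => (p0mk (P, u)).co _) (fun i => (p0mk (P, u)).co _)
    (fun i => (p0mk (Q, w)).co _) (fun i => (p0mk (Q, w)).co _) = _
  simp only [h₁, h₂, sgr, ← mul_assoc (c₁ : R), ← mul_assoc (c₂ : R)]
  rw [p0q_mul, ← hc, h₅, e3]
  have i3 := c₃.inv_mul
  have i4 := c₄.inv_mul
  push_cast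
  generalize ch (fun j => ((u - w).toMul j : R)) b.2 = t at e4 ⊢
  generalize ∏ j, (w.toMul j : R) = t' at e4 ⊢
  linear_combination (c₁ ^ 2 * c₂ ^ 2 * c₅ * ch (fun j => (u.toMul j : R)) a.2 *
    ch (fun j => (w.toMul j : R)) a.2 * (P + Q).co a.1 * (P - Q).co b.1) *
    (-e4 - t * t' * (i3 + (c₃⁻¹ : Rˣ) * c₃ * i4))

theorem p0_psi {c : ι → ι × ι × ι × ι → k}
    (hc : ∀ a (x : ι → R), B.ph a B.ao x x = p0q (c a) x x x x) (p : P0 B s R) :
    (Uni (p0cl B s) fun a => aeval p.co (p0ψ c a)) ∧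
      ∀ P ∈ p0I B.I s, aeval (fun a => aeval p.co (p0ψ c a)) P = 0 := by
  obtain ⟨⟨P, u⟩, rfl⟩ := p0mk_bij.2 p
  obtain ⟨c₁, h₁⟩ := p0mk_co (P, u)
  obtain ⟨c₂, h₂⟩ := AV.law (AV.rep_co P) (AV.rep_co P) (AV.rep_co _)
    (sub_self P ▸ AV.rep_zero (A := B) (R := R))
  have h3 := (AV.rep_co (P + P)).smul ((c₁.isUnit.pow 4).mul c₂.isUnit)
  have e : (fun a => aeval (p0mk (P, u)).co (p0ψ c a)) =
      sgr (fun a => c₁ ^ 4 * c₂ * (P + P).co a) fun j => (u.toMul j : R) ^ 4 := by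
    funext a
    rw [p0ψ_aeval]
    simp only [h₁, sgr, ← mul_assoc (c₁ : R)]
    rw [p0q_mul, ← hc, h₂, B.o_ao, map_one, ch_pow]
    ring
  rw [e]
  exact ⟨p0_uni_sgr h3.unit fun _ => (Units.isUnit _).pow 4, p0_zero_sgr h3.zero _⟩

end grp

/-- `I'` is the kernel of `X (a, ε) ↦ X a * ch W ε` into `(k [X] / I) [W]`; its extension to
a field `K` is the kernel of the same map over `K` (coefficientwise, `cf`, `trCw`), a prime.
`Φ' (a, ε) (b, ε')`: in each monomial `x c * x d * y e * y f` of `Φ a b` put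
`x (c, ε) * x (d, ε') * y (e, ε) * y (f, !ε')`.  `ψ (a, ε) = Φ a ao (X (·, ε), X (·, ε))`,
`cl (a, ε) = (ao, ε)`, `o (a, ε) = o a`.  `Prj I' cl R ≃ B.Pt R × Additive (Fin s → Rˣ)`: a vector
`v` with `Uni cl v` that kills `I'` is `sgr (hat v) u`, by the quadrics
`X (a, ε) * X (b, δ) - X (a, ε₁) * X (b, δ₁)` in `I'`; transport the group structure. -/
theorem exists_prod (B : AV k ι) (s : ℕ) : ∃ G : GV k (SI ι s), IsProd B G := by
  choose c hc using fun a b => p0_exists_q (B.bih a b)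
  refine ⟨⟨p0I B.I s, p0_hom B.hom, fun M _ _ => p0_prime (B.prime M), p0Φ c, p0Φ_bih c,
    (B.ao, fun _ => false), fun a => B.o a.1, B.o_ao, p0cl B s, fun R _ _ _ => p0grp,
    fun R _ _ _ => p0_law fun a b => hc a b R, p0ψ fun a => c a B.ao, p0ψ_hom _,
    fun R _ _ _ => p0_psi fun a x => hc a B.ao R x x⟩,
    ⟨fun a b => ?_, fun R _ _ u w x y a b => ?_, fun R _ _ u x a => ?_⟩, rfl, fun _ => rfl,
    fun K _ _ => p0_mem_ext B.I, fun R _ _ x y a b => ?_, fun R _ _ x a => ?_⟩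
  · simp [p0cl]
  · simp only [GV.ph, p0Φ_aeval, p0q_mul]
  · simp only [p0ψ_aeval, p0q_mul]
    ring
  · exact (p0Φ_aeval c a b _ _).trans (hc a.1 b.1 R x y).symm
  · exact (p0ψ_aeval _ a _).trans (hc a.1 B.ao R x x).symm

end Pool.Agent.Lib.MP_8865d3_nt.Sv
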