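import Pool.Agent.Lib.MP_8865d3_nt.Sv.Frm
import Pool.Agent.Lib.MP_8865d3_nt.Sv.Prod0

/-! No family approaches a hypersurface quickly at a place outside `T`. -/

namespace Pool.Agent.Lib.MP_8865d3_nt.Sv

open MvPolynomial Height Filter Pool.Agent.Lib.MP_651af7_nt.Av

variable {α : Type} {U : Ultrafilter α} {k ι : Type} [Field k] [NumberField k] [Fintype ι] {s : ℕ}

theorem exists_of_not_lo {H f : α → ℝ} (h : ¬Lo U H f) :
    ∃ η : ℝ, 0 < η ∧ ∀ᶠ n in U, η * H n < f n := by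
  simp only [Lo, not_forall] at h
  obtain ⟨η, hη, h⟩ := h
  exact ⟨η, hη, (Ultrafilter.eventually_not.2 h).mono fun n => not_le.1⟩

theorem seq_prox (A : AV k ι) {R : MvPolynomial (ι ⊕ Fin s) k} {e : ℕ}
    (hR : R.IsWeightedHomogeneous (xw ι s) e) (T : Finset (AbsoluteValue k ℝ))
    {v : AbsoluteValue k ℝ} (hv : Adm v) (hvT : v ∉ T) (x : α → A.Pt k)
    (u : α → Fin s → k) (hu : ∀ n j, u n j ≠ 0) {H : α → ℝ} (hH : Tendsto H U atTop)
    (hB : Bo U H fun n => hp (x n) (u n)) (hdf : Lo U H fun n => df T (u n))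
    (h0 : ∀ᶠ n in U, eval (Sum.elim (x n).co (u n)) R ≠ 0) :
    Lo U H fun n =>
      e * Real.log (nm v (x n).co) - Real.log (v (eval (Sum.elim (x n).co (u n)) R)) := by
  classical
  have hx0 : ∀ n, (x n).co ≠ 0 := fun n =>
    Function.ne_iff.2 ((AV.rep_co (x n)).unit.imp fun _ h => h.ne_zero)
  by_cases hlo : Lo U H fun n => hp (x n) (u n)
  · obtain ⟨C, hC, h⟩ := liouville hR
    exact (lo_mul_nonneg hH (hlo.add (Lo.const hH 1)) hC).mono
      (h0.mono fun n hn => h _ _ (hx0 n) hn v hv)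
  by_contra hcon
  obtain ⟨η, hη, hbad⟩ := exists_of_not_lo hcon
  obtain ⟨B, h, y, a, X, Y, aK, a', hC⟩ := exists_cos A x hH
  obtain ⟨s', M, N, c, w, cK, hL⟩ := exists_lat hH u hu
  obtain ⟨G, hG⟩ := exists_prod B s'
  have h1 := hC.bo_le hL hB
  have h2 := hC.bo_ge hL (bo_of_not_lo hlo)
  have hfib := hL.fib_df (fib_const T hH hdf)
  obtain ⟨e', L, _, f, j, val, cc, hF, -⟩ := exists_frm hC hL hG (fun _ => T) hfib.lo
    (Γ := fun _ : Unit => R) (fun _ => hR) (h0.mono fun n hn h => hn (congrFun h ()))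
  obtain ⟨l₀, hl₀⟩ := hF.ne
  obtain ⟨C, hC0, h3⟩ := h1.pos hH
  refine hG.finish hH hL.w_ne h1 h2 hC.gY hC.gens hL.indep (fun _ => T) hfib hF.pos
    (fun i => if i = 0 then {f l₀} else Finset.univ.image fun c => MvPolynomial.X c ^ e')
    (fun i g hg => ?_) (fun i F _ _ _ _ z hz0 hz hg => ?_) (md := some v)
    ⟨hG.dim_eq ▸ hC.one_le_dim h2, fun _ e => Option.some.inj e ▸ hv⟩ (η := η / 2 / C)
    (by positivity) fun γ un _ hun => ?_
  · split_ifs at hg
    · rw [Finset.mem_singleton.1 hg]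
      exact hF.hom l₀
    · obtain ⟨c, -, rfl⟩ := Finset.mem_image.1 hg
      exact isHomogeneous_X_pow c _
  · split_ifs at hg with hi
    · subst hi
      simpa using hF.td_le hG hC.gY hl₀ hz0 hz (hg _ (Finset.mem_singleton_self _))
    · exact absurd (AV.eq_zero_of_pow hg) hz0
  obtain ⟨c', h4, h5, h6, h7⟩ := hF.bound (I := Unit) (𝒢 := fun _ => {f l₀})
    (fun _ g hg => ⟨l₀, (Finset.mem_singleton.1 hg).symm⟩) (γ := fun _ => γ 0)
    (un := fun n _ => un n 0) fun _ => by simpa using hun 0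
  filter_upwards [hbad, h0, h3, h6 (η / 2) (half_pos hη), h7] with n h8 h9 h10 h11 h12
  refine ⟨hvT, ?_⟩
  rw [BadR, hG.logHeight_sgr _ (hL.w_ne n)]
  have h13 := (single_le_osum hv hvT (h5 n) fun w => Real.log_nonneg (h4 n w)).trans h11
  have h14 := h12 v
  simp only [nm, ciSup_const] at h14
  have h15 := pow_pos (nm_pos v (hx0 n)) e
  have h16 : c' n v * v (eval (Sum.elim (x n).co (u n)) R) ≤
      Real.exp (-(η / 2 / C * hp (y n) (w n))) * nm v (x n).co ^ e := by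
    have h17 := mul_pos (one_pos.trans_le (h4 n v)) (v.pos h9)
    rw [← Real.log_le_log_iff h17 (by positivity), Real.log_mul (one_pos.trans_le (h4 n v)).ne'
      (v.pos h9).ne', Real.log_mul (Real.exp_pos _).ne' h15.ne', Real.log_exp, Real.log_pow]
    have h18 : η / 2 / C * hp (y n) (w n) ≤ η / 2 * H n :=
      (mul_le_mul_of_nonneg_left h10 (by positivity)).trans (le_of_eq (by field_simp))
    linarith
  refine le_of_mul_le_mul_right (h14.trans ?_) h15
  rw [mul_assoc, mul_left_comm, mul_assoc]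
  exact mul_le_mul_of_nonneg_left h16 (pow_nonneg (nm_nn v (sgr (y n).co (w n))) _)

end Pool.Agent.Lib.MP_8865d3_nt.Sv
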