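import Pool.Agent.Lib.MP_8865d3_nt.Sv.Voc
import Pool.Agent.Lib.MP_651af7_nt.Av.Geo

/-! Polynomials in two groups of variables; generic points of a product with an affine space. -/

namespace Pool.Agent.Lib.MP_8865d3_nt.Sv

open MvPolynomial Pool.Agent.Lib.MP_651af7_nt.Av

set_option linter.unusedSectionVars false

variable {k ι σ K F F' : Type} [Field k] [Fintype ι] [Fintype σ] [Field K] [Field F] [Field F']
  [Algebra K F] [Algebra K F']

/-- The degree in the first group of variables. -/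
def cw (ι σ : Type) : ι ⊕ σ → ℕ := Sum.elim (fun _ => 1) fun _ => 0

/-- A polynomial in the second group of variables. -/
noncomputable def toW : MvPolynomial (ι ⊕ σ) K →ₐ[K] MvPolynomial σ (MvPolynomial ι K) :=
  aeval (Sum.elim (fun a => C (X a)) X)

theorem aeval_toW {R : Type} [CommRing R] [Algebra K R] (x : ι → R) (z : σ → R)
    (f : MvPolynomial (ι ⊕ σ) K) : aeval (Sum.elim x z) f =
      eval₂ (aeval x : MvPolynomial ι K →ₐ[K] R).toRingHom z (toW f) := by
  induction f using MvPolynomial.induction_on with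
  | C r =>
    rw [algHom_C, algHom_C, MvPolynomial.algebraMap_apply, eval₂_C]
    exact (aeval_C x r).symm
  | add p q hp hq => rw [map_add, map_add, eval₂_add, hp, hq]
  | mul_X p i h =>
    rw [map_mul, map_mul, eval₂_mul, h]
    cases i <;> simp [toW]

theorem aeval_eq_sum_toW {R : Type} [CommRing R] [Algebra K R] (x : ι → R) (z : σ → R)
    (f : MvPolynomial (ι ⊕ σ) K) : aeval (Sum.elim x z) f =
      ∑ ν ∈ (toW f).support, aeval x (coeff ν (toW f)) * ∏ t, z t ^ ν t := by
  rw [aeval_toW, eval₂_eq']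
  rfl

theorem eq_sum_toW (f : MvPolynomial (ι ⊕ σ) K) :
    f = ∑ ν ∈ (toW f).support, rename Sum.inl (coeff ν (toW f)) * ∏ t, X (.inr t) ^ ν t := by
  have h := aeval_eq_sum_toW (fun a => (X (.inl a) : MvPolynomial (ι ⊕ σ) K))
    (fun t => X (.inr t)) f
  have e : (Sum.elim (fun a => (X (.inl a) : MvPolynomial (ι ⊕ σ) K)) fun t => X (.inr t)) = X := by
    ext (a | a) : 1 <;> rfl
  rw [e, aeval_X_left_apply] at h
  rw [rename_eq_aeval]
  exact h

theorem toW_rename (P : MvPolynomial ι K) :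
    toW (rename Sum.inl P : MvPolynomial (ι ⊕ σ) K) = C P := by
  induction P using MvPolynomial.induction_on with
  | C r => rw [algHom_C, AlgHom.commutes, MvPolynomial.algebraMap_apply, algebraMap_eq]
  | add p q hp hq => rw [map_add, map_add, map_add, hp, hq]
  | mul_X p i h =>
    rw [map_mul, map_mul, map_mul, h]
    simp [toW]

theorem mem_toW_iff {I : Ideal (MvPolynomial ι K)} {f : MvPolynomial (ι ⊕ σ) K} :
    f ∈ I.map (rename Sum.inl) ↔ ∀ ν, coeff ν (toW f) ∈ I := by
  refine ⟨fun h => mem_map_C_iff.1 ?_, fun h => ?_⟩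
  · have h1 : I.map (rename Sum.inl : MvPolynomial ι K →ₐ[K] MvPolynomial (ι ⊕ σ) K) ≤
        (I.map (C : _ →+* MvPolynomial σ (MvPolynomial ι K))).comap toW :=
      Ideal.map_le_iff_le_comap.2 fun P hP => by
        rw [Ideal.mem_comap, Ideal.mem_comap, toW_rename]
        exact Ideal.mem_map_of_mem _ hP
    exact h1 h
  · rw [eq_sum_toW f]
    exact Ideal.sum_mem _ fun ν _ => Ideal.mul_mem_right _ _ (Ideal.mem_map_of_mem _ (h ν))

theorem toW_hom {f : MvPolynomial (ι ⊕ σ) K} {n : ℕ} (hf : f.IsWeightedHomogeneous (cw ι σ) n)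
    (ν : σ →₀ ℕ) : (coeff ν (toW f)).IsHomogeneous n := by
  classical
  induction hf using IsWeightedHomogeneous.induction_on with
  | zero => simpa using isHomogeneous_zero _ _ _
  | add p q _ _ hp hq =>
    rw [map_add, coeff_add]
    exact hp.add hq
  | monomial m r hm =>
    have h1 : toW (monomial m r) = monomial (Finsupp.equivFunOnFinite.symm fun t => m (.inr t))
        (C r * ∏ a, X a ^ m (.inl a)) := by
      rw [toW, aeval_monomial, Finsupp.prod_fintype _ _ (by simp), Fintype.prod_sum_type,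
        monomial_eq, Finsupp.prod_fintype _ _ (by simp)]
      simp [mul_assoc]
    have h2 : n = ∑ a, m (.inl a) := by
      rw [← hm, Finsupp.weight_eq_sum, Fintype.sum_sum_type]
      simp [cw]
    rw [h1, coeff_monomial]
    split_ifs
    · rw [h2]
      exact (IsHomogeneous.prod _ _ _ fun a _ => isHomogeneous_X_pow a _).C_mul r
    · exact isHomogeneous_zero _ _ _

theorem cw_hom_aeval {τ τ' : Type} {w : τ → ℕ} {w' : τ' → ℕ} {v : τ → MvPolynomial τ' K}
    (hv : ∀ i, (v i).IsWeightedHomogeneous w' (w i)) {f : MvPolynomial τ K} {n : ℕ}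
    (hf : f.IsWeightedHomogeneous w n) : (aeval v f).IsWeightedHomogeneous w' n := by
  rw [aeval_def, eval₂_eq]
  refine IsWeightedHomogeneous.sum _ _ _ fun m hm => ?_
  rw [← hf (mem_support_iff.mp hm), Finsupp.weight_apply, Finsupp.sum]
  exact (IsWeightedHomogeneous.prod _ _ _ fun i _ => (hv i).pow (m i)).C_mul _

theorem cw_hom_inl {P : MvPolynomial ι K} {n : ℕ} (hP : P.IsHomogeneous n) :
    (rename Sum.inl P : MvPolynomial (ι ⊕ σ) K).IsWeightedHomogeneous (cw ι σ) n := by
  rw [rename_eq_aeval]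
  exact cw_hom_aeval (w := 1) (fun a => isWeightedHomogeneous_X K (cw ι σ) (.inl a)) hP

theorem cw_hom_inr (P : MvPolynomial σ K) :
    (rename Sum.inr P : MvPolynomial (ι ⊕ σ) K).IsWeightedHomogeneous (cw ι σ) 0 := by
  rw [rename_eq_aeval]
  exact cw_hom_aeval (w := fun _ => 0) (fun a => isWeightedHomogeneous_X K (cw ι σ) (.inr a))
    fun m _ => by simp [Finsupp.weight_apply]

theorem aeval_mul_of_cw {R : Type} [CommRing R] [Algebra K R] {f : MvPolynomial (ι ⊕ σ) K} {n : ℕ}
    (hf : f.IsWeightedHomogeneous (cw ι σ) n) (c : R) (x : ι → R) (z : σ → R) :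
    aeval (Sum.elim (fun a => c * x a) z) f = c ^ n * aeval (Sum.elim x z) f := by
  rw [aeval_eq_sum_toW, aeval_eq_sum_toW, Finset.mul_sum]
  exact Finset.sum_congr rfl fun ν _ => by rw [aeval_mul_of_hom (toW_hom hf ν), mul_assoc]

theorem cw_homogenise (f : MvPolynomial (ι ⊕ σ) K) (b : ι) :
    ∃ (g : MvPolynomial (ι ⊕ σ) K) (n : ℕ), g.IsWeightedHomogeneous (cw ι σ) n ∧
      ∀ (R : Type) [CommRing R] [Algebra K R] (v : ι ⊕ σ → R), v (.inl b) = 1 →
        aeval v g = aeval v f := by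
  refine ⟨∑ m ∈ f.support, X (.inl b) ^ (weightedTotalDegree (cw ι σ) f - m.weight (cw ι σ)) *
    monomial m (coeff m f), weightedTotalDegree (cw ι σ) f, ?_, fun R _ _ v hv => ?_⟩
  · refine IsWeightedHomogeneous.sum _ _ _ fun m hm => ?_
    have h := ((isWeightedHomogeneous_X K (cw ι σ) (.inl b)).pow
      (weightedTotalDegree (cw ι σ) f - m.weight (cw ι σ))).mul
      (isWeightedHomogeneous_monomial (cw ι σ) m (coeff m f) rfl)
    rwa [show cw ι σ (.inl b) = 1 from rfl, smul_eq_mul, mul_one,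
      Nat.sub_add_cancel (le_weightedTotalDegree _ hm)] at h
  · conv_rhs => rw [f.as_sum]
    rw [map_sum, map_sum]
    refine Finset.sum_congr rfl fun m _ => ?_
    rw [map_mul, map_pow, aeval_X, hv, one_pow, one_mul]

theorem cod_rat_eq {w : ι → F} {b : ι} (hb : w b ≠ 0) (z : σ → F) :
    td K (rat w ∪ Set.range z) = td K (Set.range (Sum.elim (fun a => (w b)⁻¹ * w a) z)) := by
  refine le_antisymm (tr_td_le ?_) (td_mono ?_)
  · obtain ⟨L, hL, hS⟩ := tr_cl (K := K) (Set.range (Sum.elim (fun a => (w b)⁻¹ * w a) z))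
    rw [← hL]
    rintro _ (⟨p, rfl⟩ | ⟨t, rfl⟩)
    · have h := L.div_mem (hS ⟨.inl p.1, rfl⟩) (hS ⟨.inl p.2, rfl⟩)
      rwa [Sum.elim_inl, Sum.elim_inl, mul_div_mul_left _ _ (inv_ne_zero hb)] at h
    · exact hS ⟨.inr t, rfl⟩
  · rintro _ ⟨a | t, rfl⟩
    · exact .inl ⟨(a, b), (inv_mul_eq_div _ _).symm⟩
    · exact .inr ⟨t, rfl⟩

/-- The degree drops under a specialisation, strictly unless the ideals are equal. -/
theorem cod_spec {x : ι → F} {y : σ → F} {w : ι → F'} {z : σ → F'} (hw : w ≠ 0)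
    (h : ∀ (f : MvPolynomial (ι ⊕ σ) K) (n : ℕ), f.IsWeightedHomogeneous (cw ι σ) n →
      aeval (Sum.elim x y) f = 0 → aeval (Sum.elim w z) f = 0) :
    td K (rat w ∪ Set.range z) ≤ td K (rat x ∪ Set.range y) ∧
      (td K (rat x ∪ Set.range y) ≤ td K (rat w ∪ Set.range z) →
        ∀ (f : MvPolynomial (ι ⊕ σ) K) (n : ℕ), f.IsWeightedHomogeneous (cw ι σ) n →
          aeval (Sum.elim w z) f = 0 → aeval (Sum.elim x y) f = 0) := by
  obtain ⟨b, hb⟩ := Function.ne_iff.1 hw
  have hb' : w b ≠ 0 := hb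
  have hx : x b ≠ 0 := fun h0 => hb' (by
    simpa using h (X (.inl b)) 1 (isWeightedHomogeneous_X K (cw ι σ) (.inl b)) (by simpa using h0))
  have h1 := td_le_of_spec (K := K) (x := Sum.elim (fun a => (x b)⁻¹ * x a) y)
    (w := Sum.elim (fun a => (w b)⁻¹ * w a) z) (fun f hf => by
      obtain ⟨g, n, hg, e⟩ := cw_homogenise f b
      rw [← e F _ (inv_mul_cancel₀ hx), aeval_mul_of_cw hg] at hf
      rw [← e F' _ (inv_mul_cancel₀ hb'), aeval_mul_of_cw hg, h g n hg
        ((mul_eq_zero.1 hf).resolve_left (pow_ne_zero _ (inv_ne_zero hx))), mul_zero])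
  rw [cod_rat_eq hb', cod_rat_eq hx]
  refine ⟨h1.1, fun hle f n hf h0 => ?_⟩
  have h2 := h1.2 hle f (by rw [aeval_mul_of_cw hf, h0, mul_zero])
  rw [aeval_mul_of_cw hf] at h2
  exact (mul_eq_zero.1 h2).resolve_left (pow_ne_zero _ (inv_ne_zero hx))

/-- Free variables over a field. -/
theorem cod_free (F σ : Type) [Field F] : ∃ (M : Type) (_ : Field M) (_ : Algebra F M)
    (T : σ → M), AlgebraicIndependent F T :=
  ⟨FractionRing (MvPolynomial σ F), inferInstance, inferInstance, _,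
    (algebraicIndependent_X σ F).map' (f := IsScalarTower.toAlgHom F (MvPolynomial σ F) _)
      (IsFractionRing.injective _ _)⟩

theorem cod_td_free [Algebra F F'] [IsScalarTower K F F'] {T : σ → F'}
    (hT : AlgebraicIndependent F T) (S : Set F) :
    td K S + (Fintype.card σ : ℕ) ≤ td K (algebraMap F F' '' S ∪ Set.range T) := by
  refine le_trans (add_le_add (td_image (IsScalarTower.toAlgHom K F F') S).ge ?_)
    (td_add_le (M := F) (Set.image_subset_range _ _))
  rw [← ENat.card_eq_coe_fintype_card]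
  exact card_le_td hT fun i => ⟨i, rfl⟩

theorem cod_td_range (z : σ → F) : td K (Set.range z) ≤ (Fintype.card σ : ℕ) := by
  refine (td_le_encard _).trans ?_
  rw [← ENat.card_eq_coe_fintype_card, ← Set.image_univ, ← Set.encard_univ]
  exact Set.encard_image_le _ _

variable (B : AV k ι) [Algebra k K]

theorem cod_le [Algebra k F] [IsScalarTower k K F] {w : ι → F} (hw : ∀ f ∈ B.I, aeval w f = 0)
    (z : σ → F) : td K (rat w ∪ Set.range z) ≤ (B.dim + Fintype.card σ : ℕ) := by
  rw [Nat.cast_add]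
  exact (td_union_le _ _).trans (add_le_add (B.td_le_dim hw) (cod_td_range z))

variable (K σ) in
/-- A generic point of the product. -/
theorem cod_gen : ∃ (M : Type) (_ : Field M) (_ : Algebra k M) (_ : Algebra K M)
    (_ : IsScalarTower k K M) (x : ι → M) (z : σ → M),
      (∀ f, aeval (Sum.elim x z) f = 0 ↔ f ∈ (B.IK K).map (rename Sum.inl)) ∧ x B.ao ≠ 0 ∧
      (∀ t, z t ≠ 0) ∧ (∀ f ∈ B.I, aeval x f = 0) ∧
      td K (rat x ∪ Set.range z) = (B.dim + Fintype.card σ : ℕ) := by
  obtain ⟨M₀, _, _, _, _, x, hx, hx0, hd, -⟩ := B.tr_gen K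
  obtain ⟨M, _, _, T, hT⟩ := cod_free M₀ σ
  let _ : Algebra K M := ((algebraMap M₀ M).comp (algebraMap K M₀)).toAlgebra
  have : IsScalarTower K M₀ M := .of_algebraMap_eq fun _ => rfl
  let _ : Algebra k M := ((algebraMap K M).comp (algebraMap k K)).toAlgebra
  have : IsScalarTower k K M := .of_algebraMap_eq fun _ => rfl
  have hz : ∀ f ∈ B.I, aeval (fun a => algebraMap M₀ M (x a)) f = 0 := fun f hf => by
    rw [← aeval_map_algebraMap K]
    exact (aeval_algebraMap_apply _ x _).trans (by rw [(hx _).2 (B.mem_IK_iff.2 hf), map_zero])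
  refine ⟨M, inferInstance, inferInstance, inferInstance, this, fun a => algebraMap M₀ M (x a), T,
    fun f => ?_, (map_ne_zero _).2 hx0, fun t h0 => hT.transcendental t (h0 ▸ isAlgebraic_zero),
    hz, le_antisymm (cod_le B hz T) ?_⟩
  · have h1 : aeval (Sum.elim (fun a => algebraMap M₀ M (x a)) T) f =
        aeval T (MvPolynomial.map (aeval x : MvPolynomial ι K →ₐ[K] M₀).toRingHom (toW f)) := by
      rw [aeval_toW, aeval_def, eval₂_map]
      congr 1
      exact RingHom.ext fun P => aeval_algebraMap_apply _ x P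
    rw [h1, map_eq_zero_iff _ hT, mem_toW_iff, MvPolynomial.ext_iff]
    refine forall_congr' fun ν => ?_
    rw [coeff_map, coeff_zero]
    exact hx _
  · rw [Nat.cast_add, ← hd]
    refine (cod_td_free hT _).trans (td_mono (Set.union_subset_union_left _ ?_))
    rintro _ ⟨_, ⟨p, rfl⟩, rfl⟩
    exact ⟨p, (map_div₀ _ _ _).symm⟩

theorem cod_zero [Algebra k F] [IsScalarTower k K F] {w : ι → F} (hw : ∀ f ∈ B.I, aeval w f = 0)
    (z : σ → F) {f : MvPolynomial (ι ⊕ σ) K} (hf : f ∈ (B.IK K).map (rename Sum.inl)) :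
    aeval (Sum.elim w z) f = 0 := by
  rw [aeval_eq_sum_toW]
  exact Finset.sum_eq_zero fun ν _ => by
    rw [B.tr_zero_IK hw _ (mem_toW_iff.1 hf ν), zero_mul]

theorem cod_gen_iff [Algebra k F] [IsScalarTower k K F] {w : ι → F} (h0 : w ≠ 0)
    (hw : ∀ f ∈ B.I, aeval w f = 0) (z : σ → F) : (∀ (f : MvPolynomial (ι ⊕ σ) K) (n : ℕ),
      f.IsWeightedHomogeneous (cw ι σ) n → aeval (Sum.elim w z) f = 0 →
      f ∈ (B.IK K).map (rename Sum.inl)) ↔
    td K (rat w ∪ Set.range z) = (B.dim + Fintype.card σ : ℕ) := by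
  obtain ⟨M, _, _, _, _, x, y, hx, hx0, -, -, hd⟩ := cod_gen σ K B
  refine ⟨fun h => le_antisymm (cod_le B hw z) ?_, fun h f n hn hf => (hx f).1 ?_⟩
  · rw [← hd]
    exact (cod_spec (Function.ne_iff.2 ⟨_, hx0⟩) fun f n hn hf => (hx f).2 (h f n hn hf)).1
  · exact (cod_spec h0 fun f _ _ hf => cod_zero B hw z ((hx f).1 hf)).2
      (hd.trans h.symm).le f n hn hf

/-- At a generic point the monomials in the second group of variables are independent. -/
theorem cod_indep [Algebra k F] [IsScalarTower k K F] {w : ι → F} (h0 : w ≠ 0)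
    (hw : ∀ f ∈ B.I, aeval w f = 0) {z : σ → F}
    (hd : td K (rat w ∪ Set.range z) = (B.dim + Fintype.card σ : ℕ)) {τ : Type} (S : Finset τ)
    (n : τ → σ → ℕ) (hn : Set.InjOn n S) (P : τ → MvPolynomial ι K) {d : ℕ}
    (hP : ∀ i, (P i).IsHomogeneous d) (h : ∑ i ∈ S, aeval w (P i) * ∏ t, z t ^ n i t = 0) :
    ∀ i ∈ S, P i ∈ B.IK K := by
  classical
  intro i hi
  have h1 := (cod_gen_iff B h0 hw z).2 hd
    (∑ i ∈ S, rename Sum.inl (P i) * rename Sum.inr (∏ t, X t ^ n i t)) d
    (IsWeightedHomogeneous.sum _ _ _ fun i _ => (cw_hom_inl (hP i)).mul (cw_hom_inr _)) (by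
      rw [← h, map_sum]
      refine Finset.sum_congr rfl fun i _ => ?_
      rw [map_mul, aeval_rename, aeval_rename]
      simp [Function.comp_def])
  have h2 := mem_toW_iff.1 h1 (Finsupp.equivFunOnFinite.symm (n i))
  have h3 : ∀ l, toW (rename Sum.inl (P l) * rename Sum.inr (∏ t, X t ^ n l t) :
      MvPolynomial (ι ⊕ σ) K) = monomial (Finsupp.equivFunOnFinite.symm (n l)) (P l) := fun l => by
    rw [map_mul, toW_rename, monomial_eq, Finsupp.prod_fintype _ _ (by simp)]
    simp [toW]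
  rw [map_sum, coeff_sum, Finset.sum_eq_single_of_mem i hi fun l hl hli => by
    rw [h3, coeff_monomial, if_neg fun e => hli (hn hl hi (Finsupp.equivFunOnFinite.symm.injective e))],
    h3, coeff_monomial, if_pos rfl] at h2
  exact h2

end Pool.Agent.Lib.MP_8865d3_nt.Sv
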