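import Pool.Agent.Lib.MP_651af7_nt.Av.Defs

/-! Group varieties that are open in a projective variety, as group functors on local algebras. -/

namespace Pool.Agent.Lib.MP_8865d3_nt.Sv

open MvPolynomial Pool.Agent.Lib.MP_651af7_nt.Av

variable {k : Type} [Field k] {ι : Type}

/-- In each class of coordinates there is a unit. -/
def Uni {R : Type} [CommRing R] (cl : ι → ι) (v : ι → R) : Prop :=
  ∀ c, ∃ a, cl a = cl c ∧ IsUnit (v a)

theorem Uni.map {R R' F : Type} [CommRing R] [CommRing R'] [FunLike F R R']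
    [MonoidHomClass F R R'] (f : F) {cl : ι → ι} {v : ι → R} (h : Uni cl v) :
    Uni cl fun a => f (v a) := fun c => (h c).imp fun _ h => ⟨h.1, h.2.map f⟩

theorem Uni.of_map {R R' F : Type} [CommRing R] [CommRing R'] [FunLike F R R'] (f : F)
    [IsLocalHom f] {cl : ι → ι} {v : ι → R} (h : Uni cl fun a => f (v a)) : Uni cl v :=
  fun c => (h c).imp fun _ h => ⟨h.1, IsLocalHom.map_nonunit _ h.2⟩

theorem Uni.smul {R : Type} [CommRing R] {cl : ι → ι} {v : ι → R} (h : Uni cl v) {c : R}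
    (hc : IsUnit c) : Uni cl fun a => c * v a := fun d => (h d).imp fun _ h => ⟨h.1, hc.mul h.2⟩

/-- Unimodular zeros of `I` with coordinates in `R`. -/
structure Vec (I : Ideal (MvPolynomial ι k)) (cl : ι → ι) (R : Type) [CommRing R] [Algebra k R] where
  co : ι → R
  unit : Uni cl co
  zero : ∀ P ∈ I, aeval co P = 0

/-- Proportionality by a unit. -/
def Vec.rel (I : Ideal (MvPolynomial ι k)) (cl : ι → ι) (R : Type) [CommRing R] [Algebra k R] :
    Setoid (Vec I cl R) where
  r v w := ∃ u : Rˣ, ∀ a, w.co a = u * v.co a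
  iseqv := ⟨fun _ => ⟨1, fun _ => by simp⟩,
    fun ⟨u, h⟩ => ⟨u⁻¹, fun a => by rw [h, Units.inv_mul_cancel_left]⟩,
    fun ⟨u, h⟩ ⟨u', h'⟩ => ⟨u' * u, fun a => by rw [h', h, Units.val_mul, mul_assoc]⟩⟩

/-- Points of the projective scheme of `I` with values in the local ring `R`. -/
def Prj (I : Ideal (MvPolynomial ι k)) (cl : ι → ι) (R : Type) [CommRing R] [Algebra k R] : Type :=
  Quotient (Vec.rel I cl R)

/-- Chosen coordinates of a point. -/
noncomputable def Prj.co {I : Ideal (MvPolynomial ι k)} {cl : ι → ι} {R : Type} [CommRing R] [Algebra k R]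
    (p : Prj I cl R) : ι → R := (Quotient.out p : Vec I cl R).co

/-- The group laws on `Prj I cl R` given by `(x + y)_a (x - y)_b = Φ a b (x, y)` up to a unit, with
neutral element `o`. -/
def Law {I : Ideal (MvPolynomial ι k)} {cl : ι → ι} (Φ : ι → ι → MvPolynomial (ι ⊕ ι) k) (o : ι → k)
    (R : Type) [CommRing R] [Algebra k R] [AddCommGroup (Prj I cl R)] : Prop :=
  (∃ u : Rˣ, ∀ a, algebraMap k R (o a) = u * (0 : Prj I cl R).co a) ∧
  ∀ p q : Prj I cl R, ∃ u : Rˣ, ∀ a b,
    aeval (Sum.elim p.co q.co) (Φ a b) = u * ((p + q).co a * (p - q).co b)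

/-- A commutative group variety over `k`, open in a projective variety, with its addition and subtraction given by
one family of forms of bidegree `(2, 2)`. -/
structure GV (k : Type) [Field k] (ι : Type) where
  I : Ideal (MvPolynomial ι k)
  hom : ∀ P ∈ I, ∀ d, homogeneousComponent d P ∈ I
  prime : ∀ (M : Type) [Field M] [Algebra k M],
    (I.map (MvPolynomial.map (algebraMap k M))).IsPrime
  Φ : ι → ι → MvPolynomial (ι ⊕ ι) k
  bih : ∀ a b, (Φ a b).IsWeightedHomogeneous (bw ι ι) (2, 2)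
  ao : ι
  o : ι → k
  o_ao : o ao = 1
  cl : ι → ι
  grp : ∀ (R : Type) [CommRing R] [IsLocalRing R] [Algebra k R], AddCommGroup (Prj I cl R)
  law₀ : ∀ (R : Type) [CommRing R] [IsLocalRing R] [Algebra k R], @Law k _ ι I cl Φ o R _ _ (grp R)
  ψ : ι → MvPolynomial ι k
  ψ_hom : ∀ a, (ψ a).IsHomogeneous 4
  ψ_pt : ∀ (R : Type) [CommRing R] [IsLocalRing R] [Algebra k R] (p : Prj I cl R),
    (Uni cl fun a => aeval p.co (ψ a)) ∧ ∀ P ∈ I, aeval (fun a => aeval p.co (ψ a)) P = 0

namespace GV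

/-- The points of `A` with values in `R`. -/
def Pt (A : GV k ι) (R : Type) [CommRing R] [Algebra k R] : Type := Prj A.I A.cl R

instance (A : GV k ι) (R : Type) [CommRing R] [IsLocalRing R] [Algebra k R] :
    AddCommGroup (A.Pt R) := A.grp R

variable {A : GV k ι} {R R' R'' : Type} [CommRing R] [Algebra k R] [CommRing R'] [Algebra k R']
  [CommRing R''] [Algebra k R'']

/-- Chosen homogeneous coordinates. -/
noncomputable def Pt.co (p : A.Pt R) : ι → R := Prj.co p

/-- `v` is a vector of homogeneous coordinates of `p`. -/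
def Rep (p : A.Pt R) (v : ι → R) : Prop := ∃ u : Rˣ, ∀ a, v a = u * p.co a

/-- The value of the form `Φ a b`. -/
noncomputable def ph (A : GV k ι) (a b : ι) (v w : ι → R) : R := aeval (Sum.elim v w) (A.Φ a b)

theorem map_ph (f : R →ₐ[k] R') (a b : ι) (v w : ι → R) :
    f (A.ph a b v w) = A.ph a b (fun c => f (v c)) fun c => f (w c) := by
  rw [ph, ph, ← AlgHom.comp_apply, comp_aeval]
  congr 2
  ext (c | c) <;> rfl

theorem ph_mul (a b : ι) (s t : R) (v w : ι → R) :
    A.ph a b (fun c => s * v c) (fun c => t * w c) = s ^ 2 * t ^ 2 * A.ph a b v w :=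
  aeval_mul_of_bih (A.bih a b) s t v w

theorem rep_co (p : A.Pt R) : Rep p p.co := ⟨1, fun _ => by simp⟩

theorem Rep.uni {p : A.Pt R} {v : ι → R} (h : Rep p v) : Uni A.cl v := by
  obtain ⟨u, hu⟩ := h
  obtain rfl : v = fun a => u * p.co a := funext hu
  exact (Quotient.out p : Vec A.I A.cl R).unit.smul u.isUnit

theorem Rep.unit {p : A.Pt R} {v : ι → R} (h : Rep p v) : ∃ a, IsUnit (v a) :=
  (h.uni A.ao).imp fun _ h => h.2

theorem Rep.zero {p : A.Pt R} {v : ι → R} (h : Rep p v) : ∀ P ∈ A.I, aeval v P = 0 := by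
  obtain ⟨u, hu⟩ := h
  obtain rfl : v = fun a => u * p.co a := funext hu
  exact zero_mul_of_hom A.hom (Quotient.out p : Vec A.I A.cl R).zero _

theorem exists_rep {v : ι → R} (hu : Uni A.cl v) (hz : ∀ P ∈ A.I, aeval v P = 0) :
    ∃ p : A.Pt R, Rep p v :=
  ⟨Quotient.mk (Vec.rel A.I A.cl R) ⟨v, hu, hz⟩, Quotient.mk_out (s := Vec.rel A.I A.cl R) ⟨v, hu, hz⟩⟩

theorem Rep.exists_smul {p : A.Pt R} {v w : ι → R} (hv : Rep p v) (hw : Rep p w) :
    ∃ u : Rˣ, ∀ a, w a = u * v a := by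
  obtain ⟨s, hs⟩ := hv
  obtain ⟨t, ht⟩ := hw
  exact ⟨t * s⁻¹, fun a => by rw [ht, hs, Units.val_mul, mul_assoc, Units.inv_mul_cancel_left]⟩

theorem Rep.smul {p : A.Pt R} {v : ι → R} (hv : Rep p v) {c : R} (hc : IsUnit c) :
    Rep p fun a => c * v a := by
  obtain ⟨s, hs⟩ := hv
  obtain ⟨u, rfl⟩ := hc
  exact ⟨u * s, fun a => by simp only [hs, Units.val_mul, mul_assoc]⟩

theorem Rep.inj {p q : A.Pt R} {v : ι → R} (hp : Rep p v) (hq : Rep q v) : p = q := by
  obtain ⟨s, hs⟩ := hp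
  obtain ⟨t, ht⟩ := hq
  refine (Quotient.out_equiv_out (s := Vec.rel A.I A.cl R)).1 ⟨t⁻¹ * s, fun a => ?_⟩
  change q.co a = _ * p.co a
  rw [Units.val_mul, mul_assoc, ← hs, ht, Units.inv_mul_cancel_left]

/-- Unimodular vectors with vanishing minors represent the same point. -/
theorem Rep.of_minors {p : A.Pt R} {v w : ι → R} (hv : Rep p v) (hw : ∃ a, IsUnit (w a))
    (h : ∀ a b, v a * w b = v b * w a) : Rep p w := by
  obtain ⟨a, ha⟩ := hv.unit
  obtain ⟨b, hb⟩ := hw
  have h1 : IsUnit (w a) := isUnit_of_mul_isUnit_right (h a b ▸ ha.mul hb)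
  obtain ⟨u, hu⟩ := ha
  have h2 : w = fun c => (w a * ↑u⁻¹) * v c := funext fun c => by
    rw [mul_assoc, mul_comm (w a), mul_assoc, ← h a c, ← hu, Units.inv_mul_cancel_left]
  rw [h2]
  exact hv.smul (h1.mul u⁻¹.isUnit)

theorem Rep.minors {p : A.Pt R} {v w : ι → R} (hv : Rep p v) (hw : Rep p w) (a b : ι) :
    v a * w b = v b * w a := by
  obtain ⟨u, hu⟩ := hv.exists_smul hw
  rw [hu, hu]
  ring

/-- The zeros of a homogeneous ideal do not depend on the coordinates. -/
theorem Rep.zero_of {K : Type*} [Field K] [Algebra K R] {J : Ideal (MvPolynomial ι K)}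
    (hJ : ∀ P ∈ J, ∀ d, homogeneousComponent d P ∈ J) {p : A.Pt R} {v w : ι → R} (hv : Rep p v)
    (hw : Rep p w) (h : ∀ P ∈ J, aeval v P = 0) : ∀ P ∈ J, aeval w P = 0 := by
  obtain ⟨u, hu⟩ := hv.exists_smul hw
  obtain rfl : w = fun a => u * v a := funext hu
  exact zero_mul_of_hom hJ h _

theorem exists_im (f : R →ₐ[k] R') (p : A.Pt R) : ∃ q : A.Pt R', Rep q fun a => f (p.co a) :=
  exists_rep ((rep_co p).uni.map f) fun P hP => by
    have h := congrArg f ((rep_co p).zero P hP)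
    rwa [map_zero, ← AlgHom.comp_apply, comp_aeval] at h

/-- The image of a point under a homomorphism of `k`-algebras. -/
noncomputable def Pt.im (f : R →ₐ[k] R') (p : A.Pt R) : A.Pt R' := (exists_im f p).choose

theorem Rep.im (f : R →ₐ[k] R') {p : A.Pt R} {v : ι → R} (h : Rep p v) :
    Rep (p.im f) fun a => f (v a) := by
  obtain ⟨u, hu⟩ := h
  have h1 : Rep (p.im f) fun a => f (p.co a) := (exists_im f p).choose_spec
  have h2 : (fun a => f (v a)) = fun a => f u * f (p.co a) := funext fun a => by rw [hu, map_mul]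
  rw [h2]
  exact h1.smul (u.isUnit.map f)

variable [IsLocalRing R] [IsLocalRing R'] [IsLocalRing R'']

theorem rep_zero : Rep (0 : A.Pt R) fun a => algebraMap k R (A.o a) := (A.law₀ R).1

theorem law {p q : A.Pt R} {x y s t : ι → R} (hx : Rep p x) (hy : Rep q y) (hs : Rep (p + q) s)
    (ht : Rep (p - q) t) : ∃ c : Rˣ, ∀ a b, A.ph a b x y = c * (s a * t b) := by
  obtain ⟨u, hu⟩ := (A.law₀ R).2 p q
  obtain ⟨u₁, h₁⟩ := hx
  obtain ⟨u₂, h₂⟩ := hy
  obtain ⟨u₃, h₃⟩ := hs.exists_smul (rep_co _)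
  obtain ⟨u₄, h₄⟩ := ht.exists_smul (rep_co _)
  obtain rfl : x = fun a => u₁ * p.co a := funext h₁
  obtain rfl : y = fun a => u₂ * q.co a := funext h₂
  refine ⟨u₁ ^ 2 * u₂ ^ 2 * u * u₃ * u₄, fun a b => ?_⟩
  have h : A.ph a b p.co q.co = u * ((p + q).co a * (p - q).co b) := hu a b
  rw [ph_mul, h, h₃, h₄]
  push_cast
  ring

theorem exists_unit_ph {p q : A.Pt R} {x y : ι → R} (hx : Rep p x) (hy : Rep q y) :
    ∃ a b, IsUnit (A.ph a b x y) := by
  obtain ⟨c, hc⟩ := law hx hy (rep_co _) (rep_co _)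
  obtain ⟨a, ha⟩ := (rep_co (p + q)).unit
  obtain ⟨b, hb⟩ := (rep_co (p - q)).unit
  exact ⟨a, b, hc a b ▸ c.isUnit.mul (ha.mul hb)⟩

theorem rep_add {p q : A.Pt R} {x y : ι → R} (hx : Rep p x) (hy : Rep q y) {a b : ι}
    (h : IsUnit (A.ph a b x y)) : Rep (p + q) fun c => A.ph c b x y := by
  obtain ⟨c, hc⟩ := law hx hy (rep_co _) (rep_co _)
  rw [hc] at h
  have h1 := isUnit_of_mul_isUnit_right (isUnit_of_mul_isUnit_right h)
  have h2 : (fun c => A.ph c b x y) = fun a => (c * (p - q).co b) * (p + q).co a :=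
    funext fun a => by rw [hc]; ring
  rw [h2]
  exact (rep_co _).smul (c.isUnit.mul h1)

theorem rep_sub {p q : A.Pt R} {x y : ι → R} (hx : Rep p x) (hy : Rep q y) {a b : ι}
    (h : IsUnit (A.ph a b x y)) : Rep (p - q) fun c => A.ph a c x y := by
  obtain ⟨c, hc⟩ := law hx hy (rep_co _) (rep_co _)
  rw [hc] at h
  have h1 := isUnit_of_mul_isUnit_left (isUnit_of_mul_isUnit_right h)
  have h2 : (fun c => A.ph a c x y) = fun b => (c * (p + q).co a) * (p - q).co b :=
    funext fun b => by rw [hc]; ring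
  rw [h2]
  exact (rep_co _).smul (c.isUnit.mul h1)

/-- The group homomorphism induced by a homomorphism of local `k`-algebras. -/
noncomputable def map (A : GV k ι) (f : R →ₐ[k] R') : A.Pt R →+ A.Pt R' :=
  AddMonoidHom.mk' (Pt.im f) fun p q => by
    obtain ⟨a, b, h⟩ := exists_unit_ph (rep_co p) (rep_co q)
    have h1 := (rep_add (rep_co p) (rep_co q) h).im f
    have h2 := h.map f
    rw [map_ph] at h2
    simp only [map_ph] at h1
    exact h1.inj (rep_add ((rep_co p).im f) ((rep_co q).im f) h2)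

theorem Rep.map (f : R →ₐ[k] R') {p : A.Pt R} {v : ι → R} (h : Rep p v) :
    Rep (A.map f p) fun a => f (v a) := h.im f

theorem map_map (f : R →ₐ[k] R') (g : R' →ₐ[k] R'') (p : A.Pt R) :
    A.map g (A.map f p) = A.map (g.comp f) p :=
  (((rep_co p).map f).map g).inj ((rep_co p).map (g.comp f))

theorem map_id (p : A.Pt R) : A.map (AlgHom.id k R) p = p :=
  ((rep_co p).map (AlgHom.id k R)).inj (rep_co p)

theorem map_congr {f g : R →ₐ[k] R'} {p : A.Pt R} {v : ι → R} (h : Rep p v)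
    (e : ∀ a, f (v a) = g (v a)) : A.map f p = A.map g p :=
  (h.map f).inj (funext e ▸ h.map g)

theorem map_injective {f : R →ₐ[k] R'} (hf : Function.Injective f) :
    Function.Injective (A.map f) := by
  intro p q h
  refine Rep.inj ((rep_co p).of_minors (rep_co q).unit fun a b => hf ?_) (rep_co q)
  rw [map_mul, map_mul]
  exact ((rep_co p).map f).minors (h ▸ (rep_co q).map f) a b

/-- A point lies in the image of `map f` as soon as it has unimodular coordinates from `R`. -/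
theorem exists_map_eq {f : R →ₐ[k] R'} (hf : Function.Injective f) {q : A.Pt R'} {v : ι → R}
    (hu : Uni A.cl v) (h : Rep q fun a => f (v a)) : ∃ p, Rep p v ∧ A.map f p = q := by
  obtain ⟨p, hp⟩ := exists_rep (A := A) hu fun P hP => hf (by
    rw [map_zero, ← AlgHom.comp_apply, comp_aeval]
    exact h.zero P hP)
  exact ⟨p, hp, (hp.map f).inj h⟩

variable (A) in
/-- The image of a point under the map of degree four. -/
noncomputable def ps (p : A.Pt R) : A.Pt R :=
  (exists_rep (A.ψ_pt R p).1 (A.ψ_pt R p).2).choose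

theorem Rep.ps {p : A.Pt R} {v : ι → R} (h : Rep p v) :
    Rep (A.ps p) fun a => aeval v (A.ψ a) := by
  obtain ⟨u, hu⟩ := h
  obtain rfl : v = fun a => u * p.co a := funext hu
  simp only [aeval_mul_of_hom (A.ψ_hom _)]
  exact Rep.smul (exists_rep (A.ψ_pt R p).1 (A.ψ_pt R p).2).choose_spec (u.isUnit.pow 4)

theorem map_ps (f : R →ₐ[k] R') (p : A.Pt R) : A.map f (A.ps p) = A.ps (A.map f p) := by
  refine ((rep_co p).ps.map f).inj ?_
  have h := ((rep_co p).map f).ps
  simpa only [← AlgHom.comp_apply, comp_aeval] using h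

end GV

end Pool.Agent.Lib.MP_8865d3_nt.Sv
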