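import Pool.Agent.Lib.MP_8865d3_nt.Sv.SeqP

/-! No generic family has large common divisors outside `T`. -/

namespace Pool.Agent.Lib.MP_8865d3_nt.Sv

open MvPolynomial Height Filter Pool.Agent.Lib.MP_651af7_nt.Av
open Pool.Agent.Lib.MP_651af7_nt.Vj

variable {α : Type} {U : Ultrafilter α} {k ι : Type} [Field k] [NumberField k] [Fintype ι] {s : ℕ}

theorem seq_gcd (A : AV k ι) {J : Type} [Fintype J] (G : J → MvPolynomial (ι ⊕ Fin s) k) {d : ℕ}
    (hG : ∀ j, (G j).IsWeightedHomogeneous (xw ι s) d) (hc : Cod2 A.I G (A.dim + s))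
    (T : α → Finset (AbsoluteValue k ℝ)) (x : α → A.Pt k) (u : α → Fin s → k)
    (hu : ∀ n j, u n j ≠ 0)
    (hdf : Fib U T (fun n => hp (x n) (u n)) fun n => df (T n) (u n)) (hgen : GenF U x u)
    (h0 : ∀ᶠ n in U, (fun j => eval (Sum.elim (x n).co (u n)) (G j)) ≠ 0) :
    Lo U (fun n => hp (x n) (u n)) fun n => osum (T n) fun v => d * Real.log (nm v (x n).co) -
      Real.log (nm v fun j => eval (Sum.elim (x n).co (u n)) (G j)) := by
  classical
  have hH := hdf.tendsto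
  have hx0 : ∀ n, (x n).co ≠ 0 := fun n =>
    Function.ne_iff.2 ((AV.rep_co (x n)).unit.imp fun _ h => h.ne_zero)
  by_contra hcon
  obtain ⟨η, hη, hbad⟩ := exists_of_not_lo hcon
  obtain ⟨B, h, y, a, X, Y, aK, a', hC⟩ := exists_cos A x hH
  obtain ⟨s', M, N, c, w, cK, hL⟩ := exists_lat hH u hu
  obtain ⟨P, hP⟩ := exists_prod B s'
  have hb : Bo U (fun n => hp (x n) (u n)) fun n => hp (x n) (u n) :=
    ⟨1, .of_forall fun n => (one_mul _).ge⟩
  have h1 := hC.bo_le hL hb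
  have h2 := hC.bo_ge hL hb
  obtain ⟨e', L, _, f, j, val, cc, hF, hcod⟩ := exists_frm hC hL hP T (hL.fib_df hdf).lo hG h0
  obtain ⟨l₀, hl₀⟩ := hF.ne
  obtain ⟨C, hC0, h3⟩ := h1.pos hH
  have hdim : 1 ≤ P.dim := hP.dim_eq ▸ hC.one_le_dim h2
  have hv1 : ((1 : Fin (P.dim + 1)) : ℕ) = 1 := by
    rw [Fin.val_one', Nat.mod_eq_of_lt (Nat.succ_lt_succ hdim)]
  let 𝒢 : Fin (P.dim + 1) → Finset (MvPolynomial (SI ι s') (Sm k hH)) := fun i =>
    if (i : ℕ) = 0 then {f l₀} else if (i : ℕ) = 1 then Finset.univ.image f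
      else Finset.univ.image fun c => MvPolynomial.X c ^ e'
  have h𝒢0 : 𝒢 0 = {f l₀} := if_pos rfl
  have h𝒢1 : 𝒢 1 = Finset.univ.image f := (if_neg (by omega)).trans (if_pos hv1)
  refine hP.finish hH hL.w_ne h1 h2 hC.gY hC.gens hL.indep T (hL.fib_df hdf) hF.pos 𝒢
    (fun i g hg => ?_) (fun i F _ _ _ _ z hz0 hz hg => ?_) (md := none) ⟨hdim, nofun⟩
    (η := η / 2 / C) (by positivity) fun γ un hu0 hun => ?_
  · dsimp only [𝒢] at hg
    split_ifs at hg
    · rw [Finset.mem_singleton.1 hg]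
      exact hF.hom l₀
    · obtain ⟨t, -, rfl⟩ := Finset.mem_image.1 hg
      exact hF.hom t
    · obtain ⟨t, -, rfl⟩ := Finset.mem_image.1 hg
      exact isHomogeneous_X_pow t _
  · dsimp only [𝒢] at hg
    split_ifs at hg with h4 h5
    · rw [h4, zero_add, Nat.cast_one]
      exact hF.td_le hP hC.gY hl₀ hz0 hz (hg _ (Finset.mem_singleton_self _))
    · rw [h5]
      exact hcod hc hgen F z hz0 hz fun l => hg _ (Finset.mem_image_of_mem f (Finset.mem_univ l))
    · exact absurd (AV.eq_zero_of_pow hg) hz0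
  have hne : ∀ᶠ n in U, eval (sgr (y n).co (w n)) (un n 0) ≠ 0 := by
    have h4 := hun 0
    rw [h𝒢0, Finset.sum_singleton] at hu0 h4
    refine hF.eval_ne hl₀ (fun h5 => hu0 ?_) h4
    rw [h5, map_zero, zero_mul]
    exact zero_mem _
  obtain ⟨c', h4, h5, h6, h7⟩ := hF.bound (I := Fin 2) (𝒢 := ![𝒢 0, 𝒢 1]) (γ := ![γ 0, γ 1])
    (un := fun n => ![un n 0, un n 1]) (by
      rw [Fin.forall_fin_two, h𝒢0, h𝒢1]
      exact ⟨fun g hg => ⟨l₀, (Finset.mem_singleton.1 hg).symm⟩,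
        fun g hg => (Finset.mem_image.1 hg).imp fun _ h => h.2⟩)
    (Fin.forall_fin_two.2 ⟨hun 0, hun 1⟩)
  filter_upwards [hbad, h0, h3, h6 (η / 2) (half_pos hη), h7, hne] with n h8 h9 h10 h11 h12 h13
  have h14 : ![eval (sgr (y n).co (w n)) (un n 0), eval (sgr (y n).co (w n)) (un n 1)] ≠ 0 :=
    fun h => h13 (congrFun h 0)
  have h15 : (fun i => eval (sgr (y n).co (w n)) (![un n 0, un n 1] i)) =
      ![eval (sgr (y n).co (w n)) (un n 0), eval (sgr (y n).co (w n)) (un n 1)] := by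
    funext i
    fin_cases i <;> rfl
  refine ⟨h14, ?_⟩
  rw [hP.logHeight_sgr _ (hL.w_ne n)]
  have f1 := finS_sub ((finS_nm (x n).co).const_mul d)
    (finS_nm fun j => eval (Sum.elim (x n).co (u n)) (G j))
  have h16 := osum_mono (T n) (finS_sub f1 (h5 n)) (finS_sub ((finS_nm (sgr (y n).co (w n))).const_mul e')
    (finS_nm ![eval (sgr (y n).co (w n)) (un n 0), eval (sgr (y n).co (w n)) (un n 1)]))
    fun v _ _ => by
      obtain ⟨b, hb⟩ := (AV.rep_co (y n)).unit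
      have p1 := nm_pos v h14
      have p2 := pow_pos (nm_pos v (hx0 n)) d
      have p3 := one_pos.trans_le (h4 n v)
      have p4 := pow_pos ((nm_pos v (Function.ne_iff.2 ⟨b, hb.ne_zero⟩ : (y n).co ≠ 0)).trans_le
        (nm_le_sgr v _ (w n))) e'
      have p5 := h12 v
      rw [h15] at p5
      have p6 := Real.log_le_log (mul_pos p1 p2) p5
      rw [Real.log_mul p1.ne' p2.ne', Real.log_mul (mul_pos p3 p4).ne' (nm_pos v h9).ne',
        Real.log_mul p3.ne' p4.ne', Real.log_pow, Real.log_pow] at p6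
      linarith
  rw [osum_sub _ f1 (h5 n)] at h16
  have h17 : η / 2 / C * hp (y n) (w n) ≤ η / 2 * hp (x n) (u n) :=
    (mul_le_mul_of_nonneg_left h10 (by positivity)).trans (le_of_eq (by field_simp))
  linarith

end Pool.Agent.Lib.MP_8865d3_nt.Sv
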