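import Pool.Agent.Lib.MP_8865d3_nt.Sv.FinB
import Pool.Agent.Lib.MP_8865d3_nt.Sv.SeqG

/-! The places outside and inside `T`. -/

namespace Pool.Agent.Lib.MP_8865d3_nt.Sv

open MvPolynomial Height Filter Finset Pool.Agent.Lib.MP_651af7_nt.Av
open Pool.Agent.Lib.MP_651af7_nt.Vj

variable {k ι : Type} [Field k] [NumberField k] [Fintype ι] {n : ℕ}

omit [NumberField k] in
theorem cons_ne (u : Fin n → k) : (Fin.cons 1 u : Fin (n + 1) → k) ≠ 0 :=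
  fun h => one_ne_zero (congrFun h 0)

theorem ht_cons (u : Fin n → k) :
    logHeight (Fin.cons 1 u : Fin (n + 1) → k) ≤ ∑ j, logHeight₁ (u j) := by
  have h := ad_prod univ fun j _ => ad_max (u j)
  rw [← gsum_nm (cons_ne u)]
  refine (gsum_mono (finS_nm _) h.fin fun v _ => Real.log_le_log (nm_pos v (cons_ne u))
    (Real.iSup_le (Fin.cases ?_ fun j => le_prod_max v u j) (h.pos v).le)).trans h.le
  simpa using h.one v

omit [NumberField k] in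
theorem log_nm_cons (v : AbsoluteValue k ℝ) (u : Fin n → k) :
    Real.log (nm v (Fin.cons 1 u : Fin (n + 1) → k)) ≤ ∑ j, |Real.log (v (u j))| := by
  obtain ⟨j, hj⟩ := exists_nm v (Fin.cons 1 u : Fin (n + 1) → k)
  rw [← hj]
  refine Fin.cases ?_ (fun j => ?_) j
  · simpa using sum_nonneg fun j _ => abs_nonneg (Real.log (v (u j)))
  · exact (le_abs_self _).trans
      (single_le_sum (f := fun j => |Real.log (v (u j))|) (fun _ _ => abs_nonneg _) (mem_univ j))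

omit [NumberField k] [Fintype ι] in
theorem co_ne {A : AV k ι} (P : A.Pt k) : P.co ≠ 0 :=
  Function.ne_iff.2 ((AV.rep_co P).unit.imp fun _ h => h.ne_zero)

omit [Fintype ι] in
theorem ht_le_hp {A : AV k ι} (P : A.Pt k) (u : Fin n → k) :
    logHeight P.co + logHeight (Fin.cons 1 u : Fin (n + 1) → k) ≤ hp P u :=
  add_le_add le_rfl (ht_cons u)

theorem gcd_part (A : AV k ι) {L : Type} [Fintype L] {Γ : L → MvPolynomial (ι ⊕ Fin (n + 1)) k}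
    {d : ℕ × ℕ} (hΓ : ∀ l, (Γ l).IsWeightedHomogeneous (bw ι (Fin (n + 1))) d)
    (hc : 2 ≤ ((Ideal.span (Set.range Γ)).map
      (Ideal.Quotient.mk (A.I.map (rename (Sum.inl : ι → ι ⊕ Fin (n + 1)))))).height)
    {ε : ℝ} (hε : 0 < ε) : ∃ (Θ : MvPolynomial (ι ⊕ Fin (n + 1)) k) (e : ℕ × ℕ),
      Θ.IsWeightedHomogeneous (bw ι (Fin (n + 1))) e ∧ Θ ∉ A.I.map (rename Sum.inl) ∧
      ∀ T : Finset (AbsoluteValue k ℝ), ∃ c : ℕ, ∀ (P : A.Pt k) (u : Fin n → k), (∀ j, u j ≠ 0) →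
        eval (Sum.elim P.co (Fin.cons 1 u)) Θ ≠ 0 →
        (fun l => eval (Sum.elim P.co (Fin.cons 1 u)) (Γ l)) ≠ 0 →
        osum T (fun v => mv v d Γ P.co (Fin.cons 1 u)) ≤ ε * hp P u + c * df T u + c := by
  have hP := p0_prime_inl (τ := Fin (n + 1)) A.isPrime
  let τ := {t : MvPolynomial (ι ⊕ Fin (n + 1)) k × ℕ × ℕ //
    t.1.IsWeightedHomogeneous (bw ι (Fin (n + 1))) t.2 ∧ t.1 ∉ A.I.map (rename Sum.inl)}
  let β := {b : A.Pt k × (Fin n → k) // (∀ j, b.2 j ≠ 0) ∧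
    (fun l => eval (Sum.elim b.1.co (Fin.cons 1 b.2)) (Γ l)) ≠ 0}
  have : Nonempty τ := ⟨⟨(1, 0), isWeightedHomogeneous_one _ _,
    (Ideal.ne_top_iff_one _).1 hP.ne_top⟩⟩
  obtain ⟨C, hC, hb⟩ := mv_bd hΓ
  refine (bound_of_fib (τ := τ) (β := β) (C₀ := C)
    (p := fun t b => eval (Sum.elim b.1.1.co (Fin.cons 1 b.1.2)) t.1.1 ≠ 0)
    (fun t t' => ⟨⟨(t.1.1 * t'.1.1, t.1.2 + t'.1.2), t.2.1.mul t'.2.1,
      fun h => (hP.mem_or_mem h).elim t.2.2 t'.2.2⟩, fun b hb => by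
        simpa only [map_mul, mul_ne_zero_iff] using hb⟩)
    (H := fun b => hp b.1.1 b.1.2) (D := fun T b => df T b.1.2)
    (f := fun T b => osum T fun v => mv v d Γ b.1.1.co (Fin.cons 1 b.1.2))
    (fun b => hp_nonneg _ _) (fun T b => df_nonneg _ _)
    (fun T b => (hb _ _ (co_ne _) (cons_ne _) b.2.2 T).2.2.2.trans
      (mul_le_mul_of_nonneg_left (add_le_add (ht_le_hp _ _) le_rfl) hC))
    (fun U T h1 h2 => ?_) hε).elim fun t ht => ⟨t.1.1, t.1.2, t.2.1, t.2.2, fun T =>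
      (ht T).imp fun c hc P u h1 h2 h3 => hc ⟨(P, u), h1, h3⟩ h2⟩
  have h3 := seq_gcd A (fun l => deh (Γ l)) (fun l => deh_hom (hΓ l)) (cod2_of_height A Γ hΓ hc) T
    (fun a => a.2.1.1) (fun a => a.2.1.2) (fun a => a.2.2.1) h2 (fun f m hf h0 => by
      obtain ⟨e, g, hg, rfl⟩ := exists_homog hf
      by_contra h4
      obtain ⟨a, h5, h6⟩ := (h0.and (h1 ⟨(g, e), hg, fun h => h4 (deh_mem h)⟩)).exists
      exact h6 (eval_deh _ _ g ▸ h5))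
    (.of_forall fun a => by simpa only [eval_deh] using a.2.2.2)
  refine (h3.add (lo_mul_nonneg h2.tendsto h2.lo d.2.cast_nonneg)).mono (.of_forall fun a => ?_)
  have f1 := finS_sub ((finS_nm a.2.1.1.co).const_mul d.1)
    (finS_nm fun l => eval (Sum.elim a.2.1.1.co a.2.1.2) (deh (Γ l)))
  rw [df, ← osum_const_mul _ (finS_df _), ← osum_add _ f1 ((finS_df _).const_mul _)]
  refine osum_mono _ (finS_mv _ _) (f1.add ((finS_df _).const_mul _)) fun v _ _ => ?_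
  have h4 := mul_le_mul_of_nonneg_left (log_nm_cons v a.2.1.2) (d.2.cast_nonneg (α := ℝ))
  simp only [mv, eval_deh]
  linarith

theorem isum_cons (T : Finset (AbsoluteValue k ℝ)) {y : Fin (n + 1) → k} (hy : ∀ j, y j ≠ 0) :
    isum T (fun v => ∑ j, (Real.log (nm v y) - Real.log (v (y j)))) ≤ (n + 1) * logHeight y := by
  have f1 : ∀ j ∈ (univ : Finset (Fin (n + 1))), FinS fun v : AbsoluteValue k ℝ =>
      Real.log (nm v y) - Real.log (v (y j)) := fun j _ => finS_sub (finS_nm y) (finS_log _)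
  refine (isum_le_gsum T (finS_sum univ f1) fun v _ => sum_nonneg fun j _ =>
    sub_nonneg.2 (Real.log_le_log (v.pos (hy j)) (le_nm v y j))).trans (le_of_eq ?_)
  rw [gsum_sum univ f1]
  simp only [gsum_sub (finS_nm y) (finS_log _), gsum_log (hy _),
    gsum_nm (Function.ne_iff.2 ⟨0, hy 0⟩ : y ≠ 0)]
  simp

theorem lo_comb {α : Type} {U : Ultrafilter α} {H m₁ m₂ m₃ m₄ : α → ℝ} {g : α → Fin n → ℝ}
    {o₁ o₂ o₃ o₄ a b : ℝ} {lam : Fin n → ℝ} (hH : Tendsto H U atTop) (ha : 0 ≤ a) (hb : 0 ≤ b)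
    (h : o₁ + o₂ + a * o₄ ≤ ∑ j, lam j + o₃ + b * o₄) (h₁ : Lo U H fun z => |m₁ z - o₁ * H z|)
    (h₂ : Lo U H fun z => |m₂ z - o₂ * H z|) (h₃ : Lo U H fun z => |m₃ z - o₃ * H z|)
    (h₄ : Lo U H fun z => |m₄ z - o₄ * H z|) (hg : ∀ j, Lo U H fun z => |g z j - lam j * H z|) :
    Lo U H fun z => m₁ z + m₂ z + a * m₄ z - m₃ z - b * m₄ z - ∑ j, g z j := by
  refine (((((h₁.add h₂).add h₃).add (lo_mul_nonneg hH h₄ ha)).add (lo_mul_nonneg hH h₄ hb)).add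
    (Lo.sum hH univ fun j _ => hg j)).mono ((hH.eventually_ge_atTop 0).mono fun z hz => ?_)
  have e₁ := mul_le_mul_of_nonneg_right h hz
  have e₂ := le_abs_self (m₁ z - o₁ * H z)
  have e₃ := le_abs_self (m₂ z - o₂ * H z)
  have e₄ := neg_abs_le (m₃ z - o₃ * H z)
  have e₅ := mul_le_mul_of_nonneg_left (le_abs_self (m₄ z - o₄ * H z)) ha
  have e₆ := mul_le_mul_of_nonneg_left (neg_abs_le (m₄ z - o₄ * H z)) hb
  have e₇ := sum_le_sum fun j (_ : j ∈ univ) => neg_abs_le (g z j - lam j * H z)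
  rw [sum_neg_distrib, sum_sub_distrib, ← sum_mul] at e₇
  linarith

section trop

variable (A : AV k ι) {L₁ L₂ L₃ L₄ : Type} [Fintype L₁] [Fintype L₂] [Fintype L₃]
    [Fintype L₄] {Γ₁ : L₁ → MvPolynomial (ι ⊕ Fin (n + 1)) k}
    {Γ₂ : L₂ → MvPolynomial (ι ⊕ Fin (n + 1)) k} {Γ₃ : L₃ → MvPolynomial (ι ⊕ Fin (n + 1)) k}
    {Γ₄ : L₄ → MvPolynomial (ι ⊕ Fin (n + 1)) k} {d₁ d₂ d₃ d₄ : ℕ × ℕ}
    (g₁ : ∀ l, (Γ₁ l).IsWeightedHomogeneous (bw ι (Fin (n + 1))) d₁)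
    (g₂ : ∀ l, (Γ₂ l).IsWeightedHomogeneous (bw ι (Fin (n + 1))) d₂)
    (g₃ : ∀ l, (Γ₃ l).IsWeightedHomogeneous (bw ι (Fin (n + 1))) d₃)
    (g₄ : ∀ l, (Γ₄ l).IsWeightedHomogeneous (bw ι (Fin (n + 1))) d₄)
    (h₁ : (spt A.I Γ₁).Nonempty) (h₂ : (spt A.I Γ₂).Nonempty) (h₃ : (spt A.I Γ₃).Nonempty)
    (h₄ : (spt A.I Γ₄).Nonempty) (a b : ℕ)
    (h : ∀ lam : Fin (n + 1) → ℝ, (∀ j, 0 ≤ lam j) → (∃ j, lam j = 0) →
      ordR A.I Γ₁ lam + ordR A.I Γ₂ lam + a * ordR A.I Γ₄ lam ≤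
        ∑ j, lam j + ordR A.I Γ₃ lam + b * ordR A.I Γ₄ lam)
    (T : Finset (AbsoluteValue k ℝ))

include g₁ g₂ g₃ g₄ h₁ h₂ h₃ h₄

include h in
theorem seq_trop {α : Type} {U : Ultrafilter α} (x : α → A.Pt k) (u : α → Fin n → k)
    (hu : ∀ l j, u l j ≠ 0) (hH : Tendsto (fun l => hp (x l) (u l)) U atTop)
    (hdf : Lo U (fun l => hp (x l) (u l)) fun l => df T (u l))
    (f₁ : ∀ᶠ l in U, FaceNe A.I Γ₁ (x l).co (Fin.cons 1 (u l)))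
    (f₂ : ∀ᶠ l in U, FaceNe A.I Γ₂ (x l).co (Fin.cons 1 (u l)))
    (f₃ : ∀ᶠ l in U, FaceNe A.I Γ₃ (x l).co (Fin.cons 1 (u l)))
    (f₄ : ∀ᶠ l in U, FaceNe A.I Γ₄ (x l).co (Fin.cons 1 (u l))) :
    Lo U (fun l => hp (x l) (u l)) fun l =>
      isum T (fun v => mv v d₁ Γ₁ (x l).co (Fin.cons 1 (u l)) +
        mv v d₂ Γ₂ (x l).co (Fin.cons 1 (u l)) + a * mv v d₄ Γ₄ (x l).co (Fin.cons 1 (u l)) -
        mv v d₃ Γ₃ (x l).co (Fin.cons 1 (u l)) - b * mv v d₄ Γ₄ (x l).co (Fin.cons 1 (u l))) -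
        (n + 1) * logHeight (Fin.cons 1 (u l) : Fin (n + 1) → k) := by
  have h5 := lo_isum T hH (f := fun l v => mv v d₁ Γ₁ (x l).co (Fin.cons 1 (u l)) +
      mv v d₂ Γ₂ (x l).co (Fin.cons 1 (u l)) + a * mv v d₄ Γ₄ (x l).co (Fin.cons 1 (u l)) -
      mv v d₃ Γ₃ (x l).co (Fin.cons 1 (u l)) - b * mv v d₄ Γ₄ (x l).co (Fin.cons 1 (u l)) -
      ∑ j, (Real.log (nm v (Fin.cons 1 (u l) : Fin (n + 1) → k)) -
        Real.log (v ((Fin.cons 1 (u l) : Fin (n + 1) → k) j)))) fun v hv ha => by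
    obtain ⟨lam, l0, l1, l2⟩ := exists_lam ha u hu hH
      ⟨1, .of_forall fun l => (le_add_of_nonneg_left (AV.ht_nonneg (x l))).trans (one_mul _).ge⟩
    exact lo_comb hH a.cast_nonneg b.cast_nonneg (h lam l0 l1)
      (mv_eq A Γ₁ g₁ h₁ T ha hv x u hu hH hdf f₁ l2) (mv_eq A Γ₂ g₂ h₂ T ha hv x u hu hH hdf f₂ l2)
      (mv_eq A Γ₃ g₃ h₃ T ha hv x u hu hH hdf f₃ l2) (mv_eq A Γ₄ g₄ h₄ T ha hv x u hu hH hdf f₄ l2)
      l2
  refine h5.mono (.of_forall fun l => ?_)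
  rw [isum_sub T _ fun v => ∑ j, _]
  exact sub_le_sub_left (isum_cons T (trop_cons_ne (hu l))) _

theorem trop_bd : ∃ C : ℝ, ∀ (P : A.Pt k) (u : Fin n → k),
      FaceNe A.I Γ₁ P.co (Fin.cons 1 u) → FaceNe A.I Γ₂ P.co (Fin.cons 1 u) →
      FaceNe A.I Γ₃ P.co (Fin.cons 1 u) → FaceNe A.I Γ₄ P.co (Fin.cons 1 u) →
      isum T (fun v => mv v d₁ Γ₁ P.co (Fin.cons 1 u) + mv v d₂ Γ₂ P.co (Fin.cons 1 u) +
        a * mv v d₄ Γ₄ P.co (Fin.cons 1 u) - mv v d₃ Γ₃ P.co (Fin.cons 1 u) -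
        b * mv v d₄ Γ₄ P.co (Fin.cons 1 u)) -
        (n + 1) * logHeight (Fin.cons 1 u : Fin (n + 1) → k) ≤ C * (hp P u + 1) := by
  obtain ⟨C₁, c₁, b₁⟩ := mv_bd g₁
  obtain ⟨C₂, c₂, b₂⟩ := mv_bd g₂
  obtain ⟨C₃, c₃, b₃⟩ := mv_bd g₃
  obtain ⟨C₄, c₄, b₄⟩ := mv_bd g₄
  refine ⟨C₁ + C₂ + a * C₄ + C₃ + b * C₄, fun P u f₁ f₂ f₃ f₄ => ?_⟩
  have e₀ := add_le_add (ht_le_hp P u) (le_refl (1 : ℝ))
  have e₁ := (b₁ _ _ (co_ne _) (cons_ne _) (f₁.ne h₁) T).2.2.1.trans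
    (mul_le_mul_of_nonneg_left e₀ c₁)
  have e₂ := (b₂ _ _ (co_ne _) (cons_ne _) (f₂.ne h₂) T).2.2.1.trans
    (mul_le_mul_of_nonneg_left e₀ c₂)
  have e₃ := (b₃ _ _ (co_ne _) (cons_ne _) (f₃.ne h₃) T).1
  have e₄ := b₄ _ _ (co_ne _) (cons_ne _) (f₄.ne h₄) T
  have e₅ := mul_le_mul_of_nonneg_left (e₄.2.2.1.trans (mul_le_mul_of_nonneg_left e₀ c₄))
    (a.cast_nonneg (α := ℝ))
  have e₆ := mul_le_mul_of_nonneg_left e₄.1 (b.cast_nonneg (α := ℝ))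
  have e₇ := mul_nonneg (show (0 : ℝ) ≤ n + 1 by positivity)
    (logHeight_nonneg (Fin.cons 1 u : Fin (n + 1) → k))
  have e₈ := mul_nonneg (add_nonneg c₃ (mul_nonneg b.cast_nonneg c₄)) (hp_nonneg P u)
  simp only [isum_sub, isum_add, isum_const_mul]
  linarith

include h in
theorem trop_part {ε : ℝ} (hε : 0 < ε) :
    ∃ c : ℕ, ∀ (P : A.Pt k) (u : Fin n → k), (∀ j, u j ≠ 0) →
      FaceNe A.I Γ₁ P.co (Fin.cons 1 u) → FaceNe A.I Γ₂ P.co (Fin.cons 1 u) →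
      FaceNe A.I Γ₃ P.co (Fin.cons 1 u) → FaceNe A.I Γ₄ P.co (Fin.cons 1 u) →
      isum T (fun v => mv v d₁ Γ₁ P.co (Fin.cons 1 u) + mv v d₂ Γ₂ P.co (Fin.cons 1 u) +
        a * mv v d₄ Γ₄ P.co (Fin.cons 1 u) - mv v d₃ Γ₃ P.co (Fin.cons 1 u) -
        b * mv v d₄ Γ₄ P.co (Fin.cons 1 u)) -
        (n + 1) * logHeight (Fin.cons 1 u : Fin (n + 1) → k) ≤ ε * hp P u + c * df T u + c := by
  obtain ⟨C, hC⟩ := trop_bd A g₁ g₂ g₃ g₄ h₁ h₂ h₃ h₄ a b T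
  have h0 := fun (U : Ultrafilter (A.Pt k × {u : Fin n → k // ∀ j, u j ≠ 0})) =>
    seq_trop (U := U) A g₁ g₂ g₃ g₄ h₁ h₂ h₃ h₄ a b h T (fun z => z.1) (fun z => z.2.1) fun z => z.2.2
  have h1 := bound_of_lo (β := A.Pt k × {u : Fin n → k // ∀ j, u j ≠ 0})
    (p := fun z => FaceNe A.I Γ₁ z.1.co (Fin.cons 1 z.2.1) ∧ FaceNe A.I Γ₂ z.1.co (Fin.cons 1 z.2.1) ∧
      FaceNe A.I Γ₃ z.1.co (Fin.cons 1 z.2.1) ∧ FaceNe A.I Γ₄ z.1.co (Fin.cons 1 z.2.1))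
    (H := fun z => hp z.1 z.2.1) (D := fun z => df T z.2.1) (ε := ε)
    (fun z => hp_nonneg z.1 z.2.1) (fun z => df_nonneg T z.2.1)
    (fun z hz => hC z.1 z.2.1 hz.1 hz.2.1 hz.2.2.1 hz.2.2.2)
  obtain ⟨c, hc⟩ := h1 (fun U hU hH hdf => h0 U hH hdf (hU.mono fun _ h => h.1)
    (hU.mono fun _ h => h.2.1) (hU.mono fun _ h => h.2.2.1) (hU.mono fun _ h => h.2.2.2)) hε
  refine ⟨c, fun P u hu k₁ k₂ k₃ k₄ => ?_⟩
  obtain ⟨z, rfl, rfl⟩ : ∃ z : A.Pt k × {u : Fin n → k // ∀ j, u j ≠ 0}, z.1 = P ∧ z.2.1 = u :=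
    ⟨(P, ⟨u, hu⟩), rfl, rfl⟩
  exact hc z ⟨k₁, k₂, k₃, k₄⟩

end trop

end Pool.Agent.Lib.MP_8865d3_nt.Sv
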