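import Pool.Agent.Lib.MP_8865d3_nt.Sv.Sum
import Pool.Agent.Lib.MP_651af7_nt.Av.LosR

/-! The lattice of the small monomials. -/

namespace Pool.Agent.Lib.MP_8865d3_nt.Sv

open MvPolynomial Height Filter Pool.Agent.Lib.MP_651af7_nt.Av

/-- Sketch.  The image of `ℤ ^ s` in `Γ ⧸ Δ` is free of finite rank. -/
theorem exists_lattice {Γ : Type} [CommGroup Γ] (Δ : Subgroup Γ)
    (hΔ : ∀ (z : Γ) (n : ℕ), n ≠ 0 → z ^ n ∈ Δ → z ∈ Δ) {s : ℕ} (u : Fin s → Γ) :
    ∃ (s' : ℕ) (M : Fin s → Fin s' → ℤ) (N : Fin s' → Fin s → ℤ),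
      (∀ t t', ∑ j, N t j * M j t' = if t = t' then 1 else 0) ∧
      (∀ j, u j / ∏ t, (∏ i, u i ^ N t i) ^ M j t ∈ Δ) ∧
      ∀ m : Fin s' → ℤ, ∏ t, (∏ i, u i ^ N t i) ^ m t ∈ Δ → m = 0 := by
  classical
  let f : (Fin s → ℤ) → Γ := fun m => ∏ i, u i ^ m i
  have fadd : ∀ m m', f (m + m') = f m * f m' := fun m m' => by
    simp only [f, Pi.add_apply, zpow_add, Finset.prod_mul_distrib]
  have fsm : ∀ (n : ℤ) m, f (n • m) = f m ^ n := fun n m => by
    simp only [f, Pi.smul_apply, smul_eq_mul, ← Finset.prod_zpow, ← zpow_mul, mul_comm]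
  let g : (Fin s → ℤ) →ₗ[ℤ] Additive Γ :=
    { toFun := fun m => Additive.ofMul (f m)
      map_add' := fun m m' => by rw [fadd, ofMul_mul]
      map_smul' := fun n m => by rw [fsm, ofMul_zpow, RingHom.id_apply] }
  have fsum : ∀ {s' : ℕ} (N : Fin s' → Fin s → ℤ) (m : Fin s' → ℤ),
      f (∑ t, m t • N t) = ∏ t, f (N t) ^ m t := fun N m => by
    have h := map_sum g (fun t => m t • N t) Finset.univ
    refine Additive.ofMul.injective (h.trans ?_)
    rw [ofMul_prod]
    exact Finset.sum_congr rfl fun t _ => congrArg Additive.ofMul (fsm _ _)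
  let L : Submodule ℤ (Fin s → ℤ) :=
    { carrier := {m | f m ∈ Δ}
      add_mem' := fun {a b} ha hb => by
        change f (a + b) ∈ Δ
        rw [fadd]
        exact Δ.mul_mem ha hb
      zero_mem' := by simp [f]
      smul_mem' := fun n m hm => by
        change f (n • m) ∈ Δ
        rw [fsm]
        exact Δ.zpow_mem hm n }
  have hL : ∀ m, m ∈ L ↔ f m ∈ Δ := fun _ => Iff.rfl
  have : Module.IsTorsionFree ℤ ((Fin s → ℤ) ⧸ L) := by
    refine Module.IsTorsionFree.of_smul_eq_zero fun n q hq => ?_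
    obtain ⟨m, rfl⟩ := L.mkQ_surjective q
    rw [← map_smul, Submodule.mkQ_apply, Submodule.Quotient.mk_eq_zero, hL, fsm] at hq
    refine or_iff_not_imp_left.2 fun hn => ?_
    rw [Submodule.mkQ_apply, Submodule.Quotient.mk_eq_zero, hL]
    refine hΔ _ n.natAbs (Int.natAbs_ne_zero.2 hn) ?_
    rcases Int.natAbs_eq n with h | h
    · rwa [h, zpow_natCast] at hq
    · rwa [h, zpow_neg, zpow_natCast, Δ.inv_mem_iff] at hq
  let b := Module.finBasis ℤ ((Fin s → ℤ) ⧸ L)
  choose N hN using fun t => L.mkQ_surjective (b t)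
  have hsum : ∀ m : Fin _ → ℤ, L.mkQ (∑ t, m t • N t) = ∑ t, m t • b t := fun m => by
    simp only [map_sum, map_smul, hN]
  refine ⟨_, fun j t => b.repr (L.mkQ (Pi.single j 1)) t, N, fun t t' => ?_, fun j => ?_,
    fun m hm => ?_⟩
  · have h1 : N t = ∑ j, N t j • (Pi.single j 1 : Fin s → ℤ) := pi_eq_sum_univ' (N t)
    have h2 := congrArg (fun q => b.repr q t') (hN t)
    rw [h1] at h2
    simp only [map_sum, map_smul, Finsupp.coe_finsetSum, Finset.sum_apply, Finsupp.smul_apply,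
      smul_eq_mul, Module.Basis.repr_self, Finsupp.single_apply] at h2
    exact h2
  · have h1 := hsum fun t => b.repr (L.mkQ (Pi.single j 1)) t
    rw [b.sum_repr, eq_comm, ← sub_eq_zero, ← map_sub, Submodule.mkQ_apply,
      Submodule.Quotient.mk_eq_zero, hL, sub_eq_add_neg, fadd, ← neg_one_smul ℤ, fsm, fsum,
      zpow_neg_one, ← div_eq_mul_inv] at h1
    have h2 : f (Pi.single j 1) = u j := by
      simp only [f]
      rw [Finset.prod_eq_single j (fun i _ hi => by simp [hi]) (by simp)]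
      simp
    rwa [h2] at h1
  · have h1 : ∑ t, m t • N t ∈ L := by
      rw [hL, fsum]
      exact hm
    rw [← Submodule.Quotient.mk_eq_zero, ← Submodule.mkQ_apply, hsum] at h1
    exact funext (Fintype.linearIndependent_iff.1 b.linearIndependent m h1)

variable {α : Type} {U : Ultrafilter α} {k : Type} [Field k] [NumberField k] {H : α → ℝ}

/-- `u = c * w ^ M` with `c` small and `w = u ^ N` multiplicatively independent modulo the small
field. -/
structure Lat (hH : Tendsto H U atTop) {s s' : ℕ} (u : α → Fin s → k) (M : Fin s → Fin s' → ℤ)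
    (N : Fin s' → Fin s → ℤ) (c : α → Fin s → k) (w : α → Fin s' → k)
    (cK : Fin s → Sm k hH) : Prop where
  w_eq : ∀ n t, w n t = ∏ j, u n j ^ N t j
  u_eq : ∀ n j, u n j = c n j * ∏ t, w n t ^ M j t
  w_ne : ∀ n t, w n t ≠ 0
  c_ne : ∀ n j, c n j ≠ 0
  inv : ∀ t t', ∑ j, N t j * M j t' = if t = t' then 1 else 0
  cK_eq : ∀ j, algebraMap (Sm k hH) (Up U k) (cK j) = germ U fun n => c n j
  cK_ne : ∀ j, cK j ≠ 0
  cK_pow : ∀ t, ∏ j, cK j ^ N t j = 1
  germ_eq : ∀ j, (germ U fun n => u n j) =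
    algebraMap (Sm k hH) (Up U k) (cK j) * ∏ t, (germ U fun n => w n t) ^ M j t
  small : ∀ j, Lo U H fun n => logHeight₁ (c n j)
  indep : ∀ m : Fin s' → ℤ, ∏ t, (germ U fun n => w n t) ^ m t ∈
    Set.range (algebraMap (Sm k hH) (Up U k)) → m = 0
  ht_w : ∃ C : ℝ, 0 ≤ C ∧ ∀ n, ∑ t, logHeight₁ (w n t) ≤ C * ∑ j, logHeight₁ (u n j)
  ht_u : ∃ C : ℝ, 0 ≤ C ∧ ∀ n, ∑ j, logHeight₁ (u n j) ≤
    ∑ j, logHeight₁ (c n j) + C * ∑ t, logHeight₁ (w n t)
  df_w : ∃ C : ℝ, 0 ≤ C ∧ ∀ n T, df T (w n) ≤ C * df T (u n)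

omit [NumberField k] in
private theorem germ_zpow (f : α → k) (m : ℤ) :
    (germ U fun n => f n ^ m) = germ U f ^ m := by
  cases m with
  | ofNat m =>
    simp only [Int.ofNat_eq_natCast, zpow_natCast]
    exact map_pow (germ U) f m
  | negSucc m =>
    simp only [zpow_negSucc]
    rw [← map_pow]
    rfl

omit [NumberField k] in
private theorem germ_prod {s : ℕ} (f : α → Fin s → k) (m : Fin s → ℤ) :
    (germ U fun n => ∏ j, f n j ^ m j) = ∏ j, (germ U fun n => f n j) ^ m j := by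
  simp only [← germ_zpow]
  rw [← map_prod]
  congr 1
  funext n
  rw [Finset.prod_apply]

omit [NumberField k] in
private theorem zpow_sum' {a : k} (ha : a ≠ 0) {s : ℕ} (m : Fin s → ℤ) :
    a ^ ∑ j, m j = ∏ j, a ^ m j := by
  induction (Finset.univ : Finset (Fin s)) using Finset.induction_on with
  | empty => simp
  | insert j t hj ih => rw [Finset.sum_insert hj, Finset.prod_insert hj, zpow_add₀ ha, ih]

private theorem mat_le {s s' : ℕ} (N : Fin s' → Fin s → ℤ) {a : Fin s → ℝ} (ha : ∀ j, 0 ≤ a j) :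
    ∑ t, ∑ j, ((N t j).natAbs : ℝ) * a j ≤ (∑ t, ∑ j, ((N t j).natAbs : ℝ)) * ∑ j, a j := by
  rw [Finset.sum_mul]
  refine Finset.sum_le_sum fun t _ => ?_
  rw [Finset.sum_mul]
  exact Finset.sum_le_sum fun j _ => mul_le_mul_of_nonneg_left
    (Finset.single_le_sum (fun i _ => ha i) (Finset.mem_univ j)) (Nat.cast_nonneg _)

private theorem ht_prod_le {s : ℕ} (x : Fin s → k) (m : Fin s → ℤ) :
    logHeight₁ (∏ j, x j ^ m j) ≤ ∑ j, ((m j).natAbs : ℝ) * logHeight₁ (x j) := by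
  simpa only [logHeight₁_zpow] using logHeight₁_prod_le Finset.univ fun j => x j ^ m j

omit [NumberField k] in
private theorem abs_log_prod_le (v : AbsoluteValue k ℝ) {s : ℕ} {x : Fin s → k}
    (hx : ∀ j, x j ≠ 0) (m : Fin s → ℤ) :
    |Real.log (v (∏ j, x j ^ m j))| ≤ ∑ j, ((m j).natAbs : ℝ) * |Real.log (v (x j))| := by
  rw [map_prod, Real.log_prod fun j _ => v.ne_zero (zpow_ne_zero _ (hx j))]
  refine (Finset.abs_sum_le_sum_abs _ _).trans (le_of_eq (Finset.sum_congr rfl fun j _ => ?_))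
  rw [map_zpow₀, Real.log_zpow, abs_mul, Nat.cast_natAbs, Int.cast_abs]

theorem exists_lat (hH : Tendsto H U atTop) {s : ℕ} (u : α → Fin s → k) (hu : ∀ n j, u n j ≠ 0) :
    ∃ (s' : ℕ) (M : Fin s → Fin s' → ℤ) (N : Fin s' → Fin s → ℤ) (c : α → Fin s → k)
      (w : α → Fin s' → k) (cK : Fin s → Sm k hH), Lat hH u M N c w cK := by
  classical
  let Δ : Subgroup (Up U k)ˣ :=
    { carrier := {z | (z : Up U k) ∈ Sm k hH}
      mul_mem' := fun ha hb => (Sm k hH).mul_mem ha hb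
      one_mem' := (Sm k hH).one_mem
      inv_mem' := fun {z} hz => by
        change ((z⁻¹ : (Up U k)ˣ) : Up U k) ∈ Sm k hH
        rw [Units.val_inv_eq_inv_val]
        exact (Sm k hH).inv_mem hz }
  have hD : ∀ z : (Up U k)ˣ, z ∈ Δ ↔ (z : Up U k) ∈ Sm k hH := fun _ => Iff.rfl
  have hΔ : ∀ (z : (Up U k)ˣ) (n : ℕ), n ≠ 0 → z ^ n ∈ Δ → z ∈ Δ := fun z m hm h => by
    obtain ⟨f, hf⟩ := germ_surj U (z : Up U k)
    rw [hD, Units.val_pow_eq_pow_val, ← hf, ← map_pow, mem_sm_iff] at h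
    rw [hD, ← hf, mem_sm_iff]
    refine h.mono (.of_forall fun n => ?_)
    rw [Pi.pow_apply, logHeight₁_pow]
    exact le_mul_of_one_le_left (zero_le_logHeight₁ _) (by exact_mod_cast Nat.pos_of_ne_zero hm)
  have hg : ∀ j, (germ U fun n => u n j) ≠ 0 := fun j =>
    germ_ne_zero.2 (.of_forall fun n => hu n j)
  obtain ⟨s', M, N, h1, h2, h3⟩ := exists_lattice Δ hΔ fun j => Units.mk0 _ (hg j)
  simp only [hD, Units.val_div_eq_div_val, Units.coe_prod, Units.val_zpow_eq_zpow_val,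
    Units.val_mk0, ← germ_prod] at h2 h3
  set w : α → Fin s' → k := fun n t => ∏ j, u n j ^ N t j with hw
  have hw0 : ∀ n t, w n t ≠ 0 := fun n t =>
    Finset.prod_ne_zero_iff.2 fun j _ => zpow_ne_zero _ (hu n j)
  have hp0 : ∀ n j, ∏ t, w n t ^ M j t ≠ 0 := fun n j =>
    Finset.prod_ne_zero_iff.2 fun t _ => zpow_ne_zero _ (hw0 n t)
  set c : α → Fin s → k := fun n j => u n j / ∏ t, w n t ^ M j t with hc
  have huc : ∀ n j, u n j = c n j * ∏ t, w n t ^ M j t := fun n j =>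
    (div_mul_cancel₀ _ (hp0 n j)).symm
  have hc0 : ∀ n j, c n j ≠ 0 := fun n j => div_ne_zero (hu n j) (hp0 n j)
  have hge : ∀ j, (germ U fun n => u n j) =
      (germ U fun n => c n j) * germ U fun n => ∏ t, w n t ^ M j t := fun j => by
    rw [← map_mul]
    exact congrArg (germ U) (funext fun n => huc n j)
  have hm : ∀ j, (germ U fun n => c n j) ∈ Sm k hH := fun j => by
    have h4 := h2 j
    rwa [hge, mul_div_cancel_right₀ _ (germ_ne_zero.2 (.of_forall fun n => hp0 n j))] at h4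
  have hinj := (algebraMap (Sm k hH) (Up U k)).injective
  refine ⟨s', M, N, c, w, fun j => ⟨_, hm j⟩, fun _ _ => rfl, huc, hw0, hc0, h1, fun _ => rfl,
    fun j h => germ_ne_zero.2 (.of_forall fun n => hc0 n j) (congrArg Subtype.val h),
    fun t => hinj ?_, fun j => ?_, fun j => (mem_sm_iff hH).1 (hm j), fun m hm' => h3 m ?_,
    ⟨_, by positivity, fun n => (Finset.sum_le_sum fun t _ => ht_prod_le (u n) (N t)).trans
      (mat_le N fun j => zero_le_logHeight₁ _)⟩,
    ⟨∑ j, ∑ t, ((M j t).natAbs : ℝ), by positivity, fun n => ?_⟩,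
    ⟨∑ t, ∑ j, ((N t j).natAbs : ℝ), by positivity, fun n T => ?_⟩⟩
  · rw [map_prod, map_one]
    simp only [map_zpow₀]
    change ∏ j, (germ U fun n => c n j) ^ N t j = 1
    rw [← germ_prod, ← map_one (germ U)]
    refine congrArg (germ U) (funext fun n => ?_)
    have h4 : ∏ j, (∏ t', w n t' ^ M j t') ^ N t j = w n t := by
      simp only [← Finset.prod_zpow, ← zpow_mul]
      rw [Finset.prod_comm]
      have h5 : ∀ t', ∏ j, w n t' ^ (M j t' * N t j) = w n t' ^ (if t = t' then 1 else 0 : ℤ) := by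
        intro t'
        rw [← h1 t t', zpow_sum' (hw0 n t')]
        simp only [mul_comm]
      simp only [h5, pow_ite, zpow_one, zpow_zero, Finset.prod_ite_eq, Finset.mem_univ, if_true]
    simp only [hc, div_zpow, Finset.prod_div_distrib, Pi.one_apply]
    rw [h4]
    exact div_self (hw0 n t)
  · rw [hge, germ_prod]
    rfl
  · obtain ⟨z, hz⟩ := hm'
    rw [germ_prod, ← hz]
    exact z.2
  · refine le_trans ?_ (add_le_add_right (mat_le M fun t => zero_le_logHeight₁ (w n t)) _)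
    rw [← Finset.sum_add_distrib]
    refine Finset.sum_le_sum fun j _ => ?_
    rw [huc n j]
    exact (logHeight₁_mul_le _ _).trans (add_le_add_right (ht_prod_le _ _) _)
  · rw [df, df, ← osum_const_mul T (finS_df _)]
    exact osum_mono T (finS_df _) ((finS_df _).const_mul _) fun v _ _ =>
      (Finset.sum_le_sum fun t _ => abs_log_prod_le v (hu n) (N t)).trans
        (mat_le N fun j => abs_nonneg _)

end Pool.Agent.Lib.MP_8865d3_nt.Sv
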