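import Pool.Agent.Lib.MP_8865d3_nt.Sv.Voc
import Pool.Agent.Lib.MP_651af7_nt.Av.PtA

/-! The ideal of the product of a projective variety and projective lines. -/

namespace Pool.Agent.Lib.MP_8865d3_nt.Sv

open MvPolynomial Pool.Agent.Lib.MP_651af7_nt.Av

variable {k ι : Type} [Field k] {s : ℕ}

/-- The Segre substitution. -/
noncomputable def p0sg (K ι : Type) [CommRing K] (s : ℕ) :
    MvPolynomial (SI ι s) K →ₐ[K] MvPolynomial (ι ⊕ Fin s) K :=
  aeval (sgr (fun a => X (.inl a)) fun j => X (.inr j))

/-- The ideal of the product. -/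
noncomputable def p0I (I : Ideal (MvPolynomial ι k)) (s : ℕ) : Ideal (MvPolynomial (SI ι s) k) :=
  (I.map (rename Sum.inl)).comap (p0sg k ι s)

theorem p0_hom_sgr {R R' F : Type} [CommRing R] [CommRing R'] [FunLike F R R']
    [MonoidHomClass F R R'] (f : F) (x : ι → R) (u : Fin s → R) (a : SI ι s) :
    f (sgr x u a) = sgr (fun b => f (x b)) (fun j => f (u j)) a := by
  rw [sgr, sgr, map_mul, map_ch]

theorem p0_aeval_sg {R : Type} [CommRing R] [Algebra k R] (x : ι → R) (u : Fin s → R)
    (f : MvPolynomial (SI ι s) k) : aeval (Sum.elim x u) (p0sg k ι s f) = aeval (sgr x u) f := by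
  rw [p0sg, ← aeval_hom]
  simp only [p0_hom_sgr, aeval_X, Sum.elim_inl, Sum.elim_inr]

theorem p0_mem_iff {I : Ideal (MvPolynomial ι k)} {f : MvPolynomial (SI ι s) k} :
    f ∈ p0I I s ↔ ∀ (R : Type) [CommRing R] [Algebra k R] (x : ι → R) (u : Fin s → R),
      (∀ P ∈ I, aeval x P = 0) → aeval (sgr x u) f = 0 := by
  refine ⟨fun h R _ _ x u hx => ?_, fun h => ?_⟩
  · have h1 : I.map (rename (Sum.inl : ι → ι ⊕ Fin s)) ≤
        RingHom.ker (aeval (R := k) (Sum.elim x u)) :=
      Ideal.map_le_iff_le_comap.2 fun P hP => by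
        rw [Ideal.mem_comap, RingHom.mem_ker, aeval_rename]
        exact hx P hP
    rw [← p0_aeval_sg]
    exact h1 h
  · let π := Ideal.Quotient.mkₐ k (I.map (rename (Sum.inl : ι → ι ⊕ Fin s)))
    have h1 := h _ (fun a => π (X (.inl a))) (fun j => π (X (.inr j))) fun P hP => by
      have := Ideal.mem_map_of_mem (rename (Sum.inl : ι → ι ⊕ Fin s)) hP
      rw [rename_eq_aeval] at this
      rw [aeval_hom]
      exact Ideal.Quotient.eq_zero_iff_mem.2 (by rwa [rename_eq_aeval])
    rw [← funext (p0_hom_sgr π _ _), aeval_hom] at h1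
    exact Ideal.mem_comap.2 (Ideal.Quotient.eq_zero_iff_mem.1 h1)

theorem p0_zero_sgr {I : Ideal (MvPolynomial ι k)} {R : Type} [CommRing R] [Algebra k R]
    {x : ι → R} (hx : ∀ P ∈ I, aeval x P = 0) (u : Fin s → R) :
    ∀ f ∈ p0I I s, aeval (sgr x u) f = 0 := fun _ hf => p0_mem_iff.1 hf R x u hx

theorem p0_coeff {σ R : Type} [CommRing R] [Algebra k R] (v : σ → R) (f : MvPolynomial σ k)
    (d : ℕ) : (aeval (fun a => Polynomial.X * Polynomial.C (v a)) f).coeff d =
      aeval v (homogeneousComponent d f) := by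
  have h : ∀ e, aeval (fun a => Polynomial.X * Polynomial.C (v a)) (homogeneousComponent e f) =
      Polynomial.monomial e (aeval v (homogeneousComponent e f)) := fun e => by
    rw [aeval_mul_of_hom (homogeneousComponent_isHomogeneous e f), ← Polynomial.C_mul_X_pow_eq_monomial,
      mul_comm]
    exact congrArg (· * _) (aeval_alg (B := Polynomial R) v _)
  conv_lhs => rw [← sum_homogeneousComponent f, map_sum]
  simp only [h, Polynomial.finsetSum_coeff, Polynomial.coeff_monomial, Finset.sum_ite_eq',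
    Finset.mem_range]
  split_ifs with hd
  · rfl
  · rw [homogeneousComponent_eq_zero _ _ (by omega), map_zero]

theorem p0_hom {I : Ideal (MvPolynomial ι k)} (hI : ∀ P ∈ I, ∀ d, homogeneousComponent d P ∈ I) :
    ∀ P ∈ p0I I s, ∀ d, homogeneousComponent d P ∈ p0I I s := by
  intro f hf d
  refine p0_mem_iff.2 fun R _ _ x u hx => ?_
  have h1 := p0_zero_sgr (x := fun a => Polynomial.X * Polynomial.C (x a))
    (zero_mul_of_hom hI (fun P hP => by
      have := aeval_alg (B := Polynomial R) x P
      rw [hx P hP, map_zero] at this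
      exact this) _) (fun j => Polynomial.C (u j)) f hf
  have h2 : (sgr (fun a => Polynomial.X * Polynomial.C (x a)) fun j => Polynomial.C (u j)) =
      fun a : SI ι s => Polynomial.X * Polynomial.C (sgr x u a) := by
    funext a
    rw [p0_hom_sgr, sgr, sgr, mul_left_comm]
  rw [← p0_coeff, ← h2, h1, Polynomial.coeff_zero]

section ext

variable {K : Type} [Field K] [Algebra k K]

theorem p0_sg_map (f : MvPolynomial (SI ι s) k) :
    p0sg K ι s (map (algebraMap k K) f) = map (algebraMap k K) (p0sg k ι s f) := by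
  induction f using MvPolynomial.induction_on with
  | C c => simp [p0sg]
  | add p q hp hq => simp only [map_add, hp, hq]
  | mul_X p a hp =>
    simp only [map_mul, hp, map_X]
    simp only [p0sg, aeval_X, p0_hom_sgr, map_X]

theorem p0_cf_sg (l : K →ₗ[k] k) (f : MvPolynomial (SI ι s) K) :
    cf l (p0sg K ι s f) = p0sg k ι s (cf l f) := by
  have hC : ∀ {σ : Type} (c : K), cf l (C c : MvPolynomial σ K) = C (l c) := by
    intro σ c
    classical
    ext m
    simp only [coeff_cf, coeff_C]
    split_ifs <;> simp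
  induction f using MvPolynomial.induction_on' with
  | monomial μ c =>
    have e : monomial μ c = C c * map (algebraMap k K) (monomial μ 1) := by
      rw [map_monomial, map_one, C_mul_monomial, mul_one]
    rw [e, map_mul, p0_sg_map, cf_mul_map, cf_mul_map, hC, map_mul, algHom_C, algHom_C,
      algebraMap_eq, hC, algebraMap_eq]
  | add p q hp hq => rw [map_add, cf_add, cf_add, map_add, hp, hq]

theorem p0_mem_ext (I : Ideal (MvPolynomial ι k)) (f : MvPolynomial (SI ι s) K) :
    f ∈ (p0I I s).map (map (algebraMap k K)) ↔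
      p0sg K ι s f ∈ (I.map (map (algebraMap k K))).map (rename Sum.inl) := by
  have e : (I.map (map (algebraMap k K))).map (rename (Sum.inl : ι → ι ⊕ Fin s)) =
      (I.map (rename Sum.inl)).map (map (algebraMap k K)) := by
    refine le_antisymm (Ideal.map_le_iff_le_comap.2 (Ideal.map_le_iff_le_comap.2 fun P hP => ?_))
      (Ideal.map_le_iff_le_comap.2 (Ideal.map_le_iff_le_comap.2 fun P hP => ?_))
    · rw [Ideal.mem_comap, Ideal.mem_comap, ← map_rename]
      exact Ideal.mem_map_of_mem _ (Ideal.mem_map_of_mem _ hP)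
    · rw [Ideal.mem_comap, Ideal.mem_comap, map_rename]
      exact Ideal.mem_map_of_mem _ (Ideal.mem_map_of_mem _ hP)
  rw [e]
  refine ⟨fun h => ?_, fun h => mem_map_of_cf fun l => ?_⟩
  · refine Ideal.mem_comap.1
      ((Ideal.map_le_iff_le_comap (K := Ideal.comap (p0sg K ι s) _)).2 (fun P hP => ?_) h)
    rw [Ideal.mem_comap, Ideal.mem_comap, p0_sg_map]
    exact Ideal.mem_map_of_mem _ hP
  · rw [p0I, Ideal.mem_comap, ← p0_cf_sg]
    exact cf_mem h l

theorem p0_prime_inl {τ : Type} {J : Ideal (MvPolynomial ι K)} (hJ : J.IsPrime) :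
    (J.map (rename (Sum.inl : ι → ι ⊕ τ))).IsPrime := by
  let e : MvPolynomial (ι ⊕ τ) K ≃ₐ[K] MvPolynomial τ (MvPolynomial ι K) :=
    (renameEquiv K (Equiv.sumComm ι τ)).trans (sumAlgEquiv K τ ι)
  have he : ∀ P, e (rename Sum.inl P) = C P := fun P => by
    have h : e.toAlgHom.comp (rename Sum.inl) = IsScalarTower.toAlgHom K (MvPolynomial ι K) _ := by
      ext1 a
      simp [e]
    exact AlgHom.congr_fun h P
  have h1 : (J.map (C : MvPolynomial ι K →+* MvPolynomial τ (MvPolynomial ι K))).IsPrime := by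
    rw [← Ideal.mk_ker (I := J), ← MvPolynomial.ker_map]
    exact RingHom.ker_isPrime _
  have h2 : J.map (rename (Sum.inl : ι → ι ⊕ τ)) = (J.map C).comap e := by
    refine le_antisymm (Ideal.map_le_iff_le_comap.2 fun P hP => ?_) fun Q hQ => ?_
    · rw [Ideal.mem_comap, Ideal.mem_comap, he]
      exact Ideal.mem_map_of_mem _ hP
    · rw [← e.symm_apply_apply Q]
      refine Ideal.mem_comap.1
        ((Ideal.map_le_iff_le_comap (K := Ideal.comap e.symm _)).2 (fun P hP => ?_) hQ)
      rw [Ideal.mem_comap, Ideal.mem_comap, ← he, e.symm_apply_apply]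
      exact Ideal.mem_map_of_mem _ hP
  rw [h2]
  exact Ideal.comap_isPrime _ _

theorem p0_prime {I : Ideal (MvPolynomial ι k)} (h : (I.map (map (algebraMap k K))).IsPrime) :
    ((p0I I s).map (map (algebraMap k K))).IsPrime := by
  have h1 := p0_prime_inl (τ := Fin s) h
  rw [show (p0I I s).map (map (algebraMap k K)) = Ideal.comap (p0sg K ι s) _ from
    Ideal.ext fun f => (p0_mem_ext I f).trans Ideal.mem_comap.symm]
  exact Ideal.comap_isPrime _ _

end ext

/-- A zero of the ideal with a unit in each class is a Segre vector. -/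
theorem p0_struct {I : Ideal (MvPolynomial ι k)} {R : Type} [CommRing R] [Algebra k R]
    {v : SI ι s → R} (hu : ∀ ε, ∃ a, IsUnit (v (a, ε))) (hz : ∀ f ∈ p0I I s, aeval v f = 0) :
    (∀ P ∈ I, aeval (hat v) P = 0) ∧ ∃ u : Fin s → Rˣ, v = sgr (hat v) fun j => u j := by
  refine ⟨fun P hP => ?_, ?_⟩
  · have := hz (rename (fun a => (a, fun _ => false)) P) (p0_mem_iff.2 fun R _ _ x u hx => by
      rw [aeval_rename]
      exact (congrArg (aeval · P) (hat_sgr x u)).trans (hx P hP))
    rwa [aeval_rename] at this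
  obtain ⟨b, c, hc⟩ := hu fun _ => false
  have q1 : ∀ a ε, v (a, ε) = v (b, ε) * ↑c⁻¹ * v (a, fun _ => false) := fun a ε => by
    have := hz (X (a, ε) * X (b, fun _ => false) - X (b, ε) * X (a, fun _ => false))
      (p0_mem_iff.2 fun R _ _ x u _ => by
        simp only [map_sub, map_mul, aeval_X, sgr]
        ring)
    simp only [map_sub, map_mul, aeval_X, ← hc, sub_eq_zero] at this
    rw [mul_right_comm, ← this, Units.mul_inv_cancel_right]
  have q2 : ∀ ε, v (b, ε) * ↑c⁻¹ = ch (fun j => v (b, fun l => decide (l = j)) * ↑c⁻¹) ε := by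
    intro ε
    have key : ∀ {R : Type} [CommRing R] (y : R) (u : Fin s → R),
        (∏ j, if ε j then u j * y else y) = ch u ε * y ^ s := by
      intro R _ y u
      rw [ch, ← Fin.prod_const, ← Finset.prod_mul_distrib]
      exact Finset.prod_congr rfl fun j _ => by split_ifs <;> simp
    have := hz (X (b, ε) * X (b, fun _ => false) ^ s - X (b, fun _ => false) *
        ∏ j, if ε j then X (b, fun l => decide (l = j)) else X (b, fun _ => false))
      (p0_mem_iff.2 fun R _ _ x u _ => by
        simp only [map_sub, map_mul, map_pow, map_prod, apply_ite (aeval (sgr x u)), aeval_X, sgr,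
          ch_false, ch_single, one_mul, key]
        ring)
    simp only [map_sub, map_mul, map_pow, map_prod, apply_ite (aeval v), aeval_X, ← hc,
      sub_eq_zero] at this
    have e := key (c : R) fun j => v (b, fun l => decide (l = j)) * ↑c⁻¹
    simp only [Units.inv_mul_cancel_right] at e
    rw [e, ← mul_assoc, (c.isUnit.pow s).mul_left_inj] at this
    rw [this, mul_comm (c : R), Units.mul_inv_cancel_right]
  have q3 : ∀ j, IsUnit (v (b, fun l => decide (l = j)) * ↑c⁻¹) := fun j => by
    obtain ⟨a, ha⟩ := hu fun l => decide (l = j)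
    rw [q1] at ha
    exact isUnit_of_mul_isUnit_left ha
  refine ⟨fun j => (q3 j).unit, funext fun ⟨a, ε⟩ => ?_⟩
  rw [q1, q2]
  rfl

end Pool.Agent.Lib.MP_8865d3_nt.Sv
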