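import Pool.Agent.Lib.MP_8865d3_nt.Sv.Prod0A

/-! Polarisation of forms of bidegree `(2, 2)`. -/

namespace Pool.Agent.Lib.MP_8865d3_nt.Sv

open MvPolynomial Pool.Agent.Lib.MP_651af7_nt.Av

variable {k ι : Type} [Field k] [Fintype ι]

/-- A form that is linear in each of four vectors. -/
noncomputable def p0q (c : ι × ι × ι × ι → k) {R : Type} [CommRing R] [Algebra k R]
    (x₁ x₂ y₁ y₂ : ι → R) : R :=
  ∑ t, c t • (x₁ t.1 * x₂ t.2.1 * y₁ t.2.2.1 * y₂ t.2.2.2)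

section

variable (c : ι × ι × ι × ι → k) {R R' : Type} [CommRing R] [Algebra k R] [CommRing R']
  [Algebra k R']

theorem p0q_map (f : R →ₐ[k] R') (x₁ x₂ y₁ y₂ : ι → R) : f (p0q c x₁ x₂ y₁ y₂) =
    p0q c (fun a => f (x₁ a)) (fun a => f (x₂ a)) (fun a => f (y₁ a)) fun a => f (y₂ a) := by
  simp only [p0q, map_sum, map_smul, map_mul]

theorem p0q_mul (a b d e : R) (x₁ x₂ y₁ y₂ : ι → R) :
    p0q c (fun i => a * x₁ i) (fun i => b * x₂ i) (fun i => d * y₁ i) (fun i => e * y₂ i) =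
      a * b * (d * e) * p0q c x₁ x₂ y₁ y₂ := by
  simp only [p0q, Finset.mul_sum, mul_smul_comm]
  refine Finset.sum_congr rfl fun t _ => ?_
  congr 1
  ring

theorem p0q_hom {σ M : Type} [AddCommMonoid M] (w : σ → M) (f₁ f₂ f₃ f₄ : ι → σ) {m₁ m₂ m₃ m₄ : M}
    (h₁ : ∀ a, w (f₁ a) = m₁) (h₂ : ∀ a, w (f₂ a) = m₂) (h₃ : ∀ a, w (f₃ a) = m₃)
    (h₄ : ∀ a, w (f₄ a) = m₄) :
    (p0q c (fun a => (X (f₁ a) : MvPolynomial σ k)) (fun a => X (f₂ a)) (fun a => X (f₃ a))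
      fun a => X (f₄ a)).IsWeightedHomogeneous w (m₁ + m₂ + m₃ + m₄) := by
  refine (weightedHomogeneousSubmodule k w _).sum_mem fun t _ => Submodule.smul_mem _ _ ?_
  rw [← h₁ t.1, ← h₂ t.2.1, ← h₃ t.2.2.1, ← h₄ t.2.2.2]
  exact (((isWeightedHomogeneous_X k w _).mul (isWeightedHomogeneous_X k w _)).mul
    (isWeightedHomogeneous_X k w _)).mul (isWeightedHomogeneous_X k w _)

end

omit [Fintype ι] in
theorem p0_peel {σ : Type} (w : σ → ℕ × ℕ) (π : ℕ × ℕ →+ ℕ) (f : ι → σ) {m d : ℕ × ℕ}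
    (hw : ∀ i, π (w i) ≠ 0 → ∃ a, i = f a) (hf : ∀ a, w (f a) = d) (hd : π d ≠ 0) {μ : σ →₀ ℕ}
    (h : Finsupp.weight w μ = d + m) :
    ∃ a ν, μ = Finsupp.single (f a) 1 + ν ∧ Finsupp.weight w ν = m := by
  have h1 : ∃ i ∈ μ.support, π (μ i • w i) ≠ 0 := by
    refine Finset.exists_ne_zero_of_sum_ne_zero ?_
    rw [Finsupp.weight_apply, Finsupp.sum] at h
    rw [← map_sum, h, map_add]
    omega
  obtain ⟨i, hi, h2⟩ := h1
  obtain ⟨a, rfl⟩ := hw i fun h0 => h2 (by rw [map_nsmul, h0, smul_zero])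
  obtain ⟨ν, rfl⟩ := exists_add_of_le (Finsupp.single_le_iff.2
    (Nat.one_le_iff_ne_zero.2 (Finsupp.mem_support_iff.1 hi)))
  refine ⟨a, ν, rfl, ?_⟩
  rwa [map_add, Finsupp.weight_single, one_smul, hf, add_right_inj] at h

theorem p0_exists_q {P : MvPolynomial (ι ⊕ ι) k} (hP : P.IsWeightedHomogeneous (bw ι ι) (2, 2)) :
    ∃ c : ι × ι × ι × ι → k, ∀ (R : Type) [CommRing R] [Algebra k R] (x y : ι → R),
      aeval (Sum.elim x y) P = p0q c x x y y := by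
  have h1 : P ∈ Submodule.span k (Set.range fun t : ι × ι × ι × ι =>
      (X (.inl t.1) * X (.inl t.2.1) * X (.inr t.2.2.1) * X (.inr t.2.2.2) :
        MvPolynomial (ι ⊕ ι) k)) := by
    rw [P.as_sum]
    refine Submodule.sum_mem _ fun μ hμ => ?_
    have a1 : ∀ i, AddMonoidHom.fst ℕ ℕ (bw ι ι i) ≠ 0 → ∃ a, i = .inl a := by
      rintro (a | a) h
      exacts [⟨a, rfl⟩, absurd rfl h]
    have a2 : ∀ i, AddMonoidHom.snd ℕ ℕ (bw ι ι i) ≠ 0 → ∃ a, i = .inr a := by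
      rintro (a | a) h
      exacts [absurd rfl h, ⟨a, rfl⟩]
    obtain ⟨a, ν₁, rfl, h₁⟩ := p0_peel (d := (1, 0)) (m := (1, 2)) _ _ _ a1 (fun _ => rfl)
      one_ne_zero (hP (mem_support_iff.1 hμ))
    obtain ⟨b, ν₂, rfl, h₂⟩ := p0_peel (d := (1, 0)) (m := (0, 2)) _ _ _ a1 (fun _ => rfl)
      one_ne_zero h₁
    obtain ⟨c, ν₃, rfl, h₃⟩ := p0_peel (d := (0, 1)) (m := (0, 1)) _ _ _ a2 (fun _ => rfl)
      one_ne_zero h₂
    obtain ⟨d, ν₄, rfl, h₄⟩ := p0_peel (d := (0, 1)) (m := (0, 0)) _ _ _ a2 (fun _ => rfl)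
      one_ne_zero h₃
    obtain rfl : ν₄ = 0 := by
      ext i
      by_contra h
      have h5 := Finset.single_le_sum (f := fun i => ν₄ i • bw ι ι i) (fun _ _ => zero_le)
        (Finsupp.mem_support_iff.2 h)
      rw [Finsupp.weight_apply, Finsupp.sum] at h₄
      rw [h₄] at h5
      rcases i with i | i <;> simp [bw] at h5 <;> exact h h5
    rw [← mul_one (coeff _ P), ← smul_eq_mul, ← smul_monomial]
    refine Submodule.smul_mem _ _ (Submodule.subset_span ⟨(a, b, c, d), ?_⟩)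
    simp only [X, monomial_mul, mul_one, add_zero, add_assoc]
  obtain ⟨c, rfl⟩ := (Submodule.mem_span_range_iff_exists_fun k).1 h1
  refine ⟨c, fun R _ _ x y => ?_⟩
  simp only [p0q, map_sum, map_smul, map_mul, aeval_X, Sum.elim_inl, Sum.elim_inr]

variable {s : ℕ}

/-- The forms of the law of the product. -/
noncomputable def p0Φ (c : ι → ι → ι × ι × ι × ι → k) (a b : SI ι s) :
    MvPolynomial (SI ι s ⊕ SI ι s) k :=
  p0q (c a.1 b.1) (fun i => X (.inl (i, a.2))) (fun i => X (.inl (i, b.2)))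
    (fun i => X (.inr (i, a.2))) fun i => X (.inr (i, fun j => !b.2 j))

/-- The forms of the map of degree four. -/
noncomputable def p0ψ (c : ι → ι × ι × ι × ι → k) (a : SI ι s) : MvPolynomial (SI ι s) k :=
  p0q (c a.1) (fun i => X (i, a.2)) (fun i => X (i, a.2)) (fun i => X (i, a.2)) fun i => X (i, a.2)

theorem p0Φ_bih (c : ι → ι → ι × ι × ι × ι → k) (a b : SI ι s) :
    (p0Φ c a b).IsWeightedHomogeneous (bw (SI ι s) (SI ι s)) (2, 2) :=
  p0q_hom _ (bw (SI ι s) (SI ι s)) _ _ _ _ (m₁ := (1, 0)) (m₂ := (1, 0)) (m₃ := (0, 1))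
    (m₄ := (0, 1)) (fun _ => rfl) (fun _ => rfl) (fun _ => rfl) fun _ => rfl

theorem p0ψ_hom (c : ι → ι × ι × ι × ι → k) (a : SI ι s) : (p0ψ c a).IsHomogeneous 4 :=
  p0q_hom _ (1 : SI ι s → ℕ) _ _ _ _ (m₁ := 1) (m₂ := 1) (m₃ := 1) (m₄ := 1)
    (fun _ => rfl) (fun _ => rfl) (fun _ => rfl) fun _ => rfl

variable {R : Type} [CommRing R] [Algebra k R]

theorem p0Φ_aeval (c : ι → ι → ι × ι × ι × ι → k) (a b : SI ι s) (x y : SI ι s → R) :
    aeval (Sum.elim x y) (p0Φ c a b) = p0q (c a.1 b.1) (fun i => x (i, a.2)) (fun i => x (i, b.2))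
      (fun i => y (i, a.2)) fun i => y (i, fun j => !b.2 j) := by
  simp only [p0Φ, p0q_map, aeval_X, Sum.elim_inl, Sum.elim_inr]

theorem p0ψ_aeval (c : ι → ι × ι × ι × ι → k) (a : SI ι s) (x : SI ι s → R) :
    aeval x (p0ψ c a) = p0q (c a.1) (fun i => x (i, a.2)) (fun i => x (i, a.2))
      (fun i => x (i, a.2)) fun i => x (i, a.2) := by
  simp only [p0ψ, p0q_map, aeval_X]

end Pool.Agent.Lib.MP_8865d3_nt.Sv
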