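import Pool.Agent.Lib.MP_8865d3_nt.Sv.Tr
import Pool.Agent.Lib.MP_8865d3_nt.Sv.Sum
import Pool.Agent.Lib.MP_651af7_nt.Av.Ht

/-! Points, zeros, dimension and heights of the product. -/

namespace Pool.Agent.Lib.MP_8865d3_nt.Sv

open MvPolynomial Height Filter Pool.Agent.Lib.MP_651af7_nt.Av

set_option linter.unusedSectionVars false

section

variable {k ι R : Type} [Field k] [CommRing R] {s : ℕ}

theorem prod1_ch_update (u : Fin s → R) (ε : Fin s → Bool) (j : Fin s) (b : Bool) :
    ch u (Function.update ε j b) * (if ε j then u j else 1) = ch u ε * if b then u j else 1 := by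
  rw [ch, ch, ← Finset.mul_prod_erase _ _ (Finset.mem_univ j),
    ← Finset.mul_prod_erase Finset.univ (fun l => if ε l then u l else 1) (Finset.mem_univ j),
    Function.update_self, Finset.prod_congr rfl fun l hl => by
      rw [Function.update_of_ne (Finset.ne_of_mem_erase hl)]]
  ring

theorem prod1_ch_prod (u : Fin s → R) (ε δ : Fin s → Bool) :
    (∏ j, ch u (Function.update δ j (ε j))) * ch u δ = ch u δ ^ s * ch u ε := by
  have h := Finset.prod_congr rfl fun j (_ : j ∈ Finset.univ) => prod1_ch_update u δ j (ε j)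
  rwa [Finset.prod_mul_distrib, Finset.prod_mul_distrib, Finset.prod_const, Finset.card_univ,
    Fintype.card_fin] at h

theorem prod1_map_sgr {R' F : Type} [CommRing R'] [FunLike F R R'] [MonoidHomClass F R R'] (f : F)
    (x : ι → R) (u : Fin s → R) :
    (fun a => f (sgr x u a)) = sgr (fun a => f (x a)) fun j => f (u j) :=
  funext fun a => by rw [sgr, sgr, map_mul, map_ch]

theorem prod1_IK (I : Ideal (MvPolynomial ι k)) : I.map (MvPolynomial.map (algebraMap k k)) = I := by
  rw [show MvPolynomial.map (algebraMap k k) = RingHom.id (MvPolynomial ι k) from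
    RingHom.ext MvPolynomial.map_id, Ideal.map_id]

theorem prod1_rep [Algebra k R] {A : GV k ι} {p : A.Pt R} {v w : ι → R} (h : GV.Rep p v) {c : R}
    (hc : IsUnit c) (e : ∀ a, v a = c * w a) : GV.Rep p w := by
  obtain ⟨c, rfl⟩ := hc
  have h1 := h.smul c⁻¹.isUnit
  simpa only [e, Units.inv_mul_cancel_left] using h1

end

variable {k ι : Type} [Field k] [Fintype ι] {s : ℕ} {B : AV k ι} {G : GV k (SI ι s)}
  (h : IsProd B G)
include h

namespace IsProd

section ring

variable {R : Type} [CommRing R] [Algebra k R]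

theorem mem_I (f : MvPolynomial (SI ι s) k) : f ∈ G.I ↔
    aeval (sgr (fun a => X (.inl a)) fun j => X (.inr j) : SI ι s → MvPolynomial (ι ⊕ Fin s) k) f ∈
      B.I.map (rename Sum.inl) := by
  have h1 := h.mem k f
  rwa [GV.IK, AV.IK, prod1_IK, prod1_IK] at h1

theorem zero_sgr {x : ι → R} (hx : ∀ f ∈ B.I, aeval x f = 0) (u : Fin s → R) :
    ∀ f ∈ G.I, aeval (sgr x u) f = 0 := by
  intro f hf
  have h1 : B.I.map (rename Sum.inl) ≤
      RingHom.ker (aeval (Sum.elim x u) : MvPolynomial (ι ⊕ Fin s) k →ₐ[k] R) :=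
    Ideal.map_le_iff_le_comap.2 fun g hg => by
      change aeval (Sum.elim x u) (rename Sum.inl g) = 0
      rw [aeval_rename]
      exact hx g hg
  have h2 : aeval (Sum.elim x u) (aeval _ f) = 0 := h1 ((h.mem_I f).1 hf)
  rw [← AlgHom.comp_apply, comp_aeval, prod1_map_sgr] at h2
  simpa only [aeval_X, Sum.elim_inl, Sum.elim_inr] using h2

/-- The coordinates of one weight give a zero of the ideal of `B`. -/
theorem zero_slice {w : SI ι s → R} (hw : ∀ f ∈ G.I, aeval w f = 0) (ε : Fin s → Bool) :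
    ∀ f ∈ B.I, aeval (fun a => w (a, ε)) f = 0 := by
  intro f hf
  have h1 : rename (fun a => ((a, ε) : SI ι s)) f ∈ G.I := by
    rw [h.mem_I, aeval_rename, ← Ideal.Quotient.eq_zero_iff_mem, ← Ideal.Quotient.mkₐ_eq_mk k,
      ← AlgHom.comp_apply, comp_aeval]
    have h2 := zero_mul_of_hom B.hom
      (v := fun a => Ideal.Quotient.mkₐ k (B.I.map (rename (Sum.inl : ι → ι ⊕ Fin s))) (X (.inl a)))
      (fun g hg => by
        have h3 := Ideal.Quotient.eq_zero_iff_mem.2
          (Ideal.mem_map_of_mem (rename (Sum.inl : ι → ι ⊕ Fin s)) hg)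
        rw [← h3, ← comp_aeval, AlgHom.comp_apply, rename_eq_aeval]
        rfl)
      (Ideal.Quotient.mkₐ k _ (ch (fun j => X (.inr j)) ε)) f hf
    simp only [← map_mul] at h2
    exact h2
  have h2 := hw _ h1
  rwa [aeval_rename] at h2

/-- The relations between the coordinates of different weights. -/
theorem rel {w : SI ι s → R} (hw : ∀ f ∈ G.I, aeval w f = 0) (a b : ι) (ε δ : Fin s → Bool) :
    w (a, ε) * w (b, δ) ^ s = w (a, δ) * ∏ j, w (b, Function.update δ j (ε j)) := by
  have h1 : X (a, ε) * X (b, δ) ^ s - X (a, δ) * ∏ j, X (b, Function.update δ j (ε j)) ∈ G.I := by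
    rw [h.mem_I]
    convert Ideal.zero_mem _
    simp only [map_sub, map_mul, map_pow, map_prod, aeval_X, sgr, Finset.prod_mul_distrib,
      Finset.prod_const, Finset.card_univ, Fintype.card_fin, mul_pow]
    linear_combination (-(X (.inl a) * X (.inl b) ^ s)) *
      prod1_ch_prod (fun j => (X (.inr j) : MvPolynomial (ι ⊕ Fin s) k)) ε δ
  have h2 := hw _ h1
  simpa only [map_sub, map_mul, map_pow, map_prod, aeval_X, sub_eq_zero] using h2

theorem ph_sgr (x y : ι → R) (u w : Fin s → R) (a b : SI ι s) :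
    G.ph a b (sgr x u) (sgr y w) =
      ch u a.2 * ch u b.2 * (ch w a.2 * ch w fun j => !b.2 j) * B.ph a.1 b.1 x y := by
  rw [← h.ph_one R x y a b]
  exact h.ph R u w (fun c => x c.1) (fun c => y c.1) a b

theorem exists_pt {P : B.Pt R} {x : ι → R} (hx : AV.Rep P x) {u : Fin s → R}
    (hu : ∀ j, IsUnit (u j)) : ∃ Z : G.Pt R, GV.Rep Z (sgr x u) := by
  obtain ⟨a, ha⟩ := hx.unit
  exact GV.exists_rep (fun c => ⟨(a, c.2), (h.cl _ _).2 rfl, (isUnit_ch hu _).mul ha⟩)
    (h.zero_sgr hx.zero u)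

theorem isUnit_of_rep {Z : G.Pt R} {x : ι → R} {u : Fin s → R} (hZ : GV.Rep Z (sgr x u)) (j : Fin s) :
    IsUnit (u j) := by
  obtain ⟨a, ha, hu⟩ := hZ.uni (B.ao, fun l => decide (l = j))
  have h1 := isUnit_of_mul_isUnit_left hu
  rwa [(h.cl _ _).1 ha, ch_single] at h1

variable [IsLocalRing R]

theorem rep_add {P Q : B.Pt R} {x y z : ι → R} (hx : AV.Rep P x) (hy : AV.Rep Q y)
    (hz : AV.Rep (P + Q) z) {Z Z' : G.Pt R} {u w : Fin s → R} (hZ : GV.Rep Z (sgr x u))
    (hZ' : GV.Rep Z' (sgr y w)) : GV.Rep (Z + Z') (sgr z fun j => u j * w j) := by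
  obtain ⟨c, hc⟩ := AV.law hx hy hz (AV.rep_co _)
  obtain ⟨a, ha⟩ := hz.unit
  obtain ⟨b, hb⟩ := (AV.rep_co (P - Q)).unit
  have hu := isUnit_ch (h.isUnit_of_rep hZ)
  have hw := isUnit_ch (h.isUnit_of_rep hZ')
  have h1 : ∀ d : SI ι s, G.ph d (b, fun _ => false) (sgr x u) (sgr y w) =
      (ch w (fun _ => !false) * (c * (P - Q).co b)) * sgr z (fun j => u j * w j) d := fun d => by
    rw [h.ph_sgr, hc, sgr, ch_mul, ch_false]
    ring
  have h2 := (hw fun _ => !false).mul (c.isUnit.mul hb)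
  refine prod1_rep (GV.rep_add hZ hZ' (a := (a, fun _ => false)) (b := (b, fun _ => false)) ?_) h2 h1
  rw [h1, sgr, ch_false, one_mul]
  exact h2.mul ha

theorem rep_ps {P : B.Pt R} {x y : ι → R} (hx : AV.Rep P x) (j : ℕ) (hy : AV.Rep (2 ^ j • P) y)
    {Z : G.Pt R} {u : Fin s → R} (hZ : GV.Rep Z (sgr x u)) :
    GV.Rep (G.ps^[j] Z) (sgr y fun t => u t ^ 4 ^ j) := by
  induction j generalizing y with
  | zero =>
    rw [pow_zero, one_smul] at hy
    obtain ⟨c, hc⟩ := hy.exists_smul hx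
    refine prod1_rep hZ c.isUnit fun a => ?_
    simp only [sgr, pow_zero, pow_one, hc]
    ring
  | succ j ih =>
    have h0 := AV.rep_co (2 ^ j • P)
    rw [pow_succ, mul_smul, two_smul, smul_add] at hy
    obtain ⟨c, hc⟩ := AV.law h0 h0 hy (sub_self (2 ^ j • P) ▸ AV.rep_zero)
    rw [Function.iterate_succ_apply']
    refine prod1_rep (ih h0).ps c.isUnit fun a => ?_
    refine (h.ψ R _ (fun c => (2 ^ j • P).co c.1) a).trans ?_
    rw [h.ψ_one, hc, B.o_ao, map_one, ← ch_pow, sgr]
    simp only [← pow_mul, ← pow_succ]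
    ring

end ring

/-- The zeros of the ideal of the product, boundary included. -/
theorem exists_sgp {F : Type} [Field F] [Algebra k F] {w : SI ι s → F} (h0 : w ≠ 0)
    (hw : ∀ f ∈ G.I, aeval w f = 0) : ∃ (x : ι → F) (p q : Fin s → F), x ≠ 0 ∧
      (∀ f ∈ B.I, aeval x f = 0) ∧ (∀ j, p j = 1 ∨ q j = 1) ∧ w = sgp x p q := by
  obtain ⟨⟨b, δ⟩, hb⟩ := Function.ne_iff.1 h0
  have hb' : w (b, δ) ≠ 0 := hb
  refine ⟨fun a => w (a, δ), fun j => w (b, Function.update δ j false) / w (b, δ),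
    fun j => w (b, Function.update δ j true) / w (b, δ), Function.ne_iff.2 ⟨b, hb⟩,
    h.zero_slice hw δ, fun j => ?_, funext fun ⟨a, ε⟩ => mul_right_cancel₀ (pow_ne_zero s hb') ?_⟩
  · cases hj : δ j
    · exact .inl (by simp only [← hj, Function.update_eq_self, div_self hb'])
    · exact .inr (by simp only [← hj, Function.update_eq_self, div_self hb'])
  · have h1 : ∏ j, w (b, Function.update δ j (ε j)) = ∏ j, ((if ε j then
        w (b, Function.update δ j true) / w (b, δ) else
        w (b, Function.update δ j false) / w (b, δ)) * w (b, δ)) :=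
      Finset.prod_congr rfl fun j _ => by cases ε j <;> simp [hb']
    rw [h.rel hw, h1, Finset.prod_mul_distrib, Finset.prod_const, Finset.card_univ,
      Fintype.card_fin, sgp]
    ring

/-- Sketch.  `GV.tr_gen` gives a generic zero `w`; it is `sgr x z` (no variable lies in the ideal),
`td (rat w) = td (rat x ∪ range z) ≤ B.dim + s`.  Conversely take a generic zero `x` of `B.I` in `M`
and the variables `z` of a rational function field over `M`; `td_add_le`, `GV.td_le_dim`. -/
theorem dim_eq : G.dim = B.dim + s := by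
  refine Nat.cast_injective (R := ℕ∞) (le_antisymm ?_ ?_)
  · obtain ⟨M, _, -, _, -, w, hw, h0, hd, -⟩ := G.tr_gen k
    obtain ⟨x, p, q, -, hx, hpq, rfl⟩ := h.exists_sgp (Function.ne_iff.2 ⟨_, h0⟩) fun f hf =>
      (hw f).2 (by rwa [GV.IK, prod1_IK])
    obtain ⟨L, hL, hS⟩ := tr_cl (K := k) (rat x ∪ Set.range fun j => p j * q j)
    have h1 : ∀ ε : Fin s → Bool, (∏ j, if ε j then q j else p j) ∈ L := fun ε =>
      prod_mem fun j _ => by
        have h2 := hS (.inr ⟨j, rfl⟩)
        rcases hpq j with e | e <;> split_ifs <;> simp only [e, one_mul, mul_one] at h2 ⊢ <;>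
          first | exact h2 | exact one_mem _
    rw [← hd, Nat.cast_add]
    refine (tr_td_le ?_).trans ((td_union_le (rat x) (Set.range fun j => p j * q j)).trans
      (add_le_add (B.td_le_dim hx) ((td_le_encard _).trans ?_)))
    · rw [← hL]
      rintro _ ⟨⟨a, b⟩, rfl⟩
      simp only [sgp, mul_div_mul_comm]
      exact L.mul_mem (L.div_mem (h1 _) (h1 _)) (hS (.inl ⟨(a.1, b.1), rfl⟩))
    · rw [← Set.image_univ]
      exact (Set.encard_image_le _ _).trans (by simp)
  · obtain ⟨M, _, -, _, -, x, hx, h0, hd, -⟩ := B.tr_gen k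
    let F := FractionRing (MvPolynomial (Fin s) M)
    let i := IsScalarTower.toAlgHom k M F
    have hz := (algebraicIndependent_X (Fin s) M).map'
      (f := IsScalarTower.toAlgHom M (MvPolynomial (Fin s) M) F) (IsFractionRing.injective _ _)
    generalize (IsScalarTower.toAlgHom M (MvPolynomial (Fin s) M) F) ∘ X = z at hz
    have h1 := G.td_le_dim (K := k) (h.zero_sgr (x := fun a => i (x a)) (fun f hf => by
      rw [← comp_aeval, AlgHom.comp_apply, (hx f).2 (by rwa [AV.IK, prod1_IK]), map_zero]) z)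
    have h2 := card_le_td hz (S := Set.range z) fun j => ⟨j, rfl⟩
    rw [ENat.card_eq_coe_fintype_card, Fintype.card_fin] at h2
    rw [Nat.cast_add, ← hd, ← td_image i]
    refine (add_le_add le_rfl h2).trans ((td_add_le ?_).trans ((td_mono ?_).trans h1))
    · rintro _ ⟨y, -, rfl⟩
      exact ⟨y, rfl⟩
    · rintro _ (⟨_, ⟨p, rfl⟩, rfl⟩ | ⟨j, rfl⟩)
      · exact ⟨((p.1, fun _ => false), (p.2, fun _ => false)), by simp [sgr, ch_false]⟩
      · refine ⟨((B.ao, fun l => decide (l = j)), (B.ao, fun _ => false)), ?_⟩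
        simp only [sgr, ch_false, ch_single, one_mul]
        exact mul_div_cancel_right₀ _ ((map_ne_zero i).2 h0)

variable [NumberField k]

theorem ht_rep {P : B.Pt k} {x : ι → k} (hx : AV.Rep P x) {Z : G.Pt k} {u : Fin s → k}
    (hZ : GV.Rep Z (sgr x u)) :
    GV.ht Z = hp P u ∧ logHeight (hat Z.co) = AV.ht P ∧ Seg Z.co u := by
  have hu : ∀ j, u j ≠ 0 := fun j => (h.isUnit_of_rep hZ j).ne_zero
  obtain ⟨c, hc⟩ := hZ.exists_smul (GV.rep_co Z)
  obtain ⟨a, ha⟩ := hx.unit
  have h0 : x ≠ 0 := Function.ne_iff.2 ⟨a, ha.ne_zero⟩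
  refine ⟨?_, ?_, funext hc ▸ (seg_sgr x hu).smul c⟩
  · have h1 : ∀ j, (fun b : Bool => if b then u j else 1) ≠ 0 := fun j =>
      Function.ne_iff.2 ⟨false, by simp⟩
    have h2 := logHeight_fun_prod_eq (x := fun j (b : Bool) => if b then u j else 1) h1
    have h3 := logHeight_fun_mul_eq h0 (y := ch u)
      (Function.ne_iff.2 ⟨fun _ => false, by simp [ch_false]⟩)
    rw [GV.ht_eq hZ, hp, AV.ht_eq hx, show sgr x u = fun a : ι × (Fin s → Bool) => x a.1 * ch u a.2
      from funext fun a => mul_comm _ _, h3]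
    refine congrArg _ (h2.trans (Finset.sum_congr rfl fun j _ => ?_))
    rw [logHeight₁_eq_logHeight, logHeight_swap, ← logHeight_comp_equiv finTwoEquiv]
    congr 1
    ext i
    fin_cases i <;> rfl
  · rw [AV.ht_eq hx, ← logHeight_smul_eq_logHeight x c.ne_zero]
    congr 1
    ext a
    rw [hat, hc, sgr, ch_false, one_mul]
    rfl

end IsProd

end Pool.Agent.Lib.MP_8865d3_nt.Sv
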