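import Pool.Agent.Lib.MP_8865d3_nt.Sv.Defs
import Pool.Agent.Lib.MP_651af7_nt.Av.EAd

/-! The vocabulary shared by the blocks. -/

namespace Pool.Agent.Lib.MP_8865d3_nt.Sv

open MvPolynomial Height Filter Pool.Agent.Lib.MP_651af7_nt.Av
open Pool.Agent.Lib.Common.Subspace (IsInt len)
open Pool.Agent.Lib.MP_651af7_nt.Vj (gsum FinS)

section segre

variable {R ι : Type} [CommRing R] {s : ℕ}

/-- The character attached to a set of indices. -/
def ch (u : Fin s → R) (ε : Fin s → Bool) : R := ∏ j, if ε j then u j else 1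

/-- The indices of the Segre coordinates. -/
abbrev SI (ι : Type) (s : ℕ) : Type := ι × (Fin s → Bool)

/-- The coordinates of weight zero. -/
def hat (x : SI ι s → R) : ι → R := fun a => x (a, fun _ => false)

/-- The Segre coordinates of `(x, u)`. -/
def sgr (x : ι → R) (u : Fin s → R) : SI ι s → R := fun a => ch u a.2 * x a.1

/-- The Segre coordinates of `(x, (p j : q j))`. -/
def sgp (x : ι → R) (p q : Fin s → R) : SI ι s → R :=
  fun a => (∏ j, if a.2 j then q j else p j) * x a.1

/-- `u` is the torus part of `x`. -/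
def Seg (x : SI ι s → R) (u : Fin s → R) : Prop := (∀ j, u j ≠ 0) ∧ x = sgr (hat x) u

/-- The degree in the first group of variables. -/
def xw (ι : Type) (s : ℕ) : ι ⊕ Fin s → ℕ := Sum.elim (fun _ => 1) fun _ => 0

theorem ch_false (u : Fin s → R) : ch u (fun _ => false) = 1 := by simp [ch]

theorem ch_one (ε : Fin s → Bool) : ch (fun _ => (1 : R)) ε = 1 := by simp [ch]

theorem ch_mul (u w : Fin s → R) (ε : Fin s → Bool) :
    ch (fun j => u j * w j) ε = ch u ε * ch w ε := by
  rw [ch, ch, ch, ← Finset.prod_mul_distrib]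
  exact Finset.prod_congr rfl fun j _ => by split_ifs <;> simp

theorem ch_pow (u : Fin s → R) (ε : Fin s → Bool) (n : ℕ) :
    ch (fun j => u j ^ n) ε = ch u ε ^ n := by
  rw [ch, ch, ← Finset.prod_pow]
  exact Finset.prod_congr rfl fun j _ => by split_ifs <;> simp

theorem ch_mul_not (u : Fin s → R) (ε : Fin s → Bool) :
    ch u ε * ch u (fun j => !ε j) = ∏ j, u j := by
  rw [ch, ch, ← Finset.prod_mul_distrib]
  exact Finset.prod_congr rfl fun j _ => by cases ε j <;> simp

theorem ch_single (u : Fin s → R) (j : Fin s) : ch u (fun l => decide (l = j)) = u j := by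
  simp [ch]

theorem map_ch {R' F : Type} [CommRing R'] [FunLike F R R'] [MonoidHomClass F R R'] (f : F)
    (u : Fin s → R) (ε : Fin s → Bool) : f (ch u ε) = ch (fun j => f (u j)) ε := by
  rw [ch, ch, map_prod]
  exact Finset.prod_congr rfl fun j _ => by split_ifs <;> simp

theorem isUnit_ch {u : Fin s → R} (h : ∀ j, IsUnit (u j)) (ε : Fin s → Bool) : IsUnit (ch u ε) :=
  Finset.prod_induction _ IsUnit (fun _ _ => IsUnit.mul) isUnit_one fun j _ => by
    split_ifs
    exacts [h j, isUnit_one]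

theorem hat_sgr (x : ι → R) (u : Fin s → R) : hat (sgr x u) = x :=
  funext fun a => by simp [hat, sgr, ch_false]

theorem seg_sgr (x : ι → R) {u : Fin s → R} (h : ∀ j, u j ≠ 0) : Seg (sgr x u) u :=
  ⟨h, by rw [hat_sgr]⟩

theorem Seg.smul {x : SI ι s → R} {u : Fin s → R} (h : Seg x u) (c : R) :
    Seg (fun a => c * x a) u :=
  ⟨h.1, funext fun a => by
    rw [congrFun h.2 a]
    exact mul_left_comm _ _ _⟩

end segre

namespace GV

variable {k ι : Type} [Field k] (A : GV k ι)

/-- The ideal of the model over `K`. -/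
noncomputable def IK (K : Type) [Field K] [Algebra k K] : Ideal (MvPolynomial ι K) :=
  A.I.map (MvPolynomial.map (algebraMap k K))

/-- The dimension. -/
noncomputable def dim : ℕ := Cardinal.toNat (Algebra.trdeg k (MvPolynomial ι k ⧸ A.I)) - 1

section

variable {R : Type} [CommRing R] [Algebra k R]

/-- `(x + ε v) - x = o + ε l` in the group of points over the dual numbers. -/
structure Tang (x v l : ι → R) : Prop where
  mem : ∀ f ∈ A.I, aeval (dv x v) f = 0
  ao : l A.ao = 0
  eq : ∀ a b, A.ph a b (dv x v) (dv x 0) =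
    A.ph a A.ao (dv x v) (dv x 0) * dv (fun c => algebraMap k R (A.o c)) l b

/-- The tangent space at the origin. -/
def IsLie (l : ι → R) : Prop :=
  l A.ao = 0 ∧ ∀ f ∈ A.I, aeval (dv (fun c => algebraMap k R (A.o c)) l) f = 0

end

/-- A basis of the tangent space at the origin. -/
structure LieBasis {g : ℕ} (σ : Fin g → ι → k) : Prop where
  mem : ∀ j, A.IsLie (σ j)
  indep : LinearIndependent k σ
  span : ∀ (R : Type) [CommRing R] [Algebra k R] (l : ι → R), A.IsLie l →
    ∃ τ : Fin g → R, ∀ a, l a = ∑ j, τ j * algebraMap k R (σ j a)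

/-- The covector `ℓ` kills the tangent space of the chart at `x`, moved to the origin. -/
def Kills [Fintype ι] {K R : Type} [Field K] [CommRing R] [Algebra k R] [Algebra K R] {g r : ℕ}
    (σ : Fin g → ι → k) (C : Chart K ι r) (x : ι → R) (ℓ : Fin g → R) : Prop :=
  ∀ j, ∃ (v : ι → R) (τ : Fin g → R), C.Tv x j v ∧
    A.Tang x v (fun a => ∑ l, τ l * algebraMap k R (σ l a)) ∧ ∑ l, ℓ l * τ l = 0

variable {A} in
/-- No nonzero covector over `K` kills the logarithmic derivatives of `Z` along all derivations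
over `K`. -/
def NoKill (K : Type) {E : Type} [Field K] [Field E] [Algebra k E] [Algebra K E] {g : ℕ}
    (σ : Fin g → ι → k) (Z : A.Pt E) : Prop :=
  ∀ ℓ : Fin g → K, (∀ D : Derivation K E E, ∃ τ : Fin g → E,
    A.Tang Z.co (fun a => D (Z.co a)) (fun a => ∑ l, τ l * algebraMap k E (σ l a)) ∧
      ∑ l, algebraMap K E (ℓ l) * τ l = 0) → ℓ = 0

variable [NumberField k] [Fintype ι]

variable {A} in
/-- The height of a rational point. -/
noncomputable def ht (P : A.Pt k) : ℝ := logHeight P.co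

theorem ht_eq {A : GV k ι} {P : A.Pt k} {x : ι → k} (h : Rep P x) :
    ht P = logHeight x := by
  obtain ⟨u, hu⟩ := h
  rw [funext hu]
  exact (logHeight_smul_eq_logHeight P.co u.ne_zero).symm

theorem ht_nonneg {A : GV k ι} (P : A.Pt k) : 0 ≤ ht P := logHeight_nonneg _

/-- A parametrisation of the formal neighbourhood of the origin. -/
structure Par (g : ℕ) (ϱ : ι → MvPowerSeries (Fin g) k) : Prop where
  mem : ∀ f ∈ A.I, aeval ϱ f = 0
  const : ∀ a, MvPowerSeries.constantCoeff (ϱ a) = A.o a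
  basis : A.LieBasis (lin ϱ)
  bd : ∃ (c : ℝ) (s : Finset k), ∀ v : AbsoluteValue k ℝ, ∀ a α, α ≠ 0 →
    v (MvPowerSeries.coeff α (ϱ a)) ≤
      (E (IsNonarchimedean v) c * ∏ z ∈ s, max 1 (v z)) ^ α.degree

/-- The data attached to one point. -/
structure Blk (g r ρ : ℕ) where
  /-- the point -/
  P : A.Pt k
  /-- its coordinates -/
  x : ι → k
  /-- the chart of the moving variety -/
  C : Chart k ι r
  /-- the parameters -/
  u : Fin (g + 1) → MvPolynomial ι k
  /-- the coefficients of the monic equations -/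
  c : ι → Fin ρ → MvPolynomial (Fin (g + 1)) k

namespace Blk

variable {A} {g r ρ : ℕ} (b : A.Blk g r ρ)

/-- The data are small and no small covector kills the tangent space. -/
structure Good (σ : Fin g → ι → k) (B₀ e : ℕ) (ε δ : ℝ) : Prop where
  rep : Rep b.P b.x
  atx : b.C.At b.x
  on : b.C.On A.I b.x
  nn : NN A.I e ρ b.u b.c
  smφ : ∀ a, SmallP B₀ (ε * ht b.P) (b.C.φ a)
  smu : ∀ i, SmallP B₀ (ε * ht b.P) (b.u i)
  smc : ∀ a l, SmallP B₀ (ε * ht b.P) (b.c a l)
  nsv : ∀ ℓ : Fin g → k, ℓ ≠ 0 → A.Kills σ b.C b.x ℓ → δ * ht b.P ≤ logHeight ℓ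

/-- The point lies on a small hypersurface in the coordinates of the chart. -/
def Exit (B' : ℕ) (s : ℝ) : Prop :=
  ∃ q : MvPolynomial (Fin r) ℚ, q ≠ 0 ∧ IsInt q ∧ (∀ μ ∈ q.support, ∀ j, μ j ≤ B') ∧
    len q ≤ Real.exp s ∧ aeval (fun j => b.x (b.C.I j)) q = 0

end Blk

end GV

section torus

variable {k ι : Type} [Field k] {s : ℕ}

/-- The torus acts on the coordinates through characters. -/
structure Tor (B : GV k (SI ι s)) : Prop where
  cl : ∀ a b, B.cl a = B.cl b ↔ a.2 = b.2
  ph : ∀ (R : Type) [CommRing R] [Algebra k R] (u w : Fin s → R) (x y : SI ι s → R) (a b : SI ι s),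
    B.ph a b (fun c => ch u c.2 * x c) (fun c => ch w c.2 * y c) =
      ch u a.2 * ch u b.2 * (ch w a.2 * ch w fun j => !b.2 j) * B.ph a b x y
  ψ : ∀ (R : Type) [CommRing R] [Algebra k R] (u : Fin s → R) (x : SI ι s → R) (a : SI ι s),
    aeval (fun c => ch u c.2 * x c) (B.ψ a) = ch u a.2 ^ 4 * aeval x (B.ψ a)

/-- `G` is the product of `B` and a split torus in Segre coordinates. -/
structure IsProd (B : AV k ι) (G : GV k (SI ι s)) : Prop extends Tor G where
  ao : G.ao = (B.ao, fun _ => false)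
  o : ∀ a, G.o a = B.o a.1
  mem : ∀ (K : Type) [Field K] [Algebra k K] (f : MvPolynomial (SI ι s) K), f ∈ G.IK K ↔
    aeval (sgr (fun a => X (.inl a)) fun j => X (.inr j) : SI ι s → MvPolynomial (ι ⊕ Fin s) K) f ∈
      (B.IK K).map (rename Sum.inl)
  ph_one : ∀ (R : Type) [CommRing R] [Algebra k R] (x y : ι → R) (a b : SI ι s),
    G.ph a b (fun c => x c.1) (fun c => y c.1) = B.ph a.1 b.1 x y
  ψ_one : ∀ (R : Type) [CommRing R] [Algebra k R] (x : ι → R) (a : SI ι s),
    aeval (fun c : SI ι s => x c.1) (G.ψ a) = B.ph a.1 B.ao x x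

variable [NumberField k]

open Classical in
/-- The sum of a local term over the places outside `T`. -/
noncomputable def osum (T : Finset (AbsoluteValue k ℝ)) (f : AbsoluteValue k ℝ → ℝ) : ℝ :=
  gsum fun v => if v ∈ T then 0 else f v

open Classical in
/-- The sum of a local term over the places in `T`. -/
noncomputable def isum (T : Finset (AbsoluteValue k ℝ)) (f : AbsoluteValue k ℝ → ℝ) : ℝ :=
  gsum fun v => if v ∈ T then f v else 0

/-- The zeros and poles outside `T`. -/
noncomputable def df (T : Finset (AbsoluteValue k ℝ)) (u : Fin s → k) : ℝ :=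
  osum T fun v => ∑ j, |Real.log (v (u j))|

variable [Fintype ι]

/-- `ψ ^ j (P)` is close to `Q`; `u`, `w` are the torus parts of `P`, `Q`. -/
def Close {B : GV k (SI ι s)} (T : Finset (AbsoluteValue k ℝ)) (θ : ℝ) (j : ℕ) (P Q : B.Pt k)
    (u w : Fin s → k) : Prop :=
  2 * (logHeight (hat Q.co) + 4 ^ j * logHeight (hat P.co)) ≤
      logHeight (hat (Q + B.ps^[j] P).co) + θ * GV.ht Q ∧
    isum T (fun v => ∑ t, max (Real.log (v (w t))) (4 ^ j * Real.log (v (u t)))) ≤ θ * GV.ht Q ∧
    GV.ht Q ≤ 2 * (4 ^ j * GV.ht P) ∧ 4 ^ j * GV.ht P ≤ 2 * GV.ht Q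

/-- The two kinds of approximation, at places outside `T`. -/
def BadT {g : ℕ} (T : Finset (AbsoluteValue k ℝ)) (md : Option (AbsoluteValue k ℝ)) (e : ℕ)
    (η : ℝ) (u : Fin (g + 1) → MvPolynomial ι k) (x : ι → k) : Prop :=
  match md with
  | none => ![eval x (u 0), eval x (u 1)] ≠ 0 ∧ η * logHeight x ≤ osum T fun v =>
      e * Real.log (nm v x) - Real.log (nm v ![eval x (u 0), eval x (u 1)])
  | some v => v ∉ T ∧ BadR v e η (u 0) x

/-- The height of a point of the product. -/
noncomputable def hp {A : AV k ι} (P : A.Pt k) (u : Fin s → k) : ℝ :=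
  AV.ht P + ∑ j, logHeight₁ (u j)

end torus

/-- The point `Y` is the germ of the family `y`. -/
def GV.IsGerm {α k ι : Type} [Field k] (U : Ultrafilter α) {A : GV k ι} (Y : A.Pt (Up U k))
    (y : α → A.Pt k) : Prop :=
  GV.Rep Y fun a => germ U fun n => (y n).co a

/-- The forms `g j` cut out a set of dimension at most `n - 2` in the product of the variety of `I`
and the torus. -/
def Cod2 {K ι J : Type} [Field K] {s : ℕ} (I : Ideal (MvPolynomial ι K))
    (g : J → MvPolynomial (ι ⊕ Fin s) K) (n : ℕ) : Prop :=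
  ∀ (F : Type) [Field F] [Algebra K F] (w : ι → F) (z : Fin s → F), w ≠ 0 →
    (∀ f ∈ I, aeval w f = 0) → (∀ t, z t ≠ 0) → (∀ j, aeval (Sum.elim w z) (g j) = 0) →
    td K (rat w ∪ Set.range z) + 2 ≤ n

/-- The basis of the tangent space of the product. -/
def prs {k ι : Type} [Field k] {g : ℕ} (s : ℕ) (o : ι → k) (σ : Fin g → ι → k) :
    Fin (g + s) → SI ι s → k :=
  Fin.addCases (fun l a => σ l a.1) fun j a => if a.2 j then o a.1 else 0

/-- A family of numbers that is `O (H)`. -/
def Bo {α : Type} (U : Ultrafilter α) (H f : α → ℝ) : Prop := ∃ C : ℝ, ∀ᶠ n in U, f n ≤ C * H n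

end Pool.Agent.Lib.MP_8865d3_nt.Sv
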